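import Pool.Agent.LocH.Fld

/-! LH-F2: the derivatives `pa v c`, `pt c` of the entries `a v c` and of the coordinates `t c`.

Everything follows from Fld.lean by unfolding `a`, `t`, `pa`, `pt` (`split_ifs`, `dd_X`, `Sum.inl_injective`, `Sum.inl_ne_inr`). -/

set_option autoImplicit false

open Finset

namespace Pool.Agent.LocH.Sub

variable {X Ω : Type} [Fintype X] [DecidableEq X] [Fintype Ω] [DecidableEq Ω] (S : Sub X Ω)

theorem a_zero {v : X} {c : Ω} (h : c ∉ S.car v) : S.a v c = 0 := by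
  unfold a
  rw [dif_neg h]

theorem a_ne {v : X} {c : Ω} (h : c ∈ S.car v) : S.a v c ≠ 0 := by
  unfold a
  rw [dif_pos h]
  intro h1
  rw [← map_zero (algebraMap (MvPolynomial S.Ix (ZMod 2)) (FF S.Ix))] at h1
  exact MvPolynomial.X_ne_zero _ (toF_inj h1)

theorem pt_a (c : Ω) (v : X) (c' : Ω) : S.pt c (S.a v c') = 0 := by
  unfold pt a
  by_cases h : c' ∈ S.car v
  · rw [dif_pos h, dd_X, if_neg Sum.inr_ne_inl]
  · rw [dif_neg h, dd_zero]

theorem pt_t (c c' : Ω) : S.pt c (S.t c') = if c = c' then 1 else 0 := by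
  unfold pt t
  rw [dd_X]
  exact if_congr Sum.inr_injective.eq_iff rfl rfl

theorem pa_t (v : X) (c c' : Ω) : S.pa v c (S.t c') = 0 := by
  unfold pa t
  by_cases h : c ∈ S.car v
  · rw [dif_pos h, dd_X, if_neg Sum.inl_ne_inr]
  · rw [dif_neg h]

theorem pa_a {v : X} {c : Ω} (h : c ∈ S.car v) (v' : X) (c' : Ω) :
    S.pa v c (S.a v' c') = if v = v' ∧ c = c' then 1 else 0 := by
  unfold pa a
  rw [dif_pos h]
  by_cases h' : c' ∈ S.car v'
  · rw [dif_pos h', dd_X]
    refine if_congr ?_ rfl rfl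
    rw [Sum.inl.injEq, Subtype.mk.injEq, Prod.mk.injEq]
  · rw [dif_neg h', dd_zero, if_neg]
    rintro ⟨rfl, rfl⟩
    exact h' h

theorem pt_add (c : Ω) (x y : S.K) : S.pt c (x + y) = S.pt c x + S.pt c y := by
  exact dd_add _ x y

theorem pt_mul (c : Ω) (x y : S.K) : S.pt c (x * y) = x * S.pt c y + y * S.pt c x := by
  exact dd_mul _ x y

theorem pt_zero (c : Ω) : S.pt c 0 = 0 := by
  exact dd_zero _

theorem pt_one (c : Ω) : S.pt c 1 = 0 := by
  exact dd_one _

theorem pt_sq_mul (c : Ω) (x y : S.K) : S.pt c (x ^ 2 * y) = x ^ 2 * S.pt c y := by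
  exact dd_sq_mul _ x y

theorem pt_inv (c : Ω) (x : S.K) : S.pt c x⁻¹ = S.pt c x / x ^ 2 := by
  exact dd_inv _ x

theorem pt_sum {κ : Type} (c : Ω) (s : Finset κ) (f : κ → S.K) :
    S.pt c (∑ k ∈ s, f k) = ∑ k ∈ s, S.pt c (f k) := by
  exact dd_sum _ s f

theorem pt_prod {κ : Type} [DecidableEq κ] (c : Ω) (s : Finset κ) (f : κ → S.K) :
    S.pt c (∏ k ∈ s, f k) = ∑ k ∈ s, S.pt c (f k) * ∏ j ∈ s.erase k, f j := by
  exact dd_prod _ s f

theorem pa_add (v : X) (c : Ω) (x y : S.K) : S.pa v c (x + y) = S.pa v c x + S.pa v c y := by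
  unfold pa
  by_cases h : c ∈ S.car v
  · simp only [dif_pos h]
    exact dd_add _ x y
  · simp only [dif_neg h, add_zero]

theorem pa_mul (v : X) (c : Ω) (x y : S.K) :
    S.pa v c (x * y) = x * S.pa v c y + y * S.pa v c x := by
  unfold pa
  by_cases h : c ∈ S.car v
  · simp only [dif_pos h]
    exact dd_mul _ x y
  · simp only [dif_neg h, mul_zero, add_zero]

theorem pa_zero (v : X) (c : Ω) : S.pa v c 0 = 0 := by
  unfold pa
  by_cases h : c ∈ S.car v
  · rw [dif_pos h]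
    exact dd_zero _
  · rw [dif_neg h]

theorem pa_one (v : X) (c : Ω) : S.pa v c 1 = 0 := by
  unfold pa
  by_cases h : c ∈ S.car v
  · rw [dif_pos h]
    exact dd_one _
  · rw [dif_neg h]

theorem pa_sq_mul (v : X) (c : Ω) (x y : S.K) : S.pa v c (x ^ 2 * y) = x ^ 2 * S.pa v c y := by
  unfold pa
  by_cases h : c ∈ S.car v
  · simp only [dif_pos h]
    exact dd_sq_mul _ x y
  · simp only [dif_neg h, mul_zero]

theorem pa_inv (v : X) (c : Ω) (x : S.K) : S.pa v c x⁻¹ = S.pa v c x / x ^ 2 := by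
  unfold pa
  by_cases h : c ∈ S.car v
  · simp only [dif_pos h]
    exact dd_inv _ x
  · simp only [dif_neg h, zero_div]

theorem pa_sum {κ : Type} (v : X) (c : Ω) (s : Finset κ) (f : κ → S.K) :
    S.pa v c (∑ k ∈ s, f k) = ∑ k ∈ s, S.pa v c (f k) := by
  unfold pa
  by_cases h : c ∈ S.car v
  · simp only [dif_pos h]
    exact dd_sum _ s f
  · simp only [dif_neg h, Finset.sum_const_zero]

theorem pa_prod {κ : Type} [DecidableEq κ] (v : X) (c : Ω) (s : Finset κ) (f : κ → S.K) :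
    S.pa v c (∏ k ∈ s, f k) = ∑ k ∈ s, S.pa v c (f k) * ∏ j ∈ s.erase k, f j := by
  unfold pa
  by_cases h : c ∈ S.car v
  · simp only [dif_pos h]
    exact dd_prod _ s f
  · simp only [dif_neg h, zero_mul, Finset.sum_const_zero]

theorem pt_comm (c c' : Ω) (x : S.K) : S.pt c (S.pt c' x) = S.pt c' (S.pt c x) := by
  exact dd_comm _ _ x

theorem pa_comm (v v' : X) (c c' : Ω) (x : S.K) :
    S.pa v c (S.pa v' c' x) = S.pa v' c' (S.pa v c x) := by
  by_cases h : c ∈ S.car v <;> by_cases h' : c' ∈ S.car v'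
  · have e1 : ∀ y, S.pa v c y = dd (Sum.inl ⟨(v, c), h⟩) y := fun y => dif_pos h
    have e2 : ∀ y, S.pa v' c' y = dd (Sum.inl ⟨(v', c'), h'⟩) y := fun y => dif_pos h'
    rw [e2, e1, e1, e2]
    exact dd_comm _ _ x
  · have e2 : ∀ y, S.pa v' c' y = 0 := fun y => dif_neg h'
    rw [e2, e2, pa_zero]
  · have e1 : ∀ y, S.pa v c y = 0 := fun y => dif_neg h
    rw [e1, e1, pa_zero]
  · have e1 : ∀ y, S.pa v c y = 0 := fun y => dif_neg h
    rw [e1, e1, pa_zero]

theorem pa_pt (v : X) (c c' : Ω) (x : S.K) : S.pa v c (S.pt c' x) = S.pt c' (S.pa v c x) := by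
  by_cases h : c ∈ S.car v
  · have e1 : ∀ y, S.pa v c y = dd (Sum.inl ⟨(v, c), h⟩) y := fun y => dif_pos h
    rw [e1, e1]
    exact dd_comm _ _ x
  · have e1 : ∀ y, S.pa v c y = 0 := fun y => dif_neg h
    rw [e1, e1, pt_zero]

/-- Induction on the list. -/
theorem DI_add (i : Ω → X) (l : List Ω) (x y : S.K) :
    S.DI i l (x + y) = S.DI i l x + S.DI i l y := by
  induction l with
  | nil => rfl
  | cons c l ih =>
    change S.pa (i c) c (S.DI i l (x + y)) = S.pa (i c) c (S.DI i l x) + S.pa (i c) c (S.DI i l y)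
    rw [ih, pa_add]

theorem DI_zero (i : Ω → X) (l : List Ω) : S.DI i l 0 = 0 := by
  induction l with
  | nil => rfl
  | cons c l ih =>
    change S.pa (i c) c (S.DI i l 0) = 0
    rw [ih, pa_zero]

theorem DI_sum {κ : Type} (i : Ω → X) (l : List Ω) (s : Finset κ) (f : κ → S.K) :
    S.DI i l (∑ k ∈ s, f k) = ∑ k ∈ s, S.DI i l (f k) := by
  induction l with
  | nil => rfl
  | cons c l ih =>
    change S.pa (i c) c (S.DI i l (∑ k ∈ s, f k)) = ∑ k ∈ s, S.pa (i c) c (S.DI i l (f k))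
    rw [ih, pa_sum]

theorem DI_sq_mul (i : Ω → X) (l : List Ω) (x y : S.K) :
    S.DI i l (x ^ 2 * y) = x ^ 2 * S.DI i l y := by
  induction l with
  | nil => rfl
  | cons c l ih =>
    change S.pa (i c) c (S.DI i l (x ^ 2 * y)) = x ^ 2 * S.pa (i c) c (S.DI i l y)
    rw [ih, pa_sq_mul]

theorem DI_pa (i : Ω → X) (l : List Ω) (v : X) (c : Ω) (x : S.K) :
    S.pa v c (S.DI i l x) = S.DI i l (S.pa v c x) := by
  induction l with
  | nil => rfl
  | cons c' l ih =>
    change S.pa v c (S.pa (i c') c' (S.DI i l x)) = S.pa (i c') c' (S.DI i l (S.pa v c x))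
    rw [pa_comm, ih]

theorem PT_sq_mul (l : List Ω) (x y : S.K) : S.PT l (x ^ 2 * y) = x ^ 2 * S.PT l y := by
  induction l with
  | nil => rfl
  | cons c l ih =>
    change S.pt c (S.PT l (x ^ 2 * y)) = x ^ 2 * S.pt c (S.PT l y)
    rw [ih, pt_sq_mul]

theorem PT_pa (l : List Ω) (v : X) (c : Ω) (x : S.K) :
    S.pa v c (S.PT l x) = S.PT l (S.pa v c x) := by
  induction l with
  | nil => rfl
  | cons c' l ih =>
    change S.pa v c (S.pt c' (S.PT l x)) = S.pt c' (S.PT l (S.pa v c x))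
    rw [pa_pt, ih]

end Pool.Agent.LocH.Sub
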