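import Pool.Agent.LocH.QD

/-! LH-F8: the full derivative in the coordinates `t` of a Laurent monomial. -/

set_option autoImplicit false

open Finset

namespace Pool.Agent.LocH.Sub

variable {X Ω : Type} [Fintype X] [DecidableEq X] [Fintype Ω] [DecidableEq Ω] (S : Sub X Ω)
  {W : Finset Ω} {σ : Finset X}

private theorem j3_term (hσ : σ ∈ S.fac W) {n : ℕ} (c : Ω) (l : Fin n → Ω) (g : Fin n → X)
    (s : Finset X) :
    S.pt c ((∏ j, S.pt (l j) (S.q σ (g j))) * ∏ v ∈ s, S.q σ v) =
      ∑ v ∈ s, (S.pt c (S.q σ v) * ∏ j, S.pt (l j) (S.q σ (g j))) *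
        ∏ u ∈ s.erase v, S.q σ u := by
  have h1 : S.pt c (∏ j, S.pt (l j) (S.q σ (g j))) = 0 := by
    rw [pt_prod]
    exact Finset.sum_eq_zero fun j _ => by rw [S.pt_pt_q hσ, zero_mul]
  rw [pt_mul, h1, mul_zero, add_zero, pt_prod, Finset.mul_sum]
  exact Finset.sum_congr rfl fun v _ => by ring

/-- The derivatives of a product of different coordinates.
PROOF. Induction on `l` (for all `s`): the `q σ v` are linear in `t`: `pt c (pt c' (q σ v)) = 0` (`pt_pt_q`). `PT (c :: l) = pt c ∘ PT l`, or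
with `pt_comm` `PT l ∘ pt c`: `pt c (∏ v ∈ s, q v) = ∑ v ∈ s, pt c (q v) * ∏ u ∈ s.erase v, q u` (`pt_prod`), and `pt c (q v)` is killed by all `pt c'`, so it is a
constant for `PT l`. The sum is over the injective functions `g` from the places of `l` to `s`; split it according to the value at the first place. -/
theorem PT_prod (hσ : σ ∈ S.fac W) (l : List Ω) (s : Finset X) (hs : s ⊆ σ) :
    S.PT l (∏ v ∈ s, S.q σ v) =
      ∑ g ∈ (univ : Finset (Fin l.length → X)).filter
          (fun g => Function.Injective g ∧ ∀ j, g j ∈ s),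
        (∏ j, S.pt (l.get j) (S.q σ (g j))) * ∏ v ∈ s \ univ.image g, S.q σ v := by
  induction l with
  | nil =>
    change ∏ v ∈ s, S.q σ v = _
    have h0 : (univ : Finset (Fin ([] : List Ω).length → X)).filter
        (fun g => Function.Injective g ∧ ∀ j, g j ∈ s) = {fun j => j.elim0} := by
      ext g
      simp only [mem_filter, mem_univ, true_and, mem_singleton]
      constructor
      · intro _
        funext j
        exact j.elim0
      · rintro rfl
        exact ⟨fun a => a.elim0, fun j => j.elim0⟩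
    rw [h0, Finset.sum_singleton]
    have h1 : (univ : Finset (Fin ([] : List Ω).length)) = ∅ := rfl
    rw [h1, Finset.image_empty, Finset.sdiff_empty, Finset.prod_empty, one_mul]
  | cons c l ih =>
    change S.pt c (S.PT l (∏ v ∈ s, S.q σ v)) = _
    rw [ih, pt_sum]
    simp only [S.j3_term hσ]
    rw [Finset.sum_sigma']
    refine Finset.sum_bij' (fun x _ => (Fin.cons x.2 x.1 : Fin (l.length + 1) → X))
      (fun g _ => ⟨fun j => g j.succ, g 0⟩) ?_ ?_ ?_ ?_ ?_
    · rintro ⟨g, v⟩ hx
      simp only [mem_sigma, mem_filter, mem_univ, true_and, mem_sdiff, mem_image,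
        not_exists] at hx
      obtain ⟨⟨hg, hgs⟩, hv, hvg⟩ := hx
      rw [mem_filter]
      refine ⟨mem_univ _, Fin.cons_injective_iff.2 ⟨?_, hg⟩, ?_⟩
      · rintro ⟨j, hj⟩
        exact hvg j hj
      · intro j
        refine Fin.cases ?_ (fun j => ?_) j
        · exact hv
        · exact hgs j
    · intro g hg
      rw [mem_filter] at hg
      obtain ⟨-, hg, hgs⟩ := hg
      simp only [mem_sigma, mem_filter, mem_univ, true_and, mem_sdiff, mem_image,
        not_exists]
      refine ⟨⟨fun a b h => ?_, fun j => hgs j.succ⟩, hgs 0, fun j hj => ?_⟩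
      · exact Fin.succ_injective _ (hg h)
      · exact Fin.succ_ne_zero j (hg hj)
    · rintro ⟨g, v⟩ _
      rfl
    · intro g _
      exact Fin.cons_self_tail g
    · rintro ⟨g, v⟩ hx
      have h1 : (s \ univ.image g).erase v =
          s \ univ.image (Fin.cons v g : Fin (l.length + 1) → X) := by
        ext u
        simp only [mem_erase, mem_sdiff, mem_image, mem_univ, true_and, not_exists]
        constructor
        · rintro ⟨h1, h2, h3⟩
          refine ⟨h2, fun j => ?_⟩
          refine Fin.cases ?_ (fun j => ?_) j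
          · exact fun h => h1 h.symm
          · exact h3 j
        · rintro ⟨h1, h2⟩
          exact ⟨fun h => h2 0 h.symm, h1, fun j => h2 j.succ⟩
      rw [h1]
      congr 1
      exact (Fin.prod_univ_succ (fun j : Fin (l.length + 1) =>
        S.pt ((c :: l).get j) (S.q σ ((Fin.cons v g : Fin (l.length + 1) → X) j)))).symm

/-- PROOF. `PT_prod`: `s = σ` and `l` enumerates `W`, so the functions `g` are the equivalences, and the sum is that of `perm_q`. -/
theorem PT_full (hσ : σ ∈ S.fac W) (l : List Ω) (hl : l.Nodup) (hlW : l.toFinset = W) :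
    S.PT l (∏ v ∈ σ, S.q σ v) = (S.dA σ)⁻¹ := by
  obtain ⟨-, hcr, hcard⟩ := S.mem_fac.1 hσ
  have hlen : l.length = σ.card := by
    rw [hcard, ← hlW, List.toFinset_card_of_nodup hl]
  have hmem : ∀ c, c ∈ l ↔ c ∈ S.cr σ := by
    intro c
    rw [hcr, ← hlW, List.mem_toFinset]
  obtain ⟨el, hel⟩ : ∃ el : Fin l.length ≃ {c // c ∈ S.cr σ}, ∀ j, (el j : Ω) = l.get j := by
    refine ⟨(List.Nodup.getEquiv l hl).trans (Equiv.subtypeEquivRight hmem), fun j => ?_⟩
    rfl
  rw [S.PT_prod hσ l σ (Finset.Subset.refl σ), ← S.perm_q hσ]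
  symm
  refine Finset.sum_bij (fun h _ => fun j => ((h.symm (el j) : {v // v ∈ σ}) : X)) ?_ ?_ ?_ ?_
  · intro h _
    rw [mem_filter]
    refine ⟨mem_univ _, fun a b hab => ?_, fun j => (h.symm (el j)).2⟩
    exact el.injective (h.symm.injective (Subtype.ext hab))
  · intro h _ h' _ heq
    have h1 : h.symm = h'.symm := by
      ext c
      have h2 := congrFun heq (el.symm c)
      simp only [Equiv.apply_symm_apply] at h2
      exact h2
    rw [← Equiv.symm_symm h, h1, Equiv.symm_symm]
  · intro g hg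
    rw [mem_filter] at hg
    obtain ⟨-, hg, hgs⟩ := hg
    have hb : Function.Bijective (fun j => (⟨g j, hgs j⟩ : {v // v ∈ σ})) := by
      rw [Fintype.bijective_iff_injective_and_card]
      refine ⟨fun a b hab => hg (congrArg Subtype.val hab), ?_⟩
      rw [Fintype.card_fin, Fintype.card_coe, hlen]
    refine ⟨(Equiv.ofBijective _ hb).symm.trans el, mem_univ _, ?_⟩
    funext j
    simp
  · intro h _
    have hinj : Function.Injective (fun j => ((h.symm (el j) : {v // v ∈ σ}) : X)) :=
      fun a b hab => el.injective (h.symm.injective (Subtype.ext hab))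
    have h1 : σ \ univ.image (fun j => ((h.symm (el j) : {v // v ∈ σ}) : X)) = ∅ := by
      rw [Finset.sdiff_eq_empty_iff_subset]
      intro v hv
      rw [mem_image]
      exact ⟨el.symm (h ⟨v, hv⟩), mem_univ _, by simp⟩
    rw [h1, Finset.prod_empty, mul_one]
    refine (Fintype.prod_equiv (el.trans h.symm) _ _ fun j => ?_).symm
    rw [← hel]
    simp

/-- PROOF. `PT_prod`: there is no injective `g` because `s.card < W.card = l.length`. -/
theorem PT_less (hσ : σ ∈ S.fac W) (l : List Ω) (hl : l.Nodup) (hlW : l.toFinset = W)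
    {s : Finset X} (hs : s ⊂ σ) : S.PT l (∏ v ∈ s, S.q σ v) = 0 := by
  obtain ⟨-, hcr, hcard⟩ := S.mem_fac.1 hσ
  have hlen : l.length = σ.card := by
    rw [hcard, ← hlW, List.toFinset_card_of_nodup hl]
  rw [S.PT_prod hσ l s hs.1]
  refine Finset.sum_eq_zero fun g hg => ?_
  exfalso
  rw [mem_filter] at hg
  obtain ⟨-, hg, hgs⟩ := hg
  have h1 : (univ : Finset (Fin l.length)).card ≤ s.card :=
    Finset.card_le_card_of_injOn g (fun j _ => hgs j) (fun a _ b _ h => hg h)
  rw [Finset.card_univ, Fintype.card_fin, hlen] at h1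
  exact absurd (Finset.card_lt_card hs) (not_lt.2 h1)

/-- PROOF. `lm σ k = (∏ q ^ ((k v - 1) / 2)) ^ 2 * ∏ v ∈ σ, q σ v` (`q_ne`, `k v = 2 * ((k v - 1) / 2) + 1`), `PT_sq_mul`, `PT_full`. -/
theorem PT_odd (hσ : σ ∈ S.fac W) (l : List Ω) (hl : l.Nodup) (hlW : l.toFinset = W)
    (k : X → ℤ) (hk : ∀ v ∈ σ, Odd (k v)) :
    S.PT l (S.lm σ k) = (S.lm σ fun v => (k v - 1) / 2) ^ 2 / S.dA σ := by
  have h1 : S.lm σ k = (S.lm σ fun v => (k v - 1) / 2) ^ 2 * ∏ v ∈ σ, S.q σ v := by
    unfold lm
    rw [← Finset.prod_pow, ← Finset.prod_mul_distrib]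
    refine Finset.prod_congr rfl fun v hv => ?_
    have hq := S.q_ne hσ hv
    obtain ⟨m, hm⟩ := hk v hv
    have e1 : (k v - 1) / 2 = m := by omega
    simp only [e1]
    rw [hm, zpow_add₀ hq, zpow_one, zpow_mul']
    rfl
  rw [h1, PT_sq_mul, S.PT_full hσ l hl hlW, div_eq_mul_inv]

/-- PROOF. `lm σ k = (∏ q ^ (k v / 2)) ^ 2 * ∏ v ∈ s, q σ v` with `s` the set of the `v ∈ σ` with odd `k v`, `PT_sq_mul`, `PT_less`. -/
theorem PT_even (hσ : σ ∈ S.fac W) (l : List Ω) (hl : l.Nodup) (hlW : l.toFinset = W)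
    (k : X → ℤ) {v : X} (hv : v ∈ σ) (hk : ¬ Odd (k v)) : S.PT l (S.lm σ k) = 0 := by
  classical
  have h1 : S.lm σ k = (S.lm σ fun v => k v / 2) ^ 2 *
      ∏ v ∈ σ.filter (fun v => Odd (k v)), S.q σ v := by
    unfold lm
    rw [Finset.prod_filter, ← Finset.prod_pow, ← Finset.prod_mul_distrib]
    refine Finset.prod_congr rfl fun v hv => ?_
    have hq := S.q_ne hσ hv
    by_cases ho : Odd (k v)
    · rw [if_pos ho]
      obtain ⟨m, hm⟩ := ho
      have e1 : k v / 2 = m := by omega
      simp only [e1]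
      rw [hm, zpow_add₀ hq, zpow_one, zpow_mul']
      rfl
    · rw [if_neg ho, mul_one]
      obtain ⟨m, hm⟩ := Int.not_odd_iff_even.1 ho
      have e1 : k v / 2 = m := by omega
      have e2 : k v = 2 * m := by omega
      simp only [e1]
      rw [e2, zpow_mul']
      rfl
  have hs : σ.filter (fun v => Odd (k v)) ⊂ σ := by
    rw [Finset.filter_ssubset]
    exact ⟨v, hv, hk⟩
  rw [h1, PT_sq_mul, S.PT_less hσ l hl hlW hs, mul_zero]

end Pool.Agent.LocH.Sub
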