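import Pool.Agent.LocH.DetA

/-! LH-R2: the trace: evaluation at the facets, the linear forms. -/

set_option autoImplicit false

open Finset

namespace Pool.Agent.LocH.Sub

variable {X Ω : Type} [Fintype X] [DecidableEq X] [Fintype Ω] [DecidableEq Ω] (S : Sub X Ω)
  {W : Finset Ω} {σ : Finset X}

theorem Tr_apply (W : Finset Ω) (f : S.T) :
    S.Tr W f = ∑ σ ∈ S.fac W, S.w σ * MvPolynomial.aeval (S.q σ) f := by
  simp only [Tr, LinearMap.sum_apply, LinearMap.smul_apply, AlgHom.toLinearMap_apply,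
    smul_eq_mul]

theorem w_ne (hσ : σ ∈ S.fac W) : S.w σ ≠ 0 := by
  unfold w
  exact inv_ne_zero (mul_ne_zero (S.dA_ne hσ)
    (Finset.prod_ne_zero_iff.2 fun v hv => S.q_ne hσ hv))

/-- A monomial whose support is not contained in `σ` has the value `0` (`q_out`), otherwise `∏ v ∈ σ, q σ v ^ m v`. -/
theorem ev_mon (σ : Finset X) (m : X →₀ ℕ) :
    MvPolynomial.aeval (S.q σ) (MvPolynomial.monomial m (1 : S.K)) =
      if m.support ⊆ σ then ∏ v ∈ σ, S.q σ v ^ m v else 0 := by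
  rw [MvPolynomial.aeval_monomial, map_one, one_mul]
  split_ifs with h
  · exact Finsupp.prod_of_support_subset m h _ fun v _ => pow_zero _
  · obtain ⟨v, hv, hv'⟩ := Finset.not_subset.1 h
    refine Finset.prod_eq_zero hv ?_
    beta_reduce
    rw [S.q_out hv']
    exact zero_pow (Finsupp.mem_support_iff.1 hv)

/-- PROOF. The support of a monomial of `f` is not a face of `Γ_W`, so it is not contained in the facet `σ` (`S.down`, `cr` is monotone); `ev_mon`. -/
theorem ev_I (hσ : σ ∈ S.fac W) {f : S.T} (hf : f ∈ S.I W) :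
    MvPolynomial.aeval (S.q σ) f = 0 := by
  obtain ⟨h1, h2, h3⟩ := (S.mem_fac).1 hσ
  rw [f.as_sum, map_sum]
  refine Finset.sum_eq_zero fun m hm => ?_
  have hm' : m.support ∉ S.fcs W := by
    have := ((MvPolynomial.mem_restrictSupport_iff S.K).1 hf) (Finset.mem_coe.2 hm)
    exact this
  have e : MvPolynomial.monomial m (MvPolynomial.coeff m f) =
      MvPolynomial.C (MvPolynomial.coeff m f) * MvPolynomial.monomial m (1 : S.K) := by
    rw [MvPolynomial.C_mul_monomial, mul_one]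
  rw [e, map_mul, S.ev_mon, if_neg, mul_zero]
  intro hs
  refine hm' (Finset.mem_filter.2 ⟨S.down σ h1 _ hs, ?_⟩)
  rw [← h2]
  exact Finset.biUnion_subset_biUnion_of_subset_left _ hs

theorem Tr_I {f : S.T} (hf : f ∈ S.I W) : S.Tr W f = 0 := by
  rw [S.Tr_apply]
  exact Finset.sum_eq_zero fun σ hσ => by rw [S.ev_I hσ hf, mul_zero]

/-- PROOF. `q_spec`. -/
theorem ev_th (hσ : σ ∈ S.fac W) {c : Ω} (hc : c ∈ W) :
    MvPolynomial.aeval (S.q σ) (S.th c) = S.t c := by
  rw [← S.q_spec hσ hc, th, map_sum]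
  refine Finset.sum_congr rfl fun v _ => ?_
  rw [map_mul, MvPolynomial.aeval_C, MvPolynomial.aeval_X]
  rfl

theorem Tr_th {c : Ω} (hc : c ∈ W) (f : S.T) : S.Tr W (S.th c * f) = S.t c * S.Tr W f := by
  rw [S.Tr_apply, S.Tr_apply, Finset.mul_sum]
  refine Finset.sum_congr rfl fun σ hσ => ?_
  rw [map_mul, S.ev_th hσ hc]
  ring

private theorem ev_fac' (hσ : σ ∈ S.fac W) {σ' : Finset X} (hσ' : σ' ∈ S.fac W) :
    MvPolynomial.aeval (S.q σ') (∏ v ∈ σ, (MvPolynomial.X v : S.T)) =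
      if σ' = σ then ∏ v ∈ σ, S.q σ v else 0 := by
  rw [map_prod]
  simp only [MvPolynomial.aeval_X]
  split_ifs with h
  · rw [h]
  · have : ¬ σ ⊆ σ' := by
      intro hs
      refine h (Finset.eq_of_subset_of_card_le hs ?_).symm
      rw [((S.mem_fac).1 hσ).2.2, ((S.mem_fac).1 hσ').2.2]
    obtain ⟨v, hv, hv'⟩ := Finset.not_subset.1 this
    exact Finset.prod_eq_zero hv (S.q_out hv')

/-- PROOF. The only facet of `Γ_W` containing `σ` is `σ` (all have `W.card` vertices); `ev_mon` for `∏ v ∈ σ, X v = monomial (∑ v ∈ σ, single v 1) 1`, the definition of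
`w`, `q_ne`. -/
theorem Tr_fac (hσ : σ ∈ S.fac W) : S.Tr W (∏ v ∈ σ, MvPolynomial.X v) = (S.dA σ)⁻¹ := by
  rw [S.Tr_apply, Finset.sum_eq_single_of_mem σ hσ]
  · rw [S.ev_fac' hσ hσ, if_pos rfl, w, mul_inv, mul_assoc, inv_mul_cancel₀, mul_one]
    exact Finset.prod_ne_zero_iff.2 fun v hv => S.q_ne hσ hv
  · intro σ' hσ' hne
    rw [S.ev_fac' hσ hσ', if_neg hne, mul_zero]

/-- The value at `σ'` of the monomial of `σ`, for facets `σ`, `σ'` of `Γ_W`. -/
theorem ev_fac (hσ : σ ∈ S.fac W) {σ' : Finset X} (hσ' : σ' ∈ S.fac W) :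
    MvPolynomial.aeval (S.q σ') (∏ v ∈ σ, (MvPolynomial.X v : S.T)) =
      if σ' = σ then ∏ v ∈ σ, S.q σ v else 0 :=
  S.ev_fac' hσ hσ'

/-- The functional that is `1` at `a v` and `0` at the other vertices of `σ`.
PROOF. `∑ c ∈ W, pt c (q σ v) * Tr W (th c * f) = (∑ c ∈ W, pt c (q σ v) * t c) * Tr W f = q σ v * Tr W f` (`Tr_th`, `q_eul`), and
`∑ c ∈ W, C (pt c (q σ v)) * th c = ∑ u, C (∑ c ∈ W, pt c (q σ v) * a u c) * X u`. -/
theorem Tr_om (hσ : σ ∈ S.fac W) {v : X} (hv : v ∈ σ) (f : S.T) :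
    S.q σ v * S.Tr W f =
      ∑ u, (∑ c ∈ W, S.pt c (S.q σ v) * S.a u c) * S.Tr W (MvPolynomial.X u * f) := by
  have e1 : ∀ c ∈ W, S.t c * S.Tr W f = ∑ u, S.a u c * S.Tr W (MvPolynomial.X u * f) := by
    intro c hc
    rw [← S.Tr_th hc, th, Finset.sum_mul, map_sum]
    refine Finset.sum_congr rfl fun u _ => ?_
    rw [mul_assoc, ← MvPolynomial.smul_eq_C_mul, map_smul, smul_eq_mul]
  calc S.q σ v * S.Tr W f = ∑ c ∈ W, S.pt c (S.q σ v) * (S.t c * S.Tr W f) := by
        rw [← S.q_eul hσ hv, Finset.sum_mul]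
        exact Finset.sum_congr rfl fun c _ => by rw [S.q_eul hσ hv]; ring
    _ = ∑ c ∈ W, ∑ u, S.pt c (S.q σ v) * (S.a u c * S.Tr W (MvPolynomial.X u * f)) := by
        refine Finset.sum_congr rfl fun c hc => ?_
        rw [e1 c hc, Finset.mul_sum]
    _ = _ := by
        rw [Finset.sum_comm]
        refine Finset.sum_congr rfl fun u _ => ?_
        rw [Finset.sum_mul]
        exact Finset.sum_congr rfl fun c _ => by ring

end Pool.Agent.LocH.Sub
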