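import Pool.Agent.LocH.J12
import Pool.Agent.LocH.J3
import Pool.Agent.LocH.TrB

/-! LH-I1: the identity of Papadakis, Petrotou, Karu and Xiao, relative to `W`. -/

set_option autoImplicit false

open Finset

namespace Pool.Agent.LocH.Sub

variable {X Ω : Type} [Fintype X] [DecidableEq X] [Fintype Ω] [DecidableEq Ω] (S : Sub X Ω)
  {W : Finset Ω}

/-- The contribution of a facet to the trace of a monomial: `lm σ (m v - 1) / dA σ` if `m.support ⊆ σ` (`ev_mon`, the definition of `w`, `q_ne`), otherwise `0`. -/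
theorem w_ev {σ : Finset X} (hσ : σ ∈ S.fac W) (m : X →₀ ℕ) :
    S.w σ * MvPolynomial.aeval (S.q σ) (MvPolynomial.monomial m (1 : S.K)) =
      if m.support ⊆ σ then S.lm σ (fun v => (m v : ℤ) - 1) / S.dA σ else 0 := by
  rw [ev_mon]
  by_cases hm : m.support ⊆ σ
  · rw [if_pos hm, if_pos hm, w, lm]
    have h1 : ∏ v ∈ σ, S.q σ v ^ ((m v : ℤ) - 1) =
        (∏ v ∈ σ, S.q σ v ^ m v) * (∏ v ∈ σ, S.q σ v)⁻¹ := by
      rw [← Finset.prod_inv_distrib, ← Finset.prod_mul_distrib]
      refine Finset.prod_congr rfl fun v hv => ?_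
      rw [zpow_sub_one₀ (S.q_ne hσ hv), zpow_natCast]
    rw [h1, mul_inv, div_eq_mul_inv]
    ring
  · rw [if_neg hm, if_neg hm, mul_zero]

omit [Fintype X] [Fintype Ω] [DecidableEq Ω] in
private theorem cnt_apply (i : Ω → X) (W : Finset Ω) (v : X) :
    (∑ c ∈ W, Finsupp.single (i c) (1 : ℕ)) v = (W.filter fun c => i c = v).card := by
  rw [Finsupp.finsetSum_apply, Finset.card_filter]
  refine Finset.sum_congr rfl fun c _ => ?_
  rw [Finsupp.single_apply]

private theorem DI_val (i : Ω → X) (hi : ∀ c ∈ W, c ∈ S.car (i c)) (l : List Ω) (hl : l.Nodup)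
    (hlW : l.toFinset = W) {σ : Finset X} (hσ : σ ∈ S.fac W) (hσi : ∀ c ∈ W, i c ∈ σ)
    (k : X → ℤ) :
    S.DI i l (S.lm σ k / S.dA σ) =
      S.PT l (S.lm σ fun v => k v + ((W.filter fun c => i c = v).card : ℤ)) / S.dA σ := by
  have hlm : ∀ c ∈ l, c ∈ W := by
    intro c hc
    rw [← hlW]
    exact List.mem_toFinset.2 hc
  rw [S.DI_lm hσ i l (fun c hc => ⟨hσi c (hlm c hc), hi c (hlm c hc)⟩)]
  congr 2
  rw [← List.prod_toFinset _ hl, hlW, lm, lm,
    ← Finset.prod_fiberwise_of_maps_to (s := W) (t := σ) (g := i) hσi,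
    ← Finset.prod_mul_distrib]
  refine Finset.prod_congr rfl fun v hv => ?_
  have h1 : ∏ c ∈ W.filter (fun c => i c = v), S.q σ (i c) =
      ∏ _c ∈ W.filter (fun c => i c = v), S.q σ v :=
    Finset.prod_congr rfl fun c hc => by rw [(Finset.mem_filter.1 hc).2]
  rw [h1, Finset.prod_const, zpow_add₀ (S.q_ne hσ hv), zpow_natCast, mul_comm]

/-- PROOF. Let `x = w σ * ev (monomial m 1)`. If `m.support` is not contained in `σ` then `x = 0`, and `n.support ⊇ m.support`, so the right side is `0`. If some `i c ∉ σ`,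
`c ∈ W`, then the left side is `0` (`DI_lm_out`) and `i c ∈ n.support`, so the right side is `0`. Otherwise `DI_lm` gives `PT l` of the Laurent monomial with the
exponents `k v = (m v - 1) + #{c ∈ W : i c = v} = 2 * n v - 1`, all odd, and `PT_odd`: `(lm σ (n v - 1)) ^ 2 / dA σ / dA σ`, which is the square of the
contribution of `n` (`w_ev`). -/
theorem pp_one (i : Ω → X) (hi : ∀ c ∈ W, c ∈ S.car (i c)) (l : List Ω) (hl : l.Nodup)
    (hlW : l.toFinset = W) {m n : X →₀ ℕ} (h : ∑ c ∈ W, Finsupp.single (i c) 1 + m = 2 • n)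
    {σ : Finset X} (hσ : σ ∈ S.fac W) :
    S.DI i l (S.w σ * MvPolynomial.aeval (S.q σ) (MvPolynomial.monomial m (1 : S.K))) =
      (S.w σ * MvPolynomial.aeval (S.q σ) (MvPolynomial.monomial n (1 : S.K))) ^ 2 := by
  have hv : ∀ v, (W.filter fun c => i c = v).card + m v = 2 * n v := by
    intro v
    have h1 := DFunLike.congr_fun h v
    rw [Finsupp.add_apply, cnt_apply, Finsupp.smul_apply, smul_eq_mul] at h1
    exact h1
  rw [S.w_ev hσ, S.w_ev hσ]
  by_cases hm : m.support ⊆ σ
  · by_cases hc : ∀ c ∈ W, i c ∈ σ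
    · have hn : n.support ⊆ σ := by
        intro v hvn
        by_contra hvσ
        have h1 : m v = 0 := by
          by_contra h2
          exact hvσ (hm (Finsupp.mem_support_iff.2 h2))
        have h2 : (W.filter fun c => i c = v).card = 0 := by
          rw [Finset.card_eq_zero, Finset.filter_eq_empty_iff]
          intro c hcW hcv
          exact hvσ (hcv ▸ hc c hcW)
        have h3 := hv v
        rw [h1, h2] at h3
        exact (Finsupp.mem_support_iff.1 hvn) (by omega)
      rw [if_pos hm, if_pos hn, DI_val S i hi l hl hlW hσ hc,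
        S.PT_odd hσ l hl hlW _ (fun v _ => ?_)]
      · have h4 : (fun v => ((m v : ℤ) - 1 + ((W.filter fun c => i c = v).card : ℤ) - 1) / 2) =
            fun v => (n v : ℤ) - 1 := by
          funext v
          have := hv v
          omega
        rw [h4, div_pow, div_div, sq (S.dA σ)]
      · have := hv v
        refine ⟨(n v : ℤ) - 1, ?_⟩
        omega
    · push Not at hc
      obtain ⟨c, hcW, hcσ⟩ := hc
      have hn : ¬ n.support ⊆ σ := by
        intro hn
        refine hcσ (hn (Finsupp.mem_support_iff.2 ?_))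
        have h1 : 0 < (W.filter fun c' => i c' = i c).card :=
          Finset.card_pos.2 ⟨c, Finset.mem_filter.2 ⟨hcW, rfl⟩⟩
        have := hv (i c)
        omega
      have hcl : c ∈ l := by
        rw [← List.mem_toFinset, hlW]
        exact hcW
      rw [if_pos hm, if_neg hn, S.DI_lm_out hσ i l hcl hcσ]
      simp
  · have hn : ¬ n.support ⊆ σ := by
      intro hn
      refine hm fun v hvm => hn (Finsupp.mem_support_iff.2 ?_)
      have h1 := Finsupp.mem_support_iff.1 hvm
      have := hv v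
      omega
    rw [if_neg hm, if_neg hn, S.DI_zero]
    simp

/-- PROOF. The same; now some `m v + #{c ∈ W : i c = v}` is odd; in the last case `v ∈ σ`, because outside `σ` both numbers are `0`; `PT_even`. -/
theorem pp_none (i : Ω → X) (hi : ∀ c ∈ W, c ∈ S.car (i c)) (l : List Ω) (hl : l.Nodup)
    (hlW : l.toFinset = W) {m : X →₀ ℕ}
    (h : ∀ n : X →₀ ℕ, ∑ c ∈ W, Finsupp.single (i c) 1 + m ≠ 2 • n)
    {σ : Finset X} (hσ : σ ∈ S.fac W) :
    S.DI i l (S.w σ * MvPolynomial.aeval (S.q σ) (MvPolynomial.monomial m (1 : S.K))) = 0 := by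
  have hex : ∃ v, ¬ Even ((W.filter fun c => i c = v).card + m v) := by
    by_contra hcon
    push Not at hcon
    refine h ((∑ c ∈ W, Finsupp.single (i c) 1 + m).mapRange (fun a => a / 2) rfl) ?_
    ext v
    rw [Finsupp.smul_apply, Finsupp.mapRange_apply, Finsupp.add_apply, cnt_apply, smul_eq_mul]
    obtain ⟨r, hr⟩ := hcon v
    omega
  rw [S.w_ev hσ]
  by_cases hm : m.support ⊆ σ
  · by_cases hc : ∀ c ∈ W, i c ∈ σ
    · obtain ⟨v, hv⟩ := hex
      have hvσ : v ∈ σ := by
        by_contra hvσ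
        have h1 : m v = 0 := by
          by_contra h2
          exact hvσ (hm (Finsupp.mem_support_iff.2 h2))
        have h2 : (W.filter fun c => i c = v).card = 0 := by
          rw [Finset.card_eq_zero, Finset.filter_eq_empty_iff]
          intro c hcW hcv
          exact hvσ (hcv ▸ hc c hcW)
        rw [h1, h2] at hv
        exact hv ⟨0, rfl⟩
      rw [if_pos hm, DI_val S i hi l hl hlW hσ hc, S.PT_even hσ l hl hlW _ hvσ ?_, zero_div]
      rintro ⟨r, hr⟩
      apply hv
      refine ⟨(r + 1).toNat, ?_⟩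
      omega
    · push Not at hc
      obtain ⟨c, hcW, hcσ⟩ := hc
      have hcl : c ∈ l := by
        rw [← List.mem_toFinset, hlW]
        exact hcW
      rw [if_pos hm, S.DI_lm_out hσ i l hcl hcσ]
  · rw [if_neg hm, S.DI_zero]

/-- PROOF. `Tr_apply`, `DI_sum`, `pp_one`, and the square of a sum is the sum of the squares (characteristic `2`, `sum_pow_char`). -/
theorem pp_sq (i : Ω → X) (hi : ∀ c ∈ W, c ∈ S.car (i c)) (l : List Ω) (hl : l.Nodup)
    (hlW : l.toFinset = W) {m n : X →₀ ℕ} (h : ∑ c ∈ W, Finsupp.single (i c) 1 + m = 2 • n) :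
    S.DI i l (S.Tr W (MvPolynomial.monomial m 1)) = S.Tr W (MvPolynomial.monomial n 1) ^ 2 := by
  rw [Tr_apply, Tr_apply, S.DI_sum, sum_pow_char 2]
  exact Finset.sum_congr rfl fun σ hσ => S.pp_one i hi l hl hlW h hσ

theorem pp_non (i : Ω → X) (hi : ∀ c ∈ W, c ∈ S.car (i c)) (l : List Ω) (hl : l.Nodup)
    (hlW : l.toFinset = W) {m : X →₀ ℕ}
    (h : ∀ n : X →₀ ℕ, ∑ c ∈ W, Finsupp.single (i c) 1 + m ≠ 2 • n) :
    S.DI i l (S.Tr W (MvPolynomial.monomial m 1)) = 0 := by
  rw [Tr_apply, S.DI_sum]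
  exact Finset.sum_eq_zero fun σ hσ => S.pp_none i hi l hl hlW h hσ

end Pool.Agent.LocH.Sub
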