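import Pool.Agent.LocH.Var

/-! LH-R3: the ideals `I W`, `J W U`, the sums `thm P A`; graded submodules. -/

set_option autoImplicit false

open Finset

namespace Pool.Agent.LocH.Sub

variable {X Ω : Type} [Fintype X] [DecidableEq X] [Fintype Ω] [DecidableEq Ω] (S : Sub X Ω)
  {W U : Finset Ω}

private theorem gd_ss {a b : X →₀ ℕ} : b.support ⊆ (a + b).support := by
  intro x hx
  rw [Finsupp.mem_support_iff] at hx ⊢
  rw [Finsupp.add_apply]
  omega

private theorem gd_fcs {F G : Finset X} (h : G ⊆ F) (hF : F ∈ S.fcs W) :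
    G ∈ S.fcs W ∧ S.cr G ⊆ S.cr F := by
  have h1 : S.cr G ⊆ S.cr F := Finset.biUnion_subset_biUnion_of_subset_left _ h
  rw [fcs, mem_filter] at hF ⊢
  exact ⟨⟨S.down F hF.1 G h, h1.trans hF.2⟩, h1⟩

private theorem gd_up {s : Set (X →₀ ℕ)} (hs : ∀ a b, b ∈ s → a + b ∈ s) {f : S.T}
    (hf : f ∈ MvPolynomial.restrictSupport S.K s) (g : S.T) :
    g * f ∈ MvPolynomial.restrictSupport S.K s := by
  rw [MvPolynomial.mem_restrictSupport_iff] at hf ⊢
  intro m hm
  obtain ⟨a, ha, b, hb, rfl⟩ := Finset.mem_add.1 (MvPolynomial.support_mul _ _ hm)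
  exact hs a b (hf hb)

private theorem gd_grd (s : Set (X →₀ ℕ)) : S.Grd (MvPolynomial.restrictSupport S.K s) := by
  intro n f hf
  rw [MvPolynomial.mem_restrictSupport_iff] at hf ⊢
  intro m hm
  apply hf
  rw [mem_coe, MvPolynomial.mem_support_iff, MvPolynomial.coeff_homogeneousComponent] at hm
  rw [mem_coe, MvPolynomial.mem_support_iff]
  intro h
  rw [h, ite_self] at hm
  exact hm rfl

private theorem gd_th1 (c : Ω) : (S.th c).IsHomogeneous 1 := by
  refine MvPolynomial.IsHomogeneous.sum _ _ _ fun v _ => ?_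
  have h := (MvPolynomial.isHomogeneous_C X (S.a v c)).mul (MvPolynomial.isHomogeneous_X S.K v)
  rwa [zero_add] at h

/-- The component of a product. -/
private theorem gd_hc {p : S.T} {k : ℕ} (hp : p.IsHomogeneous k) (q : S.T) (n : ℕ) :
    MvPolynomial.homogeneousComponent (n + k) (p * q) =
      p * MvPolynomial.homogeneousComponent n q := by
  have h1 : p * q = ∑ i ∈ range (q.totalDegree + 1 + n),
      p * MvPolynomial.homogeneousComponent i q := by
    rw [← Finset.mul_sum]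
    congr 1
    conv_lhs => rw [← MvPolynomial.sum_homogeneousComponent q]
    refine Finset.sum_subset (Finset.range_mono (by omega)) fun i _ hi => ?_
    apply MvPolynomial.homogeneousComponent_eq_zero
    rw [mem_range] at hi
    omega
  rw [h1, map_sum, Finset.sum_eq_single n]
  · rw [MvPolynomial.homogeneousComponent_of_mem
      (hp.mul (MvPolynomial.homogeneousComponent_isHomogeneous n q)), if_pos (add_comm n k)]
  · intro i _ hi
    rw [MvPolynomial.homogeneousComponent_of_mem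
      (hp.mul (MvPolynomial.homogeneousComponent_isHomogeneous i q)), if_neg (by omega)]
  · intro h
    have h2 : MvPolynomial.homogeneousComponent n q = 0 :=
      MvPolynomial.homogeneousComponent_eq_zero _ _ (by rw [mem_range] at h; omega)
    rw [h2, mul_zero, map_zero]

private theorem gd_hc0 {p : S.T} (hp : p.IsHomogeneous 1) (q : S.T) :
    MvPolynomial.homogeneousComponent 0 (p * q) = 0 := by
  have h1 : p * q = ∑ i ∈ range (q.totalDegree + 1),
      p * MvPolynomial.homogeneousComponent i q := by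
    rw [← Finset.mul_sum, MvPolynomial.sum_homogeneousComponent]
  rw [h1, map_sum]
  refine Finset.sum_eq_zero fun i _ => ?_
  rw [MvPolynomial.homogeneousComponent_of_mem
    (hp.mul (MvPolynomial.homogeneousComponent_isHomogeneous i q)), if_neg (by omega)]

private theorem gd_prod (σ : Finset X) : (∏ v ∈ σ, MvPolynomial.X v : S.T) =
    MvPolynomial.monomial (∑ v ∈ σ, Finsupp.single v 1) 1 :=
  (MvPolynomial.monomial_sum_one σ fun v => Finsupp.single v 1).symm

private theorem gd_supp (σ : Finset X) :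
    (∑ v ∈ σ, Finsupp.single v 1 : X →₀ ℕ).support = σ := by
  ext x
  rw [Finsupp.mem_support_iff, Finsupp.finsetSum_apply]
  simp [Finsupp.single_apply]

theorem mem_I {f : S.T} : f ∈ S.I W ↔ ∀ m ∈ f.support, m.support ∉ S.fcs W := by
  exact Iff.rfl

theorem mem_J {f : S.T} :
    f ∈ S.J W U ↔ ∀ m ∈ f.support, m.support ∈ S.fcs W → U ⊆ S.cr m.support := by
  exact Iff.rfl

theorem I_le_J : S.I W ≤ S.J W U := by
  intro f hf
  rw [mem_I] at hf
  rw [mem_J]
  exact fun m hm h => absurd h (hf m hm)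

/-- PROOF. The support of a monomial of `g * f` contains the support of a monomial of `f` (`MvPolynomial.support_mul`); a subset of a face of `Γ_W` is a face of
`Γ_W`, and `cr` is monotone. -/
theorem mul_I {f : S.T} (hf : f ∈ S.I W) (g : S.T) : g * f ∈ S.I W := by
  refine S.gd_up (fun a b hb => ?_) hf g
  intro h
  exact hb (S.gd_fcs gd_ss h).1

theorem mul_J {f : S.T} (hf : f ∈ S.J W U) (g : S.T) : g * f ∈ S.J W U := by
  refine S.gd_up (fun a b hb => ?_) hf g
  intro h
  have h1 := S.gd_fcs (gd_ss (a := a) (b := b)) h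
  exact (hb h1.1).trans h1.2

theorem grd_I : S.Grd (S.I W) := by
  exact S.gd_grd _

theorem grd_J : S.Grd (S.J W U) := by
  exact S.gd_grd _

theorem grd_top : S.Grd ⊤ := by
  intro n f _
  exact Submodule.mem_top

theorem thm_mem {P : Finset Ω} {A : Submodule S.K S.T} {c : Ω} (hc : c ∈ P) {f : S.T}
    (hf : f ∈ A) : S.th c * f ∈ S.thm P A := by
  exact Submodule.mem_iSup_of_mem c (Submodule.mem_iSup_of_mem hc ⟨f, hf, rfl⟩)

theorem mem_thm {P : Finset Ω} {A : Submodule S.K S.T} {f : S.T} :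
    f ∈ S.thm P A ↔ ∃ g : Ω → S.T, (∀ c ∈ P, g c ∈ A) ∧ f = ∑ c ∈ P, S.th c * g c := by
  rw [thm, Submodule.mem_iSup_finset_iff_exists_sum]
  constructor
  · rintro ⟨μ, hμ⟩
    choose g hg1 hg2 using fun c => (μ c).2
    refine ⟨g, fun c _ => hg1 c, ?_⟩
    rw [← hμ]
    exact Finset.sum_congr rfl fun c _ => (hg2 c).symm
  · rintro ⟨g, hg, rfl⟩
    refine ⟨fun c => ⟨if c ∈ P then S.th c * g c else 0, ?_⟩, ?_⟩
    · split_ifs with h
      · exact ⟨g c, hg c h, rfl⟩
      · exact Submodule.zero_mem _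
    · exact Finset.sum_congr rfl fun c hc => if_pos hc

theorem thm_mul {P : Finset Ω} {A : Submodule S.K S.T} (hA : ∀ f ∈ A, ∀ g, g * f ∈ A) {f : S.T}
    (hf : f ∈ S.thm P A) (g : S.T) : g * f ∈ S.thm P A := by
  obtain ⟨h, hh, rfl⟩ := S.mem_thm.1 hf
  refine S.mem_thm.2 ⟨fun c => g * h c, fun c hc => hA _ (hh c hc) g, ?_⟩
  rw [Finset.mul_sum]
  exact Finset.sum_congr rfl fun c _ => mul_left_comm _ _ _

/-- `θ_c J ⊆ J`, so `I + θ J ≤ J`. -/
theorem IT_le_J : S.I W ⊔ S.thm W (S.J W W) ≤ S.J W W := by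
  refine sup_le S.I_le_J fun f hf => ?_
  obtain ⟨g, hg, rfl⟩ := S.mem_thm.1 hf
  exact Submodule.sum_mem _ fun c hc => S.mul_J (hg c hc) _

theorem th_H (c : Ω) {f : S.T} {n : ℕ} (hf : f ∈ S.H n) : S.th c * f ∈ S.H (n + 1) := by
  have h := (S.gd_th1 c).mul ((MvPolynomial.mem_homogeneousSubmodule _ _).1 hf)
  rw [add_comm] at h
  exact (MvPolynomial.mem_homogeneousSubmodule _ _).2 h

theorem mul_H {f g : S.T} {m n : ℕ} (hf : f ∈ S.H m) (hg : g ∈ S.H n) : f * g ∈ S.H (m + n) := by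
  exact (MvPolynomial.mem_homogeneousSubmodule _ _).2
    (((MvPolynomial.mem_homogeneousSubmodule _ _).1 hf).mul
      ((MvPolynomial.mem_homogeneousSubmodule _ _).1 hg))

/-- PROOF. `f = h + ∑ c ∈ P, th c * g c` with `h ∈ I W`, `g c ∈ A`; take the component of degree `n + 1`: `h` and `g c` are replaced by their components of degree
`n + 1` and `n` (`MvPolynomial.homogeneousComponent` of a product with a linear form; `grd_I`, `hA`). -/
theorem split_succ {P : Finset Ω} {A : Submodule S.K S.T} (hA : S.Grd A) {f : S.T} {n : ℕ}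
    (hf : f ∈ S.I W ⊔ S.thm P A) (hn : f ∈ S.H (n + 1)) :
    ∃ g : Ω → S.T, (∀ c ∈ P, g c ∈ A ∧ g c ∈ S.H n) ∧ f - ∑ c ∈ P, S.th c * g c ∈ S.I W := by
  obtain ⟨h, hh, k, hk, rfl⟩ := Submodule.mem_sup.1 hf
  obtain ⟨g, hg, rfl⟩ := S.mem_thm.1 hk
  refine ⟨fun c => MvPolynomial.homogeneousComponent n (g c), fun c hc => ⟨hA n _ (hg c hc),
    MvPolynomial.homogeneousComponent_mem n (g c)⟩, ?_⟩
  have h1 := MvPolynomial.homogeneousComponent_of_mem (m := n + 1) hn
  rw [if_pos rfl, map_add, map_sum,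
    Finset.sum_congr rfl fun c _ => S.gd_hc (S.gd_th1 c) (g c) n] at h1
  rw [← h1, add_sub_cancel_right]
  exact S.grd_I (n + 1) h hh

theorem split_zero {P : Finset Ω} {A : Submodule S.K S.T} (hA : S.Grd A) {f : S.T}
    (hf : f ∈ S.I W ⊔ S.thm P A) (hn : f ∈ S.H 0) : f ∈ S.I W := by
  obtain ⟨h, hh, k, hk, rfl⟩ := Submodule.mem_sup.1 hf
  obtain ⟨g, hg, rfl⟩ := S.mem_thm.1 hk
  have h1 := MvPolynomial.homogeneousComponent_of_mem (m := 0) hn
  rw [if_pos rfl, map_add, map_sum,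
    Finset.sum_congr rfl fun c _ => S.gd_hc0 (S.gd_th1 c) (g c), Finset.sum_const_zero,
    add_zero] at h1
  rw [← h1]
  exact S.grd_I 0 h hh

/-- The monomial of a facet is in `J W W`. -/
theorem fac_J {σ : Finset X} (hσ : σ ∈ S.fac W) : (∏ v ∈ σ, MvPolynomial.X v : S.T) ∈ S.J W W := by
  rw [fac, st, mem_filter] at hσ
  rw [mem_J]
  intro m hm _
  rw [gd_prod] at hm
  have h1 : m = ∑ v ∈ σ, Finsupp.single v 1 := by
    simpa using MvPolynomial.support_monomial_subset hm
  rw [h1, gd_supp, hσ.2.2.1]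

theorem fac_H {σ : Finset X} (hσ : σ ∈ S.fac W) :
    (∏ v ∈ σ, MvPolynomial.X v : S.T) ∈ S.H W.card := by
  rw [fac, st, mem_filter] at hσ
  refine (MvPolynomial.mem_homogeneousSubmodule _ _).2 ?_
  have h := MvPolynomial.IsHomogeneous.prod σ (fun v => (MvPolynomial.X v : S.T)) (fun _ => 1)
    fun v _ => MvPolynomial.isHomogeneous_X S.K v
  rwa [Finset.sum_const, smul_eq_mul, mul_one, hσ.2.2.2] at h

end Pool.Agent.LocH.Sub
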