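import Pool.Agent.LocH.TopC
import Pool.Agent.LocH.TrB
import Pool.Agent.LocH.Grd

/-! LH-R4: the trace vanishes on the interior ideal below the top degree. -/

set_option autoImplicit false

open Finset

namespace Pool.Agent.LocH.Sub

variable {X Ω : Type} [Fintype X] [DecidableEq X] [Fintype Ω] [DecidableEq Ω] (S : Sub X Ω)
  {W : Finset Ω}

private theorem supp_add (u : X) (m : X →₀ ℕ) :
    (Finsupp.single u 1 + m).support = insert u m.support := by
  ext x
  rw [Finsupp.mem_support_iff, Finset.mem_insert, Finsupp.mem_support_iff, Finsupp.add_apply,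
    Finsupp.single_apply]
  by_cases hx : u = x
  · simp [hx]
  · rw [if_neg hx, zero_add]
    constructor
    · exact Or.inr
    · rintro (h | h)
      · exact absurd h.symm hx
      · exact h

private theorem Tr_out {m : X →₀ ℕ} (hm : m.support ∉ S.fcs W) :
    S.Tr W (MvPolynomial.monomial m 1) = 0 := by
  refine S.Tr_I (S.mem_I.2 fun m' hm' => ?_)
  have h1 := MvPolynomial.support_monomial_subset hm'
  rw [Finset.mem_singleton.1 h1]
  exact hm

/-- the monomials with larger support -/
private theorem om_aux {m : X →₀ ℕ} {σ : Finset X} (hσ : σ ∈ S.fac W) (hG : m.support ⊆ σ)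
    {v : X} (hv : v ∈ σ)
    (H : ∀ u, u ∉ m.support → S.Tr W (MvPolynomial.monomial (Finsupp.single u 1 + m) 1) = 0) :
    S.q σ v * S.Tr W (MvPolynomial.monomial m 1) =
      S.Tr W (MvPolynomial.monomial (Finsupp.single v 1 + m) 1) := by
  have hX : ∀ u, (MvPolynomial.X u * MvPolynomial.monomial m 1 : S.T) =
      MvPolynomial.monomial (Finsupp.single u 1 + m) 1 := by
    intro u
    rw [MvPolynomial.X, MvPolynomial.monomial_mul, one_mul]
  rw [S.Tr_om hσ hv, Finset.sum_eq_single v]
  · rw [S.om_spec hσ hv hv, if_pos rfl, one_mul, hX]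
  · intro u _ huv
    rw [hX]
    by_cases hu : u ∈ m.support
    · rw [S.om_spec hσ (hG hu) hv, if_neg huv, zero_mul]
    · rw [H u hu, mul_zero]
  · intro h
    exact absurd (Finset.mem_univ v) h

private theorem cr_mono {F G : Finset X} (h : F ⊆ G) : S.cr F ⊆ S.cr G :=
  Finset.biUnion_subset_biUnion_of_subset_left _ h

private theorem prod_mon (G : Finset X) : (∏ v ∈ G, MvPolynomial.X v : S.T) =
    MvPolynomial.monomial (∑ v ∈ G, Finsupp.single v 1) 1 := by
  rw [MvPolynomial.monomial_sum_one]
  rfl

private theorem supp_ch (G : Finset X) :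
    (∑ v ∈ G, Finsupp.single v 1 : X →₀ ℕ).support = G := by
  ext x
  rw [Finsupp.mem_support_iff, Finsupp.finsetSum_apply]
  simp only [Finsupp.single_apply, Finset.sum_ite_eq', ne_eq, ite_eq_right_iff, one_ne_zero,
    imp_false, not_not]

/-- An interior ridge.
PROOF. By `ridge_two` the facets containing `G` are `insert v G` and `insert v' G`, `v ≠ v'`. `Tr_om` with `σ = insert v G`, `v` and `f = ∏ u ∈ G, X u`:
the coefficient of `u ∈ G` is `0` and that of `v` is `1` (`om_spec`), for `u ∉ {v, v'} ∪ G` the set `insert u G` is not a facet, so not in `Γ_W` (a face of `Γ_W`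
with `W.card` vertices and carrier `W` is a facet), and the trace is `0` (`Tr_I`). So with `Tr_fac` and `dA_swap` (the coefficient of `v'` is
`dA (insert v' G) / dA (insert v G)`) `q * Tr = 1 / dA (insert v G) + (dA (insert v' G) / dA (insert v G)) / dA (insert v' G) = 0`; `q_ne`. -/
theorem res_ridge (hT : S.Top S.K) {G : Finset X} {k : ℕ} (hG : G ∈ S.st W ∅ k)
    (hk : k + 1 = W.card) : S.Tr W (∏ v ∈ G, MvPolynomial.X v) = 0 := by
  obtain ⟨hG1, -, hG2, hG3⟩ := mem_st.1 hG
  obtain ⟨ρ, ρ', hne, hρ⟩ := Finset.card_eq_two.1 (ridge_two hT hG hk)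
  have hm : ∀ F, (F ∈ S.fac W ∧ G ⊆ F) ↔ (F = ρ ∨ F = ρ') := by
    intro F
    rw [← Finset.mem_filter, hρ, Finset.mem_insert, Finset.mem_singleton]
  have hex : ∀ F, F ∈ S.fac W → G ⊆ F → ∃ v, v ∉ G ∧ insert v G = F := by
    intro F h1 h2
    have h3 := (S.mem_fac.1 h1).2.2
    obtain ⟨v, hv, hv'⟩ := Finset.exists_eq_insert_iff.2 ⟨h2, by rw [hG3, h3, hk]⟩
    exact ⟨v, hv, hv'⟩
  obtain ⟨h1, h1'⟩ := (hm ρ).2 (Or.inl rfl)
  obtain ⟨h2, h2'⟩ := (hm ρ').2 (Or.inr rfl)
  obtain ⟨v, hv, rfl⟩ := hex ρ h1 h1'
  obtain ⟨v', hv', rfl⟩ := hex ρ' h2 h2'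
  have hvv : v' ≠ v := by
    rintro rfl
    exact hne rfl
  have hvm : v ∈ insert v G := Finset.mem_insert_self v G
  have key := S.Tr_om h1 hvm (∏ v ∈ G, MvPolynomial.X v)
  have hz : ∑ u ∈ (Finset.univ.erase v).erase v',
      (∑ c ∈ W, S.pt c (S.q (insert v G) v) * S.a u c) *
        S.Tr W (MvPolynomial.X u * ∏ v ∈ G, MvPolynomial.X v) = 0 := by
    refine Finset.sum_eq_zero ?_
    intro u hu
    obtain ⟨hu1, hu2⟩ := Finset.mem_erase.1 hu
    obtain ⟨hu2, -⟩ := Finset.mem_erase.1 hu2
    by_cases huG : u ∈ G
    · rw [S.om_spec h1 (Finset.mem_insert_of_mem huG) hvm, if_neg hu2, zero_mul]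
    · have h3 : S.Tr W (MvPolynomial.X u * ∏ v ∈ G, MvPolynomial.X v) = 0 := by
        rw [← Finset.prod_insert huG, prod_mon]
        refine S.Tr_out ?_
        rw [supp_ch]
        intro h4
        obtain ⟨h5, h6⟩ := mem_fcs.1 h4
        have h7 : S.cr (insert u G) = W := by
          refine Finset.Subset.antisymm h6 ?_
          rw [← hG2]
          exact S.cr_mono (Finset.subset_insert u G)
        have h8 : insert u G ∈ S.fac W :=
          S.mem_fac.2 ⟨h5, h7, by rw [Finset.card_insert_of_notMem huG, hG3, hk]⟩
        have h9 : u ∈ insert u G := Finset.mem_insert_self u G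
        rcases (hm _).1 ⟨h8, Finset.subset_insert u G⟩ with h10 | h10
        · rw [h10] at h9
          rcases Finset.mem_insert.1 h9 with h11 | h11
          · exact hu2 h11
          · exact huG h11
        · rw [h10] at h9
          rcases Finset.mem_insert.1 h9 with h11 | h11
          · exact hu1 h11
          · exact huG h11
      rw [h3, mul_zero]
  rw [← Finset.add_sum_erase _ _ (Finset.mem_univ v),
    ← Finset.add_sum_erase _ _ (Finset.mem_erase.2 ⟨hvv, Finset.mem_univ v'⟩),
    hz, add_zero, S.om_spec h1 hvm hvm, if_pos rfl, one_mul,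
    ← Finset.prod_insert hv, S.Tr_fac h1, ← Finset.prod_insert hv', S.Tr_fac h2] at key
  have e1 := S.dA_swap hv hv' h1 h2
  have n1 := S.dA_ne h1
  have n2 := S.dA_ne h2
  have e2 : (∑ c ∈ W, S.pt c (S.q (insert v G) v) * S.a v' c) =
      S.dA (insert v' G) * (S.dA (insert v G))⁻¹ := by
    rw [e1, mul_assoc, mul_inv_cancel₀ n1, mul_one]
  rw [e2, mul_comm (S.dA (insert v' G)), mul_assoc, mul_inv_cancel₀ n2, mul_one,
    add_self] at key
  exact (mul_eq_zero.1 key).resolve_left (S.q_ne h1 hvm)

private theorem deg_supp (m : X →₀ ℕ) : m.support.card ≤ m.degree := by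
  rw [Finsupp.degree, Finset.card_eq_sum_ones]
  exact Finset.sum_le_sum fun v hv => Nat.one_le_iff_ne_zero.2 (Finsupp.mem_support_iff.1 hv)

private theorem mon_ind (hT : S.Top S.K) : ∀ N : ℕ, ∀ m : X →₀ ℕ, m.support ∈ S.Gam →
    S.cr m.support = W → m.degree < W.card → W.card - m.support.card = N →
    S.Tr W (MvPolynomial.monomial m 1) = 0 := by
  intro N
  induction N using Nat.strong_induction_on with
  | _ N ihN =>
    have hd : ∀ d : ℕ, ∀ m : X →₀ ℕ, m.support ∈ S.Gam →
        S.cr m.support = W → m.degree < W.card → W.card - m.support.card = N → m.degree = d →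
        S.Tr W (MvPolynomial.monomial m 1) = 0 := by
      intro d
      induction d using Nat.strong_induction_on with
      | _ d ihd =>
        intro m hm hc hdeg hN hmd
        have hcard := deg_supp m
        -- larger supports
        have hbig : ∀ m' : X →₀ ℕ, m'.support = m.support → m'.degree + 1 < W.card →
            ∀ u, u ∉ m'.support →
            S.Tr W (MvPolynomial.monomial (Finsupp.single u 1 + m') 1) = 0 := by
          intro m' hs' hd' u hu
          by_cases h1 : (Finsupp.single u 1 + m').support ∈ S.fcs W
          · obtain ⟨h2, h3⟩ := mem_fcs.1 h1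
            rw [supp_add] at h2 h3
            have h4 : S.cr (insert u m'.support) = W := by
              refine Finset.Subset.antisymm h3 ?_
              rw [← hc, ← hs']
              exact S.cr_mono (Finset.subset_insert _ _)
            have h5 : (insert u m'.support).card = m'.support.card + 1 :=
              Finset.card_insert_of_notMem hu
            refine ihN (W.card - (insert u m'.support).card) ?_ _ (by rwa [supp_add])
              (by rwa [supp_add]) ?_ (by rw [supp_add])
            · rw [h5, hs']
              omega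
            · rw [map_add, Finsupp.degree_single]
              omega
          · exact S.Tr_out h1
        obtain ⟨σ, hσ, hGσ⟩ := exists_fac hT (mem_fcs.2 ⟨hm, hc.subset⟩)
        have hσc := (S.mem_fac.1 hσ).2.2
        by_cases hex : ∃ v, 2 ≤ m v
        · obtain ⟨v, hv⟩ := hex
          obtain ⟨m', hm'⟩ : ∃ m' : X →₀ ℕ, m = Finsupp.single v 1 + m' := by
            refine ⟨m - Finsupp.single v 1, ?_⟩
            rw [add_tsub_cancel_of_le]
            rw [Finsupp.single_le_iff]
            omega
          have hvm' : m' v ≠ 0 := by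
            rw [hm', Finsupp.add_apply, Finsupp.single_eq_same] at hv
            omega
          have hs : m'.support = m.support := by
            rw [hm', supp_add, Finset.insert_eq_of_mem (Finsupp.mem_support_iff.2 hvm')]
          have hdm : m.degree = 1 + m'.degree := by
            rw [hm', map_add, Finsupp.degree_single]
          have hvs : v ∈ σ := hGσ (by
            rw [← hs]
            exact Finsupp.mem_support_iff.2 hvm')
          have h1 := S.om_aux hσ (m := m') (by rw [hs]; exact hGσ) hvs
            (hbig m' hs (by omega))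
          rw [← hm'] at h1
          rw [← h1, ihd m'.degree (by omega) m' (by rw [hs]; exact hm) (by rw [hs]; exact hc)
            (by omega) (by rw [hs]; exact hN) rfl, mul_zero]
        · push Not at hex
          have h1 : m = ∑ v ∈ m.support, Finsupp.single v 1 := by
            ext x
            rw [Finsupp.finsetSum_apply]
            simp only [Finsupp.single_apply, Finset.sum_ite_eq']
            split_ifs with hx
            · have h2 := hex x
              have h3 := Finsupp.mem_support_iff.1 hx
              omega
            · exact Finsupp.notMem_support_iff.1 hx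
          have h2 : m.degree = m.support.card := by
            have h3 := congrArg Finsupp.degree h1
            rw [map_sum] at h3
            simp only [Finsupp.degree_single, Finset.sum_const, smul_eq_mul, mul_one] at h3
            exact h3
          by_cases h3 : m.support.card + 1 = W.card
          · have h4 := S.res_ridge hT (mem_st.2 ⟨hm, Finset.empty_subset _, hc, rfl⟩) h3
            rw [prod_mon, ← h1] at h4
            exact h4
          · obtain ⟨v, hv, hv'⟩ : ∃ v ∈ σ, v ∉ m.support := by
              by_contra hcon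
              push Not at hcon
              have h4 := Finset.card_le_card (show σ ⊆ m.support from hcon)
              omega
            have h5 := S.om_aux hσ hGσ hv (hbig m rfl (by omega))
            rw [hbig m rfl (by omega) v hv'] at h5
            exact (mul_eq_zero.1 h5).resolve_left (S.q_ne hσ hv)
    intro m hm hc hdeg hN
    exact hd m.degree m hm hc hdeg hN rfl

/-- PROOF. Let `G = m.support`. Induction on `W.card - G.card`, and for equal values on the degree. Let `σ ⊇ G` be a facet of `Γ_W` (`exists_fac`).
(1) `m = ∑ v ∈ G, single v 1` (all exponents are `1`) and `G.card + 1 = W.card`: `res_ridge`.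
(2) all exponents `1`, `G.card + 1 < W.card`: choose `v ∈ σ`, `v ∉ G`; `Tr_om` for `v`, `f = monomial m 1`: the coefficients of the `u ∈ G` are `0`; for `u ∉ G` the
monomial `X u * f` has the support `insert u G` and degree `m.degree + 1 < W.card`, so its trace is `0`: by induction if the support is in `Γ_W` (its carrier is
`W`), by `Tr_I` otherwise. So `q σ v * Tr = 0`.
(3) some exponent `m v ≥ 2`: `m = single v 1 + m'`, `m'.support = G`. `Tr_om` for `v ∈ σ`, `f = monomial m' 1`: the left side is `0` by induction (smaller degree); on the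
right the coefficient of `v` is `1`, those of the other `u ∈ G` are `0`, and for `u ∉ G` the trace of `X u * f` is `0` by induction (larger support, degree
`m.degree < W.card`) or `Tr_I`. So `Tr (X v * f) = 0`. -/
theorem res_mon (hT : S.Top S.K) {m : X →₀ ℕ} (hm : m.support ∈ S.Gam)
    (hc : S.cr m.support = W) (hd : m.degree < W.card) :
    S.Tr W (MvPolynomial.monomial m 1) = 0 :=
  S.mon_ind hT _ m hm hc hd rfl

/-- PROOF. `f` is a linear combination of monomials of degree `n`; those whose support is not in `Γ_W` have the trace `0` (`Tr_I`), the others have the carrier `W`. -/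
theorem res (hT : S.Top S.K) {n : ℕ} {f : S.T} (hf : f ∈ S.J W W) (hn : f ∈ S.H n)
    (h : n < W.card) : S.Tr W f = 0 := by
  rw [← MvPolynomial.support_sum_monomial_coeff f, map_sum]
  refine Finset.sum_eq_zero fun m hm => ?_
  have h1 : (MvPolynomial.monomial m (f.coeff m) : S.T) =
      f.coeff m • MvPolynomial.monomial m 1 := by
    rw [MvPolynomial.smul_monomial, smul_eq_mul, mul_one]
  rw [h1, map_smul]
  have h2 : S.Tr W (MvPolynomial.monomial m 1) = 0 := by
    by_cases h3 : m.support ∈ S.fcs W
    · obtain ⟨h4, h5⟩ := mem_fcs.1 h3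
      have h6 : m.degree = n := by
        by_contra hcon
        have h7 := ((MvPolynomial.mem_homogeneousSubmodule n f).1 hn).coeff_eq_zero hcon
        exact MvPolynomial.mem_support_iff.1 hm h7
      exact S.res_mon hT h4 (Finset.Subset.antisymm h5 (S.mem_J.1 hf m hm h3)) (by omega)
    · exact S.Tr_out h3
  rw [h2, smul_zero]

end Pool.Agent.LocH.Sub
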