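import Pool.Agent.LocH.GPer

/-!
# Definitions for the good monomials (P6 of `/team-store/LHV_proof.md`)

Everything is relative to a set `A` of coordinates.
-/

set_option autoImplicit false

open Finset

namespace Pool.Agent.LocH.Sub

variable {X Ω : Type} [Fintype X] [DecidableEq X] [Fintype Ω] [DecidableEq Ω] (S : Sub X Ω)

/-- The exponent of the squarefree monomial of a set. -/
noncomputable def ch (F : Finset X) : X →₀ ℕ := ∑ v ∈ F, Finsupp.single v 1

/-- The monomial with exponent `n`. -/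
noncomputable def mo (n : X →₀ ℕ) : S.T := MvPolynomial.monomial n 1

/-- The degree of the part of `n` in the vertices with carrier contained in `U`. -/
noncomputable def dgI (U : Finset Ω) (n : X →₀ ℕ) : ℕ := ∑ v ∈ univ.filter (fun v => S.car v ⊆ U), n v

/-- The excess of `n` at `U`, relative to `A`. -/
noncomputable def ex (A U : Finset Ω) (n : X →₀ ℕ) : ℤ :=
  2 * (S.dgI U n : ℤ) - U.card - (2 * (n.degree : ℤ) - A.card)

/-- The good monomials with support a face. -/
def Gd (A : Finset Ω) (n : X →₀ ℕ) : Prop := n.support ∈ S.fcs A ∧ ∀ U ⊆ A, S.ex A U n ≤ 0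

/-- The span of the good monomials of degree `n` with support a face. -/
noncomputable def GM (A : Finset Ω) (n : ℕ) : Submodule S.K S.T :=
  Submodule.span S.K {f | ∃ m : X →₀ ℕ, S.Gd A m ∧ m.degree = n ∧ f = S.mo m}

/-- The two kinds of good monomials that span the part of degree `A.card - 2`. -/
def GG (A : Finset Ω) (n : X →₀ ℕ) : Prop :=
  (∃ F ∈ S.st A ∅ (A.card - 2), n = ch F ∧ S.Gd A n) ∨
  ∃ (v : X) (R : Finset X) (Z : Finset Ω), Z ⊆ A ∧ Z.card = 4 ∧ R ∈ S.fac (A \ Z) ∧ v ∉ R ∧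
    Z ⊆ S.car v ∧ insert v R ∈ S.fcs A ∧ n = ch R + Finsupp.single v 2

/-- The span of the monomials of degree `A.card - 2` with no positive excess at the sets containing `c`. -/
noncomputable def XC (A : Finset Ω) (c : Ω) : Submodule S.K S.T :=
  Submodule.span S.K {f | ∃ m : X →₀ ℕ, m.support ∈ S.fcs A ∧ m.degree + 2 = A.card ∧
    (∀ U ⊆ A, c ∈ U → S.ex A U m ≤ 0) ∧ f = S.mo m}

/-- The subspace of LEMMA C in degree `A.card - 1`. -/
noncomputable def BC (A : Finset Ω) : Submodule S.K S.T :=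
  (S.GM A (A.card - 2)).map (LinearMap.mulLeft S.K (S.lam A)) ⊔
    (⨆ c ∈ A, (S.XC A c).map (LinearMap.mulLeft S.K (S.th c))) ⊔ S.I A

/-- The target in degree `A.card - 3`. -/
noncomputable def Y3 (A : Finset Ω) : Submodule S.K S.T :=
  S.GM A (A.card - 3) ⊔ S.I A ⊔ S.thm A ⊤ ⊔
    (S.J A A ⊓ S.H (A.card - 4)).map (LinearMap.mulLeft S.K (S.lam A))

end Pool.Agent.LocH.Sub
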