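import Pool.Agent.LocH.TrB
import Pool.Agent.LocH.Grd

/-! LH-R8: the values at the facets of a spanning family span everything. -/

set_option autoImplicit false

open Finset

namespace Pool.Agent.LocH.Sub

variable {X Ω : Type} [Fintype X] [DecidableEq X] [Fintype Ω] [DecidableEq Ω] (S : Sub X Ω)
  {W : Finset Ω}

/-- The values at the facets of `Γ_W`. -/
noncomputable def evs (W : Finset Ω) (f : S.T) : {σ // σ ∈ S.fac W} → S.K :=
  fun σ => MvPolynomial.aeval (S.q σ.1) f

/-- PROOF. Let `V` be the span of the `evs W (z j)`. Claim: `evs W f ∈ V` for all `f ∈ A ⊓ S.H n`, by induction on `n`: `f = s + b`, `s` a linear combination of the `z j` with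
`d j = n`, `b ∈ I W ⊔ thm W A`, and `b = f - s ∈ S.H n`. `n = 0`: `b ∈ I W` (`split_zero`), `evs W b = 0` (`ev_I`). `n + 1`: `b = ∑ c ∈ W, th c * g c` modulo
`I W` with `g c ∈ A ⊓ S.H n` (`split_succ`), and `evs W (th c * g c) = t c • evs W (g c)` (`ev_th`), in `V` by induction. Apply it to the monomials of the facets
(`hfac`): by `ev_fac` and `q_ne` their values are nonzero multiples of the unit vectors. -/
theorem span_evs {A : Submodule S.K S.T} (hA : S.Grd A)
    (hfac : ∀ σ ∈ S.fac W, (∏ v ∈ σ, MvPolynomial.X v : S.T) ∈ A) {N : ℕ}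
    (z : Fin N → S.T) (d : Fin N → ℕ) (hz : ∀ j, z j ∈ S.H (d j))
    (hs : ∀ n, A ⊓ S.H n ≤ Submodule.span S.K (z '' {j | d j = n}) ⊔ (S.I W ⊔ S.thm W A)) :
    Submodule.span S.K (Set.range fun j => S.evs W (z j)) = ⊤ := by
  classical
  set V : Submodule S.K ({σ // σ ∈ S.fac W} → S.K) :=
    Submodule.span S.K (Set.range fun j => S.evs W (z j)) with hV
  let E : S.T →ₗ[S.K] ({σ // σ ∈ S.fac W} → S.K) :=
    LinearMap.pi fun σ => (MvPolynomial.aeval (S.q σ.1)).toLinearMap
  have hE : ∀ f, E f = S.evs W f := fun f => rfl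
  have hEa : ∀ (f : S.T) (σ : {σ // σ ∈ S.fac W}),
      E f σ = MvPolynomial.aeval (S.q σ.1) f := fun f σ => rfl
  have hEI : ∀ f ∈ S.I W, E f = 0 := by
    intro f hf
    funext σ
    rw [hEa, S.ev_I σ.2 hf]
    rfl
  have hEth : ∀ c ∈ W, ∀ f, E (S.th c * f) = S.t c • E f := by
    intro c hc f
    funext σ
    rw [hEa, map_mul, S.ev_th σ.2 hc, Pi.smul_apply, smul_eq_mul, hEa]
  have hEs : ∀ n, ∀ s ∈ Submodule.span S.K (z '' {j | d j = n}), E s ∈ V := by
    intro n s hs'
    have h1 : E s ∈ (Submodule.span S.K (z '' {j | d j = n})).map E :=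
      Submodule.mem_map_of_mem hs'
    rw [Submodule.map_span] at h1
    refine Submodule.span_mono ?_ h1
    rintro _ ⟨_, ⟨j, _, rfl⟩, rfl⟩
    exact ⟨j, rfl⟩
  have hHs : ∀ n, Submodule.span S.K (z '' {j | d j = n}) ≤ S.H n := by
    intro n
    rw [Submodule.span_le]
    rintro _ ⟨j, hj, rfl⟩
    have hj' : d j = n := hj
    have := hz j
    rw [hj'] at this
    exact this
  have key : ∀ n, ∀ f ∈ A, f ∈ S.H n → E f ∈ V := by
    intro n
    induction n with
    | zero =>
      intro f hf hn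
      have h1 := hs 0 (Submodule.mem_inf.2 ⟨hf, hn⟩)
      obtain ⟨s, hsm, b, hb, hsb⟩ := Submodule.mem_sup.1 h1
      have hbH : b ∈ S.H 0 := by
        have : b = f - s := by rw [← hsb]; ring
        rw [this]
        exact Submodule.sub_mem _ hn (hHs 0 hsm)
      have h2 := S.split_zero hA hb hbH
      rw [← hsb, map_add, hEI b h2, add_zero]
      exact hEs 0 s hsm
    | succ n ih =>
      intro f hf hn
      have h1 := hs (n + 1) (Submodule.mem_inf.2 ⟨hf, hn⟩)
      obtain ⟨s, hsm, b, hb, hsb⟩ := Submodule.mem_sup.1 h1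
      have hbH : b ∈ S.H (n + 1) := by
        have : b = f - s := by rw [← hsb]; ring
        rw [this]
        exact Submodule.sub_mem _ hn (hHs (n + 1) hsm)
      obtain ⟨g, hg, hgI⟩ := S.split_succ hA hb hbH
      have h3 : E b = ∑ c ∈ W, S.t c • E (g c) := by
        have h4 := hEI _ hgI
        rw [map_sub, sub_eq_zero, map_sum] at h4
        rw [h4]
        exact Finset.sum_congr rfl fun c hc => hEth c hc (g c)
      rw [← hsb, map_add, h3]
      refine Submodule.add_mem _ (hEs _ s hsm) (Submodule.sum_mem _ fun c hc => ?_)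
      exact Submodule.smul_mem _ _ (ih (g c) (hg c hc).1 (hg c hc).2)
  rw [eq_top_iff]
  intro x _
  rw [← Finset.univ_sum_single x]
  refine Submodule.sum_mem _ fun σ _ => ?_
  have hne : ∏ v ∈ σ.1, S.q σ.1 v ≠ 0 := Finset.prod_ne_zero_iff.2 fun v hv => S.q_ne σ.2 hv
  have h5 : Pi.single σ (x σ) =
      (x σ * (∏ v ∈ σ.1, S.q σ.1 v)⁻¹) • E (∏ v ∈ σ.1, MvPolynomial.X v) := by
    funext τ
    rw [Pi.smul_apply, smul_eq_mul, hEa, S.ev_fac σ.2 τ.2]
    by_cases h : τ = σ
    · subst h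
      rw [Pi.single_eq_same, if_pos rfl, mul_assoc, inv_mul_cancel₀ hne, mul_one]
    · rw [Pi.single_eq_of_ne h, if_neg fun h' => h (Subtype.ext h'), mul_zero]
  rw [h5]
  exact Submodule.smul_mem _ _ (key W.card _ (hfac σ.1 σ.2) (S.fac_H σ.2))

end Pool.Agent.LocH.Sub
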