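import Pool.Agent.LocH.BrTop

/-!
# MP_230912_co, file BrGen: the generic matrix `S.a`

`S.K` is the field of fractions of `MvPolynomial S.Ix (ZMod 2)`, `S.a v c` is the variable
`a_(v,c)` if `c ∈ S.car v` and `0` otherwise.

PROOFS.
`charP_K`: `S.K` has characteristic `2`: it is an algebra over `ZMod 2` (injective ring homomorphism
`ZMod 2 → MvPolynomial .. → FractionRing ..`, `charP_of_injective_algebraMap` or
`charP_of_injective_ringHom`).
`infinite_K`: `MvPolynomial S.Ix (ZMod 2)` is infinite if `Ω` is nonempty (`MvPolynomial.infinite_of_nonempty`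
or the powers of the variable `X (Sum.inr c)`), and `algebraMap` to the fraction ring is injective.
`gen_toG`, zero: `dif_neg`.  minor: let `σ` be a face.  For every `s ⊆ σ`, `s` is a face (`down`), so
`s.card ≤ (s.biUnion S.car).card` (`card_le`).  Hall's theorem
(`Finset.all_card_le_biUnion_card_iff_exists_injective` for the index type `{v // v ∈ σ}` and
`t v = S.car v`; a subset of the subtype is mapped to a subset of `σ`) gives an injective
`f : σ → Ω` with `f v ∈ S.car v`.  The matrix `M u v = S.a v (f u)` has entries in the image of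
`R = MvPolynomial S.Ix (ZMod 2)`: `M = M₀.map (algebraMap R S.K)` with
`M₀ u v = if h : f u ∈ S.car v then X (Sum.inl ⟨(v, f u), h⟩) else 0`, so `det M = algebraMap (det M₀)`
(`RingHom.map_det`), and it is enough that `det M₀ ≠ 0` (`IsFractionRing.injective`).  Evaluate
(`MvPolynomial.eval₂Hom` / `MvPolynomial.eval`, a ring homomorphism `R → ZMod 2`) the variable
`Sum.inl ⟨(v, c), _⟩` at `1` if `v ∈ σ` and `c = f v`, at `0` otherwise (and `Sum.inr c` at `0`): `M₀ u v` is
sent to `1` if `f u = f v`, i.e. `u = v`, and to `0` otherwise; so `det M₀` is sent to `det 1 = 1 ≠ 0`.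
-/

set_option autoImplicit false

open Finset

namespace Pool.Agent.LocH

namespace Sub

variable {X Ω : Type} [Fintype X] [DecidableEq X] [Fintype Ω] [DecidableEq Ω]

theorem charP_K (S : Sub X Ω) : CharP S.K 2 :=
  charP_of_injective_algebraMap
    (IsFractionRing.injective (MvPolynomial S.Ix (ZMod 2)) S.K) 2

theorem infinite_K (S : Sub X Ω) [Nonempty Ω] : Infinite S.K := by
  have h1 : Nonempty S.Ix := ⟨Sum.inr (Classical.arbitrary Ω)⟩
  have h2 : Infinite (MvPolynomial S.Ix (ZMod 2)) := inferInstance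
  exact Infinite.of_injective _
    (IsFractionRing.injective (MvPolynomial S.Ix (ZMod 2)) S.K)

private theorem hall (S : Sub X Ω) {σ : Finset X} (hσ : σ ∈ S.Gam) :
    ∃ f : σ → Ω, Function.Injective f ∧ ∀ v : σ, f v ∈ S.car v := by
  refine (Finset.all_card_le_biUnion_card_iff_exists_injective fun v : σ => S.car v).1
    fun s => ?_
  have h1 : s.image Subtype.val ⊆ σ := by
    intro x hx
    obtain ⟨y, -, rfl⟩ := Finset.mem_image.1 hx
    exact y.2
  have h2 := S.card_le _ (S.down σ hσ _ h1)
  rwa [Finset.card_image_of_injective s Subtype.val_injective, Finset.image_biUnion] at h2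

private noncomputable def M0 (S : Sub X Ω) {σ : Finset X} (f : σ → Ω) :
    Matrix σ σ (MvPolynomial S.Ix (ZMod 2)) :=
  Matrix.of fun u v => if h : f u ∈ S.car v then
    MvPolynomial.X (Sum.inl ⟨(v, f u), h⟩) else 0

private theorem M0_map (S : Sub X Ω) {σ : Finset X} (f : σ → Ω) :
    (Matrix.of fun u v : σ => S.a v (f u)) =
      (algebraMap (MvPolynomial S.Ix (ZMod 2)) S.K).mapMatrix (M0 S f) := by
  refine Matrix.ext fun u v => ?_
  rw [RingHom.mapMatrix_apply, Matrix.map_apply, Matrix.of_apply]
  unfold M0 a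
  rw [Matrix.of_apply]
  split_ifs with h
  · rfl
  · rw [map_zero]

open Classical in
private noncomputable def pt0 (S : Sub X Ω) {σ : Finset X} (f : σ → Ω) : S.Ix → ZMod 2
  | Sum.inl p => if ∃ u : σ, (u : X) = p.1.1 ∧ f u = p.1.2 then 1 else 0
  | Sum.inr _ => 0

private theorem M0_eval (S : Sub X Ω) {σ : Finset X} {f : σ → Ω} (hf : Function.Injective f)
    (hm : ∀ v : σ, f v ∈ S.car v) :
    (MvPolynomial.eval (pt0 S f)).mapMatrix (M0 S f) = 1 := by
  classical
  refine Matrix.ext fun u v => ?_
  rw [RingHom.mapMatrix_apply, Matrix.map_apply]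
  unfold M0
  rw [Matrix.of_apply]
  by_cases huv : u = v
  · subst huv
    rw [Matrix.one_apply_eq, dif_pos (hm u), MvPolynomial.eval_X]
    exact if_pos ⟨u, rfl, rfl⟩
  · rw [Matrix.one_apply_ne huv]
    split_ifs with h
    · rw [MvPolynomial.eval_X]
      refine if_neg ?_
      rintro ⟨u', h1, h2⟩
      have h3 : u' = v := Subtype.ext h1
      rw [h3] at h2
      exact huv (hf h2).symm
    · rw [map_zero]

theorem gen_toG (S : Sub X Ω) : S.toG.Gen S.a := by
  refine ⟨fun v c h => ?_, fun σ hσ => ?_⟩
  · unfold a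
    exact dif_neg h
  · obtain ⟨f, hf, hm⟩ := hall S hσ
    refine ⟨f, fun h0 => ?_⟩
    rw [M0_map, ← RingHom.map_det] at h0
    have h1 : (M0 S f).det = 0 :=
      IsFractionRing.injective (MvPolynomial S.Ix (ZMod 2)) S.K (by rw [h0, map_zero])
    have h2 := congrArg (MvPolynomial.eval (pt0 S f)) h1
    rw [RingHom.map_det, M0_eval S hf hm, Matrix.det_one, map_zero] at h2
    exact one_ne_zero h2

end Sub

end Pool.Agent.LocH
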