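import Pool.Agent.LocH.BrFam
import Pool.Agent.LocH.BrGen
import Pool.Agent.LocG.P3D

/-!
# MP_230912_co, file Bridge: the dimension formulas (R), (S), (L) for `LocH.Sub`

PROOFS.  Suppose first that `Ω` is nonempty; `S.K` is an infinite field of characteristic `2`
(`charP_K`, `infinite_K`), `S.toG.Top S.K` (`top_toG`), `S.toG.Gen S.a` (`gen_toG`), so
`LocG.Sub.dq_T`, `dq_JI`, `dq_L` apply to `S.toG` and `S.a`.
(R): `dm_eq` with `A = ⊤`, `B = S.I W ⊔ S.thm W ⊤`: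
`fm S B = S.toG.I S.K W ⊔ gn (mth S.a) W (TT ..)`
(`fm_sup`, `fm_I`, `fm_thm`, `fm_top`; `hom_I`, `hom_thm`), contained in `TT = fm ⊤` (`inf_le_..`,
`inf_eq_right`), `dq_T`; `S.hW W = (S.toG).hW W`: the same sum (`S.fcs W = S.Gam.filter ..`),
by `rfl` or
`Finset.sum_congr`.
(S): `A = S.J W W`, `B = S.I W ⊔ S.thm W (S.J W W)`; `fm B = I ⊔ gn W J ≤ J = fm A`
(`LocG.Sub.I_le_J`, `gn_le` with `sh_J` and `J_anti`), `dq_JI`; `S.hI W = (S.toG).hI W`: a face
with carrier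
`W` is in `S.fcs W`.
(L): `A = S.J W W`, `B = S.I W ⊔ S.thm W ⊤`, `dq_L`; `S.ell W = (S.toG).lW W`.
If `Ω` is empty then `W = ∅` for all `W`; all faces are `∅` (`card_le`), `X` is empty
(`S.vert`, `card_le`: `1 ≤ 0`), so `S.T` is one dimensional over `S.K`: homogeneous polynomials of
degree `0` are the constants, `S.I ∅ = ⊥`, `S.J ∅ ∅ = ⊤`, `S.thm ∅ A = ⊥`; all three dimensions
are `1` for `n = 0` and `0` for
`n > 0`, and `S.hW ∅ = S.hI ∅ = S.ell ∅ = 1`.
-/

set_option autoImplicit false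

open Finset

namespace Pool.Agent.LocH

namespace Sub

variable {X Ω : Type} [Fintype X] [DecidableEq X] [Fintype Ω] [DecidableEq Ω] {S : Sub X Ω}

private theorem hW_eq (W : Finset Ω) : S.hW W = S.toG.hW W := rfl

private theorem hI_eq (W : Finset Ω) : S.hI W = S.toG.hI W := by
  unfold hI LocG.Sub.hI
  refine Finset.sum_congr ?_ fun _ _ => rfl
  ext F
  unfold fcs
  rw [Finset.mem_filter, Finset.mem_filter, Finset.mem_filter]
  constructor
  · rintro ⟨⟨h1, -⟩, h2⟩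
    exact ⟨h1, h2⟩
  · rintro ⟨h1, h2⟩
    exact ⟨⟨h1, h2.le⟩, h2⟩

private theorem ell_eq (W : Finset Ω) : S.ell W = S.toG.lW W := rfl

private theorem fm_R (W : Finset Ω) : S.fm (S.I W ⊔ S.thm W ⊤) =
    S.toG.I S.K W ⊔ LocG.gn (LocG.mth S.a) W (LocG.TT S.K X) := by
  rw [S.fm_sup (S.hom_I W) (S.hom_thm S.hom_top W), S.fm_I, S.fm_thm S.hom_top, S.fm_top]

private theorem fm_S (W : Finset Ω) : S.fm (S.I W ⊔ S.thm W (S.J W W)) =
    S.toG.I S.K W ⊔ LocG.gn (LocG.mth S.a) W (S.toG.J S.K W W) := by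
  rw [S.fm_sup (S.hom_I W) (S.hom_thm (S.hom_J W W) W), S.fm_I, S.fm_thm (S.hom_J W W), S.fm_J]

/-- the case of the empty set of coordinates -/
private theorem empty_data [IsEmpty Ω] (S : Sub X Ω) (W : Finset Ω) :
    W = ∅ ∧ IsEmpty X ∧ S.I W = ⊥ ∧ S.J W W = ⊤ ∧ (∀ A, S.thm W A = ⊥) ∧ S.hW W = 1 ∧
      S.hI W = 1 ∧ S.ell W = 1 := by
  have hW : W = ∅ := Finset.eq_empty_of_isEmpty W
  subst hW
  have hX : IsEmpty X := by
    refine ⟨fun v => ?_⟩
    have h1 := S.card_le {v} (S.vert v)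
    rw [Finset.eq_empty_of_isEmpty (({v} : Finset X).biUnion S.car), Finset.card_empty,
      Finset.card_singleton] at h1
    omega
  have hF : ∀ F : Finset X, F = ∅ := fun F => Finset.eq_empty_of_isEmpty F
  have hG : ∀ F : Finset X, F ∈ S.fcs ∅ := fun F => by
    rw [hF F]
    exact Finset.mem_filter.2 ⟨S.empty_mem, Finset.Subset.refl _⟩
  have hfc : S.fcs ∅ = {∅} := by
    ext F
    simp only [Finset.mem_singleton]
    exact ⟨fun _ => hF F, fun _ => hG F⟩
  have h1 : S.hW ∅ = 1 := by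
    unfold hW
    rw [hfc]
    simp
  refine ⟨rfl, hX, ?_, ?_, ?_, h1, ?_, ?_⟩
  · unfold I
    rw [eq_bot_iff]
    intro f hf
    rw [Submodule.mem_bot]
    rw [MvPolynomial.mem_restrictSupport_iff] at hf
    rw [← MvPolynomial.support_eq_empty, Finset.eq_empty_iff_forall_notMem]
    intro m hm
    exact (hf hm) (hG _)
  · unfold J
    rw [eq_top_iff]
    intro f _
    rw [MvPolynomial.mem_restrictSupport_iff]
    intro m _ _
    exact Finset.empty_subset _
  · intro A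
    unfold thm
    simp
  · unfold hI
    rw [hfc]
    have : ({∅} : Finset (Finset X)).filter (fun F => S.cr F = ∅) = {∅} := by
      rw [Finset.filter_singleton, if_pos]
      rfl
    rw [this]
    simp
  · unfold ell
    rw [Finset.powerset_empty, Finset.sum_singleton, h1]
    simp

private theorem dm_empty [IsEmpty X] (S : Sub X Ω) (n : ℕ) :
    (S.dm n ⊤ ⊥ : ℤ) = (1 : Polynomial ℤ).coeff n := by
  have h1 : (S.fm ⊤ ⊓ S.fm ⊥) n = ⊥ := by
    rw [eq_bot_iff]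
    exact inf_le_right.trans inf_le_left
  have h2 := LocG.card_mono (K := S.K) (Nd := X) (fun _ => True) 0
    (fun F _ => by rw [Finset.eq_empty_of_isEmpty F, Finset.card_empty]) n
  rw [S.dm_eq]
  unfold LocG.dq
  rw [h1, S.fm_top, finrank_bot, Nat.cast_zero, sub_zero]
  refine h2.trans ?_
  have h3 : (univ.filter fun _ : Finset X => True) = {∅} := by
    ext F
    rw [Finset.mem_filter, Finset.mem_singleton]
    exact ⟨fun _ => Finset.eq_empty_of_isEmpty F, fun _ => ⟨Finset.mem_univ F, trivial⟩⟩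
  rw [h3]
  simp only [Function.iterate_zero, id_eq, Finset.sum_singleton, Finset.card_empty, pow_zero,
    Nat.sub_zero, mul_one]

theorem dim_R (hT : S.Top S.K) (W : Finset Ω) (n : ℕ) :
    (S.dm n ⊤ (S.I W ⊔ S.thm W ⊤) : ℤ) = (S.hW W).coeff n := by
  rcases isEmpty_or_nonempty Ω with hΩ | hΩ
  · obtain ⟨-, hX, h1, h2, h3, h4, h5, h6⟩ := empty_data S W
    rw [h1, h3, h4, sup_bot_eq, dm_empty]
  · have := S.charP_K
    have := S.infinite_K
    have hle : S.fm (S.I W ⊔ S.thm W ⊤) ≤ S.fm ⊤ := fun k => inf_le_inf_right _ le_top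
    rw [S.dm_eq, inf_eq_right.2 hle, fm_R, S.fm_top,
      LocG.Sub.dq_T (top_toG hT) S.gen_toG, hW_eq]

theorem dim_S (hT : S.Top S.K) (W : Finset Ω) (n : ℕ) :
    (S.dm n (S.J W W) (S.I W ⊔ S.thm W (S.J W W)) : ℤ) = (S.hI W).coeff n := by
  rcases isEmpty_or_nonempty Ω with hΩ | hΩ
  · obtain ⟨-, hX, h1, h2, h3, h4, h5, h6⟩ := empty_data S W
    rw [h1, h2, h3, h5, sup_bot_eq, dm_empty]
  · have := S.charP_K
    have := S.infinite_K
    have hle : S.toG.I S.K W ⊔ LocG.gn (LocG.mth S.a) W (S.toG.J S.K W W) ≤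
        S.toG.J S.K W W := by
      refine sup_le (S.toG.I_le_J _ _) (LocG.gn_le fun c _ => ?_)
      exact (S.toG.sh_J S.gen_toG W W c).trans (S.toG.J_anti _ (Finset.subset_insert c W))
    rw [S.dm_eq, fm_S, S.fm_J, inf_eq_right.2 hle,
      LocG.Sub.dq_JI (top_toG hT) S.gen_toG, hI_eq]

theorem dim_L (hT : S.Top S.K) (W : Finset Ω) (n : ℕ) :
    (S.dm n (S.J W W) (S.I W ⊔ S.thm W ⊤) : ℤ) = (S.ell W).coeff n := by
  rcases isEmpty_or_nonempty Ω with hΩ | hΩ
  · obtain ⟨-, hX, h1, h2, h3, h4, h5, h6⟩ := empty_data S W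
    rw [h1, h2, h3, h6, sup_bot_eq, dm_empty]
  · have := S.charP_K
    have := S.infinite_K
    rw [S.dm_eq, fm_R, S.fm_J, LocG.Sub.dq_L (top_toG hT) S.gen_toG, ell_eq]

theorem dim (hT : S.Top S.K) : S.Dim := ⟨dim_R hT, dim_S hT, dim_L hT⟩

end Sub

end Pool.Agent.LocH
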