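import Pool.Agent.LocH.Var

/-! LH-F3: the vectors `a v`, `v` in a face, are independent. -/

set_option autoImplicit false

open Finset

namespace Pool.Agent.LocH.Sub

variable {X Ω : Type} [Fintype X] [DecidableEq X] [Fintype Ω] [DecidableEq Ω] (S : Sub X Ω)

/-- PROOF. Hall's theorem (`Finset.all_card_le_biUnion_card_iff_exists_injective'`) for the sets `S.car v`, `v ∈ F`: a subset `F'` of `F` is a
face (`S.down`), so `F'.card ≤ (F'.biUnion S.car).card` (`S.card_le`). -/
theorem exists_inj {F : Finset X} (hF : F ∈ S.Gam) :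
    ∃ f : {v // v ∈ F} → Ω, Function.Injective f ∧ ∀ v : {v // v ∈ F}, f v ∈ S.car v := by
  classical
  refine (Finset.all_card_le_biUnion_card_iff_exists_injective
    (fun v : {v // v ∈ F} => S.car v)).1 (fun s => ?_)
  have hs : s.map (Function.Embedding.subtype (fun v => v ∈ F)) ⊆ F := by
    intro v hv
    obtain ⟨w, -, rfl⟩ := Finset.mem_map.1 hv
    exact w.2
  have h1 := S.card_le _ (S.down F hF _ hs)
  rw [Finset.card_map] at h1
  refine h1.trans (le_of_eq ?_)
  congr 1
  ext c
  simp only [Finset.mem_biUnion, Finset.mem_map]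
  constructor
  · rintro ⟨v, ⟨w, hw, rfl⟩, hc⟩
    exact ⟨w, hw, hc⟩
  · rintro ⟨w, hw, hc⟩
    exact ⟨w, ⟨w, hw, rfl⟩, hc⟩

/-- PROOF. The determinant is `toF` of the determinant of the matrix of polynomials (variables `X (Sum.inl ((u, f v), _))` or `0`) (`RingHom.map_det`,
`toF` is a ring homomorphism); evaluate this polynomial at the point with the value `1` at the variables `Sum.inl ((v, f v), _)` and `0` at all other
variables: the matrix becomes the identity (`f` is injective), so its determinant is `1`, and the polynomial is not `0`; `toF_inj`. -/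
theorem minor_ne {F : Finset X} {f : {v // v ∈ F} → Ω} (hf : Function.Injective f)
    (hc : ∀ v : {v // v ∈ F}, f v ∈ S.car v) :
    (Matrix.of fun u v : {v // v ∈ F} => S.a u (f v)).det ≠ 0 := by
  classical
  set P : Matrix {v // v ∈ F} {v // v ∈ F} (MvPolynomial S.Ix (ZMod 2)) :=
    Matrix.of fun u v => if h : f v ∈ S.car u then
      MvPolynomial.X (Sum.inl ⟨((u : X), f v), h⟩) else 0 with hP
  have h1 : (Matrix.of fun u v : {v // v ∈ F} => S.a u (f v)) =
      (algebraMap (MvPolynomial S.Ix (ZMod 2)) S.K).mapMatrix P := by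
    ext u v
    rw [RingHom.mapMatrix_apply, Matrix.map_apply, hP, Matrix.of_apply, Matrix.of_apply, a]
    split_ifs with h
    · rfl
    · rw [map_zero]
  rw [h1, ← RingHom.map_det]
  intro h0
  have hinj : Function.Injective (algebraMap (MvPolynomial S.Ix (ZMod 2)) S.K) :=
    IsFractionRing.injective _ _
  have h2 : P.det = 0 := by
    apply hinj
    rw [h0, map_zero]
  let e : S.Ix → ZMod 2 := Sum.elim
    (fun p => if ∃ h : p.1.1 ∈ F, f ⟨p.1.1, h⟩ = p.1.2 then 1 else 0) (fun _ => 0)
  have h3 : (MvPolynomial.eval e).mapMatrix P = 1 := by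
    ext u v
    rw [RingHom.mapMatrix_apply, Matrix.map_apply, hP, Matrix.of_apply, Matrix.one_apply]
    by_cases huv : u = v
    · subst huv
      rw [dif_pos (hc u), MvPolynomial.eval_X, if_pos rfl]
      change (if ∃ h : (u : X) ∈ F, f ⟨u, h⟩ = f u then (1 : ZMod 2) else 0) = 1
      rw [if_pos ⟨u.2, rfl⟩]
    · rw [if_neg huv]
      split_ifs with h
      · rw [MvPolynomial.eval_X]
        change (if ∃ h : (u : X) ∈ F, f ⟨u, h⟩ = f v then (1 : ZMod 2) else 0) = 0
        rw [if_neg]
        rintro ⟨h', h''⟩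
        exact huv (hf h'')
      · rw [map_zero]
  have h4 : (MvPolynomial.eval e) P.det = 1 := by
    rw [RingHom.map_det, h3, Matrix.det_one]
  rw [h2, map_zero] at h4
  exact zero_ne_one h4

/-- PROOF. `exists_inj`, `minor_ne`: the equations `c = f u` say that `x`, restricted to `F`, is in the left kernel of an invertible matrix (`f u ∈ S.cr F`;
`Matrix.eq_zero_of_vecMul_eq_zero`). -/
theorem indep {F : Finset X} (hF : F ∈ S.Gam) {x : X → S.K} (hx : ∀ v ∉ F, x v = 0)
    (h : ∀ c ∈ S.cr F, ∑ v, S.a v c * x v = 0) : x = 0 := by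
  classical
  obtain ⟨f, hf, hc⟩ := S.exists_inj hF
  have hM := S.minor_ne hf hc
  have h1 : Matrix.vecMul (fun u : {v // v ∈ F} => x u)
      (Matrix.of fun u v : {v // v ∈ F} => S.a u (f v)) = 0 := by
    ext v
    rw [Matrix.vecMul, dotProduct, Pi.zero_apply]
    have h2 := h (f v) (Finset.mem_biUnion.2 ⟨v, v.2, hc v⟩)
    rw [← h2]
    have h3 : ∑ w, S.a w (f v) * x w = ∑ w ∈ F, S.a w (f v) * x w := by
      symm
      apply Finset.sum_subset (Finset.subset_univ F)
      intro w _ hw
      rw [hx w hw, mul_zero]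
    rw [h3, ← Finset.sum_coe_sort F (fun w => S.a w (f v) * x w)]
    apply Finset.sum_congr rfl
    intro w _
    rw [Matrix.of_apply, mul_comm]
  have h2 := Matrix.eq_zero_of_vecMul_eq_zero hM h1
  ext v
  by_cases hv : v ∈ F
  · exact congrFun h2 ⟨v, hv⟩
  · exact hx v hv

end Pool.Agent.LocH.Sub
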