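import Pool.Agent.LocH.GBas
import Pool.Agent.LocH.Ind

/-!
# Package GInd: independence of the rows of a face

* `a_indep`: by `card_le` and Hall's theorem (`Finset.all_card_le_biUnion_card_iff_exists_injective`, applied
  to the subsets of `F`, which are faces) there is an injective choice `f v ∈ car v`, `v ∈ F`. The
  determinant of the matrix `a v (f u)`, `u, v ∈ F`, is the image of a polynomial over `ZMod 2` in which the
  monomial `∏ v ∈ F, X (v, f v)` has coefficient `1` (the other permutations give other monomials, or zero),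
  e.g. evaluate the variables `X (v, f v)` at `1` and all others at `0`: the matrix becomes the identity. So
  the determinant is not zero and the rows are independent. (If `LocH/Ind.lean` of helper50 is on main, use
  it.)
* `exists_form`: `a u c = 0` for `c ∉ A`, `u ∈ F` (`S.cr F ⊆ A`), so the vectors `(a u c)`, `c ∈ A`, `u ∈ F`,
  are independent, and there is a linear functional with prescribed values on them
  (`LinearIndependent` extends: `exists_linearMap`, or a left inverse of an injective linear map).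
* `form_zero`: for `F ∈ S.fac W` the `W.card` vectors `(a v c)`, `c ∈ W`, `v ∈ F`, are a basis of `W → K`.
-/

set_option autoImplicit false

open Finset

namespace Pool.Agent.LocH.Sub

variable {X Ω : Type} [Fintype X] [DecidableEq X] [Fintype Ω] [DecidableEq Ω] (S : Sub X Ω)

private theorem gi_lf {F : Finset X} {A : Finset Ω} {f : {v // v ∈ F} → Ω}
    (hf : Function.Injective f) (hA : ∀ w, f w ∈ A) {ω : Ω → S.K}
    (h0 : ∀ c ∈ A, (∀ w, f w ≠ c) → ω c = 0) (u : X) :
    S.lf A ω u = ∑ w, S.a u (f w) * ω (f w) := by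
  have h1 : ∑ c ∈ Finset.univ.image f, S.a u c * ω c = ∑ w, S.a u (f w) * ω (f w) :=
    Finset.sum_image fun a _ b _ hab => hf hab
  rw [← h1, lf]
  symm
  have h2 : ∀ c, S.a u c * ω c = ω c * S.a u c := fun c => mul_comm _ _
  simp only [h2]
  apply Finset.sum_subset
  · intro c hc
    obtain ⟨w, -, rfl⟩ := Finset.mem_image.1 hc
    exact hA w
  · intro c hc hc'
    rw [h0 c hc, zero_mul]
    intro w hw
    exact hc' (Finset.mem_image.2 ⟨w, Finset.mem_univ _, hw⟩)

/-- Independence of the rows of a face. -/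
theorem a_indep {F : Finset X} (hF : F ∈ S.Gam) (μ : X → S.K)
    (h : ∀ c, ∑ v ∈ F, μ v * S.a v c = 0) : ∀ v ∈ F, μ v = 0 := by
  have h1 := S.indep hF (x := fun v => if v ∈ F then μ v else 0)
    (fun v hv => if_neg hv) (fun c _ => by
      refine Eq.trans (Eq.symm ?_) (h c)
      have h2 : ∀ v ∈ F, μ v * S.a v c = S.a v c * (if v ∈ F then μ v else 0) := fun v hv => by
        rw [if_pos hv, mul_comm]
      rw [Finset.sum_congr rfl h2]
      apply Finset.sum_subset (Finset.subset_univ F)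
      intro v _ hv
      rw [if_neg hv, mul_zero])
  intro v hv
  have h2 := congrFun h1 v
  simpa [hv] using h2

/-- Dual functionals of a face. -/
theorem exists_form {A : Finset Ω} {F : Finset X} (hF : F ∈ S.fcs A) {v : X} (hv : v ∈ F) :
    ∃ ω : Ω → S.K, S.lf A ω v = 1 ∧ ∀ u ∈ F, u ≠ v → S.lf A ω u = 0 := by
  classical
  rw [fcs, Finset.mem_filter] at hF
  obtain ⟨f, hf, hc⟩ := S.exists_inj hF.1
  have hA : ∀ w, f w ∈ A := fun w => hF.2 (Finset.mem_biUnion.2 ⟨w, w.2, hc w⟩)
  set M : Matrix {v // v ∈ F} {v // v ∈ F} S.K := Matrix.of fun u v => S.a u (f v) with hM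
  have hMu : IsUnit M.det := (S.minor_ne hf hc).isUnit
  have hMM : M * M⁻¹ = 1 := Matrix.mul_nonsing_inv M hMu
  let ω : Ω → S.K := fun c => if h : ∃ w, f w = c then M⁻¹ h.choose ⟨v, hv⟩ else 0
  have hω : ∀ w, ω (f w) = M⁻¹ w ⟨v, hv⟩ := by
    intro w
    have h : ∃ w', f w' = f w := ⟨w, rfl⟩
    change (if h : ∃ w', f w' = f w then M⁻¹ h.choose ⟨v, hv⟩ else 0) = _
    rw [dif_pos h]
    exact congrArg (fun w' => M⁻¹ w' ⟨v, hv⟩) (hf h.choose_spec)
  have h0 : ∀ c ∈ A, (∀ w, f w ≠ c) → ω c = 0 := by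
    intro c _ hcw
    change (if h : ∃ w', f w' = c then M⁻¹ h.choose ⟨v, hv⟩ else 0) = _
    rw [dif_neg]
    rintro ⟨w, hw⟩
    exact hcw w hw
  have h1 : ∀ u (hu : u ∈ F), S.lf A ω u = if u = v then 1 else 0 := by
    intro u hu
    rw [S.gi_lf hf hA h0 u]
    have h2 := congrFun (congrFun hMM ⟨u, hu⟩) ⟨v, hv⟩
    rw [Matrix.mul_apply, Matrix.one_apply] at h2
    have h3 : ∀ w, S.a u (f w) * ω (f w) = M ⟨u, hu⟩ w * M⁻¹ w ⟨v, hv⟩ := by
      intro w
      rw [hω]
      rfl
    rw [Finset.sum_congr rfl fun w _ => h3 w, h2]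
    simp only [Subtype.mk.injEq]
  refine ⟨ω, ?_, ?_⟩
  · rw [h1 v hv, if_pos rfl]
  · intro u hu huv
    rw [h1 u hu, if_neg huv]

/-- A functional that vanishes on a facet is zero. -/
theorem form_zero {W : Finset Ω} {F : Finset X} (hF : F ∈ S.fac W) {ω : Ω → S.K}
    (h : ∀ v ∈ F, S.lf W ω v = 0) : ∀ c ∈ W, ω c = 0 := by
  classical
  rw [fac, st, Finset.mem_filter] at hF
  obtain ⟨hF, -, hcr, hcard⟩ := hF
  obtain ⟨f, hf, hc⟩ := S.exists_inj hF
  have hA : ∀ w, f w ∈ W := fun w => hcr ▸ Finset.mem_biUnion.2 ⟨w, w.2, hc w⟩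
  have him : Finset.univ.image f = W := by
    apply Finset.eq_of_subset_of_card_le
    · intro c hc'
      obtain ⟨w, -, rfl⟩ := Finset.mem_image.1 hc'
      exact hA w
    · rw [Finset.card_image_of_injective _ hf, Finset.card_univ, Fintype.card_coe, hcard]
  have hsurj : ∀ c ∈ W, ∃ w, f w = c := by
    intro c hc'
    rw [← him] at hc'
    obtain ⟨w, -, hw⟩ := Finset.mem_image.1 hc'
    exact ⟨w, hw⟩
  set M : Matrix {v // v ∈ F} {v // v ∈ F} S.K := Matrix.of fun u v => S.a u (f v) with hM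
  have hMu : M.det ≠ 0 := S.minor_ne hf hc
  have h1 : M.mulVec (fun w => ω (f w)) = 0 := by
    ext u
    rw [Matrix.mulVec, dotProduct, Pi.zero_apply]
    rw [← h u u.2, S.gi_lf hf hA (fun c hc' hcw => by
      obtain ⟨w, hw⟩ := hsurj c hc'
      exact absurd hw (hcw w)) u]
    rfl
  have h2 := Matrix.eq_zero_of_mulVec_eq_zero hMu h1
  intro c hc'
  obtain ⟨w, rfl⟩ := hsurj c hc'
  exact congrFun h2 w

end Pool.Agent.LocH.Sub
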