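import Pool.Agent.LocH.GDef

/-!
# Package GBasA: degrees of parts of monomials

`ch`, `mo`, `dgI`, `ex` are defined in `GDef.lean`. All statements are short.
* `a_ne_zero`: the entry is a variable.
* `dgI_add`, `dgI_ch`, `dgI_single`, `dgI_le`, `dgI_lt`: definitions (`ch F` is `1` on `F`, `0` outside).
* For `F ∈ S.Gam` the set `F_U = F.filter (car ⊆ U)` is in `Gam` (`down`), `cr F_U ⊆ cr F ∩ U`, so
  `F_U.card ≤ (cr F_U).card ≤ (cr F ∩ U).card` (`card_le`); equality `F_U.card = U.card` forces `cr F_U = U`.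
-/

set_option autoImplicit false

open Finset

namespace Pool.Agent.LocH.Sub

variable {X Ω : Type} [Fintype X] [DecidableEq X] [Fintype Ω] [DecidableEq Ω] (S : Sub X Ω)

theorem a_eq_zero {v : X} {c : Ω} (h : c ∉ S.car v) : S.a v c = 0 := by
  unfold a
  exact dif_neg h

theorem a_ne_zero {v : X} {c : Ω} (h : c ∈ S.car v) : S.a v c ≠ 0 := by
  unfold a
  rw [dif_pos h]
  exact (map_ne_zero_iff _ (IsFractionRing.injective _ _)).2 (MvPolynomial.X_ne_zero _)

omit [Fintype X] in
private theorem ch_apply (F : Finset X) (u : X) :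
    (ch F : X →₀ ℕ) u = if u ∈ F then 1 else 0 := by
  unfold ch
  rw [Finsupp.finsetSum_apply]
  simp only [Finsupp.single_apply]
  exact Finset.sum_ite_eq' F u fun _ => 1

theorem ch_support (F : Finset X) : (ch F : X →₀ ℕ).support = F := by
  ext u
  rw [Finsupp.mem_support_iff, ch_apply]
  by_cases h : u ∈ F <;> simp [h]

theorem ch_degree (F : Finset X) : (ch F : X →₀ ℕ).degree = F.card := by
  unfold ch
  rw [map_sum]
  simp only [Finsupp.degree_single, Finset.sum_const, smul_eq_mul, mul_one]

theorem dgI_add (U : Finset Ω) (n m : X →₀ ℕ) : S.dgI U (n + m) = S.dgI U n + S.dgI U m := by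
  unfold dgI
  rw [← Finset.sum_add_distrib]
  rfl

theorem dgI_single (U : Finset Ω) (v : X) (k : ℕ) :
    S.dgI U (Finsupp.single v k) = if S.car v ⊆ U then k else 0 := by
  unfold dgI
  simp only [Finsupp.single_apply]
  rw [Finset.sum_ite_eq]
  simp only [Finset.mem_filter, Finset.mem_univ, true_and]

theorem dgI_ch (U : Finset Ω) (F : Finset X) :
    S.dgI U (ch F) = (F.filter fun v => S.car v ⊆ U).card := by
  unfold dgI
  simp only [ch_apply]
  rw [← Finset.sum_filter, Finset.sum_const, smul_eq_mul, mul_one]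
  congr 1
  ext v
  simp only [Finset.mem_filter, Finset.mem_univ, true_and]
  exact and_comm

theorem dgI_le (U : Finset Ω) (n : X →₀ ℕ) : S.dgI U n ≤ n.degree := by
  rw [Finsupp.degree_eq_sum]
  exact Finset.sum_le_sum_of_subset (Finset.filter_subset _ _)

theorem dgI_lt {U : Finset Ω} {n : X →₀ ℕ} (h : ¬ S.cr n.support ⊆ U) : S.dgI U n < n.degree := by
  rw [Finsupp.degree_eq_sum]
  have h1 : ∃ v ∈ n.support, ¬ S.car v ⊆ U := by
    by_contra hcon
    push Not at hcon
    exact h (Finset.biUnion_subset.2 hcon)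
  obtain ⟨v, hv, hvU⟩ := h1
  refine Finset.sum_lt_sum_of_subset (Finset.filter_subset _ _) (Finset.mem_univ v) ?_
    (Nat.pos_of_ne_zero (Finsupp.mem_support_iff.1 hv)) fun _ _ _ => Nat.zero_le _
  intro h2
  exact hvU (Finset.mem_filter.1 h2).2

omit [Fintype X] [Fintype Ω] in
private theorem cr_filter_sub (F : Finset X) (U : Finset Ω) :
    S.cr (F.filter fun v => S.car v ⊆ U) ⊆ S.cr F ∩ U := by
  refine Finset.biUnion_subset.2 fun v hv => ?_
  rw [Finset.mem_filter] at hv
  exact Finset.subset_inter (Finset.subset_biUnion_of_mem S.car hv.1) hv.2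

theorem card_filter_le {F : Finset X} (hF : F ∈ S.Gam) (U : Finset Ω) :
    (F.filter fun v => S.car v ⊆ U).card ≤ (S.cr F ∩ U).card :=
  (S.card_le _ (S.down F hF _ (Finset.filter_subset _ _))).trans
    (Finset.card_le_card (S.cr_filter_sub F U))

/-- If the part of a face in `U` has `U.card` elements then its carrier is `U`. -/
theorem cr_filter_eq {F : Finset X} (hF : F ∈ S.Gam) {U : Finset Ω}
    (h : (F.filter fun v => S.car v ⊆ U).card = U.card) :
    S.cr (F.filter fun v => S.car v ⊆ U) = U := by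
  refine Finset.eq_of_subset_of_card_le
    ((S.cr_filter_sub F U).trans Finset.inter_subset_right) ?_
  rw [← h]
  exact S.card_le _ (S.down F hF _ (Finset.filter_subset _ _))

end Pool.Agent.LocH.Sub
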