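import Pool.Agent.LocH.Fld

/-! LH-I2: a matching for a good monomial (Hall's theorem). -/

set_option autoImplicit false
set_option linter.unusedSectionVars false

open Finset

namespace Pool.Agent.LocH.Sub

variable {X Ω : Type} [Fintype X] [DecidableEq X] [Fintype Ω] [DecidableEq Ω] (S : Sub X Ω)
  {W : Finset Ω}

/-- PROOF. Hall's theorem (`Finset.all_card_le_biUnion_card_iff_exists_injective`) for the index type `{c // c ∈ W}` and the sets
`{(v, k) : c ∈ S.car v, k < 2 * n v}` (a `Finset.sigma` in `Σ v : X, ℕ`, or in `X × ℕ`): for `C ⊆ W` the union is `{(v, k) : S.car v` meets `C, k < 2 * n v}`, with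
`2 * dgC C n ≥ C.card` elements. Let `i c` be the first component of the value; the members of `W` with `i c = v` have different second components in
`range (2 * n v)`. (Outside `W` let `i` be arbitrary; `X` is not empty because `W` is not empty and every member of `W` has a value.) -/
theorem exists_match (hW : W.Nonempty) {n : X →₀ ℕ} (hn : S.Good W n) :
    ∃ i : Ω → X, (∀ c ∈ W, c ∈ S.car (i c)) ∧ ∀ v, (W.filter (fun c => i c = v)).card ≤ 2 * n v := by
  classical
  let t : {c // c ∈ W} → Finset (Σ _ : X, ℕ) := fun c =>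
    (univ.filter (fun v => (c : Ω) ∈ S.car v)).sigma (fun v => range (2 * n v))
  have hall : ∀ s : Finset {c // c ∈ W}, s.card ≤ (s.biUnion t).card := by
    intro s
    have h1 := hn (s.map (Function.Embedding.subtype _)) (by
      intro c hc
      rw [Finset.mem_map] at hc
      obtain ⟨c', _, rfl⟩ := hc
      exact c'.2)
    rw [Finset.card_map] at h1
    refine h1.trans ?_
    have h2 : ((univ.filter (fun v => ¬ Disjoint (S.car v)
        (s.map (Function.Embedding.subtype _)))).sigma (fun v => range (2 * n v))) ⊆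
        s.biUnion t := by
      rintro ⟨v, k⟩ hvk
      rw [Finset.mem_sigma, Finset.mem_filter] at hvk
      obtain ⟨⟨_, hv⟩, hk⟩ := hvk
      rw [Finset.not_disjoint_iff] at hv
      obtain ⟨c, hc, hc'⟩ := hv
      rw [Finset.mem_map] at hc'
      obtain ⟨c', hcs, rfl⟩ := hc'
      rw [Finset.mem_biUnion]
      refine ⟨c', hcs, ?_⟩
      rw [Finset.mem_sigma, Finset.mem_filter]
      exact ⟨⟨Finset.mem_univ _, hc⟩, hk⟩
    refine le_trans ?_ (Finset.card_le_card h2)
    rw [Finset.card_sigma, dgC, Finset.mul_sum]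
    simp only [Finset.card_range]
    exact le_rfl
  obtain ⟨f, hf, hft⟩ := (Finset.all_card_le_biUnion_card_iff_exists_injective t).1 hall
  obtain ⟨c0, hc0⟩ := hW
  refine ⟨fun c => if h : c ∈ W then (f ⟨c, h⟩).1 else (f ⟨c0, hc0⟩).1, ?_, ?_⟩
  · intro c hc
    simp only [hc, dif_pos]
    have h1 := hft ⟨c, hc⟩
    rw [Finset.mem_sigma, Finset.mem_filter] at h1
    exact h1.1.2
  · intro v
    have h1 : (range (2 * n v)).card = 2 * n v := Finset.card_range _
    rw [← h1]
    refine Finset.card_le_card_of_injOn (fun c => if h : c ∈ W then (f ⟨c, h⟩).2 else 0) ?_ ?_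
    · intro c hc
      rw [Finset.mem_coe, Finset.mem_filter] at hc
      obtain ⟨hc, hcv⟩ := hc
      simp only [hc, dif_pos] at hcv ⊢
      have h1 := hft ⟨c, hc⟩
      rw [Finset.mem_sigma, hcv] at h1
      exact h1.2
    · intro c hc c' hc' hcc
      rw [Finset.mem_coe, Finset.mem_filter] at hc hc'
      obtain ⟨hc, hcv⟩ := hc
      obtain ⟨hc', hcv'⟩ := hc'
      simp only [hc, hc', dif_pos] at hcv hcv' hcc
      have h1 : f ⟨c, hc⟩ = f ⟨c', hc'⟩ := by
        rw [Sigma.ext_iff]
        exact ⟨hcv.trans hcv'.symm, heq_of_eq hcc⟩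
      exact congrArg Subtype.val (hf h1)

/-- PROOF. `k v = 2 * n v - (W.filter (fun c => i c = v)).card` (`Finsupp.equivFunOnFinite`). The degrees: `W.card + k.degree = 2 * n.degree`. -/
theorem exists_compl {i : Ω → X} {n : X →₀ ℕ}
    (h : ∀ v, (W.filter (fun c => i c = v)).card ≤ 2 * n v) :
    ∃ k : X →₀ ℕ, ∑ c ∈ W, Finsupp.single (i c) 1 + k = 2 • n ∧ W.card + k.degree = 2 * n.degree := by
  classical
  obtain ⟨k, hk⟩ : ∃ k : X →₀ ℕ, ∀ v, k v = 2 * n v - (W.filter (fun c => i c = v)).card :=
    ⟨Finsupp.equivFunOnFinite.symm (fun v => 2 * n v - (W.filter (fun c => i c = v)).card),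
      fun v => rfl⟩
  have h1 : ∑ c ∈ W, Finsupp.single (i c) 1 + k = 2 • n := by
    ext v
    have h2 : (∑ c ∈ W, Finsupp.single (i c) 1 : X →₀ ℕ) v
        = (W.filter (fun c => i c = v)).card := by
      rw [Finsupp.finsetSum_apply, Finset.card_filter]
      refine Finset.sum_congr rfl fun c _ => ?_
      rw [Finsupp.single_apply]
    rw [Finsupp.add_apply, h2, hk, Finsupp.smul_apply, smul_eq_mul]
    have := h v
    omega
  refine ⟨k, h1, ?_⟩
  have h3 := congrArg Finsupp.degree h1
  simpa using h3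

end Pool.Agent.LocH.Sub
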