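import Pool.Agent.LocH.PP
import Pool.Agent.LocH.Mtch
import Pool.Agent.LocH.Grd

/-! LH-I3: the consequence of the identity: a generalised anisotropy. -/

set_option autoImplicit false

open Finset

namespace Pool.Agent.LocH.Sub

variable {X Ω : Type} [Fintype X] [DecidableEq X] [Fintype Ω] [DecidableEq Ω] (S : Sub X Ω)
  {W : Finset Ω}

/-- The trace is linear: a sum of monomials. -/
private theorem tr_sum (W : Finset Ω) {κ : Type} (s : Finset κ) (f : κ → S.T) :
    S.Tr W (∑ k ∈ s, f k) = ∑ k ∈ s, S.Tr W (f k) := map_sum _ _ _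

private theorem mon_eq (a : S.K) (m : X →₀ ℕ) :
    (MvPolynomial.monomial m a : S.T) = a • MvPolynomial.monomial m (1 : S.K) := by
  rw [MvPolynomial.smul_monomial, smul_eq_mul, mul_one]

private theorem tr_g (W : Finset Ω) (g : S.T) (m : X →₀ ℕ) :
    S.Tr W (g * MvPolynomial.monomial m 1) =
      ∑ p ∈ g.support, g.coeff p * S.Tr W (MvPolynomial.monomial (m + p) 1) := by
  conv_lhs => rw [g.as_sum]
  rw [Finset.sum_mul, tr_sum]
  refine Finset.sum_congr rfl fun p _ => ?_
  rw [MvPolynomial.monomial_mul, mul_one, mon_eq, map_smul, smul_eq_mul, add_comm p m]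

private theorem sq_g (g : S.T) :
    g * g = ∑ p ∈ g.support, MvPolynomial.monomial (2 • p) (g.coeff p ^ 2) := by
  conv_lhs => rw [← sq, g.as_sum]
  rw [sum_pow_char 2]
  refine Finset.sum_congr rfl fun p _ => ?_
  rw [MvPolynomial.monomial_pow]

private theorem tr_lam (W : Finset Ω) (g : S.T) (k : X →₀ ℕ) :
    S.Tr W (S.lam W * g * (g * MvPolynomial.monomial k 1)) =
      ∑ u ∈ univ.filter (fun v => S.car v ⊆ W), ∑ p ∈ g.support,
        g.coeff p ^ 2 * S.Tr W (MvPolynomial.monomial (Finsupp.single u 1 + k + 2 • p) 1) := by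
  have h1 : S.lam W * g * (g * MvPolynomial.monomial k 1) =
      ∑ u ∈ univ.filter (fun v => S.car v ⊆ W), ∑ p ∈ g.support,
        g.coeff p ^ 2 • MvPolynomial.monomial (Finsupp.single u 1 + k + 2 • p) (1 : S.K) := by
    have h2 : S.lam W * g * (g * MvPolynomial.monomial k 1) =
        S.lam W * (g * g * MvPolynomial.monomial k 1) := by ring
    rw [h2, sq_g, lam, Finset.sum_mul]
    refine Finset.sum_congr rfl fun u _ => ?_
    rw [Finset.sum_mul, Finset.mul_sum]
    refine Finset.sum_congr rfl fun p _ => ?_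
    rw [← mon_eq, MvPolynomial.monomial_mul, mul_one, MvPolynomial.X, MvPolynomial.monomial_mul,
      one_mul]
    congr 1
    congr 1
    abel
  rw [h1, tr_sum]
  refine Finset.sum_congr rfl fun u _ => ?_
  rw [tr_sum]
  refine Finset.sum_congr rfl fun p _ => ?_
  rw [map_smul, smul_eq_mul]

/-- PROOF. Let `D = W.card`, `i` and `k` as in `exists_match`, `exists_compl` for `m`: `xI + k = 2 • m` with `xI = ∑ c ∈ W, single (i c) 1`, and
`k.degree = 2 * (D - j) - D = D - 2 * j ≥ 1`. If `m.support ∉ S.fcs W` then `g * monomial m 1 ∈ I W` and the trace is `0` (`Tr_I`). Otherwise let `v` with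
`k v ≥ 1`, `k = single v 1 + k'`; then `m v ≥ 1` (`2 * m v ≥ k v`), so `v ∈ m.support` and `S.car v ⊆ W`. `y = g * monomial k' 1` is in `J W W` and in
`H (D - (j + 1))`, so by `hl` `0 = Tr W (lam W * g * y) = Tr W (lam W * g ^ 2 * monomial k' 1)`. Write `g = ∑ p, g_p * x^p` (`MvPolynomial.as_sum`):
`g ^ 2 = ∑ p, g_p ^ 2 * x^(2 p)` (characteristic `2`), so `0 = ∑ u, ∑ p, g_p ^ 2 * Tr W (x^(u + k' + 2 p))`, `u` over the vertices with `S.car u ⊆ W`. Apply
`DI i W.toList` (`DI_zero`, `DI_sum`, `DI_sq_mul`): the term of `u`, `p` is `g_p ^ 2 * DI (Tr W (x^(u + k' + 2 p)))` and `xI + (u + k' + 2 p) = 2 (m + p) + u - v`. For `u ≠ v` this is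
not of the form `2 • n` (the exponent at `u` is odd: the exponents of `xI + k' + single u 1` and `2 • m - single v 1 + single u 1` agree), so the term is `0`
(`pp_non`); for `u = v` it is `2 • (m + p)` and the term is `g_p ^ 2 * Tr W (x^(m + p)) ^ 2` (`pp_sq`). So `0 = (∑ p, g_p * Tr W (x^(m + p))) ^ 2 = (Tr W (g * x^m)) ^ 2`. -/
theorem an {j : ℕ} (hj : 2 * j < W.card) {g : S.T} (hg : g ∈ S.J W W) (hn : g ∈ S.H j)
    (hl : S.lam W * g ∈ S.N W (j + 1)) {m : X →₀ ℕ} (hm : S.Good W m)
    (hd : m.degree = W.card - j) : S.Tr W (g * MvPolynomial.monomial m 1) = 0 := by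
  classical
  have hW : W.Nonempty := by
    rw [← Finset.card_pos]; omega
  obtain ⟨i, hi, hic⟩ := S.exists_match hW hm
  obtain ⟨k, hk, hkd⟩ := exists_compl hic
  by_cases hs : m.support ∈ S.fcs W
  swap
  · refine S.Tr_I (S.mul_I ?_ g)
    rw [mem_I]
    intro m' hm'
    have := MvPolynomial.support_monomial_subset hm'
    rw [Finset.mem_singleton] at this
    rw [this]
    exact hs
  have hk0 : k ≠ 0 := by
    rintro rfl
    have : (0 : X →₀ ℕ).degree = 0 := map_zero _
    omega
  obtain ⟨v, hv⟩ := Finsupp.ne_iff.1 hk0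
  rw [Finsupp.coe_zero, Pi.zero_apply] at hv
  have hle : Finsupp.single v 1 ≤ k := by
    rw [Finsupp.single_le_iff]
    omega
  obtain ⟨k', hk'⟩ := exists_add_of_le hle
  have hmv : 1 ≤ m v := by
    have h1 := DFunLike.congr_fun hk v
    simp only [Finsupp.coe_add, Pi.add_apply, Finsupp.coe_smul, Pi.smul_apply, smul_eq_mul] at h1
    omega
  have hvW : S.car v ⊆ W := by
    have h1 : v ∈ m.support := by
      rw [Finsupp.mem_support_iff]; omega
    exact (Finset.subset_biUnion_of_mem S.car h1).trans (Finset.mem_filter.1 hs).2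
  have hkd' : k'.degree + 1 = k.degree := by
    rw [hk', map_add, Finsupp.degree_single]
    omega
  have hy : g * MvPolynomial.monomial k' 1 ∈ S.H (W.card - (j + 1)) := by
    have h1 := S.mul_H hn (MvPolynomial.isHomogeneous_monomial (1 : S.K)
      (rfl : k'.degree = k'.degree))
    have h2 : j + k'.degree = W.card - (j + 1) := by omega
    rw [h2] at h1
    exact h1
  have hy' : g * MvPolynomial.monomial k' 1 ∈ S.J W W := by
    rw [mul_comm]
    exact S.mul_J hg _
  have h0 := hl.2.2 _ hy' hy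
  rw [tr_lam] at h0
  have h3 := congrArg (S.DI i W.toList) h0
  rw [DI_zero, DI_sum] at h3
  simp only [DI_sum, DI_sq_mul] at h3
  have hlist : W.toList.toFinset = W := Finset.toList_toFinset W
  have h4 : ∀ u ∈ univ.filter (fun v => S.car v ⊆ W), ∑ p ∈ g.support, g.coeff p ^ 2 *
      S.DI i W.toList (S.Tr W (MvPolynomial.monomial (Finsupp.single u 1 + k' + 2 • p) 1)) =
      if u = v then ∑ p ∈ g.support, g.coeff p ^ 2 *
        S.Tr W (MvPolynomial.monomial (m + p) 1) ^ 2 else 0 := by
    intro u _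
    split_ifs with huv
    · refine Finset.sum_congr rfl fun p _ => ?_
      rw [S.pp_sq i hi W.toList W.nodup_toList hlist (n := m + p)]
      rw [huv, ← add_assoc, ← hk', hk, smul_add]
    · refine Finset.sum_eq_zero fun p _ => ?_
      rw [S.pp_non i hi W.toList W.nodup_toList hlist, mul_zero]
      intro n hn'
      have h5 := DFunLike.congr_fun hn' u
      have h6 := DFunLike.congr_fun hk u
      rw [hk'] at h6
      simp only [Finsupp.coe_add, Pi.add_apply, Finsupp.coe_smul, Pi.smul_apply, smul_eq_mul,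
        Finsupp.single_eq_same] at h5 h6
      rw [Finsupp.single_eq_of_ne huv] at h6
      omega
  rw [Finset.sum_congr rfl h4, Finset.sum_ite_eq' , if_pos (by simpa using hvW)] at h3
  have h7 : S.Tr W (g * MvPolynomial.monomial m 1) ^ 2 = 0 := by
    rw [tr_g, sum_pow_char 2, ← h3]
    exact Finset.sum_congr rfl fun p _ => by rw [mul_pow]
  exact pow_eq_zero_iff (two_ne_zero) |>.1 h7

theorem an_GS {j : ℕ} (hj : 2 * j < W.card) {g : S.T} (hg : g ∈ S.J W W) (hn : g ∈ S.H j)
    (hl : S.lam W * g ∈ S.N W (j + 1)) {y : S.T} (hy : y ∈ S.GS W (W.card - j)) :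
    S.Tr W (g * y) = 0 := by
  rw [y.as_sum, Finset.mul_sum, tr_sum]
  refine Finset.sum_eq_zero fun p hp => ?_
  have h1 := (MvPolynomial.mem_restrictSupport_iff S.K).1 hy hp
  rw [mon_eq, mul_smul_comm, map_smul, an S hj hg hn hl h1.1 h1.2, smul_zero]

end Pool.Agent.LocH.Sub
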