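import Pool.Agent.LocH.ND
import Pool.Agent.LocH.An

/-! LH-I4: injectivity of the multiplication by `lam W` and the inequality of the coefficients. -/

set_option autoImplicit false

open Finset

namespace Pool.Agent.LocH.Sub

variable {X Ω : Type} [Fintype X] [DecidableEq X] [Fintype Ω] [DecidableEq Ω] (S : Sub X Ω)
  {W : Finset Ω}

private theorem cor_lam : S.lam W ∈ S.H 1 :=
  Submodule.sum_mem _ fun v _ => (MvPolynomial.mem_homogeneousSubmodule _ _).2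
    (MvPolynomial.isHomogeneous_X S.K v)

private theorem cor_fg (A : Submodule S.K S.T) (n : ℕ) : (A ⊓ S.H n).FG := by
  have : Module.Finite S.K (S.H n) :=
    Module.Finite.iff_fg.2 (MvPolynomial.homogeneousSubmodule_fg X S.K n)
  have : Module.Finite S.K (A ⊓ S.H n : Submodule S.K S.T) :=
    Submodule.finiteDimensional_of_le inf_le_right
  exact Module.Finite.iff_fg.1 this

private theorem cor_GS {n : ℕ} {s : S.T} (hs : s ∈ S.GS W n) : s ∈ S.H n := by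
  rw [s.as_sum]
  refine Submodule.sum_mem _ fun m hm => ?_
  have h1 := (MvPolynomial.mem_restrictSupport_iff S.K).1 hs (Finset.mem_coe.2 hm)
  exact (MvPolynomial.mem_homogeneousSubmodule _ _).2
    (MvPolynomial.isHomogeneous_monomial _ h1.2)

/-- PROOF. By `hD.hL` the coefficients are the dimensions of `(J ⊓ H i).map mkQ` and `(J ⊓ H (i +
1)).map mkQ` (`mkQ` modulo `B = I W ⊔ thm W ⊤`). The multiplication by `lam W` maps `J W W ⊓ H i`
to `J W W ⊓ H (i + 1)` and `B` to `B` (`mul_J`, `mul_I`, `thm_mul`), so it induces a linear map of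
the quotient by `B` (`Submodule.mapQ`) which maps the first space into the second. It is injective
on the first space: if `g ∈ J W W ⊓ H i` and `lam W * g ∈ B` then `lam W * g ∈ N W (i + 1)` (`nd'`,
`i + 1 ≤ W.card`), so `g ∈ N W i ⊆ B` (`hinj`, `nd`). So the dimensions satisfy `≤`
(`LinearMap.finrank_le_of_injective` or `Submodule.finrank_map`...). -/
theorem step_of_inj (hT : S.Top S.K) (hD : S.Dim) {i : ℕ} (hi : 2 * i < W.card)
    (hinj : ∀ g ∈ S.J W W, g ∈ S.H i → S.lam W * g ∈ S.N W (i + 1) → g ∈ S.N W i) :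
    (S.ell W).coeff i ≤ (S.ell W).coeff (i + 1) := by
  rw [← hD.hL, ← hD.hL, Nat.cast_le]
  have hB : S.I W ⊔ S.thm W ⊤ ≤
      (S.I W ⊔ S.thm W ⊤).comap (LinearMap.mulLeft S.K (S.lam W)) := by
    intro f hf
    obtain ⟨a, ha, b, hb, rfl⟩ := Submodule.mem_sup.1 hf
    rw [Submodule.mem_comap, LinearMap.mulLeft_apply, mul_add]
    exact Submodule.add_mem_sup (S.mul_I ha _)
      (S.thm_mul (fun _ _ _ => Submodule.mem_top) hb _)
  let φ := (S.I W ⊔ S.thm W ⊤).mapQ (S.I W ⊔ S.thm W ⊤) (LinearMap.mulLeft S.K (S.lam W)) hB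
  have hφ : ∀ g : S.T, φ ((S.I W ⊔ S.thm W ⊤).mkQ g) =
      (S.I W ⊔ S.thm W ⊤).mkQ (S.lam W * g) := fun g => rfl
  have hH : ∀ g ∈ S.H i, S.lam W * g ∈ S.H (i + 1) := by
    intro g hg
    rw [add_comm i 1]
    exact S.mul_H (cor_lam S) hg
  have hmap : ∀ x ∈ (S.J W W ⊓ S.H i).map (S.I W ⊔ S.thm W ⊤).mkQ,
      φ x ∈ (S.J W W ⊓ S.H (i + 1)).map (S.I W ⊔ S.thm W ⊤).mkQ := by
    rintro _ ⟨g, hg, rfl⟩
    exact ⟨S.lam W * g, ⟨S.mul_J hg.1 _, hH g hg.2⟩, (hφ g).symm⟩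
  have hfin : Module.Finite S.K ((S.J W W ⊓ S.H (i + 1)).map (S.I W ⊔ S.thm W ⊤).mkQ) :=
    Module.Finite.iff_fg.2 ((cor_fg S (S.J W W) (i + 1)).map _)
  refine LinearMap.finrank_le_finrank_of_injective (f := φ.restrict hmap) ?_
  rw [← LinearMap.ker_eq_bot, LinearMap.ker_eq_bot']
  rintro ⟨x, hx⟩ h0
  obtain ⟨g, hg, rfl⟩ := hx
  have h1 : S.lam W * g ∈ S.I W ⊔ S.thm W ⊤ := by
    have h2 := congrArg Subtype.val h0
    change φ ((S.I W ⊔ S.thm W ⊤).mkQ g) = 0 at h2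
    rw [hφ, Submodule.mkQ_apply, Submodule.Quotient.mk_eq_zero] at h2
    exact h2
  have h3 := S.nd' hT (by omega) (S.mul_J hg.1 _) (hH g hg.2) h1
  have h4 := S.nd hT hD (by omega) (hinj g hg.1 hg.2 h3)
  refine Subtype.ext ?_
  change (S.I W ⊔ S.thm W ⊤).mkQ g = 0
  rw [Submodule.mkQ_apply, Submodule.Quotient.mk_eq_zero]
  exact h4

/-- PROOF. `step_of_inj`. Let `g ∈ J W W ⊓ H i`, `lam W * g ∈ N W (i + 1)`, `D = W.card`, `y ∈ J W
W ⊓ H (D - i)`. By `hs` `y = s + b` with `s ∈ GS W (D - i)`, `b ∈ I W ⊔ thm W ⊤`, and `b = y - s ∈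
H (D - i)`. `Tr W (g * s) = 0` by `an_GS`. `D - i ≥ 1`; by `split_succ` `b = ∑ c ∈ W, th c * f c`
modulo `I W` with `f c ∈ H (D - i - 1)`, so `Tr W (g * b) = ∑ t c * Tr W (g * f c) = 0` (`Tr_th`,
`Tr_I`, `res`: `g * f c ∈ J W W` has the degree `D - 1`). So `g ∈ N W i`. -/
theorem step_of_span (hT : S.Top S.K) (hD : S.Dim) {i : ℕ} (hi : 2 * i < W.card)
    (hs : S.J W W ⊓ S.H (W.card - i) ≤ S.GS W (W.card - i) ⊔ (S.I W ⊔ S.thm W ⊤)) :
    (S.ell W).coeff i ≤ (S.ell W).coeff (i + 1) := by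
  refine S.step_of_inj hT hD hi fun g hg hn hl => ⟨hg, hn, fun y hy hyD => ?_⟩
  obtain ⟨s, hsG, b, hb, rfl⟩ := Submodule.mem_sup.1 (hs ⟨hy, hyD⟩)
  obtain ⟨k, hk⟩ : ∃ k, W.card - i = k + 1 := ⟨W.card - i - 1, by omega⟩
  have hbH : b ∈ S.H (k + 1) := by
    rw [← hk]
    have h1 := Submodule.sub_mem _ hyD (cor_GS S hsG)
    rwa [add_sub_cancel_left] at h1
  obtain ⟨f, hf, hI⟩ := S.split_succ S.grd_top hb hbH
  rw [mul_add, map_add, S.an_GS hi hg hn hl hsG, zero_add]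
  have h1 : g * b = g * (b - ∑ c ∈ W, S.th c * f c) + ∑ c ∈ W, S.th c * (f c * g) := by
    have h2 : ∑ c ∈ W, S.th c * (f c * g) = (∑ c ∈ W, S.th c * f c) * g := by
      rw [Finset.sum_mul]
      exact Finset.sum_congr rfl fun c _ => (mul_assoc _ _ _).symm
    rw [h2]
    ring
  rw [h1, map_add, S.Tr_I (S.mul_I hI g), zero_add, map_sum]
  refine Finset.sum_eq_zero fun c hc => ?_
  rw [S.Tr_th hc, S.res hT (S.mul_J hg (f c)) (S.mul_H (hf c hc).2 hn) (by omega), mul_zero]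

end Pool.Agent.LocH.Sub
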