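import Pool.Agent.LocH.Ind

/-! LH-F4: the coordinates of the generic point in the cone of a facet; the dual basis.

For a facet `σ` of `Γ_W` choose an equivalence `e : {v // v ∈ σ} ≃ {c // c ∈ W}` (the
cardinalities are equal); `A = (a_(e.symm c, c'))` is a square matrix with index set
`{c // c ∈ W}`. -/

set_option autoImplicit false

open Finset

namespace Pool.Agent.LocH.Sub

variable {X Ω : Type} [Fintype X] [DecidableEq X] [Fintype Ω] [DecidableEq Ω] (S : Sub X Ω)
  {W : Finset Ω} {σ : Finset X}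

theorem mem_fac : σ ∈ S.fac W ↔ σ ∈ S.Gam ∧ S.cr σ = W ∧ σ.card = W.card := by
  simp [fac, st]

theorem car_sub (hσ : σ ∈ S.fac W) {v : X} (hv : v ∈ σ) : S.car v ⊆ W := by
  rw [← (S.mem_fac.1 hσ).2.1]
  exact Finset.subset_biUnion_of_mem S.car hv

/-- A sum over all vertices of a function vanishing outside `σ`: `∑ v, a v c * x v = 0` for all
`c ∈ W` gives `x = 0` (`indep`). -/
theorem uniq (hσ : σ ∈ S.fac W) {x : X → S.K} (hx : ∀ v ∉ σ, x v = 0)
    (h : ∀ c ∈ W, ∑ v, S.a v c * x v = 0) : x = 0 := by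
  have h1 := S.mem_fac.1 hσ
  refine S.indep h1.1 hx fun c hc => h c ?_
  rwa [h1.2.1] at hc

/-- `S.q σ v = 0` for `v ∉ σ` (for every `σ`: by definition). -/
theorem q_out {v : X} (hv : v ∉ σ) : S.q σ v = 0 := by
  unfold q
  split_ifs with h
  · exact h.choose_spec.1 v hv
  · rfl

/-- A function on `σ`, extended by zero. -/
private def qpE (σ : Finset X) {K : Type} [Zero K] (x : {v // v ∈ σ} → K) (v : X) : K :=
  if h : v ∈ σ then x ⟨v, h⟩ else 0

omit [Fintype X] in
private lemma qpE_out {K : Type} [Zero K] (x : {v // v ∈ σ} → K) {v : X} (h : v ∉ σ) :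
    qpE σ x v = 0 := by
  unfold qpE
  rw [dif_neg h]

omit [Fintype X] in
private lemma qpE_in {K : Type} [Zero K] (x : {v // v ∈ σ} → K) (v : {v // v ∈ σ}) :
    qpE σ x v.1 = x v := by
  unfold qpE
  rw [dif_pos v.2]

private lemma qp_sum {K : Type} [Field K] (f g : X → K) (hg : ∀ v ∉ σ, g v = 0) :
    ∑ v, f v * g v = ∑ v : {v // v ∈ σ}, f v * g v := by
  rw [Finset.univ_eq_attach, Finset.sum_attach σ (fun v => f v * g v)]
  symm
  apply Finset.sum_subset (Finset.subset_univ σ)
  intro v _ hv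
  rw [hg v hv, mul_zero]

/-- PROOF. The matrix `A` is invertible: by `uniq` its left kernel is `0`
(`Matrix.exists_vecMul_eq_zero_iff` / `Matrix.det_ne_zero_iff`...), so the system has a
solution, extended by `0` outside `σ`; then `Exists.choose_spec`. -/
theorem q_spec (hσ : σ ∈ S.fac W) {c : Ω} (hc : c ∈ W) : ∑ v, S.a v c * S.q σ v = S.t c := by
  have h1 := S.mem_fac.1 hσ
  have hex : ∃ x : X → S.K, (∀ v ∉ σ, x v = 0) ∧ ∀ c ∈ S.cr σ, ∑ v, S.a v c * x v = S.t c := by
    let L : ({v // v ∈ σ} → S.K) →ₗ[S.K] ({c // c ∈ W} → S.K) :=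
      { toFun := fun x c => ∑ v : {v // v ∈ σ}, S.a v c * x v
        map_add' := fun x y => by
          funext c
          simp only [Pi.add_apply, mul_add, Finset.sum_add_distrib]
        map_smul' := fun r x => by
          funext c
          simp only [Pi.smul_apply, smul_eq_mul, RingHom.id_apply, Finset.mul_sum]
          exact Finset.sum_congr rfl fun v _ => mul_left_comm _ _ _ }
    have hinj : Function.Injective L := by
      rw [← LinearMap.ker_eq_bot, LinearMap.ker_eq_bot']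
      intro x hx
      have h2 : qpE σ x = 0 := by
        refine S.uniq hσ (fun v hv => qpE_out x hv) fun c hc => ?_
        rw [qp_sum (σ := σ) _ _ fun v hv => qpE_out x hv]
        have h3 := congrFun hx ⟨c, hc⟩
        simp only [qpE_in]
        exact h3
      funext v
      have h3 := congrFun h2 v.1
      rw [qpE_in] at h3
      exact h3
    have hsurj : Function.Surjective L := by
      refine (LinearMap.injective_iff_surjective_of_finrank_eq_finrank ?_).1 hinj
      rw [Module.finrank_fintype_fun_eq_card, Module.finrank_fintype_fun_eq_card,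
        Fintype.card_coe, Fintype.card_coe, h1.2.2]
    obtain ⟨x, hx⟩ := hsurj fun c => S.t c
    refine ⟨qpE σ x, fun v hv => qpE_out x hv, fun c hc => ?_⟩
    rw [h1.2.1] at hc
    rw [qp_sum (σ := σ) _ _ fun v hv => qpE_out x hv]
    have h3 := congrFun hx ⟨c, hc⟩
    simp only [qpE_in]
    exact h3
  unfold q
  rw [dif_pos hex]
  exact hex.choose_spec.2 c (h1.2.1 ▸ hc)

private lemma qp_pt (c d : Ω) (y : X → S.K) :
    S.pt c (∑ v, S.a v d * y v) = ∑ v, S.a v d * S.pt c (y v) := by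
  rw [S.pt_sum]
  apply Finset.sum_congr rfl
  intro v _
  rw [S.pt_mul, S.pt_a, mul_zero, add_zero]

/-- PROOF. Apply `pt c` to `q_spec` (`pt_a`, `pt_t`). -/
theorem q_pt (hσ : σ ∈ S.fac W) {c : Ω} (hc : c ∈ W) (c' : Ω) :
    ∑ v, S.a v c * S.pt c' (S.q σ v) = if c' = c then 1 else 0 := by
  rw [← qp_pt, S.q_spec hσ hc, S.pt_t]

/-- PROOF. By `q_pt` the matrix `B = (pt c (q σ v))` satisfies `B * A = 1` on `{c // c ∈ W}` (rows
and columns indexed with `e`), so `A * B = 1` (`Matrix.mul_eq_one_comm`). -/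
theorem om_spec (hσ : σ ∈ S.fac W) {u v : X} (hu : u ∈ σ) (hv : v ∈ σ) :
    ∑ c ∈ W, S.pt c (S.q σ v) * S.a u c = if u = v then 1 else 0 := by
  have h1 := S.mem_fac.1 hσ
  let A : Matrix {c // c ∈ W} {v // v ∈ σ} S.K := Matrix.of fun c v => S.a v.1 c.1
  let B : Matrix {v // v ∈ σ} {c // c ∈ W} S.K := Matrix.of fun v c => S.pt c.1 (S.q σ v.1)
  have hAB : A * B = 1 := by
    ext c c'
    rw [Matrix.mul_apply, Matrix.one_apply]
    have h2 := S.q_pt hσ c.2 c'.1
    rw [qp_sum (σ := σ) _ _ fun v hv => by rw [S.q_out hv, S.pt_zero]] at h2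
    simp only [A, B, Matrix.of_apply]
    rw [h2]
    by_cases h : c = c'
    · rw [if_pos h, if_pos (by rw [h])]
    · rw [if_neg h, if_neg fun h' => h (Subtype.ext h'.symm)]
  have hBA : B * A = 1 := by
    rw [Matrix.mul_eq_one_comm_of_card_eq]
    · exact hAB
    · rw [Fintype.card_coe, Fintype.card_coe, h1.2.2]
  have h3 := congrFun (congrFun hBA ⟨v, hv⟩) ⟨u, hu⟩
  rw [Matrix.mul_apply, Matrix.one_apply] at h3
  simp only [A, B, Matrix.of_apply] at h3
  rw [Finset.univ_eq_attach, Finset.sum_attach W (fun c => S.pt c (S.q σ v) * S.a u c)] at h3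
  rw [h3]
  by_cases h : u = v
  · rw [if_pos h, if_pos (by simp [h])]
  · rw [if_neg h, if_neg fun h' => h (Subtype.ext_iff.1 h').symm]

/-- PROOF. Apply `pt c'` to `q_pt` (if `c ∉ W` first: `pt c (q σ v) = 0` for all `v`, by `uniq` and
`q_pt`), then `uniq`. -/
theorem pt_pt_q (hσ : σ ∈ S.fac W) (c c' : Ω) (v : X) : S.pt c (S.pt c' (S.q σ v)) = 0 := by
  have h : (fun v => S.pt c (S.pt c' (S.q σ v))) = 0 := by
    refine S.uniq hσ (fun v hv => ?_) fun d hd => ?_
    · rw [S.q_out hv, S.pt_zero, S.pt_zero]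
    · rw [← qp_pt, S.q_pt hσ hd c']
      split_ifs
      · exact S.pt_one c
      · exact S.pt_zero c
  exact congrFun h v

/-- PROOF. `t c = ∑ u, a u c * q u`, exchange the sums, `om_spec` (and `q_out`). -/
theorem q_eul (hσ : σ ∈ S.fac W) {v : X} (hv : v ∈ σ) :
    ∑ c ∈ W, S.pt c (S.q σ v) * S.t c = S.q σ v := by
  have h1 : ∑ c ∈ W, S.pt c (S.q σ v) * S.t c =
      ∑ u, (∑ c ∈ W, S.pt c (S.q σ v) * S.a u c) * S.q σ u := by
    simp only [Finset.sum_mul]
    rw [Finset.sum_comm]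
    apply Finset.sum_congr rfl
    intro c hc
    rw [← S.q_spec hσ hc, Finset.mul_sum]
    exact Finset.sum_congr rfl fun u _ => (mul_assoc _ _ _).symm
  rw [h1, Finset.sum_eq_single v]
  · rw [S.om_spec hσ hv hv, if_pos rfl, one_mul]
  · intro u _ huv
    by_cases hu : u ∈ σ
    · rw [S.om_spec hσ hu hv, if_neg huv, zero_mul]
    · rw [S.q_out hu, mul_zero]
  · intro h
    exact absurd (Finset.mem_univ v) h

/-- PROOF. If `q σ v = 0` then all `pt c (q σ v) = 0`, and `om_spec` with `u = v` says `0 = 1`. -/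
theorem q_ne (hσ : σ ∈ S.fac W) {v : X} (hv : v ∈ σ) : S.q σ v ≠ 0 := by
  intro h
  have h1 := S.om_spec hσ hv hv
  rw [h, if_pos rfl] at h1
  simp only [S.pt_zero, zero_mul, Finset.sum_const_zero] at h1
  exact zero_ne_one h1

end Pool.Agent.LocH.Sub
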