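import Pool.Agent.LocH.GFin
import Pool.Agent.LocH.Cor
import Pool.Agent.LocH.Bridge
import Pool.Agent.LocH.An
import Pool.Agent.LocH.Res
import Pool.Agent.LocH.TrB
import Pool.Agent.LocH.Qp

/-!
# MP_230912_co: the inequalities for vertex induced homology subdivisions

The assembly of the parts P2 to P6 of `/team-store/LHV_proof.md`, and the change of the field of
coefficients from `ZMod 2` to a field of characteristic `2`.
-/

set_option autoImplicit false

open Finset

namespace Pool.Agent.LocH.Sub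

variable {X Ω : Type} [Fintype X] [DecidableEq X] [Fintype Ω] [DecidableEq Ω] (S : Sub X Ω)

theorem trP (hT : S.Top S.K) : S.TrP where
  th := fun _ _ hc f => S.Tr_th hc f
  I := fun _ _ hf => S.Tr_I hf
  res := fun _ _ hn _ hf hf' => S.res hT hf hf' hn
  an := fun _ _ hj _ hg hg' hl _ hm hd => S.an hj hg hg' hl hm hd

theorem qp : S.Qp := fun _ _ hσ =>
  ⟨fun _ hc => S.q_spec hσ hc, fun _ hv => S.q_out hv, fun _ hv => S.q_ne hσ hv, S.dA_ne hσ⟩

/-- The five inequalities. -/
theorem all (hT : S.Top S.K) (A : Finset Ω) :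
    (1 ≤ A.card → (S.ell A).coeff 0 ≤ (S.ell A).coeff 1) ∧
    (3 ≤ A.card → (S.ell A).coeff 1 ≤ (S.ell A).coeff 2) ∧
    (5 ≤ A.card → (S.ell A).coeff 2 ≤ (S.ell A).coeff 3) ∧
    (7 ≤ A.card → (S.ell A).coeff 3 ≤ (S.ell A).coeff 4) ∧
    ((∀ v : X, S.car v ⊆ A → (S.car v).card = 1 ∨ A.card ≤ (S.car v).card + 2) →
      ∀ i : ℕ, 2 * i < A.card → (S.ell A).coeff i ≤ (S.ell A).coeff (i + 1)) :=
  S.main hT S.qp (S.trP hT) (fun _ _ hi h => S.step_of_inj hT (dim hT) hi h) A

/-- The first four steps. -/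
theorem first_steps (hT : S.Top S.K) (A : Finset Ω) (i : ℕ) (hi : i ≤ 3) (h : 2 * i < A.card) :
    (S.ell A).coeff i ≤ (S.ell A).coeff (i + 1) := by
  obtain ⟨h0, h1, h2, h3, -⟩ := S.all hT A
  interval_cases i
  · exact h0 (by omega)
  · exact h1 (by omega)
  · exact h2 (by omega)
  · exact h3 (by omega)

end Pool.Agent.LocH.Sub
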