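import Pool.Agent.LocH.GC2

/-!
# Package GC3: LEMMA C (P6.4 of `/team-store/LHV_proof.md`)

`D = A.card ≥ 4`, `M ∈ S.st A ∅ (D - 1)`. Suppose `mo (ch M) ∉ BC A`. There is a linear functional `f` on `S.T`
with `f (mo (ch M)) ≠ 0` and `f = 0` on `BC A` (`Submodule.exists_le_ker_of_notMem`). Let
`α M' = f (mo (ch M'))`.
Hypothesis `h1` of `pl_lemma`: `F ∈ S.st A ∅ (D - 2)`, `ω` vanishes on `F`: `f` vanishes on
`∑ c ∈ A, ω c • (th c * mo (ch F))` (`BC_int`), which is `∑ u, lf A ω u • mo (ch F + single u 1)` (`form_mul`);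
the terms with `u ∈ F` have coefficient zero; for `u ∉ F` the monomial is `mo (ch (insert u F))`, in `S.I A ≤
BC A` unless `insert u F ∈ S.fcs A`.
Hypothesis `h2`: the same with `th j * mo (ch F) ∈ BC A` (`XC_edge`, `th_mul_BC`); `a u j ≠ 0` only if
`j ∈ car u`, and then `u ∉ F`.
So `pl_lemma` gives `g`; let `P = ∑ v, C (g v) * X v`, `f (mo (ch M')) = Tr A (P * mo (ch M'))` for all interior
ridges `M'`. By `claim` and `lam_mul_mo`: `Tr A (P * (lam A * mo n)) = f (lam A * mo n) = 0` for all `n` with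
`GG A n` (`GG_Gd`, `lam_mul_BC`). Also `Tr A (P * (lam A * y)) = 0` for `y ∈ S.I A`, and for `y = th c * z`,
`c ∈ A`, `z` homogeneous of degree `D - 3` (it is `t c * Tr A (P * lam A * z)`, and `P * lam A * z ∈ S.J A A`
has degree `D - 1 < D`, `res`). By `span_two` every `y ∈ S.J A A ⊓ S.H (D - 2)` is a sum of such elements;
here the elements of `S.thm A ⊤` must be taken homogeneous: apply the projection to the component of
degree `D - 2` (`MvPolynomial.homogeneousComponent`), which maps `S.thm A ⊤` to the span of the `th c * z`,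
`z ∈ S.H (D - 3)`, and preserves `S.I A` and the span of the `mo n`. So
`lam A * P ∈ S.N A 2` (`P ∈ S.J A A`, since `g v ≠ 0` only if `car v = A`). By `TrP.an` with `i = 1`
(`2 < D`): `Tr A (P * mo n) = 0` for every good `n` of degree `D - 1`; the `ch M'` are good (`good_one`,
`Good_of_Gd`). So `f (mo (ch M)) = 0`, contradiction.
-/

set_option autoImplicit false

open Finset

namespace Pool.Agent.LocH.Sub

variable {X Ω : Type} [Fintype X] [DecidableEq X] [Fintype Ω] [DecidableEq Ω] (S : Sub X Ω)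

private theorem hc_th (c : Ω) (z : S.T) (k : ℕ) :
    MvPolynomial.homogeneousComponent (k + 1) (S.th c * z) =
      S.th c * MvPolynomial.homogeneousComponent k z := by
  have hth : S.th c ∈ S.H 1 := by
    unfold th
    refine Submodule.sum_mem _ fun v _ => ?_
    have h1 : (MvPolynomial.C (S.a v c) * MvPolynomial.X v : S.T) = S.a v c • MvPolynomial.X v := by
      rw [MvPolynomial.smul_eq_C_mul]
    rw [h1]
    exact Submodule.smul_mem _ _ (MvPolynomial.isHomogeneous_X _ v)
  have hmul : ∀ i, S.th c * MvPolynomial.homogeneousComponent i z ∈ S.H (i + 1) := by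
    intro i
    have h1 := MvPolynomial.IsHomogeneous.mul ((MvPolynomial.mem_homogeneousSubmodule 1 _).1 hth)
      (MvPolynomial.homogeneousComponent_isHomogeneous i z)
    rw [add_comm] at h1
    exact (MvPolynomial.mem_homogeneousSubmodule (i + 1) _).2 h1
  have h2 : S.th c * z = ∑ i ∈ Finset.range (z.totalDegree + 1),
      S.th c * MvPolynomial.homogeneousComponent i z := by
    rw [← Finset.mul_sum, MvPolynomial.sum_homogeneousComponent]
  rw [h2, map_sum]
  have h3 : ∀ i, MvPolynomial.homogeneousComponent (k + 1)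
      (S.th c * MvPolynomial.homogeneousComponent i z) =
      if k = i then S.th c * MvPolynomial.homogeneousComponent i z else 0 := by
    intro i
    rw [MvPolynomial.homogeneousComponent_of_mem (hmul i)]
    by_cases h : k = i
    · rw [if_pos h, if_pos (by rw [h])]
    · rw [if_neg h, if_neg (by omega)]
  rw [Finset.sum_congr rfl fun i _ => h3 i, Finset.sum_ite_eq]
  split_ifs with h
  · rfl
  · rw [Finset.mem_range, not_lt] at h
    rw [MvPolynomial.homogeneousComponent_eq_zero _ _ (by omega), mul_zero]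

private theorem hc_I {A : Finset Ω} {f : S.T} (hf : f ∈ S.I A) (k : ℕ) :
    MvPolynomial.homogeneousComponent k f ∈ S.I A := by
  have h1 := (MvPolynomial.mem_restrictSupport_iff S.K).1 hf
  refine (MvPolynomial.mem_restrictSupport_iff S.K).2 ?_
  rw [MvPolynomial.support_homogeneousComponent]
  exact (Finset.coe_subset.2 (Finset.filter_subset _ _)).trans h1

/-- Homogeneous form of `span_two`. -/
theorem span_two_hom (hT : S.Top S.K) {A : Finset Ω} (hA : 4 ≤ A.card) {y : S.T}
    (hy : y ∈ S.J A A) (hy' : y ∈ S.H (A.card - 2)) :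
    y ∈ Submodule.span S.K {f | ∃ n : X →₀ ℕ, S.GG A n ∧ f = S.mo n} ⊔ S.I A ⊔
      ⨆ c ∈ A, (S.H (A.card - 3)).map (LinearMap.mulLeft S.K (S.th c)) := by
  have h1 := S.span_two hT hA ⟨hy, hy'⟩
  have h2 : MvPolynomial.homogeneousComponent (A.card - 2) y = y := by
    rw [MvPolynomial.homogeneousComponent_of_mem hy', if_pos rfl]
  rw [← h2]
  have h3 : Submodule.span S.K {f | ∃ n : X →₀ ℕ, S.GG A n ∧ f = S.mo n} ⊔ S.I A ⊔ S.thm A ⊤ ≤
      (Submodule.span S.K {f | ∃ n : X →₀ ℕ, S.GG A n ∧ f = S.mo n} ⊔ S.I A ⊔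
        ⨆ c ∈ A, (S.H (A.card - 3)).map (LinearMap.mulLeft S.K (S.th c))).comap
        (MvPolynomial.homogeneousComponent (A.card - 2)) := by
    refine sup_le (sup_le ?_ ?_) ?_
    · rw [Submodule.span_le]
      rintro _ ⟨n, hn, rfl⟩
      have h4 : S.mo n ∈ S.H (A.card - 2) := S.mo_mem_H (S.GG_Gd hA hn).2
      refine Submodule.mem_comap.2 ?_
      rw [MvPolynomial.homogeneousComponent_of_mem h4, if_pos rfl]
      exact Submodule.mem_sup_left (Submodule.mem_sup_left (Submodule.subset_span ⟨n, hn, rfl⟩))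
    · intro f hf
      exact Submodule.mem_sup_left (Submodule.mem_sup_right (S.hc_I hf _))
    · refine iSup₂_le fun c hc => ?_
      rintro _ ⟨z, -, rfl⟩
      refine Submodule.mem_comap.2 ?_
      have h5 : A.card - 2 = A.card - 3 + 1 := by omega
      rw [LinearMap.mulLeft_apply, h5, S.hc_th]
      refine Submodule.mem_sup_right (Submodule.mem_iSup_of_mem c
        (Submodule.mem_iSup_of_mem hc ⟨_, ?_, rfl⟩))
      exact MvPolynomial.homogeneousComponent_mem _ _
  exact h3 h1

private theorem ch_insert {F : Finset X} {u : X} (hu : u ∉ F) :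
    (ch F + Finsupp.single u 1 : X →₀ ℕ) = ch (insert u F) := by
  unfold ch
  rw [Finset.sum_insert hu, add_comm]

private theorem lc_I (A : Finset Ω) : S.I A ≤ S.BC A := le_sup_right

private theorem lc_out {A : Finset Ω} {f : S.T →ₗ[S.K] S.K} (hf : ∀ y ∈ S.BC A, f y = 0)
    {F : Finset X} (hF : F ∉ S.fcs A) : f (S.mo (ch F)) = 0 := by
  refine hf _ (S.lc_I A (S.mo_mem_I.2 ?_))
  rw [ch_support]
  exact hF

private theorem lc_P (g : X → S.K) : (∑ v, MvPolynomial.C (g v) * MvPolynomial.X v : S.T) =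
    ∑ v, g v • S.mo (Finsupp.single v 1) := by
  refine Finset.sum_congr rfl fun v _ => ?_
  rw [MvPolynomial.smul_eq_C_mul]
  rfl

private theorem lc_PJ {A : Finset Ω} {g : X → S.K} (hg : ∀ v, S.car v ≠ A → g v = 0) :
    (∑ v, MvPolynomial.C (g v) * MvPolynomial.X v : S.T) ∈ S.J A A := by
  rw [lc_P]
  refine Submodule.sum_mem _ fun v _ => ?_
  by_cases hv : S.car v = A
  · refine Submodule.smul_mem _ _ (S.mo_mem_J.2 fun _ => ?_)
    rw [Finsupp.support_single v one_ne_zero]
    unfold cr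
    rw [Finset.singleton_biUnion, hv]
  · rw [hg v hv, zero_smul]
    exact Submodule.zero_mem _

private theorem lc_PH (g : X → S.K) :
    (∑ v, MvPolynomial.C (g v) * MvPolynomial.X v : S.T) ∈ S.H 1 := by
  rw [lc_P]
  exact Submodule.sum_mem _ fun v _ => Submodule.smul_mem _ _
    (S.mo_mem_H (Finsupp.degree_single v 1))

private theorem lc_lam (A : Finset Ω) : S.lam A ∈ S.H 1 := by
  unfold lam
  exact Submodule.sum_mem _ fun v _ => MvPolynomial.isHomogeneous_X _ v

private theorem lc_mulH {f g : S.T} {m n : ℕ} (hf : f ∈ S.H m) (hg : g ∈ S.H n) :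
    f * g ∈ S.H (m + n) :=
  MvPolynomial.IsHomogeneous.mul hf hg

/-- LEMMA C. -/
theorem lem_C (hT : S.Top S.K) (hQ : S.Qp) (hP : S.TrP) {A : Finset Ω} (hA : 4 ≤ A.card)
    {M : Finset X} (hM : M ∈ S.st A ∅ (A.card - 1)) : S.mo (ch M) ∈ S.BC A := by
  by_contra hM0
  obtain ⟨f, hf0, hfB⟩ := Submodule.exists_le_ker_of_notMem hM0
  have hf : ∀ y ∈ S.BC A, f y = 0 := fun y hy => LinearMap.mem_ker.1 (hfB hy)
  -- the first hypothesis of the lemma on piecewise linear functions
  have h1 : ∀ F ∈ S.st A ∅ (A.card - 2), ∀ ω : Ω → S.K, (∀ k ∈ F, S.lf A ω k = 0) →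
      ∑ u ∈ univ.filter (fun u => u ∉ F ∧ insert u F ∈ S.fcs A),
        S.lf A ω u * f (S.mo (ch (insert u F))) = 0 := by
    intro F hF ω hω
    have e1 := hf _ (S.BC_int hA hF hω)
    rw [S.form_mul, map_sum] at e1
    rw [Finset.sum_filter]
    refine Eq.trans (Finset.sum_congr rfl fun u _ => ?_) e1
    rw [map_smul, smul_eq_mul]
    by_cases hu : u ∈ F
    · rw [if_neg fun h => h.1 hu, hω u hu, zero_mul]
    · rw [ch_insert hu]
      by_cases hu' : insert u F ∈ S.fcs A
      · rw [if_pos ⟨hu, hu'⟩]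
      · rw [if_neg fun h => hu' h.2, S.lc_out hf hu', mul_zero]
  -- the second hypothesis
  have h2 : ∀ j ∈ A, ∀ F ∈ S.st (A.erase j) ∅ (A.card - 2),
      ∑ u ∈ univ.filter (fun u => j ∈ S.car u ∧ insert u F ∈ S.fcs A),
        S.a u j * f (S.mo (ch (insert u F))) = 0 := by
    intro j hj F hF
    have e1 := hf _ (S.th_mul_BC hj (S.XC_edge hA hj hF))
    rw [S.th_mul_mo, map_sum] at e1
    rw [Finset.sum_filter]
    refine Eq.trans (Finset.sum_congr rfl fun u _ => ?_) e1
    rw [map_smul, smul_eq_mul]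
    by_cases hju : j ∈ S.car u
    · have hu : u ∉ F := by
        intro hu
        have e2 : S.cr F = A.erase j := (Finset.mem_filter.1 hF).2.2.1
        have e3 : j ∈ S.cr F := Finset.mem_biUnion.2 ⟨u, hu, hju⟩
        rw [e2] at e3
        exact Finset.notMem_erase j A e3
      rw [ch_insert hu]
      by_cases hu' : insert u F ∈ S.fcs A
      · rw [if_pos ⟨hju, hu'⟩]
      · rw [if_neg fun h => hu' h.2, S.lc_out hf hu', mul_zero]
    · rw [if_neg fun h => hju h.1, S.a_eq_zero hju, zero_mul]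
  obtain ⟨g, hg, hgM⟩ := S.pl_lemma hT hQ (by omega) (fun M' => f (S.mo (ch M'))) h1 h2
  have hcl : ∀ n : X →₀ ℕ, S.GG A n → ∀ u : X,
      S.Tr A ((∑ v, MvPolynomial.C (g v) * MvPolynomial.X v) * S.mo (n + Finsupp.single u 1)) =
        f (S.mo (n + Finsupp.single u 1)) := fun n hn u =>
    S.claim hP hA f hf g hg hgM hn u
  set P : S.T := ∑ v, MvPolynomial.C (g v) * MvPolynomial.X v with hPdef
  have hPJ : P ∈ S.J A A := S.lc_PJ hg
  have hPH : P ∈ S.H 1 := S.lc_PH g
  have hk2 : ∀ n : X →₀ ℕ, S.GG A n → S.Tr A (P * (S.lam A * S.mo n)) = 0 := by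
    intro n hn
    have e1 := hf _ (S.lam_mul_BC (S.GG_Gd hA hn).1 (S.GG_Gd hA hn).2)
    rw [S.lam_mul_mo, map_sum] at e1
    rw [S.lam_mul_mo, Finset.mul_sum, map_sum]
    exact Eq.trans (Finset.sum_congr rfl fun u _ => hcl n hn u) e1
  have hN : S.lam A * P ∈ S.N A (1 + 1) := by
    refine ⟨S.mul_mem_J _ hPJ, S.lc_mulH (S.lc_lam A) hPH, fun y hy hy' => ?_⟩
    have e1 := S.span_two_hom hT hA hy (show y ∈ S.H (A.card - 2) from hy')
    have e2 : Submodule.span S.K {f | ∃ n : X →₀ ℕ, S.GG A n ∧ f = S.mo n} ⊔ S.I A ⊔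
        (⨆ c ∈ A, (S.H (A.card - 3)).map (LinearMap.mulLeft S.K (S.th c))) ≤
        LinearMap.ker (S.Tr A ∘ₗ LinearMap.mulLeft S.K (S.lam A * P)) := by
      refine sup_le (sup_le ?_ ?_) ?_
      · rw [Submodule.span_le]
        rintro _ ⟨n, hn, rfl⟩
        refine LinearMap.mem_ker.2 ?_
        rw [LinearMap.comp_apply, LinearMap.mulLeft_apply, mul_comm (S.lam A) P, mul_assoc]
        exact hk2 n hn
      · intro z hz
        refine LinearMap.mem_ker.2 ?_
        rw [LinearMap.comp_apply, LinearMap.mulLeft_apply]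
        exact hP.I A _ (S.mul_mem_I _ hz)
      · refine iSup₂_le fun c hc => ?_
        rintro _ ⟨z, hz, rfl⟩
        refine LinearMap.mem_ker.2 ?_
        rw [LinearMap.comp_apply, LinearMap.mulLeft_apply, LinearMap.mulLeft_apply,
          mul_left_comm, hP.th A c hc]
        have e3 : S.lam A * P * z ∈ S.J A A := by
          rw [mul_comm (S.lam A * P) z]
          exact S.mul_mem_J _ (S.mul_mem_J _ hPJ)
        have e4 : S.lam A * P * z ∈ S.H (1 + 1 + (A.card - 3)) :=
          S.lc_mulH (S.lc_mulH (S.lc_lam A) hPH) hz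
        rw [hP.res A _ (by omega) _ e3 e4, mul_zero]
    have e5 := LinearMap.mem_ker.1 (e2 e1)
    rwa [LinearMap.comp_apply, LinearMap.mulLeft_apply] at e5
  have hMc : M.card = A.card - 1 := (Finset.mem_filter.1 hM).2.2.2
  have hfin := hP.an A 1 (by omega) P hPJ hPH hN (ch M)
    (S.Good_of_Gd (S.good_one (by omega) hM)) (by rw [ch_degree, hMc])
  rw [hgM M hM] at hfin
  exact hf0 hfin

end Pool.Agent.LocH.Sub
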