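import Pool.Agent.LocH.GEx

/-!
# Package G25: monomials with excess one (P6.6, part (II) of `/team-store/LHV_proof.md`)

`D = A.card ≥ 7`, `n` with `Ex1 A n`. If all excesses are `≤ 0` then `n` is good and `mo n ∈ GM A (D - 3) ≤ Y3 A`.
Otherwise let `W ⊆ A` be maximal for inclusion (or for cardinality) among the sets with excess `1`. Since
`S.cr n.support = A` and the excess at `A` is `0`, `W ≠ A`. Let `nT` be the part of `n` in the vertices with
`car` not contained in `W`, `S₀` the set of the `v` with `n v ≠ 0`, `car v ⊆ W`; `n v = 1` there, so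
`n = ch S₀ + nT`, `S₀ ∈ S.fcs W`, `S₀.card = dgI W n`. Let `p = nT.degree`, `q = (A \ W).card`. Then
`S₀.card = D - 3 - p`, and the excess is `2 (D - 3 - p) - (D - q) - (D - 6) = q - 2 p = 1`;
`S₀.card ≤ W.card` gives `D - 3 - p ≤ D - 2 p - 1`, `p ≤ 2`; `p ≥ 1`. `A \ W ⊆ S.cr nT.support`.
`p = 1`: `q = 3`, `nT = single v 1`, `A \ W ⊆ car v ⊆ A`, `S₀.card = W.card - 1`. `S.cr S₀ = W`: otherwise there
is `j ∈ W` not in it and `W.erase j` has excess `≥ 2`. So `S₀ ∈ S.st W ∅ (W.card - 1)`, `W.card = D - 3 ≥ 4`, and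
`step_13` gives `mo n ∈ Y3 A`.
`p = 2`: `q = 5`, `W.card = D - 5 ≥ 2`, `S₀ ∈ S.fac W` (`S₀.card = W.card ≤ (S.cr S₀).card`). `facet_lemma` with
`nT`, `Y = Y3 A` (`S.I A, S.thm A ⊤ ≤ Y3 A`): all monomials `n' = ch R + single u 1 + nT`, `R` a ridge of `Γ_W`
(`R.card = D - 6`), `car u` not contained in `W`, with (HA) `S.cr R = W.erase j`, `j ∈ car u`, or (HB)
`S.cr R = W`, are in `Y3 A` (in (HB) take any extension `ω'` of `ω`, e.g. by `0`). If the support is not in
`S.fcs A` they are in `S.I A`. Otherwise they are good: let `U ⊆ A`, `a = dgI U nT`, `ζ = (U \ W).card`,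
`R_U = R.filter (car ⊆ U)`, `U.card = (U ∩ W).card + ζ`, `R_U.card ≤ (U ∩ W).card`. If `ζ ≥ 1` then `U ∪ W` is
strictly larger than `W`, so its excess for `n` is `≤ 0` (maximality of `W` and `Ex1`):
`dgI (U ∪ W) n ≥ a + W.card`, `(U ∪ W).card = W.card + ζ`, which gives `2 a + 1 - ζ ≤ 0`. If `ζ = 0` then `U ⊆ W`,
`a = 0` and `car u` is not contained in `U`. The excess of `n'` at `U` is
`2 a + 2 [car u ⊆ U] + 2 R_U.card - U.card - (D - 6)`.
 `car u` not contained in `U`: it is `≤ 2 a - ζ + R_U.card - (D - 6) ≤ 2 a - ζ ≤ 0`.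
 `car u ⊆ U` (`ζ ≥ 1`): (HA) `j ∈ U` and `R_U` is in `Γ_(U ∩ W.erase j)`: `R_U.card ≤ U.card - ζ - 1`, so the
 excess is `≤ 2 a + 1 - ζ + R_U.card - (D - 6) ≤ 0`. (HB) `W ⊆ U`: `R_U = R`, `U.card = D - 5 + ζ`: the excess is
 `2 a + 1 - ζ ≤ 0`. Not `W ⊆ U`: `R_U ≠ R` (`S.cr R = W`), `R_U.card ≤ D - 7`: the excess is
 `≤ 2 a + 2 - ζ + R_U.card - (D - 6) ≤ 2 a + 1 - ζ ≤ 0`.
-/

set_option autoImplicit false

open Finset

namespace Pool.Agent.LocH.Sub

variable {X Ω : Type} [Fintype X] [DecidableEq X] [Fintype Ω] [DecidableEq Ω] (S : Sub X Ω)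

private theorem g25_deg_one {m : X →₀ ℕ} (h : m.degree = 1) : ∃ v, m = Finsupp.single v 1 := by
  classical
  have h0 : m ≠ 0 := by
    rintro rfl
    rw [map_zero] at h
    omega
  obtain ⟨v, hv⟩ := Finsupp.support_nonempty_iff.2 h0
  have h1 := Finsupp.erase_add_single v m
  have h2 : (m.erase v).degree + m v = 1 := by
    have := congrArg Finsupp.degree h1
    rw [map_add, Finsupp.degree_single, h] at this
    exact this
  have h3 : m v ≠ 0 := Finsupp.mem_support_iff.1 hv
  have h4 : (m.erase v).degree = 0 := by omega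
  have h5 : m.erase v = 0 := (Finsupp.degree_eq_zero_iff _).1 h4
  have h6 : m v = 1 := by omega
  rw [h5, zero_add, h6] at h1
  exact ⟨v, h1.symm⟩

private theorem g25_mono {U U' : Finset Ω} (h : U ⊆ U') (m : X →₀ ℕ) :
    S.dgI U m ≤ S.dgI U' m := by
  unfold dgI
  refine Finset.sum_le_sum_of_subset ?_
  intro v hv
  rw [Finset.mem_filter] at hv ⊢
  exact ⟨hv.1, hv.2.trans h⟩

private theorem g25_ch (F : Finset X) (v : X) : (ch F : X →₀ ℕ) v = if v ∈ F then 1 else 0 := by
  unfold ch
  rw [Finsupp.finset_sum_apply]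
  simp only [Finsupp.single_apply]
  rw [Finset.sum_ite_eq' F v fun _ => 1]

/-- the new monomials of the case `p = 2` -/
private theorem g25_new {A W : Finset Ω} (hWA : W ⊆ A) (hW5 : W.card + 5 = A.card)
    (hA : 7 ≤ A.card) {nT : X →₀ ℕ} (hd : nT.degree = 2)
    (hT : ∀ v, S.car v ⊆ W → nT v = 0)
    (hmax : ∀ U ⊆ A, 1 ≤ (U \ W).card → 2 * S.dgI U nT + 1 ≤ (U \ W).card)
    {R : Finset X} (hR : R ∈ S.fcs W) (hRc : R.card + 1 = W.card) {u : X}
    (hu : ¬ S.car u ⊆ W)
    (hc : (∃ j ∈ W, S.cr R = W.erase j ∧ j ∈ S.car u) ∨ S.cr R = W) :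
    S.mo (ch R + Finsupp.single u 1 + nT) ∈ S.Y3 A := by
  have hRG : R ∈ S.Gam := (Finset.mem_filter.1 hR).1
  by_cases hs : (ch R + Finsupp.single u 1 + nT).support ∈ S.fcs A
  · have hdeg : (ch R + Finsupp.single u 1 + nT).degree = A.card - 3 := by
      rw [map_add, map_add, ch_degree, Finsupp.degree_single, hd]
      omega
    have hG : S.Gd A (ch R + Finsupp.single u 1 + nT) := by
      refine ⟨hs, fun U hU => ?_⟩
      unfold ex
      rw [hdeg, S.dgI_add, S.dgI_add, S.dgI_ch, S.dgI_single]
      have c1 : U.card = (U ∩ W).card + (U \ W).card := (Finset.card_inter_add_card_sdiff U W).symm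
      have c2 := S.card_filter_le hRG U
      have c3 : (R.filter fun v => S.car v ⊆ U).card ≤ R.card := Finset.card_filter_le _ _
      have c4 : (S.cr R ∩ U).card ≤ (U ∩ W).card := by
        refine Finset.card_le_card fun c h => ?_
        rw [Finset.mem_inter] at h ⊢
        exact ⟨h.2, (Finset.mem_filter.1 hR).2 h.1⟩
      have c5 : (U \ W).card = 0 → S.dgI U nT = 0 ∧ ¬ S.car u ⊆ U := by
        intro h
        rw [Finset.card_eq_zero, Finset.sdiff_eq_empty_iff_subset] at h
        refine ⟨?_, fun h' => hu (h'.trans h)⟩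
        unfold dgI
        refine Finset.sum_eq_zero fun v hv => hT v ?_
        exact (Finset.mem_filter.1 hv).2.trans h
      have c6 := hmax U hU
      by_cases hcu : S.car u ⊆ U
      · rw [if_pos hcu]
        have c7 : 1 ≤ (U \ W).card := by
          by_contra h
          exact (c5 (by omega)).2 hcu
        have c8 := c6 c7
        rcases hc with ⟨j, hj, hj', hju⟩ | hc
        · have c9 : (S.cr R ∩ U).card + 1 ≤ (U ∩ W).card := by
            have h1 : S.cr R ∩ U ⊆ (U ∩ W).erase j := by
              intro c h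
              rw [hj', Finset.mem_inter, Finset.mem_erase] at h
              rw [Finset.mem_erase, Finset.mem_inter]
              exact ⟨h.1.1, h.2, h.1.2⟩
            have h2 := Finset.card_le_card h1
            have h3 : j ∈ U ∩ W := Finset.mem_inter.2 ⟨hcu hju, hj⟩
            have h4 := Finset.card_erase_add_one h3
            omega
          omega
        · by_cases hWU : W ⊆ U
          · have c9 : (U ∩ W).card = W.card := by
              rw [Finset.inter_eq_right.2 hWU]
            omega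
          · have c9 : (R.filter fun v => S.car v ⊆ U).card < R.card := by
              refine Finset.card_lt_card (Finset.filter_ssubset.2 ?_)
              by_contra hcon
              push Not at hcon
              apply hWU
              rw [← hc]
              intro c h
              obtain ⟨v, hv, hv'⟩ := Finset.mem_biUnion.1 h
              exact hcon v hv hv'
            omega
      · rw [if_neg hcu]
        by_cases h0 : (U \ W).card = 0
        · have := (c5 h0).1
          omega
        · have := c6 (by omega)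
          omega
    have h1 : S.mo (ch R + Finsupp.single u 1 + nT) ∈ S.GM A (A.card - 3) :=
      Submodule.subset_span ⟨_, hG, hdeg, rfl⟩
    unfold Y3
    exact Submodule.mem_sup_left (Submodule.mem_sup_left (Submodule.mem_sup_left h1))
  · have h1 : S.mo (ch R + Finsupp.single u 1 + nT) ∈ S.I A := S.mo_mem_I.2 hs
    unfold Y3
    exact Submodule.mem_sup_left (Submodule.mem_sup_left (Submodule.mem_sup_right h1))

/-- Monomials with excess at most one lie in `Y3`. -/
theorem mem_Y3 (hT : S.Top S.K) (hQ : S.Qp) (hP : S.TrP) {A : Finset Ω} (hA : 7 ≤ A.card)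
    {n : X →₀ ℕ} (hn : S.Ex1 A n) : S.mo n ∈ S.Y3 A := by
  classical
  obtain ⟨h1, h2, h3, h4, h5⟩ := hn
  by_cases hall : ∀ U ⊆ A, S.ex A U n ≤ 0
  · have h6 : S.mo n ∈ S.GM A (A.card - 3) :=
      Submodule.subset_span ⟨n, ⟨h2, hall⟩, by omega, rfl⟩
    unfold Y3
    exact Submodule.mem_sup_left (Submodule.mem_sup_left (Submodule.mem_sup_left h6))
  push Not at hall
  obtain ⟨U₀, hU₀, hU₀'⟩ := hall
  obtain ⟨W, hW, hmax⟩ := Finset.exists_max_image (A.powerset.filter fun U => S.ex A U n = 1)
    Finset.card ⟨U₀, Finset.mem_filter.2 ⟨Finset.mem_powerset.2 hU₀, by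
      have := h4 U₀ hU₀
      omega⟩⟩
  rw [Finset.mem_filter, Finset.mem_powerset] at hW
  obtain ⟨hWA, hW1⟩ := hW
  have hmax' : ∀ U ⊆ A, W.card < U.card → S.ex A U n ≤ 0 := by
    intro U hU hc
    by_contra hcon
    have e1 := h4 U hU
    have e2 := hmax U (Finset.mem_filter.2 ⟨Finset.mem_powerset.2 hU, by omega⟩)
    omega
  have hsplit : ∀ U : Finset Ω, S.ex A U n = 2 * (S.dgI U n : ℤ) - U.card - ((A.card : ℤ) - 6) := by
    intro U
    unfold ex
    omega
  have hne : W ≠ A := by
    rintro rfl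
    have e1 := S.dgI_le W n
    rw [hsplit] at hW1
    omega
  have hnot : ¬ A ⊆ W := fun h => hne (Finset.Subset.antisymm hWA h)
  -- the two parts
  set nT : X →₀ ℕ := n.filter (fun v => ¬ S.car v ⊆ W) with hnT
  set S₀ : Finset X := n.support.filter (fun v => S.car v ⊆ W) with hS₀
  have hT0 : ∀ v, S.car v ⊆ W → nT v = 0 := by
    intro v hv
    rw [hnT, Finsupp.filter_apply, if_neg]
    exact not_not_intro hv
  have hn1 : n = ch S₀ + nT := by
    ext v
    rw [Finsupp.add_apply, g25_ch, hnT, Finsupp.filter_apply]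
    by_cases hv : S.car v ⊆ W
    · rw [if_neg (not_not_intro hv), add_zero]
      have e1 := h5 W hWA hW1 v hv
      by_cases hv' : n v = 0
      · rw [if_neg, hv']
        rw [hS₀, Finset.mem_filter, Finsupp.mem_support_iff]
        exact fun h => h.1 hv'
      · rw [if_pos]
        · omega
        · rw [hS₀, Finset.mem_filter, Finsupp.mem_support_iff]
          exact ⟨hv', hv⟩
    · rw [if_pos hv, if_neg, zero_add]
      rw [hS₀, Finset.mem_filter]
      exact fun h => hv h.2
  have hS₀G : S₀ ∈ S.Gam := S.down _ (Finset.mem_filter.1 h2).1 _ (Finset.filter_subset _ _)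
  have hS₀W : S.cr S₀ ⊆ W := by
    intro c hc
    obtain ⟨v, hv, hv'⟩ := Finset.mem_biUnion.1 hc
    exact (Finset.mem_filter.1 hv).2 hv'
  have hS₀c : ∀ U, W ⊆ U → S.dgI U (ch S₀) = S₀.card := by
    intro U hU
    rw [S.dgI_ch, Finset.filter_true_of_mem]
    intro v hv
    exact (Finset.mem_filter.1 hv).2.trans hU
  have hdW : S.dgI W n = S₀.card := by
    have e1 : S.dgI W nT = 0 := by
      unfold dgI
      refine Finset.sum_eq_zero fun v hv => hT0 v (Finset.mem_filter.1 hv).2
    rw [hn1, S.dgI_add, hS₀c W Finset.Subset.rfl, e1, add_zero]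
  have hdeg : n.degree = S₀.card + nT.degree := by
    rw [hn1, map_add, ch_degree]
  have hlt : S.dgI W n < n.degree := S.dgI_lt (by rw [h3]; exact hnot)
  have hle : S₀.card ≤ (S.cr S₀).card := S.card_le S₀ hS₀G
  have hle' : (S.cr S₀).card ≤ W.card := Finset.card_le_card hS₀W
  have hWc : W.card < A.card := Finset.card_lt_card ⟨hWA, hnot⟩
  have hex := hW1
  rw [hsplit, hdW] at hex
  have hcT : A \ W ⊆ S.cr nT.support := by
    intro c hc
    rw [Finset.mem_sdiff] at hc
    rw [← h3] at hc
    obtain ⟨v, hv, hv'⟩ := Finset.mem_biUnion.1 hc.1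
    refine Finset.mem_biUnion.2 ⟨v, ?_, hv'⟩
    rw [hnT, Finsupp.support_filter, Finset.mem_filter]
    exact ⟨hv, fun h => hc.2 (h hv')⟩
  have hcases : nT.degree = 1 ∨ nT.degree = 2 := by omega
  rcases hcases with hp | hp
  · obtain ⟨v, hv⟩ := g25_deg_one hp
    have hvs : v ∈ n.support := by
      have e1 : v ∈ nT.support := by
        rw [hv, Finsupp.mem_support_iff, Finsupp.single_eq_same]
        omega
      rw [hnT, Finsupp.support_filter, Finset.mem_filter] at e1
      exact e1.1
    have hvA : S.car v ⊆ A := by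
      rw [← h3]
      exact Finset.subset_biUnion_of_mem S.car hvs
    have hvZ : A \ W ⊆ S.car v := by
      intro c hc
      obtain ⟨v', hv', hc'⟩ := Finset.mem_biUnion.1 (hcT hc)
      rw [hv, Finsupp.mem_support_iff, Finsupp.single_apply] at hv'
      have e2 : v = v' := by
        by_contra h
        rw [if_neg h] at hv'
        exact hv' rfl
      rw [e2]
      exact hc'
    have hcr : S.cr S₀ = W := by
      by_contra hcon
      obtain ⟨j, hj, hj'⟩ : ∃ j ∈ W, j ∉ S.cr S₀ := by
        by_contra h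
        push Not at h
        exact hcon (Finset.Subset.antisymm hS₀W h)
      have e1 : S.dgI (W.erase j) (ch S₀) = S₀.card := by
        rw [S.dgI_ch, Finset.filter_true_of_mem]
        intro v hv c hc
        rw [Finset.mem_erase]
        refine ⟨?_, (Finset.mem_filter.1 hv).2 hc⟩
        rintro rfl
        exact hj' (Finset.mem_biUnion.2 ⟨v, hv, hc⟩)
      have e2 := h4 (W.erase j) ((Finset.erase_subset j W).trans hWA)
      have e3 : S.dgI (W.erase j) n = S₀.card + S.dgI (W.erase j) nT := by
        conv_lhs => rw [hn1]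
        rw [S.dgI_add, e1]
      have e4 := Finset.card_erase_add_one hj
      rw [hsplit, e3] at e2
      omega
    have hM : S₀ ∈ S.st W ∅ (W.card - 1) := by
      unfold st
      rw [Finset.mem_filter]
      exact ⟨hS₀G, Finset.empty_subset _, hcr, by omega⟩
    rw [hn1, hv]
    exact S.step_13 hT hQ hP hWA (by omega) (by omega) hvZ hvA hM
  · have hcr : S.cr S₀ = W := Finset.eq_of_subset_of_card_le hS₀W (by omega)
    have hG : S₀ ∈ S.fac W := by
      unfold fac st
      rw [Finset.mem_filter]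
      exact ⟨hS₀G, Finset.empty_subset _, hcr, by omega⟩
    have hmx : ∀ U ⊆ A, 1 ≤ (U \ W).card → 2 * S.dgI U nT + 1 ≤ (U \ W).card := by
      intro U hU hζ
      have e1 : (U ∪ W).card = W.card + (U \ W).card := by
        rw [← Finset.sdiff_union_self_eq_union, Finset.card_union_of_disjoint
          Finset.sdiff_disjoint]
        omega
      have e2 := hmax' (U ∪ W) (Finset.union_subset hU hWA) (by omega)
      have e3 : S.dgI (U ∪ W) n = S₀.card + S.dgI (U ∪ W) nT := by
        conv_lhs => rw [hn1]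
        rw [S.dgI_add, hS₀c _ Finset.subset_union_right]
      have e4 := S.g25_mono (Finset.subset_union_left : U ⊆ U ∪ W) nT
      rw [hsplit, e3] at e2
      omega
    have hI : S.I A ≤ S.Y3 A := by
      unfold Y3
      exact le_sup_of_le_left (le_sup_of_le_left le_sup_right)
    have hθ : S.thm A ⊤ ≤ S.Y3 A := by
      unfold Y3
      exact le_sup_of_le_left le_sup_right
    have hWne : W.Nonempty := by
      rw [← Finset.card_pos]
      omega
    rw [hn1]
    refine S.facet_lemma hT hWA hWne nT hI hθ ?_ ?_ hG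
    · intro R hR hRc j hj hj' u hju hu
      exact S.g25_new hWA (by omega) hA hp hT0 hmx hR hRc hu (Or.inl ⟨j, hj, hj', hju⟩)
    · intro R hR ω
      unfold st at hR
      rw [Finset.mem_filter] at hR
      obtain ⟨hR1, -, hR2, hR3⟩ := hR
      refine ⟨ω, fun _ _ => rfl, Submodule.sum_mem _ fun u hu => Submodule.smul_mem _ _ ?_⟩
      exact S.g25_new hWA (by omega) hA hp hT0 hmx (Finset.mem_filter.2 ⟨hR1, hR2.subset⟩)
        (by omega) (Finset.mem_filter.1 hu).2 (Or.inr hR2)

end Pool.Agent.LocH.Sub
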