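import Pool.Agent.LocH.BrTop
import Pool.Agent.LocG.SubM

/-!
# MP_230912_co, file BrFam: graded families and homogeneous submodules

On the side of LocH: `S.H n` = homogeneous polynomials of degree `n`
(`MvPolynomial.homogeneousSubmodule`), `S.I W`, `S.J W U` = `MvPolynomial.restrictSupport` of sets of
monomials, `S.thm P A = ⨆ c ∈ P, θ_c A`, `S.dm n A B = finrank ((A ⊓ S.H n).map B.mkQ)`.  On the side of
LocG: `mf K p n`: all monomials `m` of `f` satisfy `m.degree = n ∧ p m.support`; `gn (mth a) P A`, `dq`.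
For a submodule `A` of `S.T` let `fm S A : LocG.Fam S.K S.T`, `fm S A n = A ⊓ S.H n`, and
`HomS S A`: every homogeneous component of every element of `A` is in `A`.

PROOFS.
`fm_top`, `fm_I`, `fm_J`: `f ∈ homogeneousSubmodule n` iff all monomials with non-zero coefficient have
degree `n` (`MvPolynomial.mem_homogeneousSubmodule`, `MvPolynomial.IsHomogeneous`; `m.degree` versus
`Finsupp.weight 1 m`: `Finsupp.weight_one` / `Finsupp.degree_eq_weight_one`);
`MvPolynomial.mem_restrictSupport_iff`: the support of `f` is contained in the set;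
`m.support ∈ S.fcs W ↔ S.toG.inW W m.support`, `S.toG.c = S.cr`.
`hom_top`, `hom_I`, `hom_J`: the homogeneous component `n` of `f` has the coefficients of `f` at the
monomials of degree `n` and `0` elsewhere (`MvPolynomial.coeff_homogeneousComponent`).
`hom_sup`: linearity of `MvPolynomial.homogeneousComponent n`.
`th_eq`: `S.th c = LocG.th S.a c` by definition (`LocG.lf`).
`comp_mul`: the component of degree `n + 1` of `θ_c f` is `θ_c` times the component of degree `n` of
`f`, the component of degree `0` is `0`: write `f = ∑_k component k f`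
(`MvPolynomial.sum_homogeneousComponent`), `θ_c * component k f` is homogeneous of degree `k + 1`
(`MvPolynomial.IsHomogeneous.mul`), `MvPolynomial.homogeneousComponent_of_mem` or
`homogeneousComponent_homogeneous..`.
`fm_thm`: if `HomS S A` then `fm S (S.thm P A) = gn (mth S.a) P (fm S A)`.  `≥`: for `c ∈ P`, `f ∈ A ⊓ H n`,
`θ_c f ∈ (S.thm P A) ⊓ H (n+1)`.  `≤`: let `x ∈ (S.thm P A) ⊓ H n`; the component of degree `n` of `x` is
`x`; the linear map `component n` sends `A.map θ_c` into `sh θ_c (fm S A) n` (`comp_mul`; for `n = 0` to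
`0`), so it sends `⨆ c ∈ P, ..` into the supremum (`Submodule.map_iSup`, or `Submodule.iSup_le` for the
comap).
`hom_thm`: the same computation.
`fm_sup`: if `HomS S A`, `HomS S B` then `fm S (A ⊔ B) = fm S A ⊔ fm S B` (take the component of degree
`n` of `x = a + b ∈ H n`).
`dm_eq`: `(A ⊓ H n).map B.mkQ` is isomorphic to `(A ⊓ H n) / ((A ⊓ H n) ⊓ B)`
(`LinearMap.finrank_range_add_finrank_ker` for `B.mkQ.domRestrict (A ⊓ H n)`, kernel = elements in `B`),
`A ⊓ H n` is finite dimensional; `(A ⊓ H n) ⊓ B = fm S (A ⊓ B) n`.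
-/

set_option autoImplicit false

open Finset

namespace Pool.Agent.LocH

namespace Sub

variable {X Ω : Type} [Fintype X] [DecidableEq X] [Fintype Ω] [DecidableEq Ω] (S : Sub X Ω)

/-- the graded family of a submodule -/
noncomputable def fm (A : Submodule S.K S.T) : LocG.Fam S.K S.T := fun n => A ⊓ S.H n

/-- homogeneous submodules -/
def HomS (A : Submodule S.K S.T) : Prop :=
  ∀ f ∈ A, ∀ n, MvPolynomial.homogeneousComponent n f ∈ A

private theorem mem_H {f : S.T} {n : ℕ} : f ∈ S.H n ↔ ∀ m, f.coeff m ≠ 0 → m.degree = n := by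
  constructor
  · intro hf m hm
    by_contra h
    exact hm (MvPolynomial.IsHomogeneous.coeff_eq_zero hf h)
  · intro h
    have h1 : MvPolynomial.homogeneousComponent n f = f := by
      refine MvPolynomial.ext _ _ fun m => ?_
      rw [MvPolynomial.coeff_homogeneousComponent]
      split_ifs with h2
      · rfl
      · by_contra h3
        exact h2 (h m (Ne.symm h3))
    rw [← h1]
    exact MvPolynomial.homogeneousComponent_isHomogeneous n f

private theorem mem_rs {s : Set (X →₀ ℕ)} {f : S.T} :
    f ∈ MvPolynomial.restrictSupport S.K s ↔ ∀ m, f.coeff m ≠ 0 → m ∈ s := by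
  rw [MvPolynomial.mem_restrictSupport_iff]
  constructor
  · intro h m hm
    exact h (MvPolynomial.mem_support_iff.2 hm)
  · intro h m hm
    exact h m (MvPolynomial.mem_support_iff.1 hm)

private theorem mem_fcs {W : Finset Ω} {F : Finset X} : F ∈ S.fcs W ↔ S.toG.inW W F := by
  unfold fcs
  rw [Finset.mem_filter]
  rfl

private theorem fm_rs (s : Set (X →₀ ℕ)) (p : Finset X → Prop) (h : ∀ m, m ∈ s ↔ p m.support) :
    S.fm (MvPolynomial.restrictSupport S.K s) = LocG.mf S.K p := by
  funext n
  ext f
  change f ∈ MvPolynomial.restrictSupport S.K s ⊓ S.H n ↔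
    ∀ m : X →₀ ℕ, f.coeff m ≠ 0 → m.degree = n ∧ p m.support
  rw [Submodule.mem_inf, mem_rs, mem_H]
  exact ⟨fun h1 m hm => ⟨h1.2 m hm, (h m).1 (h1.1 m hm)⟩,
    fun h1 => ⟨fun m hm => (h m).2 (h1 m hm).2, fun m hm => (h1 m hm).1⟩⟩

private theorem hom_rs (s : Set (X →₀ ℕ)) : S.HomS (MvPolynomial.restrictSupport S.K s) := by
  intro f hf n
  rw [mem_rs] at hf ⊢
  intro m hm
  rw [MvPolynomial.coeff_homogeneousComponent] at hm
  split_ifs at hm with h
  · exact hf m hm
  · exact absurd rfl hm

theorem fm_top : S.fm ⊤ = LocG.TT S.K X := by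
  funext n
  ext f
  change f ∈ (⊤ : Submodule S.K S.T) ⊓ S.H n ↔
    ∀ m : X →₀ ℕ, f.coeff m ≠ 0 → m.degree = n ∧ True
  rw [top_inf_eq, mem_H]
  exact ⟨fun h m hm => ⟨h m hm, trivial⟩, fun h m hm => (h m hm).1⟩

theorem fm_I (W : Finset Ω) : S.fm (S.I W) = S.toG.I S.K W :=
  S.fm_rs _ _ fun _ => not_congr S.mem_fcs

theorem fm_J (W U : Finset Ω) : S.fm (S.J W U) = S.toG.J S.K W U :=
  S.fm_rs _ _ fun _ => imp_congr S.mem_fcs Iff.rfl

theorem hom_top : S.HomS ⊤ := fun _ _ _ => Submodule.mem_top

theorem hom_I (W : Finset Ω) : S.HomS (S.I W) := S.hom_rs _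

theorem hom_J (W U : Finset Ω) : S.HomS (S.J W U) := S.hom_rs _

theorem hom_sup {A B : Submodule S.K S.T} (hA : S.HomS A) (hB : S.HomS B) :
    S.HomS (A ⊔ B) := by
  intro f hf n
  obtain ⟨a, ha, b, hb, rfl⟩ := Submodule.mem_sup.1 hf
  rw [map_add]
  exact Submodule.add_mem_sup (hA a ha n) (hB b hb n)

omit [DecidableEq X] [Fintype X] [Fintype Ω] [DecidableEq Ω] in
private theorem comp_mul {K : Type} [Field K] {θ : MvPolynomial X K} (hθ : θ.IsHomogeneous 1)
    (f : MvPolynomial X K) (n : ℕ) :
    MvPolynomial.homogeneousComponent (n + 1) (θ * f) =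
      θ * MvPolynomial.homogeneousComponent n f := by
  induction f using MvPolynomial.induction_on' with
  | monomial d c =>
    have h1 := hθ.mul (MvPolynomial.isHomogeneous_monomial (σ := X) c (d := d) rfl)
    rw [MvPolynomial.homogeneousComponent_of_mem h1,
      MvPolynomial.homogeneousComponent_of_mem (MvPolynomial.isHomogeneous_monomial c rfl)]
    by_cases h : n = d.degree
    · rw [if_pos (by omega), if_pos h]
    · rw [if_neg (by omega), if_neg h, mul_zero]
  | add p q hp hq => rw [mul_add, map_add, map_add, hp, hq, mul_add]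

omit [DecidableEq X] [Fintype X] [Fintype Ω] [DecidableEq Ω] in
private theorem comp_mul_zero {K : Type} [Field K] {θ : MvPolynomial X K}
    (hθ : θ.IsHomogeneous 1) (f : MvPolynomial X K) :
    MvPolynomial.homogeneousComponent 0 (θ * f) = 0 := by
  induction f using MvPolynomial.induction_on' with
  | monomial d c =>
    have h1 := hθ.mul (MvPolynomial.isHomogeneous_monomial (σ := X) c (d := d) rfl)
    rw [MvPolynomial.homogeneousComponent_of_mem h1, if_neg (by omega)]
  | add p q hp hq => rw [mul_add, map_add, hp, hq, add_zero]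

private theorem th_hom (c : Ω) : (S.th c).IsHomogeneous 1 := by
  unfold th
  refine MvPolynomial.IsHomogeneous.sum _ _ _ fun v _ => ?_
  exact MvPolynomial.isHomogeneous_C_mul_X _ _

private theorem mul_mem_thm {A : Submodule S.K S.T} {P : Finset Ω} {c : Ω} (hc : c ∈ P)
    {f : S.T} (hf : f ∈ A) : S.th c * f ∈ S.thm P A := by
  have h1 : A.map (LinearMap.mulLeft S.K (S.th c)) ≤ S.thm P A := by
    unfold thm
    exact le_iSup₂ (f := fun c (_ : c ∈ P) => A.map (LinearMap.mulLeft S.K (S.th c))) c hc
  exact h1 (Submodule.mem_map_of_mem hf)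

theorem hom_thm {A : Submodule S.K S.T} (hA : S.HomS A) (P : Finset Ω) :
    S.HomS (S.thm P A) := by
  intro f hf n
  have h1 : S.thm P A ≤ (S.thm P A).comap (MvPolynomial.homogeneousComponent n) := by
    conv_lhs => unfold thm
    refine iSup₂_le fun c hc => ?_
    rintro _ ⟨a, ha, rfl⟩
    rw [Submodule.mem_comap, LinearMap.mulLeft_apply]
    cases n with
    | zero =>
      rw [comp_mul_zero (S.th_hom c)]
      exact zero_mem _
    | succ n =>
      rw [comp_mul (S.th_hom c)]
      exact S.mul_mem_thm hc (hA a ha n)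
  exact h1 hf

theorem fm_thm {A : Submodule S.K S.T} (hA : S.HomS A) (P : Finset Ω) :
    S.fm (S.thm P A) = LocG.gn (LocG.mth S.a) P (S.fm A) := by
  apply le_antisymm
  · rintro n x ⟨hx, hxn⟩
    have h1 : S.thm P A ≤ (LocG.gn (LocG.mth S.a) P (S.fm A) n).comap
        (MvPolynomial.homogeneousComponent n) := by
      unfold thm
      refine iSup₂_le fun c hc => ?_
      rintro _ ⟨a, ha, rfl⟩
      rw [Submodule.mem_comap, LinearMap.mulLeft_apply]
      cases n with
      | zero =>
        rw [comp_mul_zero (S.th_hom c)]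
        exact zero_mem _
      | succ n =>
        rw [comp_mul (S.th_hom c)]
        have h2 : LocG.sh (LocG.mth S.a c) (S.fm A) ≤ LocG.gn (LocG.mth S.a) P (S.fm A) :=
          LocG.sh_le_gn hc
        refine h2 (n + 1) (LocG.mem_sh.2 ⟨MvPolynomial.homogeneousComponent n a, ⟨hA a ha n, ?_⟩,
          rfl⟩)
        exact MvPolynomial.homogeneousComponent_isHomogeneous n a
    have h2 := h1 hx
    rw [Submodule.mem_comap, MvPolynomial.homogeneousComponent_eq_self hxn] at h2
    exact h2
  · refine LocG.gn_le fun c hc => ?_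
    intro n
    cases n with
    | zero => exact bot_le
    | succ n =>
      rintro _ ⟨f, ⟨hf, hfn⟩, rfl⟩
      refine ⟨S.mul_mem_thm hc hf, ?_⟩
      have h1 := (S.th_hom c).mul hfn
      rw [add_comm] at h1
      exact h1

theorem fm_sup {A B : Submodule S.K S.T} (hA : S.HomS A) (hB : S.HomS B) :
    S.fm (A ⊔ B) = S.fm A ⊔ S.fm B := by
  apply le_antisymm
  · rintro n x ⟨hx, hxn⟩
    obtain ⟨a, ha, b, hb, rfl⟩ := Submodule.mem_sup.1 hx
    rw [← MvPolynomial.homogeneousComponent_eq_self hxn, map_add]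
    exact Submodule.add_mem_sup
      ⟨hA a ha n, MvPolynomial.homogeneousComponent_isHomogeneous n a⟩
      ⟨hB b hb n, MvPolynomial.homogeneousComponent_isHomogeneous n b⟩
  · exact sup_le (fun n => inf_le_inf_right _ le_sup_left)
      (fun n => inf_le_inf_right _ le_sup_right)

/-- dimension formula for the image of a subspace -/
private theorem fin_map' {K E E' : Type} [Field K] [AddCommGroup E] [Module K E]
    [AddCommGroup E'] [Module K E'] (η : E →ₗ[K] E') (A : Submodule K E)
    [FiniteDimensional K A] :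
    Module.finrank K (A.map η) + Module.finrank K (A ⊓ LinearMap.ker η : Submodule K E) =
      Module.finrank K A := by
  have h1 := LinearMap.finrank_range_add_finrank_ker (η.domRestrict A)
  have h2 : LinearMap.range (η.domRestrict A) = A.map η := LinearMap.range_domRestrict A η
  have h3 : LinearMap.ker (η.domRestrict A) = (LinearMap.ker η).comap A.subtype := rfl
  have h4 : Module.finrank K ((LinearMap.ker η).comap A.subtype) =
      Module.finrank K (A ⊓ LinearMap.ker η : Submodule K E) := by
    rw [← Submodule.map_comap_subtype, Submodule.finrank_map_subtype_eq]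
  rw [h2, h3, h4] at h1
  exact h1

theorem dm_eq (A B : Submodule S.K S.T) (n : ℕ) :
    (S.dm n A B : ℤ) = LocG.dq (S.fm A) (S.fm A ⊓ S.fm B) n := by
  have h0 : FiniteDimensional S.K (S.fm ⊤ n) := by
    rw [fm_top]
    exact LocG.mf_fd _ n
  have h1 : FiniteDimensional S.K (A ⊓ S.H n : Submodule S.K S.T) :=
    Submodule.finiteDimensional_of_le (S₂ := S.fm ⊤ n) (inf_le_inf_right _ le_top)
  have h2 := fin_map' B.mkQ (A ⊓ S.H n)
  rw [Submodule.ker_mkQ] at h2
  have h3 : (S.fm A ⊓ S.fm B) n = (A ⊓ S.H n) ⊓ B := by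
    change (A ⊓ S.H n) ⊓ (B ⊓ S.H n) = _
    ext x
    simp only [Submodule.mem_inf]
    tauto
  unfold LocG.dq dm
  rw [h3]
  change _ = (Module.finrank S.K (A ⊓ S.H n : Submodule S.K S.T) : ℤ) - _
  omega

end Sub

end Pool.Agent.LocH
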