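import Pool.Agent.LocH.Defs
import Pool.Agent.LocG.Defs

/-!
# MP_230912_co, file BrTop: from the structure `LocH.Sub` to the structure `LocG.Sub`

`S.toG` has the same faces and carriers; `(S.toG).c = S.cr`.

PROOF of `top_toG`.  Let `K` be a field of characteristic `2` and `hT : S.Top K` (form of LocH/Defs.lean,
for nonempty `W`).  We prove the form of LocG/Defs.lean (for all `W`).
If `W = ∅`: a face `G` with `S.cr G ⊆ ∅` has at most `0` vertices (`card_le`), so `G = ∅`.  `exact`: there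
is no `j < 0`.  `const`: `σ` and `σ'` have `0` vertices, `σ = σ' = ∅`.  `facet`: `σ = ∅`.  `even`: `τ.card + 1 = 0` is
impossible.
If `W` is nonempty: `G ∈ S.fcs W ↔ (S.toG).inW W G`; `σ ∈ S.st W G j ↔ (S.toG).int W σ ∧ G ⊆ σ ∧ σ.card = j`;
for `τ` with `G ⊆ τ`, `τ.card + 1 = j`: `(S.st W G j).filter (τ ⊆ ·) = (S.toG).up W τ` (`Finset.ext`,
`G ⊆ τ ⊆ σ`).  `exact`: the hypothesis is `S.Cyc W G j z` (there `τ ∈ S.st W G k`, `k + 1 = j`); use `hT.exact`
and rewrite the sums in the same way.  `const`, `facet`: `hT.const`, `hT.ne`.  `even`: `hT.cyc` for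
`G = τ` (`τ ∈ S.st W τ τ.card`) says that `∑ σ ∈ (S.toG).up W τ, (1 : K) = 0`, i.e. the cardinality is `0` in
`K`, so it is even (`CharP.cast_eq_zero_iff K 2`, `Finset.sum_const`, `nsmul_one`).
`hW_toG`, `hI_toG`, `lW_toG`: the sets `S.fcs W` and `(S.toG).faces.filter (..)` are the same.
-/

set_option autoImplicit false

open Finset

namespace Pool.Agent.LocH

namespace Sub

variable {X Ω : Type} [DecidableEq X] [DecidableEq Ω]

/-- the same data in the form of the folder LocG -/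
def toG (S : Sub X Ω) : LocG.Sub X Ω :=
  ⟨S.Gam, S.car, S.empty_mem, S.down, S.card_le⟩

theorem toG_c (S : Sub X Ω) (F : Finset X) : S.toG.c F = F.biUnion S.car := rfl

private theorem empty_of {S : Sub X Ω} {G : Finset X} (hG : G ∈ S.Gam)
    (h : G.biUnion S.car ⊆ ∅) : G = ∅ := by
  have h1 := S.card_le G hG
  rw [Finset.subset_empty.1 h, Finset.card_empty] at h1
  exact Finset.card_eq_zero.1 (Nat.le_zero.1 h1)

private theorem mem_st {S : Sub X Ω} {W : Finset Ω} {G σ : Finset X} {j : ℕ} :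
    σ ∈ S.st W G j ↔ S.toG.int W σ ∧ G ⊆ σ ∧ σ.card = j := by
  unfold st LocG.Sub.int
  rw [Finset.mem_filter]
  constructor
  · rintro ⟨h1, h2, h3, h4⟩
    exact ⟨⟨h1, h3⟩, h2, h4⟩
  · rintro ⟨⟨h1, h3⟩, h2, h4⟩
    exact ⟨h1, h2, h3, h4⟩

private theorem filter_eq {S : Sub X Ω} {W : Finset Ω} {G τ : Finset X} {j : ℕ} (hG : G ⊆ τ)
    (hj : τ.card + 1 = j) : (S.st W G j).filter (τ ⊆ ·) = S.toG.up W τ := by
  ext σ
  rw [Finset.mem_filter, mem_st]
  unfold LocG.Sub.up LocG.Sub.int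
  rw [Finset.mem_filter]
  constructor
  · rintro ⟨⟨⟨h1, h2⟩, h3, h4⟩, h5⟩
    exact ⟨h1, h2, h5, h4.trans hj.symm⟩
  · rintro ⟨h1, h2, h3, h4⟩
    exact ⟨⟨⟨h1, h2⟩, hG.trans h3, h4.trans hj⟩, h3⟩

theorem top_toG {S : Sub X Ω} {K : Type} [Field K] [CharP K 2] (hT : S.Top K) : S.toG.Top K := by
  have hfc : ∀ {W : Finset Ω} {G : Finset X}, S.toG.inW W G → G ∈ S.fcs W := fun {W G} h =>
    Finset.mem_filter.2 ⟨h.1, h.2⟩
  refine ⟨?_, ?_, ?_, ?_⟩
  · intro W G hG j hj z hz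
    have hW : W.Nonempty := Finset.card_pos.1 (lt_of_le_of_lt (Nat.zero_le _) hj)
    obtain ⟨y, hy⟩ := hT.exact W G hW (hfc hG) j hj z (by
      intro k hk τ hτ
      obtain ⟨h1, h2, h3⟩ := mem_st.1 hτ
      rw [filter_eq h2 (by omega)]
      exact hz τ h1 h2 (by omega))
    refine ⟨y, fun σ h1 h2 h3 => ?_⟩
    have h4 := hy σ (mem_st.2 ⟨h1, h2, h3⟩)
    rw [filter_eq h2 (by omega)] at h4
    exact h4
  · intro W G hG z hz σ σ' h1 h2 h3 h1' h2' h3'
    rcases W.eq_empty_or_nonempty with hW | hW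
    · subst hW
      rw [Finset.card_empty, Finset.card_eq_zero] at h3 h3'
      rw [h3, h3']
    · refine hT.const W G hW (hfc hG) z ?_ σ (mem_st.2 ⟨h1, h2, h3⟩) σ'
        (mem_st.2 ⟨h1', h2', h3'⟩)
      intro k hk τ hτ
      obtain ⟨h1, h2, h3⟩ := mem_st.1 hτ
      rw [filter_eq h2 (by omega)]
      exact hz τ h1 h2 (by omega)
  · intro W G hG
    rcases W.eq_empty_or_nonempty with hW | hW
    · subst hW
      have h1 : G = ∅ := empty_of hG.1 hG.2
      subst h1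
      exact ⟨∅, ⟨S.empty_mem, rfl⟩, le_rfl, rfl⟩
    · obtain ⟨σ, hσ⟩ := hT.ne W G hW (hfc hG)
      obtain ⟨h1, h2, h3⟩ := mem_st.1 hσ
      exact ⟨σ, h1, h2, h3⟩
  · intro W τ hτ hc
    have hW : W.Nonempty := Finset.card_pos.1 (by omega)
    have h1 := hT.cyc W τ hW (Finset.mem_filter.2 ⟨hτ.1, hτ.2.le⟩) τ.card hc τ
      (mem_st.2 ⟨hτ, le_rfl, rfl⟩)
    rw [filter_eq le_rfl hc, Finset.sum_const, nsmul_one] at h1
    rw [CharP.cast_eq_zero_iff K 2] at h1
    exact (even_iff_two_dvd).2 h1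

end Sub

end Pool.Agent.LocH
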