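import Pool.Agent.LocH.TopC

/-! LH-R5: sums of the coefficients of the `h`-polynomials. -/

set_option autoImplicit false

open Finset

namespace Pool.Agent.LocH.Sub

variable {X Ω : Type} [Fintype X] [DecidableEq X] [Fintype Ω] [DecidableEq Ω] (S : Sub X Ω)
  {W : Finset Ω}

/-- For a polynomial of degree at most `D`: the sum of the coefficients is the value at `1` and the sum of the `n * coeff n` is the value of the derivative at `1`. -/
theorem sum_coeff (p : Polynomial ℤ) {D : ℕ} (hp : p.natDegree ≤ D) :
    ∑ n ∈ range (D + 1), p.coeff n = p.eval 1 ∧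
      ∑ n ∈ range (D + 1), (n : ℤ) * p.coeff n = p.derivative.eval 1 := by
  constructor
  · rw [Polynomial.eval_eq_sum_range' (Nat.lt_succ_of_le hp)]
    exact Finset.sum_congr rfl fun n _ => by rw [one_pow, mul_one]
  · rw [Finset.sum_range_succ', Nat.cast_zero, zero_mul, add_zero]
    rcases Nat.eq_zero_or_pos D with h0 | h0
    · subst h0
      rw [Polynomial.eq_C_of_natDegree_le_zero hp]
      simp
    · have h1 : p.derivative.natDegree < D :=
        lt_of_le_of_lt (Polynomial.natDegree_derivative_le p) (by omega)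
      rw [Polynomial.eval_eq_sum_range' h1]
      refine Finset.sum_congr rfl fun n _ => ?_
      rw [one_pow, mul_one, Polynomial.coeff_derivative]
      push_cast
      ring

private theorem cnt_card_le {F : Finset X} (hF : F ∈ S.fcs W) : F.card ≤ W.card := by
  have h := mem_fcs.1 hF
  exact (S.card_le F h.1).trans (card_le_card h.2)

private theorem cnt_deg (k D : ℕ) (h : k ≤ D) :
    ((Polynomial.X : Polynomial ℤ) ^ k * (1 - Polynomial.X) ^ (D - k)).natDegree ≤ D := by
  have h1 : (1 - Polynomial.X : Polynomial ℤ).natDegree ≤ 1 := by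
    refine (Polynomial.natDegree_sub_le _ _).trans ?_
    simp
  have h2 := Polynomial.natDegree_pow_le (p := (1 - Polynomial.X : Polynomial ℤ)) (n := D - k)
  have h3 : (D - k) * (1 - Polynomial.X : Polynomial ℤ).natDegree ≤ (D - k) * 1 :=
    Nat.mul_le_mul_left _ h1
  refine Polynomial.natDegree_mul_le.trans ?_
  rw [Polynomial.natDegree_X_pow]
  omega

/-- A face of `Γ_W` has at most `W.card` vertices (`S.card_le`), so all summands have degree `W.card`. -/
theorem deg_hW : (S.hW W).natDegree ≤ W.card := by
  refine Polynomial.natDegree_sum_le_of_forall_le _ _ fun F hF => ?_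
  exact cnt_deg _ _ (S.cnt_card_le hF)

theorem deg_hI : (S.hI W).natDegree ≤ W.card := by
  refine Polynomial.natDegree_sum_le_of_forall_le _ _ fun F hF => ?_
  exact cnt_deg _ _ (S.cnt_card_le (Finset.mem_filter.1 hF).1)

private theorem cnt_eval (k D : ℕ) (h : k ≤ D) :
    ((Polynomial.X : Polynomial ℤ) ^ k * (1 - Polynomial.X) ^ (D - k)).eval 1 =
      if k = D then 1 else 0 := by
  simp only [Polynomial.eval_mul, Polynomial.eval_pow, Polynomial.eval_X, Polynomial.eval_sub,
    Polynomial.eval_one, one_pow, one_mul, sub_self]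
  split_ifs with h1
  · rw [h1, Nat.sub_self, pow_zero]
  · exact zero_pow (by omega)

private theorem cnt_fac : (S.fcs W).filter (fun F => F.card = W.card) = S.fac W := by
  ext F
  rw [Finset.mem_filter, mem_fcs, fac, mem_st]
  constructor
  · rintro ⟨⟨h1, h2⟩, h3⟩
    refine ⟨h1, Finset.empty_subset _, Finset.eq_of_subset_of_card_le h2 ?_, h3⟩
    rw [← h3]
    exact S.card_le F h1
  · rintro ⟨h1, -, h2, h3⟩
    exact ⟨⟨h1, h2.le⟩, h3⟩

private theorem cnt_facI :
    ((S.fcs W).filter (fun F => S.cr F = W)).filter (fun F => F.card = W.card) = S.fac W := by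
  rw [Finset.filter_filter, ← cnt_fac]
  refine Finset.filter_congr fun F hF => ?_
  refine ⟨fun h => h.2, fun h => ⟨?_, h⟩⟩
  have h1 : F ∈ S.fac W := by
    rw [← cnt_fac]
    exact Finset.mem_filter.2 ⟨hF, h⟩
  exact (mem_st.1 h1).2.2.1

/-- PROOF. The value at `1` of `X ^ k * (1 - X) ^ (D - k)` is `1` for `k = D` and `0` for `k < D`; the faces of `Γ_W` with `W.card` vertices are the facets (their
carrier has at least `W.card` elements). -/
theorem eval_hW : (S.hW W).eval 1 = (S.fac W).card := by
  rw [← cnt_fac, hW, Polynomial.eval_finsetSum, Finset.card_filter, Nat.cast_sum]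
  refine Finset.sum_congr rfl fun F hF => ?_
  rw [cnt_eval _ _ (S.cnt_card_le hF)]
  split_ifs <;> rfl

theorem eval_hI : (S.hI W).eval 1 = (S.fac W).card := by
  rw [← cnt_facI, hI, Polynomial.eval_finsetSum, Finset.card_filter, Nat.cast_sum]
  refine Finset.sum_congr rfl fun F hF => ?_
  rw [cnt_eval _ _ (S.cnt_card_le (Finset.mem_filter.1 hF).1)]
  split_ifs <;> rfl

private theorem cnt_der (k D : ℕ) (h : k ≤ D) :
    ((Polynomial.X : Polynomial ℤ) ^ k * (1 - Polynomial.X) ^ (D - k)).derivative.eval 1 =
      (D : ℤ) * (if k = D then 1 else 0) - (if k + 1 = D then 1 else 0 : ℤ) := by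
  obtain ⟨j, rfl⟩ := Nat.exists_eq_add_of_le h
  rw [Nat.add_sub_cancel_left]
  simp only [Polynomial.derivative_mul, Polynomial.derivative_X_pow, Polynomial.derivative_pow,
    Polynomial.derivative_sub, Polynomial.derivative_one, Polynomial.derivative_X,
    Polynomial.eval_add, Polynomial.eval_mul, Polynomial.eval_pow, Polynomial.eval_X,
    Polynomial.eval_sub, Polynomial.eval_one, Polynomial.eval_C, Polynomial.eval_zero,
    Polynomial.eval_natCast, one_pow, sub_self, mul_one, one_mul]
  rcases j with - | - | j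
  · simp
  · simp
  · have h1 : ¬ k = k + (j + 1 + 1) := by omega
    have h2 : ¬ k + 1 = k + (j + 1 + 1) := by omega
    simp

private theorem cnt_sum (A : Finset (Finset X)) (hA : ∀ F ∈ A, F.card ≤ W.card)
    (hf : A.filter (fun F => F.card = W.card) = S.fac W) :
    (∑ F ∈ A, (Polynomial.X : Polynomial ℤ) ^ F.card *
      (1 - Polynomial.X) ^ (W.card - F.card)).derivative.eval 1 =
      W.card * (S.fac W).card - ((A.filter fun F => F.card + 1 = W.card).card : ℤ) := by
  rw [Polynomial.derivative_sum, Polynomial.eval_finsetSum, ← hf, Finset.card_filter,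
    Finset.card_filter, Nat.cast_sum, Nat.cast_sum, Finset.mul_sum, ← Finset.sum_sub_distrib]
  refine Finset.sum_congr rfl fun F hF => ?_
  rw [cnt_der _ _ (hA F hF)]
  push_cast
  rfl

private theorem cnt_dbl (hT : S.Top S.K) : W.card * (S.fac W).card =
    ((S.fcs W).filter fun F => F.card + 1 = W.card).card +
      (((S.fcs W).filter (fun F => S.cr F = W)).filter fun F => F.card + 1 = W.card).card := by
  classical
  set Q : Finset (Finset X) := (S.fcs W).filter fun F => F.card + 1 = W.card with hQ
  have h1 := Finset.sum_card_bipartiteAbove_eq_sum_card_bipartiteBelow (s := S.fac W) (t := Q)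
    (fun σ R => R ⊆ σ)
  have h2 : ∑ σ ∈ S.fac W, (Q.bipartiteAbove (fun σ R => R ⊆ σ) σ).card =
      W.card * (S.fac W).card := by
    rw [mul_comm]
    refine Finset.sum_const_nat fun σ hσ => ?_
    obtain ⟨g1, -, g2, g3⟩ := mem_st.1 hσ
    have h3 : Q.bipartiteAbove (fun σ R => R ⊆ σ) σ =
        σ.powerset.filter fun R => R.card + 1 = W.card := by
      ext R
      rw [Finset.mem_bipartiteAbove, hQ, Finset.mem_filter, Finset.mem_filter,
        Finset.mem_powerset, mem_fcs]
      constructor
      · rintro ⟨⟨-, h4⟩, h5⟩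
        exact ⟨h5, h4⟩
      · rintro ⟨h5, h4⟩
        refine ⟨⟨⟨S.down σ g1 R h5, ?_⟩, h4⟩, h5⟩
        rw [← g2]
        exact Finset.biUnion_subset_biUnion_of_subset_left _ h5
    rw [h3]
    rcases Nat.eq_zero_or_pos W.card with h0 | h0
    · rw [h0, Finset.card_eq_zero, Finset.filter_eq_empty_iff]
      intro R _ h
      omega
    · have h4 : (σ.powerset.filter fun R => R.card + 1 = W.card) =
          Finset.powersetCard (W.card - 1) σ := by
        ext R
        rw [Finset.mem_filter, Finset.mem_powerset, Finset.mem_powersetCard]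
        refine and_congr_right fun _ => ?_
        omega
      rw [h4, Finset.card_powersetCard, g3]
      obtain ⟨m, hm⟩ := Nat.exists_eq_add_of_le' h0
      rw [hm, Nat.add_sub_cancel]
      exact Nat.choose_succ_self_right m
  have h3 : ∑ R ∈ Q, ((S.fac W).bipartiteBelow (fun σ R => R ⊆ σ) R).card =
      Q.card + (Q.filter fun F => S.cr F = W).card := by
    rw [Finset.card_filter (fun F => S.cr F = W) Q, Finset.card_eq_sum_ones Q,
      ← Finset.sum_add_distrib]
    refine Finset.sum_congr rfl fun R hR => ?_
    obtain ⟨g1, g2⟩ := Finset.mem_filter.1 hR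
    have h4 : (S.fac W).bipartiteBelow (fun σ R => R ⊆ σ) R = (S.fac W).filter (R ⊆ ·) := rfl
    rw [h4]
    split_ifs with h5
    · exact ridge_two hT (mem_st.2 ⟨(mem_fcs.1 g1).1, Finset.empty_subset _, h5, rfl⟩) g2
    · exact bdry_one hT g1 h5 g2
  have h5 : ((S.fcs W).filter (fun F => S.cr F = W)).filter (fun F => F.card + 1 = W.card) =
      Q.filter fun F => S.cr F = W := by
    rw [hQ, Finset.filter_comm]
  rw [h5, ← h3, ← h2, h1]

/-- PROOF. The derivative at `1` of `X ^ k * (1 - X) ^ (D - k)` is `D` for `k = D`, `-1` for `k + 1 = D`, `0` otherwise. So with `r` the number of the faces of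
`Γ_W` with `W.card - 1` vertices and `r'` the number of those with carrier `W` the sum is `2 * W.card * N - r - r'`, `N = (S.fac W).card`. Count the pairs
(face `R` of `Γ_W` with `W.card - 1` vertices, facet containing it): each facet `σ` contains `W.card` such `R` (`σ.erase v`), and `R` is in two facets
if `cr R = W` (`ridge_two`) and in one otherwise (`bdry_one`): `W.card * N = r + r'`. (`W = ∅`: `N = 1`, `r = r' = 0`.) -/
theorem der_sum (hT : S.Top S.K) :
    (S.hW W).derivative.eval 1 + (S.hI W).derivative.eval 1 = W.card * (S.fac W).card := by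
  have h1 := S.cnt_sum (W := W) (S.fcs W) (fun F hF => S.cnt_card_le hF) S.cnt_fac
  have h2 := S.cnt_sum (W := W) ((S.fcs W).filter fun F => S.cr F = W)
    (fun F hF => S.cnt_card_le (Finset.mem_filter.1 hF).1) S.cnt_facI
  have h3 := S.cnt_dbl (W := W) hT
  rw [hW, hI, h1, h2]
  have h4 : (W.card : ℤ) * (S.fac W).card =
    ((S.fcs W).filter fun F => F.card + 1 = W.card).card +
      (((S.fcs W).filter (fun F => S.cr F = W)).filter fun F => F.card + 1 = W.card).card := by
    exact_mod_cast h3
  linear_combination h4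

end Pool.Agent.LocH.Sub
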