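import Mathlib

/-! Local h-vectors of subdivisions: definitions (text `/team-store/LHV_proof.md`).

`X` is the set of vertices, `Ω` the set of coordinates; everything is relative to a set `W` of coordinates. -/

set_option autoImplicit false

open Finset

namespace Pool.Agent.LocH

/-- A vertex induced subdivision: the carriers of the vertices and the faces, with the empty face. -/
structure Sub (X Ω : Type) [DecidableEq X] [DecidableEq Ω] where
  car : X → Finset Ω
  Gam : Finset (Finset X)
  empty_mem : ∅ ∈ Gam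
  down : ∀ F ∈ Gam, ∀ G, G ⊆ F → G ∈ Gam
  vert : ∀ v, {v} ∈ Gam
  card_le : ∀ F ∈ Gam, F.card ≤ (F.biUnion car).card

/-! ### A field of fractions and its derivations -/

/-- The field of fractions of the polynomials over the field with two elements. -/
abbrev FF (ι : Type) : Type := FractionRing (MvPolynomial ι (ZMod 2))

/-- A polynomial as an element of the field. -/
noncomputable abbrev toF {ι : Type} (p : MvPolynomial ι (ZMod 2)) : FF ι :=
  algebraMap (MvPolynomial ι (ZMod 2)) (FF ι) p

/-- The derivative with respect to the variable `i`; in characteristic `2` the derivative of `p / q` is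
the derivative of `p q`, divided by `q ^ 2`. -/
noncomputable def dd {ι : Type} (i : ι) (x : FF ι) : FF ι :=
  toF (MvPolynomial.pderiv i ((IsLocalization.sec (nonZeroDivisors (MvPolynomial ι (ZMod 2))) x).1 *
    ((IsLocalization.sec (nonZeroDivisors (MvPolynomial ι (ZMod 2))) x).2 :
      MvPolynomial ι (ZMod 2)))) /
    toF ((IsLocalization.sec (nonZeroDivisors (MvPolynomial ι (ZMod 2))) x).2 :
      MvPolynomial ι (ZMod 2)) ^ 2

namespace Sub

variable {X Ω : Type} [Fintype X] [DecidableEq X] [Fintype Ω] [DecidableEq Ω] (S : Sub X Ω)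

/-! ### Faces -/

/-- The carrier of a face. -/
def cr (F : Finset X) : Finset Ω := F.biUnion S.car

/-- The faces of the restriction to `W`. -/
def fcs (W : Finset Ω) : Finset (Finset X) := S.Gam.filter fun F => S.cr F ⊆ W

/-- The faces with carrier `W` which contain `G` and have `j` vertices. -/
def st (W : Finset Ω) (G : Finset X) (j : ℕ) : Finset (Finset X) :=
  S.Gam.filter fun F => G ⊆ F ∧ S.cr F = W ∧ F.card = j

/-- The facets of the restriction to `W`. -/
def fac (W : Finset Ω) : Finset (Finset X) := S.st W ∅ W.card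

/-- The function `z` on the faces `st W G j` is a cycle. -/
def Cyc {K : Type} [Field K] (W : Finset Ω) (G : Finset X) (j : ℕ) (z : Finset X → K) : Prop :=
  ∀ k, k + 1 = j → ∀ τ ∈ S.st W G k, ∑ σ ∈ (S.st W G j).filter (τ ⊆ ·), z σ = 0

/-- The relative homology of the stars, with coefficients in `K`. -/
structure Top (K : Type) [Field K] : Prop where
  exact : ∀ (W : Finset Ω) (G : Finset X), W.Nonempty → G ∈ S.fcs W → ∀ j < W.card,
    ∀ z : Finset X → K, S.Cyc W G j z → ∃ y : Finset X → K, ∀ σ ∈ S.st W G j,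
      z σ = ∑ ρ ∈ (S.st W G (j + 1)).filter (σ ⊆ ·), y ρ
  const : ∀ (W : Finset Ω) (G : Finset X), W.Nonempty → G ∈ S.fcs W →
    ∀ z : Finset X → K, S.Cyc W G W.card z → ∀ σ ∈ S.st W G W.card, ∀ σ' ∈ S.st W G W.card,
      z σ = z σ'
  cyc : ∀ (W : Finset Ω) (G : Finset X), W.Nonempty → G ∈ S.fcs W →
    S.Cyc W G W.card (fun _ => (1 : K))
  ne : ∀ (W : Finset Ω) (G : Finset X), W.Nonempty → G ∈ S.fcs W → (S.st W G W.card).Nonempty

/-! ### The polynomials `h` and `ℓ` of the restrictions -/

open Polynomial in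
/-- The `h`-polynomial of the restriction to `W`. -/
noncomputable def hW (W : Finset Ω) : ℤ[X] :=
  ∑ F ∈ S.fcs W, (Polynomial.X : ℤ[X]) ^ F.card * (1 - Polynomial.X) ^ (W.card - F.card)

open Polynomial in
/-- The `h`-polynomial of the interior of the restriction to `W`. -/
noncomputable def hI (W : Finset Ω) : ℤ[X] :=
  ∑ F ∈ (S.fcs W).filter (fun F => S.cr F = W),
    (Polynomial.X : ℤ[X]) ^ F.card * (1 - Polynomial.X) ^ (W.card - F.card)

open Polynomial in
/-- The local `h`-polynomial of the restriction to `W`. -/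
noncomputable def ell (W : Finset Ω) : ℤ[X] :=
  ∑ U ∈ W.powerset, (-1) ^ (W.card - U.card) * S.hW U

/-! ### The field -/

/-- The variables `a_(v,c)`, `c ∈ c(v)`, and `t_c`. -/
abbrev Ix : Type := {p : X × Ω // p.2 ∈ S.car p.1} ⊕ Ω

/-- The field. -/
abbrev K : Type := FF S.Ix

/-- The entries of the linear forms. -/
noncomputable def a (v : X) (c : Ω) : S.K :=
  if h : c ∈ S.car v then toF (MvPolynomial.X (Sum.inl ⟨(v, c), h⟩)) else 0

/-- The generic point. -/
noncomputable def t (c : Ω) : S.K := toF (MvPolynomial.X (Sum.inr c))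

/-- The derivative with respect to `a_(v,c)`. -/
noncomputable def pa (v : X) (c : Ω) (x : S.K) : S.K :=
  if h : c ∈ S.car v then dd (Sum.inl ⟨(v, c), h⟩) x else 0

/-- The derivative with respect to `t_c`. -/
noncomputable def pt (c : Ω) (x : S.K) : S.K := dd (Sum.inr c) x

/-! ### The ring and its ideals -/

/-- The ring. -/
abbrev T : Type := MvPolynomial X S.K

/-- The polynomials which are homogeneous of degree `n`. -/
noncomputable abbrev H (n : ℕ) : Submodule S.K S.T := MvPolynomial.homogeneousSubmodule X S.K n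

/-- The ideal of the restriction to `W`. -/
noncomputable def I (W : Finset Ω) : Submodule S.K S.T :=
  MvPolynomial.restrictSupport S.K {m | m.support ∉ S.fcs W}

/-- The monomials whose support is not a face of the restriction to `W`, or has a carrier containing
`U`. -/
noncomputable def J (W U : Finset Ω) : Submodule S.K S.T :=
  MvPolynomial.restrictSupport S.K {m | m.support ∈ S.fcs W → U ⊆ S.cr m.support}

/-- The linear forms. -/
noncomputable def th (c : Ω) : S.T := ∑ v, MvPolynomial.C (S.a v c) * MvPolynomial.X v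

/-- The sum of the `θ_c A`, `c ∈ P`. -/
noncomputable def thm (P : Finset Ω) (A : Submodule S.K S.T) : Submodule S.K S.T :=
  ⨆ c ∈ P, A.map (LinearMap.mulLeft S.K (S.th c))

/-- The dimension of the part of degree `n` of `A / B`, for graded submodules `B ≤ A`. -/
noncomputable def dm (n : ℕ) (A B : Submodule S.K S.T) : ℕ :=
  Module.finrank S.K ((A ⊓ S.H n).map B.mkQ)

/-! ### The trace -/

/-- The determinant of the matrix `a_(v,c)`, `v ∈ σ`, `c ∈ c(σ)` (characteristic `2`). -/
noncomputable def dA (σ : Finset X) : S.K :=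
  ∑ g : {v // v ∈ σ} ≃ {c // c ∈ S.cr σ}, ∏ v : {v // v ∈ σ}, S.a v (g v)

open Classical in
/-- The coordinates of the generic point in the cone of the facet `σ`. -/
noncomputable def q (σ : Finset X) : X → S.K :=
  if h : ∃ x : X → S.K, (∀ v ∉ σ, x v = 0) ∧ ∀ c ∈ S.cr σ, ∑ v, S.a v c * x v = S.t c
  then h.choose else 0

/-- The weight of a facet. -/
noncomputable def w (σ : Finset X) : S.K := (S.dA σ * ∏ v ∈ σ, S.q σ v)⁻¹

/-- The trace of the restriction to `W`. -/
noncomputable def Tr (W : Finset Ω) : S.T →ₗ[S.K] S.K :=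
  ∑ σ ∈ S.fac W, S.w σ • (MvPolynomial.aeval (S.q σ)).toLinearMap

/-- The elements of degree `n` of the interior ideal that are orthogonal to the part of the complementary
degree. -/
noncomputable def N (W : Finset Ω) (n : ℕ) : Submodule S.K S.T where
  carrier := {g | g ∈ S.J W W ∧ g ∈ S.H n ∧
    ∀ y ∈ S.J W W, y ∈ S.H (W.card - n) → S.Tr W (g * y) = 0}
  zero_mem' := ⟨zero_mem _, zero_mem _, fun y _ _ => by rw [zero_mul, map_zero]⟩
  add_mem' := fun {x y} hx hy => ⟨add_mem hx.1 hy.1, add_mem hx.2.1 hy.2.1, fun u h1 h2 => by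
    rw [add_mul, map_add, hx.2.2 u h1 h2, hy.2.2 u h1 h2, add_zero]⟩
  smul_mem' := fun k x hx => ⟨Submodule.smul_mem _ k hx.1, Submodule.smul_mem _ k hx.2.1,
    fun u h1 h2 => by rw [smul_mul_assoc, map_smul, hx.2.2 u h1 h2, smul_zero]⟩

/-- The sum of the variables of the restriction to `W`. -/
noncomputable def lam (W : Finset Ω) : S.T := ∑ v ∈ univ.filter (fun v => S.car v ⊆ W), MvPolynomial.X v

/-! ### Good monomials -/

/-- The degree of the monomial in the vertices whose carriers meet `C`. -/
def dgC (C : Finset Ω) (n : X →₀ ℕ) : ℕ := ∑ v ∈ univ.filter (fun v => ¬ Disjoint (S.car v) C), n v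

/-- A good monomial. -/
def Good (W : Finset Ω) (n : X →₀ ℕ) : Prop := ∀ C ⊆ W, C.card ≤ 2 * S.dgC C n

/-- The span of the good monomials of degree `n`. -/
noncomputable def GS (W : Finset Ω) (n : ℕ) : Submodule S.K S.T :=
  MvPolynomial.restrictSupport S.K {m | S.Good W m ∧ m.degree = n}

/-- The product of the derivatives with respect to the `a_(i c, c)`, `c ∈ l`. -/
noncomputable def DI (i : Ω → X) (l : List Ω) (x : S.K) : S.K := l.foldr (fun c y => S.pa (i c) c y) x

/-- The product of the derivatives with respect to the `t_c`, `c ∈ l`. -/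
noncomputable def PT (l : List Ω) (x : S.K) : S.K := l.foldr (fun c y => S.pt c y) x

/-- A Laurent monomial in the coordinates `q σ v`, `v ∈ σ`. -/
noncomputable def lm (σ : Finset X) (k : X → ℤ) : S.K := ∏ v ∈ σ, S.q σ v ^ k v

/-- The submodule is graded. -/
def Grd (A : Submodule S.K S.T) : Prop := ∀ n, ∀ f ∈ A, MvPolynomial.homogeneousComponent n f ∈ A

/-- The dimensions (results of P2 and P3 of the text). -/
structure Dim : Prop where
  hR : ∀ (W : Finset Ω) (n : ℕ), (S.dm n ⊤ (S.I W ⊔ S.thm W ⊤) : ℤ) = (S.hW W).coeff n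
  hS : ∀ (W : Finset Ω) (n : ℕ),
    (S.dm n (S.J W W) (S.I W ⊔ S.thm W (S.J W W)) : ℤ) = (S.hI W).coeff n
  hL : ∀ (W : Finset Ω) (n : ℕ), (S.dm n (S.J W W) (S.I W ⊔ S.thm W ⊤) : ℤ) = (S.ell W).coeff n

end Sub

end Pool.Agent.LocH
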