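import Pool.Agent.LocH.Qp

/-! LH-F5: the determinant `dA σ` (a permanent; characteristic `2`). -/

set_option autoImplicit false

open Finset

namespace Pool.Agent.LocH.Sub

variable {X Ω : Type} [Fintype X] [DecidableEq X] [Fintype Ω] [DecidableEq Ω] (S : Sub X Ω)
  {W : Finset Ω} {σ : Finset X}

/-- PROOF. `Matrix.det_apply`: a sum over the permutations of `{c // c ∈ S.cr σ}`, the signs are `1` in characteristic `2`; the permutations correspond to the
equivalences `{v // v ∈ σ} ≃ {c // c ∈ S.cr σ}` by composition with `e`. -/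
theorem dA_eq (e : {v // v ∈ σ} ≃ {c // c ∈ S.cr σ}) :
    S.dA σ = (Matrix.of fun c c' : {c // c ∈ S.cr σ} => S.a (e.symm c) c').det := by
  have hneg : (-1 : S.K) = 1 := by
    have h := add_self (1 : S.K)
    exact neg_eq_of_add_eq_zero_left h
  have hsg : ∀ π : Equiv.Perm {c // c ∈ S.cr σ},
      (((Equiv.Perm.sign π : ℤˣ) : ℤ) : S.K) = 1 := by
    intro π
    rcases Int.units_eq_one_or (Equiv.Perm.sign π) with h | h
    · rw [h]
      simp
    · rw [h]
      push_cast
      exact hneg
  rw [Matrix.det_apply']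
  let E : Equiv.Perm {c // c ∈ S.cr σ} ≃ ({v // v ∈ σ} ≃ {c // c ∈ S.cr σ}) :=
    { toFun := fun π => e.trans π.symm
      invFun := fun g => g.symm.trans e
      left_inv := fun π => by
        ext c
        simp
      right_inv := fun g => by
        ext v
        simp }
  unfold dA
  rw [← Equiv.sum_comp E]
  refine Finset.sum_congr rfl fun π _ => ?_
  rw [hsg, one_mul]
  change ∏ v : {v // v ∈ σ}, S.a v ((e.trans π.symm) v) = _
  rw [← Equiv.prod_comp (e.trans π.symm)]
  refine Finset.prod_congr rfl fun v _ => ?_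
  rw [Matrix.of_apply, Equiv.trans_apply, Equiv.apply_symm_apply, Equiv.symm_apply_apply]

private theorem dA_eq' (hσ : S.cr σ = W) (e : {v // v ∈ σ} ≃ {c // c ∈ W}) :
    S.dA σ = (Matrix.of fun c c' : {c // c ∈ W} => S.a (e.symm c) c').det := by
  subst hσ
  exact S.dA_eq e

/-- A sum over all vertices of a function which vanishes outside of the facet. -/
private theorem sum_fac (e : {v // v ∈ σ} ≃ {c // c ∈ W}) {f : X → S.K}
    (hf : ∀ v ∉ σ, f v = 0) : ∑ v, f v = ∑ c, f (e.symm c) := by
  rw [Equiv.sum_comp e.symm fun v : {v // v ∈ σ} => f v, Finset.sum_coe_sort σ f]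
  exact (Finset.sum_subset (Finset.subset_univ σ) fun v _ hv => hf v hv).symm

/-- PROOF. `dA_eq` and `uniq` (the left kernel of the matrix is `0`). -/
theorem dA_ne (hσ : σ ∈ S.fac W) : S.dA σ ≠ 0 := by
  obtain ⟨-, h1, h2⟩ := S.mem_fac.1 hσ
  let e : {v // v ∈ σ} ≃ {c // c ∈ W} := Finset.equivOfCardEq h2
  rw [S.dA_eq' h1 e]
  intro h0
  obtain ⟨y, hy, hy0⟩ := Matrix.exists_vecMul_eq_zero_iff.2 h0
  apply hy
  set x : X → S.K := fun v => if h : v ∈ σ then y (e ⟨v, h⟩) else 0 with hx
  have hxo : ∀ v ∉ σ, x v = 0 := fun v hv => dif_neg hv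
  have hxi : ∀ c, x (e.symm c) = y c := fun c => by
    rw [hx]
    change (if h : ((e.symm c : {v // v ∈ σ}) : X) ∈ σ then y (e ⟨_, h⟩) else 0) = y c
    rw [dif_pos (e.symm c).2]
    change y (e (e.symm c)) = y c
    rw [Equiv.apply_symm_apply]
  have h3 : x = 0 := by
    refine S.uniq hσ hxo fun c hc => ?_
    rw [S.sum_fac e (f := fun v => S.a v c * x v) fun v hv => by rw [hxo v hv, mul_zero]]
    have h4 := congrFun hy0 ⟨c, hc⟩
    rw [Matrix.vecMul, dotProduct, Pi.zero_apply] at h4
    rw [← h4]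
    refine Finset.sum_congr rfl fun c' _ => ?_
    rw [hxi, mul_comm, Matrix.of_apply]
  funext c
  rw [← hxi, h3]
  rfl

/-- PROOF. Let `e : {v // v ∈ insert v G} ≃ {c // c ∈ W}` and `e'` the equivalence for `insert v' G` with the same values on `G` and `e' v' = e v`. The two
matrices of `dA_eq` are equal outside the row `c₀ = e v`. The row `a v'` (on `W`) is `∑ u ∈ insert v G, x u • a u` with
`x u = ∑ c ∈ W, pt c (q σ u) * a v' c` (from `q_pt`: `∑ u, a u c * x u = a v' c` for `c ∈ W`). Expand the determinant in the row `c₀`: only `u = v` contributes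
(`Matrix.det_updateRow_sum` or Cramer's rule `Matrix.cramer`). (If `v = v'` the factor is `1` by `om_spec`.) -/
theorem dA_swap {G : Finset X} {v v' : X} (hv : v ∉ G) (hv' : v' ∉ G)
    (h : insert v G ∈ S.fac W) (h' : insert v' G ∈ S.fac W) :
    S.dA (insert v' G) =
      (∑ c ∈ W, S.pt c (S.q (insert v G) v) * S.a v' c) * S.dA (insert v G) := by
  obtain ⟨-, h1, h2⟩ := S.mem_fac.1 h
  obtain ⟨-, h1', -⟩ := S.mem_fac.1 h'
  have hsw : ∀ u, u ∈ insert v' G ↔ Equiv.swap v v' u ∈ insert v G := by
    intro u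
    by_cases e1 : u = v
    · subst e1
      rw [Equiv.swap_apply_left, Finset.mem_insert, Finset.mem_insert]
      constructor
      · rintro (e2 | e2)
        · exact Or.inl e2.symm
        · exact absurd e2 hv
      · rintro (e2 | e2)
        · exact Or.inl e2.symm
        · exact absurd e2 hv'
    · by_cases e2 : u = v'
      · subst e2
        rw [Equiv.swap_apply_right]
        simp
      · rw [Equiv.swap_apply_of_ne_of_ne e1 e2, Finset.mem_insert, Finset.mem_insert]
        tauto
  let e : {u // u ∈ insert v G} ≃ {c // c ∈ W} := Finset.equivOfCardEq h2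
  let ρ : {u // u ∈ insert v' G} ≃ {u // u ∈ insert v G} := (Equiv.swap v v').subtypeEquiv hsw
  let e' : {u // u ∈ insert v' G} ≃ {c // c ∈ W} := ρ.trans e
  have he' : ∀ c, ((e'.symm c : {u // u ∈ insert v' G}) : X) =
      Equiv.swap v v' ((e.symm c : {u // u ∈ insert v G}) : X) := fun c => rfl
  rw [S.dA_eq' h1' e', S.dA_eq' h1 e]
  set M : Matrix {c // c ∈ W} {c // c ∈ W} S.K := Matrix.of fun c c' => S.a (e.symm c) c' with hM
  let c₀ : {c // c ∈ W} := e ⟨v, Finset.mem_insert_self v G⟩
  have hc₀ : e.symm c₀ = ⟨v, Finset.mem_insert_self v G⟩ := e.symm_apply_apply _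
  let x : {c // c ∈ W} → S.K := fun c =>
    ∑ c' ∈ W, S.pt c' (S.q (insert v G) (e.symm c)) * S.a v' c'
  have hrow : ∀ c' : {c // c ∈ W}, ∑ c, x c * M c c' = S.a v' c' := by
    intro c'
    have k1 : ∀ c, x c * M c c' =
        ∑ d ∈ W, S.a v' d * (S.a (e.symm c) c' * S.pt d (S.q (insert v G) (e.symm c))) := by
      intro c
      change (∑ d ∈ W, S.pt d (S.q (insert v G) (e.symm c)) * S.a v' d) * S.a (e.symm c) c' = _
      rw [Finset.sum_mul]
      exact Finset.sum_congr rfl fun d _ => by ring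
    rw [Finset.sum_congr rfl fun c _ => k1 c, Finset.sum_comm]
    have k2 : ∀ d ∈ W, ∑ c, S.a v' d *
        (S.a (e.symm c) c' * S.pt d (S.q (insert v G) (e.symm c))) =
        if d = c' then S.a v' d else 0 := by
      intro d _
      have hz : ∀ u ∉ insert v G, S.a u c' * S.pt d (S.q (insert v G) u) = 0 := fun u hu => by
        rw [S.q_out hu, pt, dd_zero, mul_zero]
      rw [← Finset.mul_sum, ← S.sum_fac e
        (f := fun u => S.a u c' * S.pt d (S.q (insert v G) u)) hz, S.q_pt h c'.2 d]
      split_ifs <;> simp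
    rw [Finset.sum_congr rfl k2, Finset.sum_ite_eq' W, if_pos c'.2]
  have hup : (Matrix.of fun c c' : {c // c ∈ W} => S.a (e'.symm c) c') =
      M.updateRow c₀ (∑ c, x c • M c) := by
    ext c c'
    rw [Matrix.updateRow_apply, Matrix.of_apply, he']
    by_cases hc : c = c₀
    · rw [if_pos hc, hc, hc₀, Finset.sum_apply]
      simp only [Pi.smul_apply, smul_eq_mul]
      rw [hrow c']
      rw [Equiv.swap_apply_left]
    · rw [if_neg hc, hM, Matrix.of_apply]
      have k1 : ((e.symm c : {u // u ∈ insert v G}) : X) ≠ v := by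
        intro k2
        apply hc
        have k3 : e.symm c = ⟨v, Finset.mem_insert_self v G⟩ := Subtype.ext k2
        rw [← e.apply_symm_apply c, k3]
      have k2 : ((e.symm c : {u // u ∈ insert v G}) : X) ≠ v' := by
        intro k3
        have k4 := (e.symm c).2
        rw [Finset.mem_insert] at k4
        rcases k4 with k4 | k4
        · exact k1 k4
        · rw [k3] at k4
          exact hv' k4
      rw [Equiv.swap_apply_of_ne_of_ne k1 k2]
  rw [hup, Matrix.det_updateRow_sum, smul_eq_mul]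
  congr 1
  change (∑ c' ∈ W, S.pt c' (S.q (insert v G) (e.symm c₀)) * S.a v' c') = _
  rw [hc₀]

end Pool.Agent.LocH.Sub
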