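import Pool.Agent.LocH.GCon
import Pool.Agent.LocH.GInd

/-!
# Package GPL2: the boundary values are linear (P6.3 of `/team-store/LHV_proof.md`, second half)

`m = A.card ≥ 3`, `φ`, `g` as in `GPL1.lean`. Characteristic `2`. Fix `j ∈ A`, `B = A.erase j`.
* A facet `τ ∈ S.fac B` (`m - 1` elements, carrier `B ≠ A`) lies in exactly one facet `σ(τ)` of `Γ_A` (`c3`).
  For `y` with `y j = 0` write `φ_σ(y) = ∑ c ∈ A, φ σ c * y c`.
* Let `F ∈ S.st B ∅ (m - 2)`. It lies in exactly two facets `τ₁, τ₂` of `Γ_B` (`c2`). Claim: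
  `φ_(σ(τ₁)) (y) = φ_(σ(τ₂)) (y)` for all `y` with `y j = 0`. Consider the pairs `(M, σ)`, `F ⊆ M ⊆ σ`,
  `σ ∈ S.fac A`, `M.card = m - 1`. Every facet `σ ⊇ F` has `m` elements, so exactly two such `M`. `M` is
  either a ridge with carrier `A` (then `M = insert u F` with `j ∈ car u`) or has carrier `B` (carrier between
  `B = S.cr F` and `A`), and then it is `τ₁` or `τ₂`. Sum of `φ_σ(y)` over all pairs is `2 * ... = 0`. The
  pairs with `M` interior contribute `∑ M, α M * ∑ c ∈ A, om A M c * y c` (`hφ`, two facets by `c2`), which is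
  `∑ u, α (insert u F) * (a u j * const) = 0` by `om_edge` (`j ∉ car k` for `k ∈ F`) and `h2`. The other pairs
  contribute `φ_(σ(τ₁)) (y) + φ_(σ(τ₂)) (y)`. So this sum is `0`.
* So for fixed `y` with `y j = 0` the value `φ_(σ(τ)) (y)` is the same for all `τ ∈ S.fac B` (`c4` for `B`,
  applied to the property `φ_(σ(τ)) (y) = const`; `B` nonempty).
* For `c ∈ A` let `e` be a vertex of a facet of `Γ_{c}` (`Top.ne` for `W = {c}`: a face with one element and
  carrier `{c}`), so `car e = {c}`, `a e c ≠ 0`; let `ψ c = g e / a e c` (choose one `e = e_c` for every `c`).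
  For `j ≠ c` the face `{e}` is in a facet `τ` of `Γ_(A.erase j)` (`Top.ne` with `G = {e}`), and
  `g e = lf A (φ (σ(τ))) e = φ (σ(τ)) c * a e c`, so `φ (σ(τ)) c = ψ c` for this `τ`, hence for all
  `τ ∈ S.fac (A.erase j)` (take `y = Pi.single c 1`, `y j = 0`).
* Let `car v ⊂ A`, `j ∈ A` not in `car v`. `{v}` is in a facet `τ` of `Γ_(A.erase j)`, and
  `g v = lf A (φ (σ(τ))) v = ∑ c ∈ A, φ (σ(τ)) c * a v c = ∑ c ∈ A, ψ c * a v c` (`a v j = 0`).
-/

set_option autoImplicit false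

open Finset

namespace Pool.Agent.LocH.Sub

variable {X Ω : Type} [Fintype X] [DecidableEq X] [Fintype Ω] [DecidableEq Ω] (S : Sub X Ω)

private theorem gp_a0 (v : X) {c : Ω} (h : c ∉ S.car v) : S.a v c = 0 := by
  unfold a
  rw [dif_neg h]

/-- The sum of the values at `y` over the facets containing `M`. -/
private noncomputable def gpE (A : Finset Ω) (φ : Finset X → Ω → S.K) (y : Ω → S.K)
    (M : Finset X) : S.K :=
  ∑ σ ∈ (S.fac A).filter (M ⊆ ·), ∑ c ∈ A, φ σ c * y c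

private theorem gp_sum {A : Finset Ω} (φ : Finset X → Ω → S.K) (y : Ω → S.K) {F : Finset X}
    (hF : F.card + 2 = A.card) :
    ∑ u ∈ univ.filter (fun u => u ∉ F ∧ insert u F ∈ S.fcs A), S.gpE A φ y (insert u F) = 0 := by
  unfold gpE
  rw [Finset.sum_comm' (t' := (S.fac A).filter (F ⊆ ·)) (s' := fun σ => σ \ F)]
  · apply Finset.sum_eq_zero
    intro σ hσ
    rw [Finset.mem_filter] at hσ
    rw [Finset.sum_const, Finset.card_sdiff_of_subset hσ.2]
    have h1 : σ.card = A.card := (mem_st.1 hσ.1).2.2.2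
    have h2 : σ.card - F.card = 2 := by omega
    rw [h2, two_nsmul]
    exact CharTwo.add_self_eq_zero _
  · intro u σ
    rw [Finset.mem_filter, Finset.mem_filter, Finset.mem_filter, Finset.mem_sdiff]
    constructor
    · rintro ⟨⟨-, h1, h2⟩, h3, h4⟩
      exact ⟨⟨h4 (Finset.mem_insert_self u F), h1⟩, h3,
        fun x hx => h4 (Finset.mem_insert_of_mem hx)⟩
    · rintro ⟨⟨h1, h2⟩, h3, h4⟩
      have h5 : insert u F ⊆ σ := Finset.insert_subset h1 h4
      refine ⟨⟨Finset.mem_univ _, h2, mem_fcs.2 ⟨?_, ?_⟩⟩, h3, h5⟩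
      · exact S.down σ (mem_st.1 h3).1 _ h5
      · rw [← (mem_st.1 h3).2.2.1]
        exact Finset.biUnion_subset_biUnion_of_subset_left _ h5

private theorem gp_int (hT : S.Top S.K) {A : Finset Ω} (hA : 3 ≤ A.card) (α : Finset X → S.K)
    {j : Ω} (hj : j ∈ A) {F : Finset X} (hF : F ∈ S.st (A.erase j) ∅ (A.card - 2))
    (h2 : ∑ u ∈ univ.filter (fun u => j ∈ S.car u ∧ insert u F ∈ S.fcs A),
      S.a u j * α (insert u F) = 0)
    (φ : Finset X → Ω → S.K)
    (hφ : ∀ M ∈ S.st A ∅ (A.card - 1), ∀ σ ∈ S.fac A, ∀ σ' ∈ S.fac A, M ⊆ σ → M ⊆ σ' → σ ≠ σ' →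
        ∀ c ∈ A, φ σ c + φ σ' c = α M * S.om A M c)
    (y : Ω → S.K) (hy : y j = 0) :
    ∑ u ∈ univ.filter (fun u => j ∈ S.car u ∧ insert u F ∈ S.fcs A),
      S.gpE A φ y (insert u F) = 0 := by
  rw [mem_st] at hF
  obtain ⟨hF1, -, hF2, hF3⟩ := hF
  have hFj : ∀ k ∈ F, j ∉ S.car k := by
    intro k hk hjk
    have h3 : j ∈ S.cr F := Finset.mem_biUnion.2 ⟨k, hk, hjk⟩
    rw [hF2] at h3
    exact Finset.notMem_erase j A h3
  have h3 : ∀ u ∈ univ.filter (fun u => j ∈ S.car u ∧ insert u F ∈ S.fcs A),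
      S.gpE A φ y (insert u F) = (S.a u j * α (insert u F)) *
        pr (A.erase j) (fun o : Option {v // v ∈ F} => o.elim y fun v => S.a v.1) := by
    intro u hu
    rw [Finset.mem_filter, mem_fcs] at hu
    obtain ⟨-, hju, h4, h5⟩ := hu
    have huF : u ∉ F := fun h => hFj u h hju
    have h6 : insert u F ∈ S.st A ∅ (A.card - 1) := by
      rw [mem_st]
      refine ⟨h4, Finset.empty_subset _, ?_, ?_⟩
      · apply Finset.Subset.antisymm h5
        intro c hc
        by_cases hcj : c = j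
        · rw [hcj]
          exact Finset.mem_biUnion.2 ⟨u, Finset.mem_insert_self u F, hju⟩
        · have h7 : c ∈ S.cr F := by
            rw [hF2]
            exact Finset.mem_erase.2 ⟨hcj, hc⟩
          exact Finset.biUnion_subset_biUnion_of_subset_left _ (Finset.subset_insert u F) h7
      · rw [Finset.card_insert_of_notMem huF, hF3]
        omega
    have h7 := S.c2 hT h6 ⟨j, hj⟩
    obtain ⟨σ, σ', hne, hs⟩ := Finset.card_eq_two.1 h7
    have h8 : σ ∈ (S.fac A).filter (insert u F ⊆ ·) := by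
      rw [hs]
      exact Finset.mem_insert_self _ _
    have h9 : σ' ∈ (S.fac A).filter (insert u F ⊆ ·) := by
      rw [hs]
      exact Finset.mem_insert_of_mem (Finset.mem_singleton_self _)
    rw [Finset.mem_filter] at h8 h9
    unfold gpE
    rw [hs, Finset.sum_pair hne, ← Finset.sum_add_distrib]
    have h10 : ∀ c ∈ A, φ σ c * y c + φ σ' c * y c =
        α (insert u F) * (y c * S.om A (insert u F) c) := by
      intro c hc
      rw [← add_mul, hφ _ h6 σ h8.1 σ' h9.1 h8.2 h9.2 hne c hc]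
      ring
    rw [Finset.sum_congr rfl h10, ← Finset.mul_sum, S.om_edge A j hj F hFj u huF y hy]
    ring
  rw [Finset.sum_congr rfl h3, ← Finset.sum_mul, h2, zero_mul]

private theorem gp_bd {A : Finset Ω} {j : Ω} (hA : 3 ≤ A.card) (hj : j ∈ A) {F : Finset X}
    (hF : F ∈ S.st (A.erase j) ∅ (A.card - 2)) (f : Finset X → S.K) :
    ∑ u ∈ univ.filter (fun u => (u ∉ F ∧ insert u F ∈ S.fcs A) ∧ j ∉ S.car u), f (insert u F) =
      ∑ τ ∈ (S.fac (A.erase j)).filter (F ⊆ ·), f τ := by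
  rw [mem_st] at hF
  obtain ⟨hF1, -, hF2, hF3⟩ := hF
  refine Finset.sum_bij (fun u _ => insert u F) ?_ ?_ ?_ ?_
  · intro u hu
    rw [Finset.mem_filter, mem_fcs] at hu
    obtain ⟨-, ⟨h1, h2, h3⟩, h4⟩ := hu
    rw [Finset.mem_filter]
    refine ⟨?_, Finset.subset_insert u F⟩
    unfold fac
    rw [mem_st]
    refine ⟨h2, Finset.empty_subset _, ?_, ?_⟩
    · apply Finset.Subset.antisymm
      · intro c hc
        refine Finset.mem_erase.2 ⟨?_, h3 hc⟩
        rintro rfl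
        rw [cr, Finset.mem_biUnion] at hc
        obtain ⟨k, hk, hck⟩ := hc
        rw [Finset.mem_insert] at hk
        rcases hk with hk | hk
        · rw [hk] at hck
          exact h4 hck
        · have h5 : c ∈ S.cr F := Finset.mem_biUnion.2 ⟨k, hk, hck⟩
          rw [hF2] at h5
          exact Finset.notMem_erase c A h5
      · rw [← hF2]
        exact Finset.biUnion_subset_biUnion_of_subset_left _ (Finset.subset_insert u F)
    · rw [Finset.card_insert_of_notMem h1, hF3, Finset.card_erase_of_mem hj]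
      omega
  · intro u hu u' hu' h
    rw [Finset.mem_filter] at hu hu'
    have h1 : u ∈ insert u' F := by
      rw [← h]
      exact Finset.mem_insert_self u F
    rw [Finset.mem_insert] at h1
    exact h1.resolve_right hu.2.1.1
  · intro τ hτ
    rw [Finset.mem_filter] at hτ
    obtain ⟨h1, h2⟩ := hτ
    unfold fac at h1
    rw [mem_st] at h1
    obtain ⟨h3, -, h4, h5⟩ := h1
    have h6 : (τ \ F).card = 1 := by
      rw [Finset.card_sdiff_of_subset h2, h5, hF3, Finset.card_erase_of_mem hj]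
      omega
    obtain ⟨u, hu⟩ := Finset.card_eq_one.1 h6
    have h7 : u ∈ τ \ F := by
      rw [hu]
      exact Finset.mem_singleton_self u
    rw [Finset.mem_sdiff] at h7
    have h8 : insert u F = τ := by
      rw [← Finset.sdiff_union_of_subset h2, hu]
      rfl
    refine ⟨u, ?_, h8⟩
    rw [Finset.mem_filter, h8, mem_fcs]
    refine ⟨Finset.mem_univ _, ⟨h7.2, h3, ?_⟩, ?_⟩
    · rw [h4]
      exact Finset.erase_subset j A
    · intro h9
      have h10 : j ∈ S.cr τ := Finset.mem_biUnion.2 ⟨u, h7.1, h9⟩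
      rw [h4] at h10
      exact Finset.notMem_erase j A h10
  · intro u _
    rfl

private theorem gp_const (hT : S.Top S.K) {A : Finset Ω} (hA : 3 ≤ A.card) (α : Finset X → S.K)
    {j : Ω} (hj : j ∈ A)
    (h2 : ∀ F ∈ S.st (A.erase j) ∅ (A.card - 2),
      ∑ u ∈ univ.filter (fun u => j ∈ S.car u ∧ insert u F ∈ S.fcs A),
        S.a u j * α (insert u F) = 0)
    (φ : Finset X → Ω → S.K)
    (hφ : ∀ M ∈ S.st A ∅ (A.card - 1), ∀ σ ∈ S.fac A, ∀ σ' ∈ S.fac A, M ⊆ σ → M ⊆ σ' → σ ≠ σ' →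
        ∀ c ∈ A, φ σ c + φ σ' c = α M * S.om A M c)
    (y : Ω → S.K) (hy : y j = 0) {τ τ' : Finset X} (hτ : τ ∈ S.fac (A.erase j))
    (hτ' : τ' ∈ S.fac (A.erase j)) : S.gpE A φ y τ = S.gpE A φ y τ' := by
  have hBc : (A.erase j).card = A.card - 1 := Finset.card_erase_of_mem hj
  have hB : (A.erase j).Nonempty := by
    rw [← Finset.card_pos, hBc]
    omega
  refine S.c4 hT hB (fun ρ => S.gpE A φ y τ = S.gpE A φ y ρ) ?_ hτ hτ' rfl
  intro R hR σ hσ σ' hσ' h3 h4 h5
  rw [h5]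
  by_cases hne : σ = σ'
  · rw [hne]
  have h6 := S.c2 hT hR hB
  have h7 : (S.fac (A.erase j)).filter (R ⊆ ·) = {σ, σ'} := by
    symm
    apply Finset.eq_of_subset_of_card_le
    · intro ρ hρ
      rw [Finset.mem_insert, Finset.mem_singleton] at hρ
      rw [Finset.mem_filter]
      rcases hρ with hρ | hρ
      · rw [hρ]
        exact ⟨hσ, h3⟩
      · rw [hρ]
        exact ⟨hσ', h4⟩
    · rw [h6, Finset.card_pair hne]
  have h8 : A.card - 1 - 1 = A.card - 2 := by omega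
  rw [hBc, h8] at hR
  have hRc : R.card + 2 = A.card := by
    rw [(mem_st.1 hR).2.2.2]
    omega
  have h9 := S.gp_sum φ y hRc
  rw [← Finset.sum_filter_add_sum_filter_not _ (fun u => j ∈ S.car u), Finset.filter_filter,
    Finset.filter_filter, S.gp_bd hA hj hR, h7, Finset.sum_pair hne] at h9
  have h10 := S.gp_int hT hA α hj hR (h2 R hR) φ hφ y hy
  have h11 : univ.filter (fun u => (u ∉ R ∧ insert u R ∈ S.fcs A) ∧ j ∈ S.car u) =
      univ.filter (fun u => j ∈ S.car u ∧ insert u R ∈ S.fcs A) := by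
    ext u
    simp only [Finset.mem_filter, Finset.mem_univ, true_and]
    constructor
    · rintro ⟨⟨-, h12⟩, h13⟩
      exact ⟨h13, h12⟩
    · rintro ⟨h12, h13⟩
      refine ⟨⟨fun h14 => ?_, h13⟩, h12⟩
      have h15 : j ∈ S.cr R := Finset.mem_biUnion.2 ⟨u, h14, h12⟩
      rw [(mem_st.1 hR).2.2.1] at h15
      exact Finset.notMem_erase j A h15
  rw [h11, h10, zero_add] at h9
  exact CharTwo.add_eq_zero.1 h9

private theorem gp_val (hT : S.Top S.K) {A : Finset Ω} (φ : Finset X → Ω → S.K) (y : Ω → S.K)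
    {j : Ω} (hj : j ∈ A) {τ σ : Finset X} (hτ : τ ∈ S.fac (A.erase j)) (hσ : σ ∈ S.fac A)
    (h : τ ⊆ σ) : S.gpE A φ y τ = ∑ c ∈ A, φ σ c * y c := by
  unfold fac at hτ
  rw [mem_st] at hτ
  obtain ⟨h1, -, h2, h3⟩ := hτ
  have hc : 0 < A.card := Finset.card_pos.2 ⟨j, hj⟩
  have h4 : ((S.fac A).filter (τ ⊆ ·)).card = 1 := by
    apply S.c3 hT _ ⟨j, hj⟩
    · rw [h3, Finset.card_erase_of_mem hj]
      omega
    · rw [h2]
      exact Finset.erase_ne_self.2 hj
    · rw [mem_fcs, h2]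
      exact ⟨h1, Finset.erase_subset j A⟩
  obtain ⟨σ', hσ'⟩ := Finset.card_eq_one.1 h4
  have h5 : σ ∈ (S.fac A).filter (τ ⊆ ·) := Finset.mem_filter.2 ⟨hσ, h⟩
  rw [hσ', Finset.mem_singleton] at h5
  unfold gpE
  rw [hσ', Finset.sum_singleton, h5]

private theorem gp_up (hT : S.Top S.K) {A : Finset Ω} {j : Ω} (v : X)
    (hv : S.car v ⊆ A.erase j) :
    ∃ τ ∈ S.fac (A.erase j), ∃ σ ∈ S.fac A, v ∈ τ ∧ τ ⊆ σ := by
  have h1 : ({v} : Finset X) ∈ S.fcs (A.erase j) := by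
    rw [mem_fcs]
    refine ⟨S.vert v, ?_⟩
    rw [cr, Finset.singleton_biUnion]
    exact hv
  obtain ⟨τ, hτ, h2⟩ := exists_fac hT h1
  have h3 : τ ∈ S.fcs A := by
    have h4 := hτ
    unfold fac at h4
    rw [mem_st] at h4
    rw [mem_fcs, h4.2.2.1]
    exact ⟨h4.1, Finset.erase_subset j A⟩
  obtain ⟨σ, hσ, h4⟩ := exists_fac hT h3
  exact ⟨τ, hτ, σ, hσ, h2 (Finset.mem_singleton_self v), h4⟩

private theorem gp_corner (hT : S.Top S.K) (c : Ω) : ∃ e, S.car e = {c} ∧ S.a e c ≠ 0 := by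
  have h1 : (∅ : Finset X) ∈ S.fcs {c} := by
    rw [mem_fcs]
    refine ⟨S.empty_mem, ?_⟩
    rw [cr, Finset.biUnion_empty]
    exact Finset.empty_subset _
  obtain ⟨F, hF, -⟩ := exists_fac hT h1
  unfold fac at hF
  rw [mem_st] at hF
  obtain ⟨h2, -, h3, h4⟩ := hF
  rw [Finset.card_singleton] at h4
  obtain ⟨e, rfl⟩ := Finset.card_eq_one.1 h4
  rw [cr, Finset.singleton_biUnion] at h3
  refine ⟨e, h3, fun h5 => ?_⟩
  have h6 := S.a_indep h2 (fun _ => 1) (fun c' => by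
    rw [Finset.sum_singleton, one_mul]
    by_cases hc : c' = c
    · rw [hc]
      exact h5
    · apply S.gp_a0
      rw [h3, Finset.mem_singleton]
      exact hc) e (Finset.mem_singleton_self e)
  exact one_ne_zero h6

/-- The values at the vertices on the boundary are given by a linear function. -/
theorem pl_boundary (hT : S.Top S.K) {A : Finset Ω} (hA : 3 ≤ A.card) (α : Finset X → S.K)
    (h2 : ∀ j ∈ A, ∀ F ∈ S.st (A.erase j) ∅ (A.card - 2),
      ∑ u ∈ univ.filter (fun u => j ∈ S.car u ∧ insert u F ∈ S.fcs A), S.a u j * α (insert u F) = 0)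
    (φ : Finset X → Ω → S.K) (g : X → S.K)
    (hφ : ∀ M ∈ S.st A ∅ (A.card - 1), ∀ σ ∈ S.fac A, ∀ σ' ∈ S.fac A, M ⊆ σ → M ⊆ σ' → σ ≠ σ' →
        ∀ c ∈ A, φ σ c + φ σ' c = α M * S.om A M c)
    (hg : ∀ σ ∈ S.fac A, ∀ v ∈ σ, S.lf A (φ σ) v = g v) :
    ∃ ψ : Ω → S.K, ∀ v, S.car v ⊂ A → g v = S.lf A ψ v := by
  choose e he hea using fun c => S.gp_corner hT c
  have key : ∀ j ∈ A, ∀ c ∈ A, c ≠ j → ∀ τ ∈ S.fac (A.erase j), ∀ σ ∈ S.fac A, τ ⊆ σ →
      φ σ c = g (e c) / S.a (e c) c := by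
    intro j hj c hc hcj τ hτ σ hσ hτσ
    have h1 : S.car (e c) ⊆ A.erase j := by
      rw [he c, Finset.singleton_subset_iff]
      exact Finset.mem_erase.2 ⟨hcj, hc⟩
    obtain ⟨τ₀, hτ₀, σ₀, hσ₀, h3, h4⟩ := S.gp_up hT (e c) h1
    have h5 : (Pi.single c 1 : Ω → S.K) j = 0 := Pi.single_eq_of_ne (Ne.symm hcj) _
    have h6 := S.gp_const hT hA α hj (h2 j hj) φ hφ (Pi.single c 1) h5 hτ hτ₀
    rw [S.gp_val hT φ _ hj hτ hσ hτσ, S.gp_val hT φ _ hj hτ₀ hσ₀ h4] at h6
    have h7 : ∀ ρ : Finset X, ∑ c' ∈ A, φ ρ c' * (Pi.single c 1 : Ω → S.K) c' = φ ρ c := by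
      intro ρ
      rw [Finset.sum_eq_single c]
      · rw [Pi.single_eq_same, mul_one]
      · intro c' _ hc'
        rw [Pi.single_eq_of_ne hc', mul_zero]
      · intro h
        exact absurd hc h
    rw [h7, h7] at h6
    have h8 := hg σ₀ hσ₀ (e c) (h4 h3)
    rw [lf, Finset.sum_eq_single c] at h8
    · rw [h6, ← h8, mul_div_assoc, div_self (hea c), mul_one]
    · intro c' _ hc'
      rw [S.gp_a0, mul_zero]
      rw [he c, Finset.mem_singleton]
      exact hc'
    · intro h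
      exact absurd hc h
  refine ⟨fun c => g (e c) / S.a (e c) c, fun v hv => ?_⟩
  obtain ⟨j, hj, hjv⟩ := Finset.exists_of_ssubset hv
  have h1 : S.car v ⊆ A.erase j := fun c hc =>
    Finset.mem_erase.2 ⟨fun h => hjv (h ▸ hc), hv.1 hc⟩
  obtain ⟨τ, hτ, σ, hσ, h3, h4⟩ := S.gp_up hT v h1
  rw [← hg σ hσ v (h4 h3)]
  unfold lf
  apply Finset.sum_congr rfl
  intro c hc
  by_cases hcj : c = j
  · rw [hcj, S.gp_a0 v hjv, mul_zero, mul_zero]
  · rw [key j hj c hc hcj τ hτ σ hσ h4]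

end Pool.Agent.LocH.Sub
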