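import Pool.Agent.LocH.GPL1
import Pool.Agent.LocH.GPL2

/-!
# Package GPL3: LEMMA PL (P6.3 of `/team-store/LHV_proof.md`)

`pl_exists` gives `φ, g`, `pl_boundary` gives `ψ`. Replace `φ σ` by `φ σ + ψ` (all facets) and `g v` by
`g v + lf A ψ v`: the relations `hφ` are unchanged (`ψ + ψ = 0`), and now the new `g` vanishes at all `v` with
`car v ⊂ A`. Let `g' v` be this new value if `car v = A` and `0` otherwise, `f = ∑ v, C (g' v) * X v`.
Let `M ∈ S.st A ∅ (A.card - 1)`; its two facets are `σ = insert w M`, `σ' = insert w' M` (`c2`).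
Evaluation: `Tr A (f * mo (ch M)) = ∑ σ ∈ fac A, w σ * (∑ v, g' v * q σ v) * ∏ v ∈ M, q σ v` (`Tr` is a sum of
evaluations at `q σ`). If `M` is not contained in `σ` the product is zero (`q σ v = 0` for `v ∉ σ`). For
`σ = insert w M`: `w σ * ∏ v ∈ M, q σ v = 1 / (dA σ * q σ w)`, and `dA σ * q σ w = lf A (om A M) w * q σ w =
∑ v ∈ σ, lf A (om A M) v * q σ v = ∑ c ∈ A, om A M c * t c =: N` (`om_new`, `om_self`, the equations
`∑ v, a v c * q σ v = t c` for `c ∈ A = S.cr σ`), which does not depend on `σ ⊇ M`. Moreover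
`∑ v ∈ σ, g' v * q σ v = ∑ v ∈ σ, lf A (φ σ) v * q σ v = ∑ c ∈ A, φ σ c * t c` (for the new `φ`; for `v ∈ σ`
`car v ⊆ A`, so `g' v` is the new value in both cases). So the trace is
`(∑ c ∈ A, (φ σ c + φ σ' c) * t c) / N = α M * (∑ c ∈ A, om A M c * t c) / N = α M` (`N ≠ 0`).
The properties of `q` (`hq`: equations, zero outside `σ`, not zero on `σ`; `dA σ ≠ 0`) are proved in files of
helper50; here they are hypotheses.
-/

set_option autoImplicit false

open Finset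

namespace Pool.Agent.LocH.Sub

variable {X Ω : Type} [Fintype X] [DecidableEq X] [Fintype Ω] [DecidableEq Ω] (S : Sub X Ω)

/-- The properties of the coordinates of the generic point. -/
def Qp : Prop := ∀ (A : Finset Ω), ∀ σ ∈ S.fac A, (∀ c ∈ A, ∑ v, S.a v c * S.q σ v = S.t c) ∧
  (∀ v, v ∉ σ → S.q σ v = 0) ∧ (∀ v ∈ σ, S.q σ v ≠ 0) ∧ S.dA σ ≠ 0

private theorem pl_two (x : S.K) : x + x = 0 := by
  have h1 : (2 : ZMod 2) = 0 := by decide
  have h2 : (2 : MvPolynomial S.Ix (ZMod 2)) = 0 := by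
    have h3 := congrArg (MvPolynomial.C (σ := S.Ix)) h1
    rwa [map_ofNat, map_zero] at h3
  have h4 : (2 : S.K) = 0 := by
    have h3 := congrArg (algebraMap (MvPolynomial S.Ix (ZMod 2)) S.K) h2
    rwa [map_ofNat, map_zero] at h3
  rw [← two_mul, h4, zero_mul]

/-- The value of a functional at the generic point. -/
private theorem pl_sum (hQ : S.Qp) {A : Finset Ω} {σ : Finset X} (hσ : σ ∈ S.fac A)
    (ω : Ω → S.K) : ∑ v, S.lf A ω v * S.q σ v = ∑ c ∈ A, ω c * S.t c := by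
  have h1 := (hQ A σ hσ).1
  calc ∑ v, S.lf A ω v * S.q σ v = ∑ v, ∑ c ∈ A, ω c * (S.a v c * S.q σ v) := by
        refine Finset.sum_congr rfl fun v _ => ?_
        rw [lf, Finset.sum_mul]
        exact Finset.sum_congr rfl fun c _ => by rw [mul_assoc]
    _ = ∑ c ∈ A, ∑ v, ω c * (S.a v c * S.q σ v) := Finset.sum_comm
    _ = ∑ c ∈ A, ω c * S.t c := Finset.sum_congr rfl fun c hc => by
        rw [← Finset.mul_sum, h1 c hc]

private theorem pl_mo (M : Finset X) : S.mo (ch M) = ∏ v ∈ M, MvPolynomial.X v := by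
  unfold mo ch
  exact MvPolynomial.monomial_sum_one M fun v => Finsupp.single v 1

/-- LEMMA PL. -/
theorem pl_lemma (hT : S.Top S.K) (hQ : S.Qp) {A : Finset Ω} (hA : 3 ≤ A.card) (α : Finset X → S.K)
    (h1 : ∀ F ∈ S.st A ∅ (A.card - 2), ∀ ω : Ω → S.K, (∀ k ∈ F, S.lf A ω k = 0) →
      ∑ u ∈ univ.filter (fun u => u ∉ F ∧ insert u F ∈ S.fcs A), S.lf A ω u * α (insert u F) = 0)
    (h2 : ∀ j ∈ A, ∀ F ∈ S.st (A.erase j) ∅ (A.card - 2),
      ∑ u ∈ univ.filter (fun u => j ∈ S.car u ∧ insert u F ∈ S.fcs A), S.a u j * α (insert u F) = 0) :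
    ∃ g : X → S.K, (∀ v, S.car v ≠ A → g v = 0) ∧ ∀ M ∈ S.st A ∅ (A.card - 1),
      S.Tr A ((∑ v, MvPolynomial.C (g v) * MvPolynomial.X v) * S.mo (ch M)) = α M := by
  obtain ⟨φ, g, hφ, hg⟩ := S.pl_exists hT (by omega) α h1
  obtain ⟨ψ, hψ⟩ := S.pl_boundary hT hA α h2 φ g hφ hg
  have hlf : ∀ (ω ω' : Ω → S.K) v, S.lf A (fun c => ω c + ω' c) v = S.lf A ω v + S.lf A ω' v := by
    intro ω ω' v
    unfold lf
    rw [← Finset.sum_add_distrib]
    exact Finset.sum_congr rfl fun c _ => by rw [add_mul]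
  -- the new function
  let φ' : Finset X → Ω → S.K := fun σ c => φ σ c + ψ c
  let g' : X → S.K := fun v => if S.car v = A then g v + S.lf A ψ v else 0
  have hg' : ∀ σ ∈ S.fac A, ∀ v ∈ σ, g' v = S.lf A (φ' σ) v := by
    intro σ hσ v hv
    have h3 : S.lf A (φ' σ) v = g v + S.lf A ψ v := by
      rw [show φ' σ = fun c => φ σ c + ψ c from rfl, hlf, hg σ hσ v hv]
    rw [h3]
    by_cases hc : S.car v = A
    · exact if_pos hc
    · have h4 : S.car v ⊆ A := by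
        have h5 := (Finset.mem_filter.1 hσ).2.2.1
        rw [← h5]
        exact Finset.subset_biUnion_of_mem S.car hv
      have h6 : g v = S.lf A ψ v := hψ v (lt_of_le_of_ne h4 hc)
      rw [h6, S.pl_two]
      exact if_neg hc
  have hsum : ∀ σ ∈ S.fac A, ∑ v, g' v * S.q σ v = ∑ c ∈ A, φ' σ c * S.t c := by
    intro σ hσ
    rw [← S.pl_sum hQ hσ]
    refine Finset.sum_congr rfl fun v _ => ?_
    by_cases hv : v ∈ σ
    · rw [hg' σ hσ v hv]
    · rw [(hQ A σ hσ).2.1 v hv, mul_zero, mul_zero]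
  refine ⟨g', fun v hv => if_neg hv, fun M hM => ?_⟩
  have hAn : A.Nonempty := Finset.card_pos.1 (by omega)
  obtain ⟨σ, σ', hne, hss⟩ := Finset.card_eq_two.1 (S.c2 hT hM hAn)
  have hMc : M.card = A.card - 1 := (Finset.mem_filter.1 hM).2.2.2
  -- the value of a facet
  have hval : ∀ ρ, S.w ρ • (MvPolynomial.aeval (S.q ρ)).toLinearMap
      ((∑ v, MvPolynomial.C (g' v) * MvPolynomial.X v) * S.mo (ch M)) =
      S.w ρ * ((∑ v, g' v * S.q ρ v) * ∏ v ∈ M, S.q ρ v) := by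
    intro ρ
    rw [smul_eq_mul, AlgHom.toLinearMap_apply, map_mul, pl_mo, map_prod, map_sum]
    congr 2
    · refine Finset.sum_congr rfl fun v _ => ?_
      rw [map_mul, MvPolynomial.aeval_C, MvPolynomial.aeval_X]
      rfl
    · exact Finset.prod_congr rfl fun v _ => MvPolynomial.aeval_X _ _
  set Nn : S.K := ∑ c ∈ A, S.om A M c * S.t c with hNn
  have hfacet : ∀ ρ ∈ S.fac A, M ⊆ ρ → Nn ≠ 0 ∧
      S.w ρ * ((∑ v, g' v * S.q ρ v) * ∏ v ∈ M, S.q ρ v) = (∑ c ∈ A, φ' ρ c * S.t c) / Nn := by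
    intro ρ hρ hMρ
    have hρc : ρ.card = A.card := (Finset.mem_filter.1 hρ).2.2.2
    have hρA : S.cr ρ = A := (Finset.mem_filter.1 hρ).2.2.1
    obtain ⟨u, hu⟩ : ∃ u, ρ \ M = {u} := by
      apply Finset.card_eq_one.1
      rw [Finset.card_sdiff_of_subset hMρ]
      omega
    have huM : u ∉ M := by
      have h3 : u ∈ ρ \ M := by rw [hu]; exact Finset.mem_singleton_self u
      exact (Finset.mem_sdiff.1 h3).2
    have hρi : ρ = insert u M := by
      rw [← Finset.union_sdiff_of_subset hMρ, hu, Finset.union_comm]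
      rfl
    obtain ⟨q1, q2, q3, q4⟩ := hQ A ρ hρ
    have hN : Nn = S.dA ρ * S.q ρ u := by
      rw [hNn, ← S.pl_sum hQ hρ, Finset.sum_eq_single u]
      · rw [S.om_new A M u huM (by rw [← hρi]; exact hρA), ← hρi]
      · intro v _ hv
        by_cases hvM : v ∈ M
        · rw [S.om_self A M v hvM, zero_mul]
        · rw [q2 v (by rw [hρi]; simp [hv, hvM]), mul_zero]
      · intro h
        exact absurd (Finset.mem_univ u) h
    have huρ : u ∈ ρ := by rw [hρi]; exact Finset.mem_insert_self u M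
    have hN0 : Nn ≠ 0 := by
      rw [hN]
      exact mul_ne_zero q4 (q3 u huρ)
    have hP0 : ∏ v ∈ M, S.q ρ v ≠ 0 := Finset.prod_ne_zero_iff.2 fun v hv => q3 v (hMρ hv)
    refine ⟨hN0, ?_⟩
    have hw : S.w ρ = (Nn * ∏ v ∈ M, S.q ρ v)⁻¹ := by
      unfold w
      have h3 : ∏ v ∈ ρ, S.q ρ v = S.q ρ u * ∏ v ∈ M, S.q ρ v := by
        conv_lhs => rw [show (∏ v ∈ ρ, S.q ρ v) = ∏ v ∈ insert u M, S.q ρ v by rw [← hρi]]
        rw [Finset.prod_insert huM]
      rw [h3, hN, mul_assoc]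
    rw [hw, hsum ρ hρ]
    field_simp
  have hzero : ∀ ρ ∈ S.fac A, ¬ M ⊆ ρ →
      S.w ρ * ((∑ v, g' v * S.q ρ v) * ∏ v ∈ M, S.q ρ v) = 0 := by
    intro ρ hρ hMρ
    obtain ⟨v, hvM, hvρ⟩ := Finset.not_subset.1 hMρ
    rw [Finset.prod_eq_zero hvM ((hQ A ρ hρ).2.1 v hvρ), mul_zero, mul_zero]
  have hTr : S.Tr A ((∑ v, MvPolynomial.C (g' v) * MvPolynomial.X v) * S.mo (ch M)) =
      ∑ ρ ∈ S.fac A, S.w ρ * ((∑ v, g' v * S.q ρ v) * ∏ v ∈ M, S.q ρ v) := by
    unfold Tr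
    rw [LinearMap.sum_apply]
    exact Finset.sum_congr rfl fun ρ _ => hval ρ
  rw [hTr, ← Finset.sum_filter_add_sum_filter_not (S.fac A) (M ⊆ ·)]
  have hz : ∑ ρ ∈ (S.fac A).filter (fun ρ => ¬ M ⊆ ρ),
      S.w ρ * ((∑ v, g' v * S.q ρ v) * ∏ v ∈ M, S.q ρ v) = 0 :=
    Finset.sum_eq_zero fun ρ hρ =>
      hzero ρ (Finset.mem_filter.1 hρ).1 (Finset.mem_filter.1 hρ).2
  rw [hz, add_zero, hss, Finset.sum_pair hne]
  have hσ : σ ∈ (S.fac A).filter (M ⊆ ·) := by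
    rw [hss]
    exact Finset.mem_insert_self _ _
  have hσ' : σ' ∈ (S.fac A).filter (M ⊆ ·) := by
    rw [hss]
    exact Finset.mem_insert_of_mem (Finset.mem_singleton_self _)
  obtain ⟨hs1, hs2⟩ := Finset.mem_filter.1 hσ
  obtain ⟨hs1', hs2'⟩ := Finset.mem_filter.1 hσ'
  obtain ⟨hN0, e1⟩ := hfacet σ hs1 hs2
  obtain ⟨-, e2⟩ := hfacet σ' hs1' hs2'
  rw [e1, e2, ← add_div, ← Finset.sum_add_distrib]
  have h3 : ∑ c ∈ A, (φ' σ c * S.t c + φ' σ' c * S.t c) = α M * Nn := by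
    rw [hNn, Finset.mul_sum]
    refine Finset.sum_congr rfl fun c hc => ?_
    have h4 := hφ M hM σ hs1 σ' hs1' hs2 hs2' hne c hc
    have h5 := S.pl_two (ψ c)
    calc φ' σ c * S.t c + φ' σ' c * S.t c
        = ((φ σ c + φ σ' c) + (ψ c + ψ c)) * S.t c := by
          change (φ σ c + ψ c) * S.t c + (φ σ' c + ψ c) * S.t c = _
          ring
      _ = α M * (S.om A M c * S.t c) := by rw [h4, h5, add_zero, mul_assoc]
  rw [h3]
  exact mul_div_cancel_right₀ _ hN0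

end Pool.Agent.LocH.Sub
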