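import Pool.Agent.LocH.GC1
import Pool.Agent.LocH.GPL3

/-!
# Package GC2: a functional vanishing on `BC A` is given by the trace (P6.4 of `/team-store/LHV_proof.md`, CLAIM)

`D = A.card ≥ 4`. `f` is a linear functional on `S.T` vanishing on `BC A`, `P = ∑ v, C (g v) * X v` with
`g v = 0` unless `car v = A`, and `f (mo (ch M)) = Tr A (P * mo (ch M))` for all `M ∈ S.st A ∅ (D - 1)`. The
structure `TrP` collects the properties of the trace (proved by helper50).
Call `y` of degree `D - 1` OK if `f y = Tr A (P * y)`.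
(a) elements of `S.I A` are OK (`S.I A ≤ BC A`; `Tr` vanishes on `S.I A`).
(b) `th c * z` is OK for `z ∈ XC A c`, `c ∈ A`: `f = 0` (`th_mul_BC`); `Tr A (P * (th c * z)) =
   t c * Tr A (P * z)`. `P * z ∈ S.J A A` (each term `X v * z` with `car v = A` is in `J A A`) has degree `D - 1`,
   so its trace is zero (`res`).
(c) `mo (ch F + single u 1)` for `F ∈ S.st A ∅ (D - 2)`, `u ∉ F`: it is `mo (ch (insert u F))`; either
   `insert u F ∈ S.fcs A`, then it is in `S.st A ∅ (D - 1)`, OK by hypothesis; or in `S.I A`.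
(d) `mo (ch F + single u 1)`, `F ∈ S.st A ∅ (D - 2)` good, `u ∈ F`: choose `ω` with `lf A ω u = 1`, zero on
   `F.erase u` (`exists_form`); `∑ c ∈ A, ω c • (th c * mo (ch F))` is OK by (b) (`mo (ch F) ∈ XC A c` for all
   `c`, `GM_le_XC`), and it is `mo (ch F + single u 1)` plus a combination of (c) (`form_mul`).
(e) `mo (ch F + single v 1)`, `F = insert v G` not good as in `bad_two`: choose `c ∈ A \ U` (three elements);
   `th c * mo (ch F)` is OK (`XC_bad`, (b)); it is `a v c • mo (ch F + single v 1)` plus a combination of (c):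
   for `k ∈ G`, `car k ⊆ U`, so `a k c = 0`. `a v c ≠ 0` (`c ∈ A \ U ⊆ car v`).
(f) second kind: `n = ch R + single v 2`, `Z`, `R ∈ S.fac (A \ Z)`, `Z ⊆ car v`, `insert v R ∈ S.fcs A`.
  `u ∉ insert v R`: if `F = insert u (insert v R) ∉ S.fcs A`: (a). Else `F ∈ S.st A ∅ (D - 2)` (carrier:
  `(A \ Z) ∪ Z`) and `n + single u 1 = ch F + single v 1`. `F` good: (d). `F` not good: `bad_two` gives
  `U, G, v'`; claim `v' = v`: if `v' = u` then `G = insert v R`, `U = S.cr G ⊇ (A \ Z) ∪ Z = A`, contradiction.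
  If `v' ∈ R`: `v ∈ G`, so `Z ⊆ car v ⊆ U`, and `R.erase v' ⊆ G` has `D - 5` elements and carrier in
  `U ∩ (A \ Z)`, which has `D - 3 - 4` elements: contradiction (`card_le`). So (e).
  `u ∈ insert v R`: choose `ω` with `lf A ω u = 1`, zero on the other elements of `insert v R`
  (`exists_form`); `∑ c, ω c • (th c * mo n)` is OK by (b) (`GG_Gd`, `GM_le_XC`), and it is
  `mo (n + single u 1)` plus a combination of the `mo (n + single u' 1)`, `u' ∉ insert v R`.
-/

set_option autoImplicit false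

open Finset

namespace Pool.Agent.LocH.Sub

variable {X Ω : Type} [Fintype X] [DecidableEq X] [Fintype Ω] [DecidableEq Ω] (S : Sub X Ω)

/-- The properties of the traces. -/
structure TrP : Prop where
  th : ∀ (A : Finset Ω), ∀ c ∈ A, ∀ f : S.T, S.Tr A (S.th c * f) = S.t c * S.Tr A f
  I : ∀ (A : Finset Ω), ∀ f ∈ S.I A, S.Tr A f = 0
  res : ∀ (A : Finset Ω) (n : ℕ), n < A.card → ∀ f ∈ S.J A A, f ∈ S.H n → S.Tr A f = 0
  an : ∀ (A : Finset Ω) (i : ℕ), 2 * i < A.card → ∀ g ∈ S.J A A, g ∈ S.H i →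
    S.lam A * g ∈ S.N A (i + 1) → ∀ n : X →₀ ℕ, S.Good A n → n.degree = A.card - i →
    S.Tr A (g * S.mo n) = 0

omit [Fintype X] in
private theorem supp_add (n : X →₀ ℕ) (u : X) :
    (n + Finsupp.single u 1).support = insert u n.support := by
  ext w
  rw [Finsupp.mem_support_iff, Finset.mem_insert, Finsupp.mem_support_iff, Finsupp.add_apply,
    Finsupp.single_apply]
  by_cases h : u = w
  · subst h
    simp
  · rw [if_neg h, add_zero]
    constructor
    · exact Or.inr
    · rintro (rfl | h')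
      · exact absurd rfl h
      · exact h'

omit [Fintype X] in
private theorem ch_insert {F : Finset X} {u : X} (hu : u ∉ F) :
    (ch (insert u F) : X →₀ ℕ) = ch F + Finsupp.single u 1 := by
  unfold ch
  rw [Finset.sum_insert hu, add_comm]

omit [Fintype Ω] in
/-- A combination of which all terms but one are in the submodule. -/
private theorem one_term {Y : Submodule S.K S.T} (n : X →₀ ℕ) (b : X → S.K) {u : X} (hu : b u ≠ 0)
    (hsum : ∑ w, b w • S.mo (n + Finsupp.single w 1) ∈ Y)
    (ho : ∀ w, w ≠ u → b w = 0 ∨ S.mo (n + Finsupp.single w 1) ∈ Y) :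
    S.mo (n + Finsupp.single u 1) ∈ Y := by
  rw [← Finset.add_sum_erase _ _ (Finset.mem_univ u)] at hsum
  have h1 : ∑ w ∈ univ.erase u, b w • S.mo (n + Finsupp.single w 1) ∈ Y := by
    apply Submodule.sum_mem
    intro w hw
    rcases ho w (Finset.ne_of_mem_erase hw) with h | h
    · rw [h, zero_smul]
      exact Y.zero_mem
    · exact Y.smul_mem _ h
  have h2 : b u • S.mo (n + Finsupp.single u 1) ∈ Y := by
    have := Y.sub_mem hsum h1
    rwa [add_sub_cancel_right] at this
  have h3 := Y.smul_mem (b u)⁻¹ h2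
  rwa [smul_smul, inv_mul_cancel₀ hu, one_smul] at h3

private theorem one_form {A : Finset Ω} {Y : Submodule S.K S.T} {n : X →₀ ℕ}
    (hX : ∀ c ∈ A, S.th c * S.mo n ∈ Y) {T : Finset X} (hT : T ∈ S.fcs A)
    (ho : ∀ w, w ∉ T → S.mo (n + Finsupp.single w 1) ∈ Y) {u : X} (hu : u ∈ T) :
    S.mo (n + Finsupp.single u 1) ∈ Y := by
  obtain ⟨ω, h1, h2⟩ := S.exists_form hT hu
  refine S.one_term n (S.lf A ω) (u := u) ?_ ?_ ?_
  · rw [h1]
    exact one_ne_zero
  · rw [← S.form_mul]
    exact Submodule.sum_mem _ fun c hc => Y.smul_mem _ (hX c hc)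
  · intro w hw
    by_cases hwT : w ∈ T
    · exact Or.inl (h2 w hwT hw)
    · exact Or.inr (ho w hwT)

omit [Fintype X] [Fintype Ω] in
private theorem gst_iff {A : Finset Ω} {F : Finset X} {j : ℕ} :
    F ∈ S.st A ∅ j ↔ F ∈ S.Gam ∧ S.cr F = A ∧ F.card = j := by
  unfold st
  rw [Finset.mem_filter]
  exact ⟨fun h => ⟨h.1, h.2.2.1, h.2.2.2⟩, fun h => ⟨h.1, Finset.empty_subset _, h.2.1, h.2.2⟩⟩

omit [Fintype X] [Fintype Ω] in
private theorem gfcs_iff {A : Finset Ω} {F : Finset X} :
    F ∈ S.fcs A ↔ F ∈ S.Gam ∧ S.cr F ⊆ A := by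
  unfold fcs
  rw [Finset.mem_filter]

omit [Fintype X] [Fintype Ω] in
private theorem cr_insert (F : Finset X) (u : X) : S.cr (insert u F) = S.car u ∪ S.cr F := by
  unfold cr
  exact Finset.biUnion_insert

omit [Fintype X] [Fintype Ω] in
private theorem cr_mono {F F' : Finset X} (h : F ⊆ F') : S.cr F ⊆ S.cr F' :=
  Finset.biUnion_subset_biUnion_of_subset_left _ h

private theorem part_c {A : Finset Ω} (hA : 4 ≤ A.card) {Y : Submodule S.K S.T}
    (hI : S.I A ≤ Y) (hR : ∀ M ∈ S.st A ∅ (A.card - 1), S.mo (ch M) ∈ Y) {F : Finset X}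
    (hF : F ∈ S.st A ∅ (A.card - 2)) {u : X} (hu : u ∉ F) :
    S.mo (ch F + Finsupp.single u 1) ∈ Y := by
  by_cases h : insert u F ∈ S.fcs A
  · rw [← ch_insert hu]
    apply hR
    rw [gst_iff] at hF ⊢
    rw [gfcs_iff] at h
    refine ⟨h.1, ?_, ?_⟩
    · apply Finset.Subset.antisymm h.2
      rw [cr_insert, hF.2.1]
      exact Finset.subset_union_right
    · rw [Finset.card_insert_of_notMem hu, hF.2.2]
      omega
  · apply hI
    rw [S.mo_mem_I, supp_add, ch_support]
    exact h

private theorem part_d {A : Finset Ω} (hA : 4 ≤ A.card) {Y : Submodule S.K S.T}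
    (hI : S.I A ≤ Y) (hR : ∀ M ∈ S.st A ∅ (A.card - 1), S.mo (ch M) ∈ Y)
    (hX : ∀ c ∈ A, ∀ z ∈ S.XC A c, S.th c * z ∈ Y) {F : Finset X}
    (hF : F ∈ S.st A ∅ (A.card - 2)) (hg : S.Gd A (ch F)) (u : X) :
    S.mo (ch F + Finsupp.single u 1) ∈ Y := by
  by_cases hu : u ∈ F
  · have hF' := S.gst_iff.1 hF
    refine S.one_form (A := A) (T := F) ?_ ?_ ?_ hu
    · intro c hc
      apply hX c hc
      apply S.GM_le_XC (by omega) c
      apply Submodule.subset_span
      refine ⟨ch F, hg, ?_, rfl⟩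
      rw [ch_degree, hF'.2.2]
    · rw [gfcs_iff]
      exact ⟨hF'.1, hF'.2.1.subset⟩
    · intro w hw
      exact S.part_c hA hI hR hF hw
  · exact S.part_c hA hI hR hF hu

private theorem part_e {A : Finset Ω} (hA : 4 ≤ A.card) {Y : Submodule S.K S.T}
    (hI : S.I A ≤ Y) (hR : ∀ M ∈ S.st A ∅ (A.card - 1), S.mo (ch M) ∈ Y)
    (hX : ∀ c ∈ A, ∀ z ∈ S.XC A c, S.th c * z ∈ Y) {F : Finset X}
    (hF : F ∈ S.st A ∅ (A.card - 2)) {U : Finset Ω} (hU : U ⊆ A) (hUc : U.card + 3 = A.card)
    {G : Finset X} (hG : G ∈ S.fac U) {v : X}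
    (hv : v ∉ G) (hZ : A \ U ⊆ S.car v) (hFG : F = insert v G) :
    S.mo (ch F + Finsupp.single v 1) ∈ Y := by
  obtain ⟨c, hc⟩ : (A \ U).Nonempty := by
    rw [← Finset.card_pos, Finset.card_sdiff_of_subset hU]
    omega
  have hcA := (Finset.mem_sdiff.1 hc).1
  have hcU := (Finset.mem_sdiff.1 hc).2
  have h1 := hX c hcA _ (S.XC_bad hA hF hU hUc hG hv hZ hFG hc)
  rw [S.th_mul_mo] at h1
  refine S.one_term (ch F) (fun w => S.a w c) (u := v) (S.a_ne_zero (hZ hc)) h1 ?_
  intro w hw
  by_cases hwF : w ∈ F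
  · left
    apply S.a_eq_zero
    intro hcw
    rw [hFG, Finset.mem_insert] at hwF
    have hwG := hwF.resolve_left hw
    have h2 := (S.gst_iff.1 hG).2.1
    apply hcU
    rw [← h2]
    exact Finset.mem_biUnion.2 ⟨w, hwG, hcw⟩
  · exact Or.inr (S.part_c hA hI hR hF hwF)

private theorem part_f {A : Finset Ω} (hA : 4 ≤ A.card) {Y : Submodule S.K S.T}
    (hI : S.I A ≤ Y) (hR : ∀ M ∈ S.st A ∅ (A.card - 1), S.mo (ch M) ∈ Y)
    (hX : ∀ c ∈ A, ∀ z ∈ S.XC A c, S.th c * z ∈ Y) {v : X} {R : Finset X} {Z : Finset Ω}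
    (hZA : Z ⊆ A) (hZc : Z.card = 4) (hRf : R ∈ S.fac (A \ Z)) (hvR : v ∉ R)
    (hZv : Z ⊆ S.car v) {u : X} (hu : u ∉ insert v R) :
    S.mo (ch R + Finsupp.single v 2 + Finsupp.single u 1) ∈ Y := by
  set F := insert u (insert v R) with hFdef
  have hn : (ch R + Finsupp.single v 2 + Finsupp.single u 1 : X →₀ ℕ) =
      ch F + Finsupp.single v 1 := by
    rw [hFdef, ch_insert hu, ch_insert hvR]
    have : (Finsupp.single v 2 : X →₀ ℕ) = Finsupp.single v 1 + Finsupp.single v 1 := by
      rw [← Finsupp.single_add]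
    rw [this]
    abel
  have hvF : v ∈ F := Finset.mem_insert_of_mem (Finset.mem_insert_self _ _)
  rw [hn]
  by_cases hFf : F ∈ S.fcs A
  · have hRf' := S.gst_iff.1 hRf
    have hRc : R.card + 4 = A.card := by
      rw [hRf'.2.2, Finset.card_sdiff_of_subset hZA, hZc]
      omega
    have hcrv : A ⊆ S.cr (insert v R) := by
      rw [S.cr_insert, hRf'.2.1]
      intro c hc
      rw [Finset.mem_union, Finset.mem_sdiff]
      by_cases hcZ : c ∈ Z
      · exact Or.inl (hZv hcZ)
      · exact Or.inr ⟨hc, hcZ⟩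
    have hFs : F ∈ S.st A ∅ (A.card - 2) := by
      rw [gst_iff]
      refine ⟨(S.gfcs_iff.1 hFf).1, ?_, ?_⟩
      · apply Finset.Subset.antisymm (S.gfcs_iff.1 hFf).2
        exact hcrv.trans (S.cr_mono (Finset.subset_insert _ _))
      · rw [hFdef, Finset.card_insert_of_notMem hu, Finset.card_insert_of_notMem hvR]
        omega
    by_cases hg : S.Gd A (ch F)
    · exact S.part_d hA hI hR hX hFs hg v
    · obtain ⟨U, hU, hUc, G, hG, v', hv', hZ', hFG, -⟩ := S.bad_two hA hFs hg
      have hG' := S.gst_iff.1 hG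
      have hGe : G = F.erase v' := by
        rw [hFG, Finset.erase_insert hv']
      have hv'F : v' ∈ F := by
        rw [hFG]
        exact Finset.mem_insert_self _ _
      have hvv : v' = v := by
        rcases Finset.mem_insert.1 hv'F with h | h
        · exfalso
          have h1 : G = insert v R := by
            rw [hGe, h, hFdef, Finset.erase_insert hu]
          have h2 : A ⊆ U := by
            rw [← hG'.2.1, h1]
            exact hcrv
          have h3 := Finset.card_le_card h2
          omega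
        · rcases Finset.mem_insert.1 h with h | h
          · exact h
          · exfalso
            have hne : v ≠ v' := fun e => hvR (e ▸ h)
            have hvG : v ∈ G := by
              rw [hGe]
              exact Finset.mem_erase.2 ⟨hne, hvF⟩
            have hZU : Z ⊆ U := by
              rw [← hG'.2.1]
              intro c hc
              exact Finset.mem_biUnion.2 ⟨v, hvG, hZv hc⟩
            have hsub : R.erase v' ⊆ G := by
              rw [hGe]
              apply Finset.erase_subset_erase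
              exact (Finset.subset_insert _ _).trans (Finset.subset_insert _ _)
            have h1 : (R.erase v').card ≤ (S.cr (R.erase v')).card :=
              S.card_le _ (S.down _ hRf'.1 _ (Finset.erase_subset _ _))
            have h2 : S.cr (R.erase v') ⊆ U \ Z := by
              intro c hc
              have c1 := S.cr_mono hsub hc
              rw [hG'.2.1] at c1
              have c2 := S.cr_mono (Finset.erase_subset _ _) hc
              rw [hRf'.2.1] at c2
              exact Finset.mem_sdiff.2 ⟨c1, (Finset.mem_sdiff.1 c2).2⟩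
            have h3 := Finset.card_le_card h2
            rw [Finset.card_sdiff_of_subset hZU] at h3
            have h4 := Finset.card_le_card hZU
            have h5 : (R.erase v').card + 1 = R.card := Finset.card_erase_add_one h
            omega
      subst hvv
      exact S.part_e hA hI hR hX hFs hU hUc hG hv' hZ' hFG
  · apply hI
    rw [S.mo_mem_I, supp_add, ch_support, Finset.insert_eq_self.2 hvF]
    exact hFf

private theorem all_mem {A : Finset Ω} (hA : 4 ≤ A.card) {Y : Submodule S.K S.T}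
    (hI : S.I A ≤ Y) (hR : ∀ M ∈ S.st A ∅ (A.card - 1), S.mo (ch M) ∈ Y)
    (hX : ∀ c ∈ A, ∀ z ∈ S.XC A c, S.th c * z ∈ Y) {n : X →₀ ℕ} (hn : S.GG A n) (u : X) :
    S.mo (n + Finsupp.single u 1) ∈ Y := by
  have hgd := S.GG_Gd hA hn
  rcases hn with ⟨F, hF, rfl, hg⟩ | ⟨v, R, Z, hZA, hZc, hRf, hvR, hZv, hfc, rfl⟩
  · exact S.part_d hA hI hR hX hF hg u
  · by_cases hu : u ∈ insert v R
    · refine S.one_form (A := A) (T := insert v R) ?_ hfc ?_ hu
      · intro c hc
        apply hX c hc
        apply S.GM_le_XC (by omega) c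
        apply Submodule.subset_span
        exact ⟨_, hgd.1, hgd.2, rfl⟩
      · intro w hw
        exact S.part_f hA hI hR hX hZA hZc hRf hvR hZv hw
    · exact S.part_f hA hI hR hX hZA hZc hRf hvR hZv hu

/-- A functional that vanishes on `BC A` and agrees with the trace on the interior ridges agrees with the
trace on all multiples of the monomials of `GG`. -/
theorem claim (hP : S.TrP) {A : Finset Ω} (hA : 4 ≤ A.card) (f : S.T →ₗ[S.K] S.K)
    (hf : ∀ y ∈ S.BC A, f y = 0) (g : X → S.K) (hg : ∀ v, S.car v ≠ A → g v = 0)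
    (hM : ∀ M ∈ S.st A ∅ (A.card - 1),
      S.Tr A ((∑ v, MvPolynomial.C (g v) * MvPolynomial.X v) * S.mo (ch M)) = f (S.mo (ch M)))
    {n : X →₀ ℕ} (hn : S.GG A n) (u : X) :
    S.Tr A ((∑ v, MvPolynomial.C (g v) * MvPolynomial.X v) * S.mo (n + Finsupp.single u 1)) =
      f (S.mo (n + Finsupp.single u 1)) := by
  set P : S.T := ∑ v, MvPolynomial.C (g v) * MvPolynomial.X v with hPdef
  let e : S.T →ₗ[S.K] S.K := S.Tr A ∘ₗ LinearMap.mulLeft S.K P - f
  have he : ∀ y, y ∈ LinearMap.ker e ↔ S.Tr A (P * y) = f y := by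
    intro y
    rw [LinearMap.mem_ker]
    change S.Tr A (P * y) - f y = 0 ↔ _
    exact sub_eq_zero
  have hX1 : ∀ v : X, (MvPolynomial.X v : S.T) = S.mo (Finsupp.single v 1) := fun v => rfl
  have hPJ : P ∈ S.J A A := by
    rw [hPdef]
    apply Submodule.sum_mem
    intro v _
    by_cases hv : S.car v = A
    · apply S.mul_mem_J
      rw [hX1, S.mo_mem_J]
      intro _
      rw [Finsupp.support_single v one_ne_zero]
      unfold cr
      rw [Finset.singleton_biUnion, hv]
    · rw [hg v hv, map_zero, zero_mul]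
      exact Submodule.zero_mem _
  have hPH : P ∈ S.H 1 := by
    rw [hPdef]
    apply Submodule.sum_mem
    intro v _
    rw [MvPolynomial.mem_homogeneousSubmodule]
    have := (MvPolynomial.isHomogeneous_C X (g v)).mul (MvPolynomial.isHomogeneous_X S.K v)
    rwa [zero_add] at this
  apply (he _).1
  refine S.all_mem hA ?_ ?_ ?_ hn u
  · intro y hy
    rw [he, hP.I A _ (S.mul_mem_I P hy)]
    symm
    apply hf
    exact (le_sup_right : S.I A ≤ S.BC A) hy
  · intro M hMs
    rw [he]
    exact hM M hMs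
  · intro c hc z hz
    rw [he, hf _ (S.th_mul_BC hc hz)]
    have e1 : P * (S.th c * z) = S.th c * (z * P) := by ring
    rw [e1, hP.th A c hc]
    have hz' := S.XC_le_J hc hz
    have e2 : S.Tr A (z * P) = 0 := by
      refine hP.res A (A.card - 1) (by omega) _ (S.mul_mem_J z hPJ) ?_
      have h1 := hz'.2
      rw [MvPolynomial.mem_homogeneousSubmodule] at h1 hPH ⊢
      have h2 := h1.mul hPH
      have h3 : A.card - 2 + 1 = A.card - 1 := by omega
      rwa [h3] at h2
    rw [e2, mul_zero]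

end Pool.Agent.LocH.Sub
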