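import Pool.Agent.LocH.Cor
import Pool.Agent.LocH.GC2
import Pool.Agent.LocH.Bridge

/-! LH-X: the results of P2, P3, P4, P5 in the form used in P6, P7. -/

set_option autoImplicit false

open Finset

namespace Pool.Agent.LocH.Sub

variable {X Ω : Type} [Fintype X] [DecidableEq X] [Fintype Ω] [DecidableEq Ω] (S : Sub X Ω)

theorem trP (hT : S.Top S.K) : S.TrP where
  th _ _ hc f := S.Tr_th hc f
  I _ _ hf := S.Tr_I hf
  res _ _ hn _ hf hH := S.res hT hf hH hn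
  an _ _ hi _ hg hH hl _ hn hd := S.an hi hg hH hl hn hd

theorem qp : S.Qp := fun _ _ hσ =>
  ⟨fun _ hc => S.q_spec hσ hc, fun _ hv => S.q_out hv, fun _ hv => S.q_ne hσ hv, S.dA_ne hσ⟩

theorem inj (hT : S.Top S.K) (A : Finset Ω) (i : ℕ) (hi : 2 * i < A.card)
    (h : ∀ g ∈ S.J A A, g ∈ S.H i → S.lam A * g ∈ S.N A (i + 1) → g ∈ S.N A i) :
    (S.ell A).coeff i ≤ (S.ell A).coeff (i + 1) :=
  S.step_of_inj hT (S.dim hT) hi h

end Pool.Agent.LocH.Sub
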