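import Pool.Agent.LocH.Fin

/-!
# MP_230912_co: change of the field of coefficients

If the relative homology of the stars is right with coefficients in `ZMod 2`, then it is right with
coefficients in every field of characteristic `2`: take coordinates with respect to a basis.
-/

set_option autoImplicit false

open Finset

namespace Pool.Agent.LocH.Sub

variable {X Ω : Type} [Fintype X] [DecidableEq X] [Fintype Ω] [DecidableEq Ω] (S : Sub X Ω)

omit [Fintype X] [Fintype Ω] in
theorem top_of_two (h : S.Top (ZMod 2)) (K : Type) [Field K] [CharP K 2] : S.Top K := by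
  classical
  let _ : Algebra (ZMod 2) K := ZMod.algebra K 2
  let b := Module.Basis.ofVectorSpace (ZMod 2) K
  have hc : ∀ (W : Finset Ω) (G : Finset X) (j : ℕ) (z : Finset X → K), S.Cyc W G j z →
      ∀ i, S.Cyc W G j (fun σ => b.repr (z σ) i) := by
    intro W G j z hz i k hk τ hτ
    have h1 := hz k hk τ hτ
    have h2 := congrArg (fun x => b.repr x i) h1
    simpa [map_sum, Finsupp.finsetSum_apply] using h2
  refine ⟨?_, ?_, ?_, h.ne⟩
  · intro W G hW hG j hj z hz
    choose y hy using fun i => h.exact W G hW hG j hj _ (hc W G j z hz i)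
    refine ⟨fun ρ => ∑ i ∈ (S.st W G j).biUnion (fun σ => (b.repr (z σ)).support),
      y i ρ • b i, fun σ hσ => ?_⟩
    rw [Finset.sum_comm]
    have h3 : ∀ i, ∑ ρ ∈ (S.st W G (j + 1)).filter (σ ⊆ ·), y i ρ • b i =
        b.repr (z σ) i • b i := by
      intro i
      rw [← Finset.sum_smul, ← hy i σ hσ]
    rw [Finset.sum_congr rfl fun i _ => h3 i]
    conv_lhs => rw [← b.linearCombination_repr (z σ), Finsupp.linearCombination_apply,
      Finsupp.sum]
    refine Finset.sum_subset (Finset.subset_biUnion_of_mem (fun σ => (b.repr (z σ)).support) hσ) ?_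
    intro i _ hi
    rw [Finsupp.notMem_support_iff.1 hi, zero_smul]
  · intro W G hW hG z hz σ hσ σ' hσ'
    apply b.repr.injective
    ext i
    exact h.const W G hW hG _ (hc W G _ z hz i) σ hσ σ' hσ'
  · intro W G hW hG k hk τ hτ
    have h1 := h.cyc W G hW hG k hk τ hτ
    have h2 := congrArg (algebraMap (ZMod 2) K) h1
    simpa [map_sum] using h2

end Pool.Agent.LocH.Sub
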