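import Pool.Agent.LocH.Defs

/-! LH-F1: the derivations `dd i` of the field of fractions of the polynomial ring over the field with two elements.

Write `R` for the polynomials and `δ` for `pderiv i`. In characteristic `2`: `δ (f ^ 2 * g) = f ^ 2 * δ g`. -/

set_option autoImplicit false

open Finset

namespace Pool.Agent.LocH

variable {ι : Type}

instance : CharP (FF ι) 2 :=
  charP_of_injective_algebraMap
    (IsFractionRing.injective (MvPolynomial ι (ZMod 2)) (FF ι)) 2

theorem add_self (x : FF ι) : x + x = 0 := CharTwo.add_self_eq_zero x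

theorem toF_inj {p q : MvPolynomial ι (ZMod 2)} (h : toF p = toF q) : p = q :=
  IsFractionRing.injective (MvPolynomial ι (ZMod 2)) (FF ι) h

private theorem pd_sq_mul (i : ι) (f g : MvPolynomial ι (ZMod 2)) :
    MvPolynomial.pderiv i (f ^ 2 * g) = f ^ 2 * MvPolynomial.pderiv i g := by
  have h2 : (2 : MvPolynomial ι (ZMod 2)) = 0 := by
    have := CharP.cast_eq_zero (MvPolynomial ι (ZMod 2)) 2
    exact_mod_cast this
  rw [MvPolynomial.pderiv_mul, pow_two, MvPolynomial.pderiv_mul]
  linear_combination (f * MvPolynomial.pderiv i f * g) * h2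

private theorem toF_ne {q : MvPolynomial ι (ZMod 2)} (hq : q ≠ 0) : toF q ≠ 0 := by
  intro h
  apply hq
  apply toF_inj
  rw [h]
  exact (map_zero _).symm

/-- PROOF. Let `(r, s)` be the pair of `IsLocalization.sec` for `x = p / q`: `x * s = r` (`IsLocalization.sec_spec`), so `p * s = r * q` in `R`,
and `q ^ 2 * δ (r * s) = δ (r * q * (s * q)) = δ (p * s * (s * q)) = s ^ 2 * δ (p * q)`. -/
theorem dd_div (i : ι) (p q : MvPolynomial ι (ZMod 2)) (hq : q ≠ 0) :
    dd i (toF p / toF q) = toF (MvPolynomial.pderiv i (p * q)) / toF q ^ 2 := by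
  unfold dd
  have hsp := IsLocalization.sec_spec (nonZeroDivisors (MvPolynomial ι (ZMod 2)))
    (toF p / toF q)
  set r := (IsLocalization.sec (nonZeroDivisors (MvPolynomial ι (ZMod 2)))
    (toF p / toF q)).1 with hr
  set s := (IsLocalization.sec (nonZeroDivisors (MvPolynomial ι (ZMod 2)))
    (toF p / toF q)).2 with hs
  have hs0 : (s : MvPolynomial ι (ZMod 2)) ≠ 0 := nonZeroDivisors.ne_zero s.2
  have hqF : toF q ≠ 0 := toF_ne hq
  have hsF : toF (s : MvPolynomial ι (ZMod 2)) ≠ 0 := toF_ne hs0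
  have e1 : p * (s : MvPolynomial ι (ZMod 2)) = r * q := by
    apply toF_inj
    show (algebraMap _ _) _ = (algebraMap _ _) _
    rw [map_mul, map_mul]
    have : toF p / toF q * toF (s : MvPolynomial ι (ZMod 2)) = toF r := hsp
    rw [div_mul_eq_mul_div, div_eq_iff hqF] at this
    exact this
  have e2 : q ^ 2 * MvPolynomial.pderiv i (r * (s : MvPolynomial ι (ZMod 2))) =
      (s : MvPolynomial ι (ZMod 2)) ^ 2 * MvPolynomial.pderiv i (p * q) := by
    rw [← pd_sq_mul, ← pd_sq_mul]
    congr 1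
    linear_combination (-(q * (s : MvPolynomial ι (ZMod 2)))) * e1
  rw [div_eq_div_iff (pow_ne_zero 2 hsF) (pow_ne_zero 2 hqF)]
  have e3 := congrArg (algebraMap (MvPolynomial ι (ZMod 2)) (FF ι)) e2
  have e4 : ∀ f g : MvPolynomial ι (ZMod 2),
      algebraMap (MvPolynomial ι (ZMod 2)) (FF ι) (f ^ 2 * g) = toF f ^ 2 * toF g := by
    intro f g
    rw [map_mul, map_pow]
  rw [e4, e4] at e3
  rw [mul_comm, e3, mul_comm]

/-- Every element is such a quotient (`IsFractionRing.div_surjective` or `IsLocalization.sec_spec`). -/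
theorem exists_div (x : FF ι) : ∃ p q : MvPolynomial ι (ZMod 2), q ≠ 0 ∧ x = toF p / toF q := by
  obtain ⟨p, q, hq, h⟩ := IsFractionRing.div_surjective (A := MvPolynomial ι (ZMod 2)) x
  exact ⟨p, q, nonZeroDivisors.ne_zero hq, h.symm⟩

private theorem toF_one : toF (1 : MvPolynomial ι (ZMod 2)) = 1 := map_one _

private theorem toF_mul (p q : MvPolynomial ι (ZMod 2)) : toF (p * q) = toF p * toF q :=
  map_mul _ _ _

private theorem toF_add (p q : MvPolynomial ι (ZMod 2)) : toF (p + q) = toF p + toF q :=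
  map_add _ _ _

theorem dd_toF (i : ι) (p : MvPolynomial ι (ZMod 2)) :
    dd i (toF p) = toF (MvPolynomial.pderiv i p) := by
  have h := dd_div i p 1 one_ne_zero
  rw [toF_one, div_one, mul_one, one_pow, div_one] at h
  exact h

theorem dd_X [DecidableEq ι] (i j : ι) :
    dd i (toF (MvPolynomial.X j)) = if i = j then 1 else 0 := by
  rw [dd_toF, MvPolynomial.pderiv_X]
  by_cases h : i = j
  · subst h
    simp [toF]
  · have h' : ¬ j = i := fun e => h e.symm
    simp [toF, h, h']

/-- PROOF. Write `x = p / s`, `y = q / s` with the same denominator. -/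
theorem dd_add (i : ι) (x y : FF ι) : dd i (x + y) = dd i x + dd i y := by
  obtain ⟨p, s, hs, rfl⟩ := exists_div x
  obtain ⟨q, r, hr, rfl⟩ := exists_div y
  have hsF := toF_ne hs
  have hrF := toF_ne hr
  have e1 : toF p / toF s = toF (p * r) / toF (s * r) := by
    rw [toF_mul, toF_mul]; field_simp
  have e2 : toF q / toF r = toF (q * s) / toF (s * r) := by
    rw [toF_mul, toF_mul]; field_simp
  have hsr : s * r ≠ 0 := mul_ne_zero hs hr
  rw [e1, e2, ← add_div, ← toF_add, dd_div i _ _ hsr, dd_div i _ _ hsr, dd_div i _ _ hsr,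
    ← add_div, ← toF_add, ← map_add, add_mul]

/-- PROOF. `x = p / s`, `y = q / r`: `δ (p s q r) = p s δ (q r) + q r δ (p s)`, and divide by `s ^ 2 * r ^ 2`. -/
theorem dd_mul (i : ι) (x y : FF ι) : dd i (x * y) = x * dd i y + y * dd i x := by
  obtain ⟨p, s, hs, rfl⟩ := exists_div x
  obtain ⟨q, r, hr, rfl⟩ := exists_div y
  have hsF := toF_ne hs
  have hrF := toF_ne hr
  have e1 : toF p / toF s * (toF q / toF r) = toF (p * q) / toF (s * r) := by
    rw [toF_mul, toF_mul]; field_simp
  have hsr : s * r ≠ 0 := mul_ne_zero hs hr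
  rw [e1, dd_div i _ _ hsr, dd_div i _ _ hs, dd_div i _ _ hr]
  have e2 : MvPolynomial.pderiv i (p * q * (s * r)) =
      (p * s) * MvPolynomial.pderiv i (q * r) + (q * r) * MvPolynomial.pderiv i (p * s) := by
    rw [show p * q * (s * r) = (p * s) * (q * r) by ring, MvPolynomial.pderiv_mul]
    ring
  rw [e2, toF_add, toF_mul, toF_mul, toF_mul, toF_mul, toF_mul]
  field_simp

theorem dd_zero (i : ι) : dd i 0 = 0 := by
  have h := dd_toF i (0 : MvPolynomial ι (ZMod 2))
  rw [map_zero] at h
  have h0 : toF (0 : MvPolynomial ι (ZMod 2)) = 0 := map_zero _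
  rw [h0] at h
  exact h

theorem dd_one (i : ι) : dd i 1 = 0 := by
  have h := dd_toF i (1 : MvPolynomial ι (ZMod 2))
  rw [MvPolynomial.pderiv_one] at h
  have h0 : toF (0 : MvPolynomial ι (ZMod 2)) = 0 := map_zero _
  rw [h0, toF_one] at h
  exact h

theorem dd_sq (i : ι) (x : FF ι) : dd i (x ^ 2) = 0 := by
  rw [pow_two, dd_mul]
  exact add_self _

theorem dd_sq_mul (i : ι) (x y : FF ι) : dd i (x ^ 2 * y) = x ^ 2 * dd i y := by
  rw [dd_mul, dd_sq, mul_zero, add_zero]

/-- PROOF. `0 = dd i (x * x⁻¹)` and characteristic `2`; `x = 0` is clear. -/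
theorem dd_inv (i : ι) (x : FF ι) : dd i x⁻¹ = dd i x / x ^ 2 := by
  by_cases hx : x = 0
  · subst hx
    simp [dd_zero]
  · have h1 : x * dd i x⁻¹ + x⁻¹ * dd i x = 0 := by
      rw [← dd_mul, mul_inv_cancel₀ hx, dd_one]
    have h2 : x * dd i x⁻¹ = x⁻¹ * dd i x := by
      have := add_self (x⁻¹ * dd i x)
      exact add_right_cancel (h1.trans this.symm)
    have : dd i x⁻¹ = x⁻¹ * (x * dd i x⁻¹) := by
      rw [← mul_assoc, inv_mul_cancel₀ hx, one_mul]
    rw [this, h2]
    field_simp

private theorem dd_div_eq (i : ι) (p q : MvPolynomial ι (ZMod 2)) :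
    dd i (toF p / toF q ^ 2) = toF (MvPolynomial.pderiv i p) / toF q ^ 2 := by
  have : toF p / toF q ^ 2 = ((toF q)⁻¹) ^ 2 * toF p := by
    rw [inv_pow, mul_comm]; rfl
  rw [this, dd_sq_mul, dd_toF, inv_pow, mul_comm]
  rfl

/-- PROOF. `x = p / q = p q / q ^ 2`, so `dd i (dd j x) = dd i (δ_j (p q)) / q ^ 2` by `dd_sq_mul` (for `q⁻¹`), and `pderiv i`, `pderiv j`
commute on the polynomials. -/
theorem dd_comm (i j : ι) (x : FF ι) : dd i (dd j x) = dd j (dd i x) := by
  obtain ⟨p, q, hq, rfl⟩ := exists_div x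
  rw [dd_div j _ _ hq, dd_div i _ _ hq, dd_div_eq, dd_div_eq]
  congr 2
  have h := (MvPolynomial.pderiv (R := ZMod 2) i).commutator_apply (D2 := MvPolynomial.pderiv j)
    (a := p * q)
  have h0 : (⁅MvPolynomial.pderiv (R := ZMod 2) i, MvPolynomial.pderiv j⁆ :
      Derivation (ZMod 2) (MvPolynomial ι (ZMod 2)) (MvPolynomial ι (ZMod 2))) = 0 := by
    classical
    apply MvPolynomial.derivation_ext
    intro k
    rw [Derivation.commutator_apply, MvPolynomial.pderiv_X, MvPolynomial.pderiv_X]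
    have e1 : MvPolynomial.pderiv (R := ZMod 2) i ((Pi.single j 1 : ι → MvPolynomial ι (ZMod 2)) k) = 0 := by
      rw [Pi.single_apply]
      split_ifs
      · exact MvPolynomial.pderiv_one
      · exact map_zero _
    have e2 : MvPolynomial.pderiv (R := ZMod 2) j ((Pi.single i 1 : ι → MvPolynomial ι (ZMod 2)) k) = 0 := by
      rw [Pi.single_apply]
      split_ifs
      · exact MvPolynomial.pderiv_one
      · exact map_zero _
    rw [e1, e2, sub_zero]
    rfl
  rw [h0] at h
  simpa [sub_eq_zero] using h.symm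

theorem dd_sum {κ : Type} (i : ι) (s : Finset κ) (f : κ → FF ι) :
    dd i (∑ k ∈ s, f k) = ∑ k ∈ s, dd i (f k) := by
  classical
  induction s using Finset.induction_on with
  | empty => simp [dd_zero]
  | insert a s ha ih => rw [Finset.sum_insert ha, Finset.sum_insert ha, dd_add, ih]

theorem dd_prod {κ : Type} [DecidableEq κ] (i : ι) (s : Finset κ) (f : κ → FF ι) :
    dd i (∏ k ∈ s, f k) = ∑ k ∈ s, dd i (f k) * ∏ j ∈ s.erase k, f j := by
  induction s using Finset.induction_on with
  | empty => simp [dd_one]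
  | insert a s ha ih =>
    rw [Finset.prod_insert ha, Finset.sum_insert ha, dd_mul, ih, Finset.erase_insert ha,
      Finset.mul_sum, add_comm, mul_comm (∏ k ∈ s, f k)]
    congr 1
    apply Finset.sum_congr rfl
    intro k hk
    have hka : k ≠ a := fun e => ha (e ▸ hk)
    rw [Finset.erase_insert_of_ne hka.symm, Finset.prod_insert (fun h => ha (Finset.mem_of_mem_erase h))]
    ring

end Pool.Agent.LocH
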