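import Pool.Agent.LocH.GEx

/-!
# Package G14: faces of size `D - 3` (P6.6, part (I) of `/team-store/LHV_proof.md`)

`D = A.card ≥ 7`, `F ∈ S.st A ∅ (D - 3)`, `F_U = F.filter (car ⊆ U)`. For `U ⊆ A`, `U ≠ A`, write
`F_U.card = D - 3 - p`, `U.card = D - q`: `p ≥ 1` (`S.cr F = A`), `q ≤ p + 3` (`card_filter_le`), excess
`q - 2 p`. So all excesses are `≤ 2`. If all are `≤ 1` then `Ex1 A (ch F)` holds. If the excess at `W` is `2` then
`p = 1`, `q = 4`: `W.card = D - 4`, `G = F_W ∈ S.fac W` (`cr_filter_eq`), `F = insert v G`,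
`Z = A \ W ⊆ car v`, `Z.card = 4`. Apply `facet_lemma` with `nT = single v 1` and
`Y' = Y ⊔ S.I A ⊔ S.thm A ⊤ = Y`, `Y` any submodule containing `S.I A`, `S.thm A ⊤` and all `mo n` with
`Ex1 A n`. Let `R` be a ridge of `Γ_W` (`R.card = D - 5`), `car u` not contained in `W`,
`n = ch R + single u 1 + single v 1`, (HA) `S.cr R = W.erase j`, `j ∈ car u`, or (HB) `S.cr R = W` (any
extension of `ω`). If the support of `n` is not in `S.fcs A`: `S.I A`. Otherwise `Ex1 A n`: degree `D - 3`,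
carrier `A` (`R` and `j`, `Z ⊆ car v`). Let `U ⊆ A`, `R_U = R.filter (car ⊆ U)`, `R_U.card ≤ (U ∩ W).card`. The
bound for excess `≤ 1` is `2 dgI U n - U.card ≤ D - 5`; the part of `n` in `U` is `R_U` plus `u` if `car u ⊆ U`
plus `v` if `car v ⊆ U`; `u ∉ R`, `v ∉ R`.
 - `car u, car v` not contained in `U`: `2 R_U.card - U.card ≤ R_U.card ≤ D - 5`; squarefree.
 - only `car v ⊆ U`: `Z ⊆ U`, `R_U.card ≤ U.card - 4`: `2 + 2 R_U.card - U.card ≤ R_U.card - 2 ≤ D - 7`.
 - only `car u ⊆ U`: `U` meets `Z`. (HA) `j ∈ U`, `R_U.card ≤ U.card - 2`: `≤ R_U.card ≤ D - 5`. (HB) `W ⊆ U`: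
   `U.card ≥ D - 3`: `2 + 2 (D - 5) - U.card ≤ D - 5`. Not `W ⊆ U`: `R_U.card ≤ D - 6`, `R_U.card ≤ U.card - 1`:
   `2 + 2 R_U.card - U.card ≤ 1 + R_U.card ≤ D - 5`. The part is squarefree (`u ∉ R`).
 - both: (HA) `R_U.card ≤ U.card - 5`: `4 + 2 R_U.card - U.card ≤ R_U.card - 1 ≤ D - 6`. (HB) `W ⊆ U`: `U = A`,
   `2 (D - 3) - D = D - 6`; not `W ⊆ U`: `R_U.card ≤ D - 6`, `R_U.card ≤ U.card - 4`:
   `4 + 2 R_U.card - U.card ≤ R_U.card ≤ D - 6`. So the excess is `≤ 0`.
-/

set_option autoImplicit false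

open Finset

namespace Pool.Agent.LocH.Sub

variable {X Ω : Type} [Fintype X] [DecidableEq X] [Fintype Ω] [DecidableEq Ω] (S : Sub X Ω)

private theorem ch_apply_le (F : Finset X) (v : X) : (ch F : X →₀ ℕ) v ≤ 1 := by
  unfold ch
  rw [Finsupp.finsetSum_apply]
  by_cases hv : v ∈ F
  · rw [Finset.sum_eq_single_of_mem v hv fun u _ hu => Finsupp.single_eq_of_ne hu.symm]
    rw [Finsupp.single_eq_same]
  · rw [Finset.sum_eq_zero]
    · exact Nat.zero_le 1
    · intro u hu
      exact Finsupp.single_eq_of_ne fun h => hv (h ▸ hu)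

private theorem ch_apply_eq {F : Finset X} {v : X} (hv : v ∉ F) : (ch F : X →₀ ℕ) v = 0 := by
  have h := ch_support F
  by_contra h1
  exact hv (by rw [← h]; exact Finsupp.mem_support_iff.2 h1)

/-- The excess bound, as a statement about cardinalities. -/
private theorem new_Ex1 {A W : Finset Ω} (hA : 7 ≤ A.card) (hWA : W ⊆ A)
    (hW : W.card + 4 = A.card) {v u : X} (hv : A \ W ⊆ S.car v) {R : Finset X}
    (hR : R ∈ S.Gam) (hRW : S.cr R ⊆ W) (hRc : R.card + 1 = W.card) (hu : ¬ S.car u ⊆ W)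
    (hc : S.cr R = W ∨ ∃ j ∈ W, j ∈ S.car u ∧ S.cr R = W.erase j)
    (hs : (ch R + Finsupp.single u 1 + Finsupp.single v 1).support ∈ S.fcs A) :
    S.Ex1 A (ch R + Finsupp.single u 1 + Finsupp.single v 1) := by
  set n : X →₀ ℕ := ch R + Finsupp.single u 1 + Finsupp.single v 1 with hn
  have hdeg : n.degree + 3 = A.card := by
    rw [hn, map_add, map_add, ch_degree, Finsupp.degree_single, Finsupp.degree_single]
    omega
  have hcrA : S.cr n.support ⊆ A := (Finset.mem_filter.1 hs).2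
  have hmem : ∀ x, n x ≠ 0 → S.car x ⊆ S.cr n.support := fun x hx c hc' =>
    Finset.mem_biUnion.2 ⟨x, Finsupp.mem_support_iff.2 hx, hc'⟩
  have hvn : n v ≠ 0 := by
    rw [hn, Finsupp.add_apply, Finsupp.single_eq_same]
    omega
  have hun : n u ≠ 0 := by
    rw [hn, Finsupp.add_apply, Finsupp.add_apply, Finsupp.single_eq_same]
    omega
  have hRn : ∀ r ∈ R, n r ≠ 0 := by
    intro r hr
    have h1 : (ch R : X →₀ ℕ) r ≠ 0 := by
      rw [← Finsupp.mem_support_iff, ch_support]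
      exact hr
    rw [hn, Finsupp.add_apply, Finsupp.add_apply]
    omega
  have hvc : S.car v ⊆ S.cr n.support := hmem v hvn
  have huc : S.car u ⊆ S.cr n.support := hmem u hun
  have hRc' : S.cr R ⊆ S.cr n.support := by
    intro c hc'
    obtain ⟨r, hr, hcr⟩ := Finset.mem_biUnion.1 hc'
    exact hmem r (hRn r hr) hcr
  have huR : u ∉ R := fun h => hu (fun c hc' => hRW (Finset.mem_biUnion.2 ⟨u, h, hc'⟩))
  have hcr : S.cr n.support = A := by
    refine Finset.Subset.antisymm hcrA fun c hcA => ?_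
    by_cases hcW : c ∈ W
    · rcases hc with h1 | ⟨j, hj, hju, h1⟩
      · exact hRc' (by rw [h1]; exact hcW)
      · by_cases hcj : c = j
        · rw [hcj]
          exact huc hju
        · exact hRc' (by rw [h1]; exact Finset.mem_erase.2 ⟨hcj, hcW⟩)
    · exact hvc (hv (Finset.mem_sdiff.2 ⟨hcA, hcW⟩))
  obtain ⟨z, hzu, hzW⟩ := Finset.not_subset.1 hu
  have hzA : z ∈ A := hcrA (huc hzu)
  have hdg : ∀ U, S.dgI U n = (R.filter fun v => S.car v ⊆ U).card +
      (if S.car u ⊆ U then 1 else 0) + (if S.car v ⊆ U then 1 else 0) := by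
    intro U
    rw [hn, dgI_add, dgI_add, dgI_ch, dgI_single, dgI_single]
  have hUW : ∀ U ⊆ A, (W ∩ U).card + ((A \ W) ∩ U).card = U.card := by
    intro U hU
    rw [← Finset.card_union_of_disjoint]
    · congr 1
      ext c
      rw [Finset.mem_union, Finset.mem_inter, Finset.mem_inter, Finset.mem_sdiff]
      constructor
      · rintro (h | h)
        · exact h.2
        · exact h.2
      · intro h
        by_cases hcW : c ∈ W
        · exact Or.inl ⟨hcW, h⟩
        · exact Or.inr ⟨⟨hU h, hcW⟩, h⟩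
    · rw [Finset.disjoint_left]
      intro c h1 h2
      exact (Finset.mem_sdiff.1 (Finset.mem_inter.1 h2).1).2 (Finset.mem_inter.1 h1).1
  have hZ : (A \ W).card = 4 := by
    rw [Finset.card_sdiff_of_subset hWA]
    omega
  have hZv : ∀ U, S.car v ⊆ U → ((A \ W) ∩ U).card = 4 := by
    intro U h
    rw [Finset.inter_eq_left.2 (hv.trans h), hZ]
  have hZu : ∀ U, S.car u ⊆ U → 1 ≤ ((A \ W) ∩ U).card := by
    intro U h
    refine Finset.card_pos.2 ⟨z, ?_⟩
    exact Finset.mem_inter.2 ⟨Finset.mem_sdiff.2 ⟨hzA, hzW⟩, h hzu⟩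
  have hrR : ∀ U, (R.filter fun v => S.car v ⊆ U).card ≤ R.card := fun U =>
    Finset.card_filter_le _ _
  have hrW : ∀ U, (R.filter fun v => S.car v ⊆ U).card ≤ (W ∩ U).card := fun U =>
    (S.card_filter_le hR U).trans (Finset.card_le_card (Finset.inter_subset_inter_right hRW))
  have hrj : ∀ U, ∀ j ∈ W, j ∈ S.car u → S.cr R = W.erase j → S.car u ⊆ U →
      (R.filter fun v => S.car v ⊆ U).card + 1 ≤ (W ∩ U).card := by
    intro U j hj hju h1 h2
    have h3 := S.card_filter_le hR U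
    have h4 : S.cr R ∩ U ⊆ (W ∩ U).erase j := by
      rw [h1]
      intro c hc'
      obtain ⟨h5, h6⟩ := Finset.mem_inter.1 hc'
      obtain ⟨h7, h8⟩ := Finset.mem_erase.1 h5
      exact Finset.mem_erase.2 ⟨h7, Finset.mem_inter.2 ⟨h8, h6⟩⟩
    have h5 : j ∈ W ∩ U := Finset.mem_inter.2 ⟨hj, h2 hju⟩
    have h6 := Finset.card_le_card h4
    rw [Finset.card_erase_of_mem h5] at h6
    have h7 : 0 < (W ∩ U).card := Finset.card_pos.2 ⟨j, h5⟩
    omega
  have hrB : ∀ U, S.cr R = W → ¬ W ⊆ U →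
      (R.filter fun v => S.car v ⊆ U).card + 1 ≤ R.card := by
    intro U h1 h2
    refine Nat.succ_le_of_lt (Finset.card_lt_card ?_)
    refine Finset.filter_ssubset.2 ?_
    obtain ⟨c, hcW, hcU⟩ := Finset.not_subset.1 h2
    rw [← h1] at hcW
    obtain ⟨r, hr, hcr'⟩ := Finset.mem_biUnion.1 hcW
    exact ⟨r, hr, fun h3 => hcU (h3 hcr')⟩
  have hex : ∀ U ⊆ A, S.ex A U n ≤ 1 ∧ (S.ex A U n = 1 → ¬ S.car v ⊆ U) := by
    intro U hU
    have e1 := hdg U
    have e2 := hUW U hU
    have e3 := hrR U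
    have e4 := hrW U
    have e5 := S.dgI_le U n
    unfold ex
    by_cases h1 : S.car u ⊆ U
    · have e6 := hZu U h1
      by_cases h2 : S.car v ⊆ U
      · have e7 := hZv U h2
        rw [if_pos h1, if_pos h2] at e1
        refine ⟨?_, fun h3 => ?_⟩ <;>
        · rcases hc with h4 | ⟨j, hj, hju, h4⟩
          · by_cases h5 : W ⊆ U
            · have e8 : W ∩ U = W := Finset.inter_eq_left.2 h5
              rw [e8] at e2
              omega
            · have e8 := hrB U h4 h5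
              omega
          · have e8 := hrj U j hj hju h4 h1
            omega
      · rw [if_pos h1, if_neg h2] at e1
        refine ⟨?_, fun _ => h2⟩
        rcases hc with h4 | ⟨j, hj, hju, h4⟩
        · by_cases h5 : W ⊆ U
          · have e8 : W ∩ U = W := Finset.inter_eq_left.2 h5
            rw [e8] at e2
            omega
          · have e8 := hrB U h4 h5
            omega
        · have e8 := hrj U j hj hju h4 h1
          omega
    · by_cases h2 : S.car v ⊆ U
      · have e7 := hZv U h2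
        rw [if_neg h1, if_pos h2] at e1
        exact ⟨by omega, fun h3 => by omega⟩
      · rw [if_neg h1, if_neg h2] at e1
        exact ⟨by omega, fun _ => h2⟩
  refine ⟨hdeg, hs, hcr, fun U hU => (hex U hU).1, fun U hU h1 x hx => ?_⟩
  have hxv : x ≠ v := by
    rintro rfl
    exact (hex U hU).2 h1 hx
  rw [hn, Finsupp.add_apply, Finsupp.add_apply, Finsupp.single_eq_of_ne hxv]
  by_cases hxu : x = u
  · rw [hxu, ch_apply_eq huR, Finsupp.single_eq_same]
    omega
  · rw [Finsupp.single_eq_of_ne hxu]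
    have := ch_apply_le R x
    omega

/-- The faces of size `D - 3` are combinations of monomials with excess at most one. -/
theorem face_Ex1 (hT : S.Top S.K) {A : Finset Ω} (hA : 7 ≤ A.card) {Y : Submodule S.K S.T}
    (hI : S.I A ≤ Y) (hθ : S.thm A ⊤ ≤ Y) (h : ∀ n : X →₀ ℕ, S.Ex1 A n → S.mo n ∈ Y)
    {F : Finset X} (hF : F ∈ S.st A ∅ (A.card - 3)) : S.mo (ch F) ∈ Y := by
  obtain ⟨hFG, -, hFA, hFc⟩ := Finset.mem_filter.1 hF
  by_cases hex : ∀ U ⊆ A, S.ex A U (ch F) ≤ 1
  · refine h _ ⟨by rw [ch_degree]; omega, ?_, by rw [ch_support, hFA], hex,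
      fun _ _ _ v _ => ch_apply_le F v⟩
    rw [ch_support]
    exact Finset.mem_filter.2 ⟨hFG, hFA.subset⟩
  push Not at hex
  obtain ⟨W, hWA, hW⟩ := hex
  set G := F.filter fun v => S.car v ⊆ W with hG
  have hGF : G ⊆ F := Finset.filter_subset _ _
  have hGG : G ∈ S.Gam := S.down F hFG G hGF
  have e1 : S.dgI W (ch F) = G.card := S.dgI_ch W F
  have e2 : G.card ≤ W.card := by
    refine (S.card_filter_le hFG W).trans (Finset.card_le_card Finset.inter_subset_right)
  have hne : ¬ W = A := by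
    rintro rfl
    have e3 := S.dgI_le W (ch F)
    unfold ex at hW
    rw [ch_degree] at e3 hW
    omega
  have hGne : G.card < F.card := by
    refine Finset.card_lt_card (Finset.filter_ssubset.2 ?_)
    by_contra hcon
    push Not at hcon
    refine hne (Finset.Subset.antisymm hWA ?_)
    rw [← hFA]
    exact Finset.biUnion_subset.2 hcon
  have hWc : W.card + 4 = A.card ∧ G.card = W.card := by
    unfold ex at hW
    rw [e1, ch_degree] at hW
    omega
  have hcrG : S.cr G = W := S.cr_filter_eq hFG hWc.2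
  have hGfac : G ∈ S.fac W := Finset.mem_filter.2 ⟨hGG, Finset.empty_subset _, hcrG, hWc.2⟩
  obtain ⟨v, hv⟩ : ∃ v, F \ G = {v} := by
    rw [← Finset.card_eq_one, Finset.card_sdiff_of_subset hGF]
    omega
  have hvF : v ∈ F ∧ v ∉ G := by
    rw [← Finset.mem_sdiff, hv]
    exact Finset.mem_singleton_self v
  have hFv : F = insert v G := by
    rw [← Finset.sdiff_union_of_subset hGF, hv]
    rfl
  have hZv : A \ W ⊆ S.car v := by
    intro c hc
    obtain ⟨hcA, hcW⟩ := Finset.mem_sdiff.1 hc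
    rw [← hFA] at hcA
    obtain ⟨x, hx, hcx⟩ := Finset.mem_biUnion.1 hcA
    by_cases hxG : x ∈ G
    · exact absurd (by rw [← hcrG]; exact Finset.mem_biUnion.2 ⟨x, hxG, hcx⟩) hcW
    · have h1 : x ∈ F \ G := Finset.mem_sdiff.2 ⟨hx, hxG⟩
      rw [hv, Finset.mem_singleton] at h1
      rwa [← h1]
  have hch : ch F = ch G + Finsupp.single v 1 := by
    unfold ch
    rw [hFv, Finset.sum_insert hvF.2, add_comm]
  have key : ∀ R ∈ S.Gam, S.cr R ⊆ W → R.card + 1 = W.card → ∀ u, ¬ S.car u ⊆ W →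
      (S.cr R = W ∨ ∃ j ∈ W, j ∈ S.car u ∧ S.cr R = W.erase j) →
      S.mo (ch R + Finsupp.single u 1 + Finsupp.single v 1) ∈ Y := by
    intro R hR hRW hRc u hu hc
    by_cases hs : (ch R + Finsupp.single u 1 + Finsupp.single v 1).support ∈ S.fcs A
    · exact h _ (S.new_Ex1 hA hWA hWc.1 hZv hR hRW hRc hu hc hs)
    · exact hI (S.mo_mem_I.2 hs)
  have hWne : W.Nonempty := Finset.card_pos.1 (by omega)
  rw [hch]
  refine S.facet_lemma hT hWA hWne (Finsupp.single v 1) hI hθ ?_ ?_ hGfac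
  · intro R hR hRc j hj hRj u hju hu
    obtain ⟨hRG, hRW⟩ := Finset.mem_filter.1 hR
    exact key R hRG hRW hRc u hu (Or.inr ⟨j, hj, hju, hRj⟩)
  · intro R hR ω
    obtain ⟨hRG, -, hRW, hRc⟩ := Finset.mem_filter.1 hR
    refine ⟨ω, fun _ _ => rfl, Submodule.sum_mem _ fun u hu => Submodule.smul_mem _ _ ?_⟩
    exact key R hRG hRW.subset (by omega) u (Finset.mem_filter.1 hu).2 (Or.inl hRW)

end Pool.Agent.LocH.Sub
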