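import Pool.Agent.LocH.GBasA

/-!
# Package GBas: multiplication of monomials by linear forms, ideals, good monomials

`ch`, `mo`, `dgI`, `ex` are defined in `GDef.lean`; `lf` in `GPer.lean`. All statements are short.
* `th_mul_mo`: definition of `th`, `monomial n 1 * X u = monomial (n + single u 1) 1`. `form_mul`: multiply by
  `ω c` and sum over `c ∈ A`. `lam_mul_mo`: definition of `lam`.
* `mo_mem_I`, `mo_mem_J`, `mo_mem_H`: `MvPolynomial.restrictSupport`, `homogeneousSubmodule`.
* `mul_mem_I`, `mul_mem_J`: supports of products; if `m.support ∉ S.fcs A` then a larger support is not in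
  `S.fcs A` (`down`); carriers are monotone.
* `th_mul_mem_I`: for `c ∉ A`: `a v c ≠ 0` only if `c ∈ car v`, and then the support of every monomial
  containing `v` is not in `S.fcs A`.
* `JH_le`: an element of `S.J A A ⊓ S.H k` is a combination of its monomials.
* `Good_of_Gd`: for `C ⊆ A`, every `v` in the support has `car v ⊆ A`; if `car v` is disjoint from `C` then
  `car v ⊆ A \ C`; so `n.degree ≤ dgI (A \ C) n + dgC C n`, and `ex A (A \ C) n ≤ 0` gives
  `C.card ≤ 2 * dgC C n` (`(A \ C).card = A.card - C.card`).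
* `Gd_cr`: suppose `S.cr n.support ≠ A`; take `j ∈ A` not in it, `U = A.erase j`: all of `n` is in `U`, the
  excess is `1`.
-/

set_option autoImplicit false

open Finset

namespace Pool.Agent.LocH.Sub

variable {X Ω : Type} [Fintype X] [DecidableEq X] [Fintype Ω] [DecidableEq Ω] (S : Sub X Ω)

private theorem fcs_down {A : Finset Ω} {F G : Finset X} (h : G ⊆ F) (hF : F ∈ S.fcs A) :
    G ∈ S.fcs A := by
  have h1 := Finset.mem_filter.1 hF
  exact Finset.mem_filter.2 ⟨S.down F h1.1 G h,
    (Finset.biUnion_subset_biUnion_of_subset_left _ h).trans h1.2⟩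

theorem th_mul_mo (c : Ω) (n : X →₀ ℕ) :
    S.th c * S.mo n = ∑ u, S.a u c • S.mo (n + Finsupp.single u 1) := by
  unfold th mo
  rw [Finset.sum_mul]
  refine Finset.sum_congr rfl fun u _ => ?_
  rw [mul_assoc, ← MvPolynomial.smul_eq_C_mul, MvPolynomial.X, MvPolynomial.monomial_mul, mul_one,
    add_comm n]

theorem form_mul (A : Finset Ω) (ω : Ω → S.K) (n : X →₀ ℕ) :
    ∑ c ∈ A, ω c • (S.th c * S.mo n) = ∑ u, S.lf A ω u • S.mo (n + Finsupp.single u 1) := by
  have h1 : ∀ c ∈ A, ω c • (S.th c * S.mo n) =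
      ∑ u, (ω c * S.a u c) • S.mo (n + Finsupp.single u 1) := by
    intro c _
    rw [th_mul_mo, Finset.smul_sum]
    exact Finset.sum_congr rfl fun u _ => smul_smul _ _ _
  rw [Finset.sum_congr rfl h1, Finset.sum_comm]
  refine Finset.sum_congr rfl fun u _ => ?_
  unfold lf
  rw [Finset.sum_smul]

theorem lam_mul_mo (A : Finset Ω) (n : X →₀ ℕ) :
    S.lam A * S.mo n = ∑ u ∈ univ.filter (fun u => S.car u ⊆ A), S.mo (n + Finsupp.single u 1) := by
  unfold lam mo
  rw [Finset.sum_mul]
  refine Finset.sum_congr rfl fun u _ => ?_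
  rw [MvPolynomial.X, MvPolynomial.monomial_mul, mul_one, add_comm n]

theorem mo_mem_I {A : Finset Ω} {n : X →₀ ℕ} : S.mo n ∈ S.I A ↔ n.support ∉ S.fcs A := by
  unfold mo I
  rw [MvPolynomial.monomial_mem_restrictSupport]
  exact or_iff_left one_ne_zero

theorem mo_mem_J {A U : Finset Ω} {n : X →₀ ℕ} :
    S.mo n ∈ S.J A U ↔ (n.support ∈ S.fcs A → U ⊆ S.cr n.support) := by
  unfold mo J
  rw [MvPolynomial.monomial_mem_restrictSupport]
  exact or_iff_left one_ne_zero

theorem mo_mem_H {n : X →₀ ℕ} {k : ℕ} (h : n.degree = k) : S.mo n ∈ S.H k := by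
  exact (MvPolynomial.mem_homogeneousSubmodule _ _).2 (MvPolynomial.isHomogeneous_monomial 1 h)

theorem mul_mem_I {A : Finset Ω} {f : S.T} (g : S.T) (hf : f ∈ S.I A) : g * f ∈ S.I A := by
  exact (MvPolynomial.restrictSupportIdeal (R := S.K) {m : X →₀ ℕ | m.support ∉ S.fcs A}
    (fun m m' h hm hm' => hm (S.fcs_down (Finsupp.support_mono h) hm'))).mul_mem_left g hf

theorem mul_mem_J {A U : Finset Ω} {f : S.T} (g : S.T) (hf : f ∈ S.J A U) : g * f ∈ S.J A U := by
  exact (MvPolynomial.restrictSupportIdeal (R := S.K)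
    {m : X →₀ ℕ | m.support ∈ S.fcs A → U ⊆ S.cr m.support}
    (fun m m' h hm hm' => (hm (S.fcs_down (Finsupp.support_mono h) hm')).trans
      (Finset.biUnion_subset_biUnion_of_subset_left _ (Finsupp.support_mono h)))).mul_mem_left g hf

theorem I_le_JU (A U : Finset Ω) : S.I A ≤ S.J A U := by
  exact MvPolynomial.restrictSupport_mono S.K fun m hm hm' => absurd hm' hm

theorem th_mul_mem_I {A : Finset Ω} {c : Ω} (hc : c ∉ A) (f : S.T) : S.th c * f ∈ S.I A := by
  rw [mul_comm]
  refine S.mul_mem_I f ?_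
  unfold th
  refine Submodule.sum_mem _ fun v _ => ?_
  by_cases h : c ∈ S.car v
  · rw [MvPolynomial.C_mul_X_eq_monomial]
    refine (MvPolynomial.monomial_mem_restrictSupport _).2 (Or.inl ?_)
    intro h1
    rw [Finsupp.support_single v one_ne_zero] at h1
    have h2 := (Finset.mem_filter.1 h1).2
    unfold cr at h2
    rw [Finset.singleton_biUnion] at h2
    exact hc (h2 h)
  · rw [S.a_eq_zero h, map_zero, zero_mul]
    exact zero_mem _

theorem th_mul_mem_thm {A : Finset Ω} {c : Ω} (hc : c ∈ A) (f : S.T) : S.th c * f ∈ S.thm A ⊤ := by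
  exact Submodule.mem_iSup_of_mem c (Submodule.mem_iSup_of_mem hc ⟨f, trivial, rfl⟩)

/-- An element of the interior ideal of degree `k` is a combination of its monomials. -/
theorem JH_le {A : Finset Ω} {k : ℕ} {Y : Submodule S.K S.T}
    (h : ∀ n : X →₀ ℕ, n.degree = k → (n.support ∈ S.fcs A → A ⊆ S.cr n.support) → S.mo n ∈ Y) :
    S.J A A ⊓ S.H k ≤ Y := by
  rintro f ⟨hf1, hf2⟩
  rw [← MvPolynomial.support_sum_monomial_coeff f]
  refine Submodule.sum_mem _ fun m hm => ?_
  have h1 : MvPolynomial.monomial m (MvPolynomial.coeff m f) =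
      MvPolynomial.coeff m f • S.mo m := by
    unfold mo
    rw [MvPolynomial.smul_monomial, smul_eq_mul, mul_one]
  rw [h1]
  refine Submodule.smul_mem _ _ (h m ?_ ((MvPolynomial.mem_restrictSupport_iff _).1 hf1 hm))
  rw [Finsupp.degree_eq_weight_one]
  exact hf2 (MvPolynomial.mem_support_iff.1 hm)

theorem Good_of_Gd {A : Finset Ω} {n : X →₀ ℕ} (h : S.Gd A n) : S.Good A n := by
  intro C hC
  have h1 := h.2 (A \ C) Finset.sdiff_subset
  have h2 : n.degree ≤ S.dgI (A \ C) n + S.dgC C n := by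
    rw [Finsupp.degree_eq_sum]
    unfold dgI dgC
    rw [Finset.sum_filter, Finset.sum_filter, ← Finset.sum_add_distrib]
    refine Finset.sum_le_sum fun v _ => ?_
    by_cases h3 : n v = 0
    · rw [h3]
      exact Nat.zero_le _
    · have h4 : S.car v ⊆ A := (Finset.subset_biUnion_of_mem S.car
        (Finsupp.mem_support_iff.2 h3)).trans (Finset.mem_filter.1 h.1).2
      by_cases h5 : Disjoint (S.car v) C
      · rw [if_pos (Finset.subset_sdiff.2 ⟨h4, h5⟩)]
        exact Nat.le_add_right _ _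
      · rw [if_pos h5]
        exact Nat.le_add_left _ _
  unfold ex at h1
  have h3 : (A \ C).card + C.card = A.card := Finset.card_sdiff_add_card_eq_card hC
  omega

theorem GM_le_GS (A : Finset Ω) (n : ℕ) : S.GM A n ≤ S.GS A n := by
  unfold GM
  rw [Submodule.span_le]
  rintro _ ⟨m, h1, h2, rfl⟩
  exact (MvPolynomial.monomial_mem_restrictSupport _).2 (Or.inl ⟨S.Good_of_Gd h1, h2⟩)

theorem Gd_cr {A : Finset Ω} {n : X →₀ ℕ} (h : S.Gd A n) : S.cr n.support = A := by
  have h0 : S.cr n.support ⊆ A := (Finset.mem_filter.1 h.1).2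
  refine Finset.Subset.antisymm h0 fun j hj => ?_
  by_contra hjn
  have h1 := h.2 (A.erase j) (Finset.erase_subset _ _)
  have h2 : n.degree ≤ S.dgI (A.erase j) n := by
    rw [Finsupp.degree_eq_sum]
    unfold dgI
    rw [Finset.sum_filter]
    refine Finset.sum_le_sum fun v _ => ?_
    by_cases h3 : n v = 0
    · rw [h3]
      exact Nat.zero_le _
    · have h4 : S.car v ⊆ S.cr n.support := Finset.subset_biUnion_of_mem S.car
        (Finsupp.mem_support_iff.2 h3)
      rw [if_pos (Finset.subset_erase.2 ⟨h4.trans h0, fun h5 => hjn (h4 h5)⟩)]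
  unfold ex at h1
  have h3 := Finset.card_erase_add_one hj
  omega

end Pool.Agent.LocH.Sub
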