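import Pool.Agent.LocH.GSp2

/-!
# Package GC1: relations with controlled monomials (P6.4 of `/team-store/LHV_proof.md`, items (1), (2))

Write `D = A.card ≥ 4`, `F_U = F.filter (car ⊆ U)`. `XC A c`: span of the monomials of degree `D - 2`, support a
face of `Γ_A`, with excess `≤ 0` at all `U ⊆ A` with `c ∈ U`. `BC A` contains `th c * f` for `f ∈ XC A c`,
`c ∈ A`, and `S.I A`, and `lam A * f` for `f ∈ GM A (D - 2)`.
* `XC_int`: `F ∈ S.st A ∅ (D - 2)`, `ω` vanishes on `F` (`lf A ω k = 0`), `ω c ≠ 0`, `c ∈ A`. Let `c ∈ U ⊆ A`.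
  `U = A`: excess `0`. `U ≠ A`: `F_U.card ≤ D - 3`, `F_U.card ≤ U.card`; the excess
  `2 F_U.card - U.card - (D - 4)` is positive only if `F_U.card = U.card = D - 3`; then `F_U ∈ S.fac U`
  (`cr_filter_eq`), and `lf U ω k = lf A ω k = 0` for `k ∈ F_U` (`car k ⊆ U`), so `ω c = 0` by `form_zero`.
* `BC_int`: the combination `∑ c ∈ A, ω c • (th c * mo (ch F))` is in `BC A` (term by term).
* `BC_edge`: `F ∈ S.st (A.erase j) ∅ (D - 2)`. `mo (ch F) ∈ XC A j`: let `j ∈ U ⊆ A`; `U = A`: `0`. `U ≠ A`: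
  `F_U ⊆ Γ_(U.erase j)`, `F_U.card ≤ U.card - 1`, so `2 F_U.card - U.card ≤ F_U.card - 1 ≤ D - 4` if
  `F_U.card ≤ D - 3`. If `F_U = F` then `A.erase j = S.cr F ⊆ U` and `j ∈ U`, `U = A`, excluded.
* `XC_cr`: a monomial of `XC A c` has carrier containing `A.erase c`: if `j ∈ A`, `j ≠ c` is not in the
  carrier then `U = A.erase j` contains `c` and has excess `1`. So `th c * mo n ∈ S.J A A` (`th_mul_mo`:
  `a u c ≠ 0` only if `c ∈ car u`).
* `XC_bad`: `F ∈ S.st A ∅ (D - 2)` not good, `U, G, v` as in `bad_two` (`F = insert v G`, `G ∈ S.fac U`,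
  `U.card = D - 3`). Then `mo (ch F) ∈ XC A c` for every `c ∈ A \ U`: a set `U₁ ∋ c`, `U₁ ≠ A` with positive
  excess has `F_U₁.card = U₁.card = D - 3` (as above) and `S.cr F_U₁ = U₁` so `F_U₁ = F.erase v'` for some
  `v' ∈ F` with `A \ U₁ ⊆ car v'`. If `v' = v` then `F_U₁ = G` and `U₁ = S.cr G = U`, but `c ∉ U`. If `v' ≠ v`
  then `v ∈ F_U₁`, so `A \ U ⊆ car v ⊆ U₁`, and `G.erase v' ⊆ F_U₁` is contained in `Γ_(U ∩ U₁)`, but
  `(G.erase v').card = D - 4` and `(U ∩ U₁).card = U₁.card - 3 = D - 6`: contradiction (`card_le`).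
-/

set_option autoImplicit false

open Finset

namespace Pool.Agent.LocH.Sub

variable {X Ω : Type} [Fintype X] [DecidableEq X] [Fintype Ω] [DecidableEq Ω] (S : Sub X Ω)

theorem th_mul_BC {A : Finset Ω} {c : Ω} (hc : c ∈ A) {f : S.T} (hf : f ∈ S.XC A c) :
    S.th c * f ∈ S.BC A := by
  unfold BC
  refine Submodule.mem_sup_left (Submodule.mem_sup_right ?_)
  exact Submodule.mem_iSup_of_mem c (Submodule.mem_iSup_of_mem hc ⟨f, hf, rfl⟩)

theorem lam_mul_BC {A : Finset Ω} {n : X →₀ ℕ} (hn : S.Gd A n) (hd : n.degree = A.card - 2) :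
    S.lam A * S.mo n ∈ S.BC A := by
  unfold BC
  refine Submodule.mem_sup_left (Submodule.mem_sup_left ?_)
  exact ⟨S.mo n, Submodule.subset_span ⟨n, hn, hd, rfl⟩, rfl⟩

theorem GM_le_XC {A : Finset Ω} (hA : 2 ≤ A.card) (c : Ω) : S.GM A (A.card - 2) ≤ S.XC A c := by
  unfold GM
  rw [Submodule.span_le]
  rintro _ ⟨m, hm, hd, rfl⟩
  exact Submodule.subset_span ⟨m, hm.1, by omega, fun U hU _ => hm.2 U hU, rfl⟩

private theorem ex_ch (A U : Finset Ω) (F : Finset X) : S.ex A U (ch F) =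
    2 * ((F.filter fun v => S.car v ⊆ U).card : ℤ) - U.card - (2 * (F.card : ℤ) - A.card) := by
  unfold ex
  rw [S.dgI_ch, ch_degree]

private theorem filter_lt {U : Finset Ω} {F : Finset X} (h : ¬ S.cr F ⊆ U) :
    (F.filter fun v => S.car v ⊆ U).card < F.card := by
  have h1 := S.dgI_lt (U := U) (n := ch F) (by
    rw [ch_support]
    exact h)
  rwa [S.dgI_ch, ch_degree] at h1

/-- a face with `A.card - 2` elements is in `XC A c` if its excess at proper subsets containing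
`c` is not positive -/
private theorem mem_XC {A : Finset Ω} (hA : 4 ≤ A.card) {F : Finset X} (hG : F ∈ S.Gam)
    (hcr : S.cr F ⊆ A) (hcard : F.card = A.card - 2) {c : Ω}
    (h : ∀ U ⊆ A, c ∈ U → ¬ 0 < S.ex A U (ch F)) : S.mo (ch F) ∈ S.XC A c := by
  refine Submodule.subset_span ⟨ch F, ?_, ?_, fun U hU hc => not_lt.1 (h U hU hc), rfl⟩
  · rw [ch_support]
    exact Finset.mem_filter.2 ⟨hG, hcr⟩
  · rw [ch_degree]
    omega

/-- positive excess of an interior face with `A.card - 2` elements -/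
private theorem tight {A : Finset Ω} (hA : 4 ≤ A.card) {F : Finset X} (hG : F ∈ S.Gam)
    (hcr : S.cr F = A) (hcard : F.card = A.card - 2) {U : Finset Ω} (hU : U ⊆ A)
    (h : 0 < S.ex A U (ch F)) :
    (F.filter fun v => S.car v ⊆ U).card = U.card ∧ U.card + 3 = A.card := by
  rw [S.ex_ch] at h
  have h1 := S.card_filter_le hG U
  rw [hcr, Finset.inter_eq_right.2 hU] at h1
  have h2 : (F.filter fun v => S.car v ⊆ U).card ≤ F.card := Finset.card_filter_le _ _
  by_cases hUA : U = A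
  · rw [hUA] at h h2
    omega
  · have h3 : ¬ S.cr F ⊆ U := by
      rw [hcr]
      exact fun h4 => hUA (Finset.Subset.antisymm hU h4)
    have h4 := S.filter_lt h3
    omega

private theorem dgI_eq {U : Finset Ω} {n : X →₀ ℕ} (h : S.cr n.support ⊆ U) :
    S.dgI U n = n.degree := by
  unfold dgI
  have h1 : n.degree = ∑ v ∈ n.support, n v := rfl
  rw [h1]
  symm
  refine Finset.sum_subset (fun v hv => ?_) fun v _ hv => Finsupp.notMem_support_iff.1 hv
  refine Finset.mem_filter.2 ⟨Finset.mem_univ v, ?_⟩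
  exact (Finset.subset_biUnion_of_mem S.car hv).trans h

theorem XC_int {A : Finset Ω} (hA : 4 ≤ A.card) {F : Finset X} (hF : F ∈ S.st A ∅ (A.card - 2))
    {ω : Ω → S.K} (hω : ∀ k ∈ F, S.lf A ω k = 0) {c : Ω} (hc : c ∈ A) (h0 : ω c ≠ 0) :
    S.mo (ch F) ∈ S.XC A c := by
  obtain ⟨hG, -, hcr, hcard⟩ := Finset.mem_filter.1 hF
  refine S.mem_XC hA hG hcr.le hcard fun U hU hcU hpos => ?_
  obtain ⟨h1, h2⟩ := S.tight hA hG hcr hcard hU hpos
  have h3 : F.filter (fun v => S.car v ⊆ U) ∈ S.fac U := by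
    refine Finset.mem_filter.2 ⟨S.down F hG _ (Finset.filter_subset _ _), Finset.empty_subset _,
      S.cr_filter_eq hG h1, h1⟩
  refine h0 (S.form_zero h3 (ω := ω) (fun v hv => ?_) c hcU)
  obtain ⟨hvF, hvU⟩ := Finset.mem_filter.1 hv
  rw [← hω v hvF]
  unfold lf
  refine Finset.sum_subset hU fun c' _ hc' => ?_
  rw [S.a_eq_zero fun h => hc' (hvU h), mul_zero]

theorem BC_int {A : Finset Ω} (hA : 4 ≤ A.card) {F : Finset X} (hF : F ∈ S.st A ∅ (A.card - 2))
    {ω : Ω → S.K} (hω : ∀ k ∈ F, S.lf A ω k = 0) :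
    ∑ c ∈ A, ω c • (S.th c * S.mo (ch F)) ∈ S.BC A := by
  refine Submodule.sum_mem _ fun c hc => ?_
  by_cases h0 : ω c = 0
  · rw [h0, zero_smul]
    exact zero_mem _
  · exact Submodule.smul_mem _ _ (S.th_mul_BC hc (S.XC_int hA hF hω hc h0))

theorem XC_edge {A : Finset Ω} (hA : 4 ≤ A.card) {j : Ω} (hj : j ∈ A) {F : Finset X}
    (hF : F ∈ S.st (A.erase j) ∅ (A.card - 2)) : S.mo (ch F) ∈ S.XC A j := by
  obtain ⟨hG, -, hcr, hcard⟩ := Finset.mem_filter.1 hF
  refine S.mem_XC hA hG (hcr.le.trans (Finset.erase_subset j A)) hcard fun U hU hjU h => ?_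
  rw [S.ex_ch] at h
  have h1 := S.card_filter_le hG U
  have h5 : S.cr F ∩ U = U.erase j := by
    rw [hcr]
    ext x
    rw [Finset.mem_inter, Finset.mem_erase, Finset.mem_erase]
    exact ⟨fun h6 => ⟨h6.1.1, h6.2⟩, fun h6 => ⟨⟨h6.1, hU h6.2⟩, h6.2⟩⟩
  rw [h5, Finset.card_erase_of_mem hjU] at h1
  have h6 : 0 < U.card := Finset.card_pos.2 ⟨j, hjU⟩
  have h2 : (F.filter fun v => S.car v ⊆ U).card ≤ F.card := Finset.card_filter_le _ _
  by_cases hUA : U = A
  · rw [hUA] at h h2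
    omega
  · have h3 : ¬ S.cr F ⊆ U := by
      rw [hcr]
      intro h4
      refine hUA (Finset.Subset.antisymm hU fun x hx => ?_)
      by_cases hxj : x = j
      · rw [hxj]
        exact hjU
      · exact h4 (Finset.mem_erase.2 ⟨hxj, hx⟩)
    have h4 := S.filter_lt h3
    omega

theorem XC_le_J {A : Finset Ω} {c : Ω} (hc : c ∈ A) {f : S.T} (hf : f ∈ S.XC A c) :
    f ∈ S.J A (A.erase c) ∧ f ∈ S.H (A.card - 2) := by
  have h : S.XC A c ≤ S.J A (A.erase c) ⊓ S.H (A.card - 2) := by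
    unfold XC
    rw [Submodule.span_le]
    rintro _ ⟨m, hm, hd, hex, rfl⟩
    refine ⟨S.mo_mem_J.2 fun _ j hj => ?_, S.mo_mem_H (by omega)⟩
    obtain ⟨hjc, hjA⟩ := Finset.mem_erase.1 hj
    by_contra hcon
    have h1 : S.cr m.support ⊆ A.erase j := fun x hx =>
      Finset.mem_erase.2 ⟨fun h2 => hcon (h2 ▸ hx), (Finset.mem_filter.1 hm).2 hx⟩
    have h2 := hex (A.erase j) (Finset.erase_subset j A)
      (Finset.mem_erase.2 ⟨fun h3 => hjc h3.symm, hc⟩)
    unfold ex at h2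
    rw [S.dgI_eq h1, Finset.card_erase_of_mem hjA] at h2
    have h3 : 0 < A.card := Finset.card_pos.2 ⟨j, hjA⟩
    omega
  exact h hf

theorem XC_bad {A : Finset Ω} (hA : 4 ≤ A.card) {F : Finset X} (hF : F ∈ S.st A ∅ (A.card - 2))
    {U : Finset Ω} (hU : U ⊆ A) (hUc : U.card + 3 = A.card) {G : Finset X} (hG : G ∈ S.fac U) {v : X}
    (hv : v ∉ G) (hZ : A \ U ⊆ S.car v) (hFG : F = insert v G) {c : Ω} (hc : c ∈ A \ U) :
    S.mo (ch F) ∈ S.XC A c := by
  obtain ⟨hFm, -, hcr, hcard⟩ := Finset.mem_filter.1 hF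
  obtain ⟨hGm, -, hGcr, hGc⟩ := Finset.mem_filter.1 hG
  refine S.mem_XC hA hFm hcr.le hcard fun U₁ hU₁ hcU hpos => ?_
  obtain ⟨h1, h2⟩ := S.tight hA hFm hcr hcard hU₁ hpos
  have h3 := S.cr_filter_eq hFm h1
  by_cases hvF : v ∈ F.filter fun v => S.car v ⊆ U₁
  · have hvU := (Finset.mem_filter.1 hvF).2
    have h4 : F.filter (fun v => S.car v ⊆ U₁) =
        insert v (G.filter fun v => S.car v ⊆ U₁) := by
      rw [hFG, Finset.filter_insert, if_pos hvU]
    have h5 : (F.filter fun v => S.car v ⊆ U₁).card =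
        (G.filter fun v => S.car v ⊆ U₁).card + 1 := by
      rw [h4, Finset.card_insert_of_notMem fun h6 => hv (Finset.mem_filter.1 h6).1]
    have h6 := S.card_filter_le hGm U₁
    rw [hGcr] at h6
    have h7 : A \ U = U₁ \ U := by
      ext x
      rw [Finset.mem_sdiff, Finset.mem_sdiff]
      exact ⟨fun h8 => ⟨hvU (hZ (Finset.mem_sdiff.2 h8)), h8.2⟩, fun h8 => ⟨hU₁ h8.1, h8.2⟩⟩
    have h8 := Finset.card_sdiff_add_card_eq_card hU
    have h9 := Finset.card_sdiff_add_card_inter U₁ U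
    rw [← h7, Finset.inter_comm] at h9
    omega
  · have h4 : F.filter (fun v => S.car v ⊆ U₁) ⊆ G := by
      intro x hx
      have hx1 := (Finset.mem_filter.1 hx).1
      rw [hFG] at hx1
      rcases Finset.mem_insert.1 hx1 with h5 | h5
      · exact absurd (h5 ▸ hx) hvF
      · exact h5
    have h5 : F.filter (fun v => S.car v ⊆ U₁) = G := by
      refine Finset.eq_of_subset_of_card_le h4 ?_
      rw [hGc, h1]
      omega
    rw [h5, hGcr] at h3
    rw [← h3] at hcU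
    exact (Finset.mem_sdiff.1 hc).2 hcU

end Pool.Agent.LocH.Sub
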