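import Pool.Agent.LocH.Fld

/-! LH-R1: consequences of (Top): ridges, boundary ridges, connectedness.

`S.st W G j`: the faces with carrier `W` which contain `G` and have `j` vertices; `S.fac W = S.st W ∅ W.card` the facets of `Γ_W`;
`S.Cyc W G j z`: the sums of `z` over the members of `S.st W G j` containing a member of `S.st W G (j - 1)` vanish. -/

set_option autoImplicit false

open Finset

namespace Pool.Agent.LocH.Sub

variable {X Ω : Type} [Fintype X] [DecidableEq X] [Fintype Ω] [DecidableEq Ω] {S : Sub X Ω}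

theorem mem_st {W : Finset Ω} {G F : Finset X} {j : ℕ} :
    F ∈ S.st W G j ↔ F ∈ S.Gam ∧ G ⊆ F ∧ S.cr F = W ∧ F.card = j := by
  simp [st]

theorem mem_fcs {W : Finset Ω} {F : Finset X} : F ∈ S.fcs W ↔ F ∈ S.Gam ∧ S.cr F ⊆ W := by
  simp [fcs]

/-- A face of the restriction to `W` is in a facet; for `W = ∅` the only face is `∅` (`S.card_le`).
PROOF. `hT.ne` (a member of `S.st W G W.card` is a facet). -/
theorem exists_fac (hT : S.Top S.K) {W : Finset Ω} {G : Finset X} (hG : G ∈ S.fcs W) :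
    ∃ σ ∈ S.fac W, G ⊆ σ := by
  rcases W.eq_empty_or_nonempty with rfl | hW
  · obtain ⟨h1, h2⟩ := mem_fcs.1 hG
    have h3 := S.card_le G h1
    have h4 : S.cr G = ∅ := subset_empty.1 h2
    have h5 : (G.biUnion S.car).card = 0 := by
      have : (S.cr G).card = 0 := by rw [h4]; rfl
      exact this
    rw [h5] at h3
    have h6 : G = ∅ := card_eq_zero.1 (Nat.le_zero.1 h3)
    refine ⟨∅, mem_st.2 ⟨S.empty_mem, subset_rfl, ?_, rfl⟩, h6.subset⟩
    simp [cr]
  · obtain ⟨σ, hσ⟩ := hT.ne W G hW hG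
    obtain ⟨h1, h2, h3, h4⟩ := mem_st.1 hσ
    exact ⟨σ, mem_st.2 ⟨h1, empty_subset _, h3, h4⟩, h2⟩

private theorem filter_st (W : Finset Ω) (G : Finset X) (j : ℕ) :
    (S.st W G j).filter (G ⊆ ·) = S.st W G j :=
  filter_true_of_mem fun _ hσ => (mem_st.1 hσ).2.1

private theorem filter_fac (W : Finset Ω) (G : Finset X) :
    (S.fac W).filter (G ⊆ ·) = S.st W G W.card := by
  ext σ
  rw [mem_filter, fac, mem_st, mem_st]
  constructor
  · rintro ⟨⟨h1, -, h3, h4⟩, h5⟩
    exact ⟨h1, h5, h3, h4⟩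
  · rintro ⟨h1, h2, h3, h4⟩
    exact ⟨⟨h1, empty_subset _, h3, h4⟩, h2⟩

/-- An interior ridge `τ` is in exactly two facets.
PROOF. `W` is not empty. `S.st W τ (W.card - 1) = {τ}` and the facets containing `τ` are `S.st W τ W.card` (a set with carrier `W` containing `τ`). So `z` is a
cycle iff the sum of `z` over the facets containing `τ` is `0`. There is a facet (`hT.ne`). If there is only one then `hT.cyc` says `1 = 0`. If there are three
different ones `ρ₁, ρ₂, ρ₃`, let `z ρ = if ρ = ρ₁ ∨ ρ = ρ₂ then 1 else 0`: a cycle (`1 + 1 = 0`), so by `hT.const` `z ρ₁ = z ρ₃`, that is `1 = 0`. -/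
theorem ridge_two (hT : S.Top S.K) {W : Finset Ω} {τ : Finset X} {k : ℕ}
    (hτ : τ ∈ S.st W ∅ k) (hk : k + 1 = W.card) : ((S.fac W).filter (τ ⊆ ·)).card = 2 := by
  obtain ⟨h1, -, h3, h4⟩ := mem_st.1 hτ
  have hW : W.Nonempty := card_pos.1 (by omega)
  have hf : τ ∈ S.fcs W := mem_fcs.2 ⟨h1, h3.subset⟩
  rw [filter_fac]
  have hcyc : ∀ z : Finset X → S.K, S.Cyc W τ W.card z ↔ ∑ ρ ∈ S.st W τ W.card, z ρ = 0 := by
    intro z
    constructor
    · intro h
      have h5 := h k hk τ (mem_st.2 ⟨h1, subset_rfl, h3, h4⟩)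
      rwa [filter_st] at h5
    · intro h k' hk' τ' hτ'
      obtain ⟨-, h6, -, h7⟩ := mem_st.1 hτ'
      have h8 : τ = τ' := eq_of_subset_of_card_le h6 (by omega)
      rw [← h8, filter_st]
      exact h
  have hpos : 0 < (S.st W τ W.card).card := card_pos.2 (hT.ne W τ hW hf)
  have hone : (S.st W τ W.card).card ≠ 1 := by
    intro h
    have h5 := (hcyc _).1 (hT.cyc W τ hW hf)
    rw [sum_const, h, one_smul] at h5
    exact one_ne_zero h5
  have htwo : ¬ 2 < (S.st W τ W.card).card := by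
    intro h
    obtain ⟨a, ha, b, hb, c, hc, hab, hac, hbc⟩ := two_lt_card.1 h
    have h5 := hT.const W τ hW hf
      (fun ρ => (if ρ = a then 1 else 0) + (if ρ = b then 1 else 0)) ((hcyc _).2 (by
        rw [sum_add_distrib, sum_ite_eq', sum_ite_eq', if_pos ha, if_pos hb]
        exact add_self _)) a ha c hc
    simp only [if_true, if_neg hab, if_neg (Ne.symm hac), if_neg (Ne.symm hbc),
      add_zero] at h5
    exact one_ne_zero h5
  omega

/-- A boundary ridge `R` is in exactly one facet.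
PROOF. There is no member of `S.st W R (W.card - 1)` (it would be `R`), so every `z` is a cycle; there is a facet (`hT.ne`), and if `σ ≠ σ'` are two then
`z ρ = if ρ = σ then 1 else 0` is not constant. -/
theorem bdry_one (hT : S.Top S.K) {W : Finset Ω} {R : Finset X} (hR : R ∈ S.fcs W)
    (hne : S.cr R ≠ W) (hk : R.card + 1 = W.card) : ((S.fac W).filter (R ⊆ ·)).card = 1 := by
  have hW : W.Nonempty := card_pos.1 (by omega)
  rw [filter_fac]
  have hcyc : ∀ z : Finset X → S.K, S.Cyc W R W.card z := by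
    intro z k' hk' τ' hτ'
    obtain ⟨-, h6, h7, h8⟩ := mem_st.1 hτ'
    have h9 : R = τ' := eq_of_subset_of_card_le h6 (by omega)
    exact absurd (h9 ▸ h7) hne
  refine le_antisymm (card_le_one.2 fun a ha b hb => ?_) (card_pos.2 (hT.ne W R hW hR))
  have h5 := hT.const W R hW hR (fun ρ => if ρ = a then 1 else 0) (hcyc _) a ha b hb
  by_contra hab
  simp only [if_true, if_neg (Ne.symm hab)] at h5
  exact one_ne_zero h5

/-- The facets are connected.
PROOF. Let `z ρ = 1` if `P ρ`, `0` otherwise (classical). For a ridge `τ ∈ S.st W ∅ (W.card - 1)` the two facets containing it (`ridge_two`) satisfy `P` both or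
none, so the sum of `z` is `0`: `z` is a cycle for `G = ∅`, and constant. (`W` empty: `∅` is the only facet.) -/
theorem conn (hT : S.Top S.K) {W : Finset Ω} (P : Finset X → Prop)
    (hP : ∀ σ ∈ S.fac W, ∀ σ' ∈ S.fac W, ∀ R, R ⊆ σ → R ⊆ σ' → S.cr R = W →
      R.card + 1 = W.card → P σ → P σ')
    {σ₀ : Finset X} (h₀ : σ₀ ∈ S.fac W) (hP₀ : P σ₀) : ∀ σ ∈ S.fac W, P σ := by
  classical
  rcases W.eq_empty_or_nonempty with rfl | hW
  · intro σ hσ
    obtain ⟨-, -, -, h4⟩ := mem_st.1 hσ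
    obtain ⟨-, -, -, h4'⟩ := mem_st.1 h₀
    rw [card_empty, card_eq_zero] at h4 h4'
    rw [h4, ← h4']
    exact hP₀
  intro σ hσ
  have hcyc : S.Cyc W ∅ W.card (fun ρ => if P ρ then (1 : S.K) else 0) := by
    intro k hk τ hτ
    obtain ⟨-, -, h3, h4⟩ := mem_st.1 hτ
    have h5 : (S.st W ∅ W.card).filter (τ ⊆ ·) = (S.fac W).filter (τ ⊆ ·) := rfl
    rw [h5]
    obtain ⟨a, b, hab, h6⟩ := card_eq_two.1 (ridge_two hT hτ hk)
    have ha : a ∈ (S.fac W).filter (τ ⊆ ·) := h6 ▸ mem_insert_self _ _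
    have hb : b ∈ (S.fac W).filter (τ ⊆ ·) := h6 ▸ mem_insert_of_mem (mem_singleton_self _)
    rw [mem_filter] at ha hb
    rw [h6, sum_pair hab]
    have h7 : P a ↔ P b := ⟨hP a ha.1 b hb.1 τ ha.2 hb.2 h3 (by omega),
      hP b hb.1 a ha.1 τ hb.2 ha.2 h3 (by omega)⟩
    by_cases h8 : P a
    · rw [if_pos h8, if_pos (h7.1 h8)]
      exact add_self _
    · rw [if_neg h8, if_neg (fun h => h8 (h7.2 h)), add_zero]
  have h1 := hT.const W ∅ hW (mem_fcs.2 ⟨S.empty_mem, by simp [cr]⟩) _ hcyc σ₀ h₀ σ hσ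
  beta_reduce at h1
  rw [if_pos hP₀] at h1
  by_contra h2
  rw [if_neg h2] at h1
  exact one_ne_zero h1

end Pool.Agent.LocH.Sub
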