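import Pool.Agent.LocH.GBas
import Pool.Agent.LocH.TopC

/-!
# Package GCon: facets and ridges

From `hT : S.Top S.K`; `Cyc`, `st`, `fac` are defined in `LocH/Defs.lean`. (If `LocH/TopC.lean` of helper50 is
on main, use it; `LocG/Cons.lean` of helper93 contains proofs of the same statements for his structure.)
* `c2`: `G = R`, `k = W.card - 1`. `S.st W R k = {R}` (a set with `k` elements containing `R` is `R`), and
  `S.st W R (k - 1)` is empty, so every function is a cycle in size `k`; `exact` for `z = 1`: there is `y`
  with `1 = ∑ ρ, y ρ` over the facets containing `R`, so there is at least one such facet. Let `n` be their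
  number. `cyc` (with `G = R`, `τ = R`): `n` times `1` is `0`, so `n` is even (characteristic `2`). If
  `n ≥ 3`: there is a function on the facets containing `R` with sum `0` which is not constant (values `1, 1`
  at two facets, `0` at a third), contradiction to `const` (with `G = R`). So `n = 2`.
* `c3`: `S.st W R k` is empty for `k = W.card - 1 = R.card` (it could only contain `R`, but `S.cr R ≠ W`), so
  all functions on the facets of `Γ_W` containing `R` are cycles, hence constant: at most one facet. At least
  one by `ne`.
* `c4`: let `f σ = 1` if `z σ`, else `0`. It is a cycle for `G = ∅`: for a `W`-interior ridge `R` the two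
  facets containing it (`c2`) have the same value (by `hz` in both directions), the sum is `0` or `2`. So
  `f` is constant on the facets (`const`).
-/

set_option autoImplicit false

open Finset

namespace Pool.Agent.LocH.Sub

variable {X Ω : Type} [Fintype X] [DecidableEq X] [Fintype Ω] [DecidableEq Ω] (S : Sub X Ω)

/-- An interior ridge lies in exactly two facets. -/
theorem c2 (hT : S.Top S.K) {W : Finset Ω} {R : Finset X} (hR : R ∈ S.st W ∅ (W.card - 1))
    (hW : W.Nonempty) : ((S.fac W).filter (R ⊆ ·)).card = 2 :=
  ridge_two hT hR (Nat.sub_add_cancel (card_pos.2 hW))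

/-- A ridge on the boundary lies in exactly one facet. -/
theorem c3 (hT : S.Top S.K) {W : Finset Ω} {R : Finset X} (hR : R ∈ S.fcs W) (hW : W.Nonempty)
    (hc : R.card + 1 = W.card) (hRW : S.cr R ≠ W) : ((S.fac W).filter (R ⊆ ·)).card = 1 :=
  bdry_one hT hR hRW hc

/-- A property of facets that passes through interior ridges holds for all facets. -/
theorem c4 (hT : S.Top S.K) {W : Finset Ω} (hW : W.Nonempty) (z : Finset X → Prop)
    (hz : ∀ R ∈ S.st W ∅ (W.card - 1), ∀ σ ∈ S.fac W, ∀ σ' ∈ S.fac W, R ⊆ σ → R ⊆ σ' → z σ → z σ')
    {σ σ' : Finset X} (hσ : σ ∈ S.fac W) (hσ' : σ' ∈ S.fac W) (h : z σ) : z σ' := by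
  refine conn hT z (fun ρ hρ ρ' hρ' R h1 h2 h3 h4 => ?_) hσ h σ' hσ'
  refine hz R (mem_st.2 ⟨?_, empty_subset _, h3, ?_⟩) ρ hρ ρ' hρ' h1 h2
  · exact S.down ρ (mem_st.1 hρ).1 R h1
  · omega

end Pool.Agent.LocH.Sub
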