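import Pool.Agent.LocH.GSt

/-!
# Monomials with excess at most one (definition for P6.6 of `/team-store/LHV_proof.md`)
-/

set_option autoImplicit false

open Finset

namespace Pool.Agent.LocH.Sub

variable {X Ω : Type} [Fintype X] [DecidableEq X] [Fintype Ω] [DecidableEq Ω] (S : Sub X Ω)

/-- Monomials with excess at most one. -/
def Ex1 (A : Finset Ω) (n : X →₀ ℕ) : Prop :=
  n.degree + 3 = A.card ∧ n.support ∈ S.fcs A ∧ S.cr n.support = A ∧ (∀ U ⊆ A, S.ex A U n ≤ 1) ∧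
    ∀ U ⊆ A, S.ex A U n = 1 → ∀ v, S.car v ⊆ U → n v ≤ 1

end Pool.Agent.LocH.Sub
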