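import Pool.Agent.LocH.GSq

/-!
# Package GFam: the all-dimensional family (P6.7 of `/team-store/LHV_proof.md`)

`D = A.card`, every vertex `v` with `car v ⊆ A` has `(car v).card = 1` or `D ≤ (car v).card + 2`; `2 i < D`,
`k = D - i`. `Y = GM A k ⊔ S.I A ⊔ S.thm A ⊤`. By `JH_le` let `n` have degree `k`; if `n.support ∉ S.fcs A` then
`mo n ∈ S.I A`; otherwise `S.cr n.support = A`. Induction on the number of corner factors
`∑ v, (if (car v).card = 1 then n v else 0)`, for all such `n`.
(a) No corner factors (all `v ∈ n.support` have `D ≤ (car v).card + 2`, and `(car v).card ≠ 1`): `n` is good: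
`U ⊆ A`, `U ≠ A`. If `U.card + 2 < D` then `dgI U n = 0` and the excess is `- U.card - (2 k - D) ≤ 0`. If
`U.card + 2 ≥ D`: `dgI U n ≤ k - 1` (`dgI_lt`), the excess is at most
`2 (k - 1) - (D - 2) - (2 k - D) = 0`. `U = A`: `0`.
(b) `e ∈ n.support`, `car e = {c}`, `c ∈ A`. Let `n' = n - single e 1`. `th c * mo n' ∈ S.thm A ⊤`, and it is
`∑ u, a u c • mo (n' + single u 1)` (`th_mul_mo`). `u = e`: `a e c • mo n`, `a e c ≠ 0`. The others with
`a u c ≠ 0` have `c ∈ car u`, `u ≠ e`. If the support of `n' + single u 1` is not in `S.fcs A` it is in `S.I A`.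
Otherwise its carrier is `A` again (`c` is covered by `u`). `(car u).card ≠ 1`: else `car u = {c}`, and
`e ≠ u` are two elements of `S.fac {c}` containing the ridge `∅` of `Γ_{c}` (`{e}, {u} ∈ Gam` by `vert`;
`c3` for `W = {c}`, `R = ∅`, `S.cr ∅ = ∅ ≠ {c}`: exactly one). So the number of corner factors is smaller.
-/

set_option autoImplicit false

open Finset

namespace Pool.Agent.LocH.Sub

variable {X Ω : Type} [Fintype X] [DecidableEq X] [Fintype Ω] [DecidableEq Ω] (S : Sub X Ω)

/-- The number of the corner factors. -/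
private def cc (n : X →₀ ℕ) : ℕ := ∑ v, if (S.car v).card = 1 then n v else 0

omit [Fintype Ω] in
private theorem cc_add (n m : X →₀ ℕ) : cc S (n + m) = cc S n + cc S m := by
  unfold cc
  rw [← Finset.sum_add_distrib]
  refine Finset.sum_congr rfl fun v _ => ?_
  split_ifs <;> simp

omit [Fintype Ω] in
private theorem cc_single (u : X) :
    cc S (Finsupp.single u 1) = if (S.car u).card = 1 then 1 else 0 := by
  unfold cc
  rw [Finset.sum_eq_single u]
  · rw [Finsupp.single_eq_same]
  · intro v _ hv
    rw [Finsupp.single_eq_of_ne hv]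
    simp
  · intro h
    exact absurd (Finset.mem_univ u) h

/-- Without corner factors the monomial is good. -/
private theorem fam_gd {A : Finset Ω}
    (hF : ∀ v, S.car v ⊆ A → (S.car v).card = 1 ∨ A.card ≤ (S.car v).card + 2) {n : X →₀ ℕ}
    (hk : A.card < 2 * n.degree) (hn : n.support ∈ S.fcs A) (hc : S.cr n.support = A)
    (h1 : ∀ v ∈ n.support, (S.car v).card ≠ 1) : S.Gd A n := by
  refine ⟨hn, fun U hU => ?_⟩
  unfold ex
  by_cases hUA : U = A
  · subst hUA
    have h2 := S.dgI_le U n
    omega
  · by_cases h3 : U.card + 2 < A.card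
    · have h4 : S.dgI U n = 0 := by
        unfold dgI
        refine Finset.sum_eq_zero fun v hv => ?_
        by_contra hne
        have hvs : v ∈ n.support := Finsupp.mem_support_iff.2 hne
        have hvU : S.car v ⊆ U := (Finset.mem_filter.1 hv).2
        rcases hF v (hvU.trans hU) with h5 | h5
        · exact h1 v hvs h5
        · have := Finset.card_le_card hvU
          omega
      rw [h4]
      omega
    · have h4 : ¬ S.cr n.support ⊆ U := by
        rw [hc]
        intro h5
        exact hUA (Finset.Subset.antisymm hU h5)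
      have h5 := S.dgI_lt h4
      omega

/-- Two vertices with the same carrier of size one are equal. -/
private theorem fam_corner (hT : S.Top S.K) {c : Ω} {e u : X} (he : S.car e = {c})
    (hu : S.car u = {c}) : e = u := by
  by_contra hne
  have hR : (∅ : Finset X) ∈ S.fcs {c} := by
    unfold fcs
    rw [Finset.mem_filter]
    exact ⟨S.empty_mem, by unfold cr; simp⟩
  have h1 := S.c3 hT hR (Finset.singleton_nonempty c) (by simp) (by
    unfold cr
    simp only [Finset.biUnion_empty]
    exact (Finset.singleton_ne_empty c).symm)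
  have hmem : ∀ x : X, S.car x = {c} → ({x} : Finset X) ∈ (S.fac {c}).filter (∅ ⊆ ·) := by
    intro x hx
    rw [Finset.mem_filter]
    refine ⟨?_, Finset.empty_subset _⟩
    unfold fac st
    rw [Finset.mem_filter]
    refine ⟨S.vert x, Finset.empty_subset _, ?_, ?_⟩
    · unfold cr
      rw [Finset.singleton_biUnion, hx]
    · simp
  have h2 : 1 < ((S.fac {c}).filter (∅ ⊆ ·)).card := by
    rw [Finset.one_lt_card]
    exact ⟨{e}, hmem e he, {u}, hmem u hu, fun h => hne (Finset.singleton_injective h)⟩
  omega

/-- The spanning statement for subdivisions whose new vertices have carriers of codimension at most two. -/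
theorem span_family (hT : S.Top S.K) {A : Finset Ω}
    (hF : ∀ v, S.car v ⊆ A → (S.car v).card = 1 ∨ A.card ≤ (S.car v).card + 2) {i : ℕ}
    (hi : 2 * i < A.card) :
    S.J A A ⊓ S.H (A.card - i) ≤ S.GM A (A.card - i) ⊔ S.I A ⊔ S.thm A ⊤ := by
  have hk : A.card < 2 * (A.card - i) := by omega
  set Y : Submodule S.K S.T := S.GM A (A.card - i) ⊔ S.I A ⊔ S.thm A ⊤ with hY
  have hGY : S.GM A (A.card - i) ≤ Y := le_sup_left.trans le_sup_left
  have hIY : S.I A ≤ Y := le_sup_right.trans le_sup_left
  have hθY : S.thm A ⊤ ≤ Y := le_sup_right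
  have claim : ∀ N : ℕ, ∀ n : X →₀ ℕ, n.degree = A.card - i →
      (n.support ∈ S.fcs A → A ⊆ S.cr n.support) → cc S n = N → S.mo n ∈ Y := by
    intro N
    induction N using Nat.strong_induction_on with
    | _ N ih =>
    intro n hdeg hsup hN
    by_cases hn : n.support ∈ S.fcs A
    swap
    · exact hIY (S.mo_mem_I.2 hn)
    have hsub : S.cr n.support ⊆ A := (Finset.mem_filter.1 hn).2
    have hcr : S.cr n.support = A := Finset.Subset.antisymm hsub (hsup hn)
    by_cases h1 : ∀ v ∈ n.support, (S.car v).card ≠ 1
    · exact hGY (Submodule.subset_span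
        ⟨n, fam_gd S hF (by rw [hdeg]; exact hk) hn hcr h1, hdeg, rfl⟩)
    push Not at h1
    obtain ⟨e, he, hcard⟩ := h1
    obtain ⟨c, hc⟩ := Finset.card_eq_one.1 hcard
    have hcare : S.car e ⊆ A := by
      refine Finset.Subset.trans ?_ hsub
      unfold cr
      exact Finset.subset_biUnion_of_mem S.car he
    have hcA : c ∈ A := hcare (by rw [hc]; exact Finset.mem_singleton_self c)
    have hne : n e ≠ 0 := Finsupp.mem_support_iff.1 he
    set n' : X →₀ ℕ := n - Finsupp.single e 1 with hn'
    have hnn : n' + Finsupp.single e 1 = n := Finsupp.sub_add_single_one_cancel hne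
    have hdeg' : n'.degree + 1 = n.degree := by
      rw [← hnn, map_add, Finsupp.degree_single]
    have hN' : cc S n = cc S n' + 1 := by
      rw [← hnn, cc_add, cc_single, if_pos hcard]
    have hth : S.th c * S.mo n' ∈ Y := hθY (S.th_mul_mem_thm hcA _)
    rw [S.th_mul_mo, ← Finset.add_sum_erase Finset.univ _ (Finset.mem_univ e), hnn] at hth
    have hrest : ∑ u ∈ Finset.univ.erase e, S.a u c • S.mo (n' + Finsupp.single u 1) ∈ Y := by
      refine Submodule.sum_mem _ fun u hu => ?_
      have hue : u ≠ e := Finset.ne_of_mem_erase hu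
      by_cases hcu : c ∈ S.car u
      swap
      · rw [S.a_eq_zero hcu, zero_smul]
        exact zero_mem _
      refine Submodule.smul_mem _ _ ?_
      have hu1 : (S.car u).card ≠ 1 := by
        intro h2
        obtain ⟨c', hc'⟩ := Finset.card_eq_one.1 h2
        rw [hc', Finset.mem_singleton] at hcu
        subst hcu
        exact hue (fam_corner S hT hc' hc)
      refine ih (cc S (n' + Finsupp.single u 1)) ?_ _ ?_ ?_ rfl
      · rw [cc_add, cc_single, if_neg hu1]
        omega
      · rw [map_add, Finsupp.degree_single]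
        omega
      · intro _ x hx
        rw [← hcr] at hx
        unfold cr at hx ⊢
        rw [Finset.mem_biUnion] at hx ⊢
        obtain ⟨v, hv, hxv⟩ := hx
        by_cases hve : v = e
        · subst hve
          rw [hc, Finset.mem_singleton] at hxv
          subst hxv
          refine ⟨u, ?_, hcu⟩
          rw [Finsupp.mem_support_iff, Finsupp.add_apply, Finsupp.single_eq_same]
          omega
        · refine ⟨v, ?_, hxv⟩
          rw [Finsupp.mem_support_iff] at hv ⊢
          have h3 : n v = n' v := by
            rw [← hnn, Finsupp.add_apply, Finsupp.single_eq_of_ne hve, add_zero]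
          rw [Finsupp.add_apply]
          omega
    have h4 : S.a e c • S.mo n ∈ Y := by
      have h5 := Submodule.sub_mem _ hth hrest
      rwa [add_sub_cancel_right] at h5
    have h5 : S.a e c ≠ 0 := S.a_ne_zero (by rw [hc]; exact Finset.mem_singleton_self c)
    exact (Submodule.smul_mem_iff _ h5).1 h4
  exact S.JH_le fun n hdeg hsup => claim _ n hdeg hsup rfl

end Pool.Agent.LocH.Sub
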