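import Pool.Agent.LocH.G25
import Pool.Agent.LocH.G14
import Pool.Agent.LocH.GFam

/-!
# Package GFin: the inequalities for the local `h`-vector (P5 Corollary, P6, P7 of `/team-store/LHV_proof.md`)

`orth`: `g ∈ S.J A A`, `g ∈ S.H i`, `2 i < A.card`, `lam A * g ∈ S.N A (i + 1)`, `k = A.card - i`, and
`S.J A A ⊓ S.H k ≤ Y = S.GM A k ⊔ S.I A ⊔ S.thm A ⊤ ⊔ (S.J A A ⊓ S.H (k - 1)).map (lam A * ·)`. To show: `g ∈ S.N A i`.
Let `y ∈ S.J A A ⊓ S.H k`. Apply `MvPolynomial.homogeneousComponent k` to a decomposition of `y`: the component of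
degree `k` of an element of `S.GM A k` and of the last summand (`k ≥ 1`) is itself, of `S.I A` it is in `S.I A`,
of `S.thm A ⊤` it is a sum of `th c * z c` with `z c ∈ S.H (k - 1)`, `c ∈ A`. `Tr A (g * mo n) = 0` for good
`n` of degree `k` (`TrP.an`, `Good_of_Gd`); `g * r ∈ S.I A` for `r ∈ S.I A`; `Tr A (g * (th c * z)) =
t c * Tr A (g * z) = 0` by `res`, since `g * z ∈ S.J A A` has degree `i + k - 1 = A.card - 1`;
`Tr A (g * (lam A * y')) = Tr A ((lam A * g) * y') = 0` because `lam A * g ∈ S.N A (i + 1)` and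
`y' ∈ S.J A A`, `y' ∈ S.H (A.card - (i + 1))`.
`main`: by `hInj` and `orth`. `i = 0`: `g ∈ S.J A A ⊓ S.H 0` is zero if `A` is nonempty (a constant; the empty
set is a face with carrier `∅ ≠ A`). `i = 1`: `span_one`. `i = 2`: `span_two`, `GG_Gd`. `i = 3`: `sq` with
`Y = Y3 A`, `face_Ex1`, `mem_Y3`. Family: `span_family`.
-/

set_option autoImplicit false

open Finset

namespace Pool.Agent.LocH.Sub

variable {X Ω : Type} [Fintype X] [DecidableEq X] [Fintype Ω] [DecidableEq Ω] (S : Sub X Ω)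

private theorem th_H (c : Ω) : S.th c ∈ S.H 1 := by
  unfold th
  exact Submodule.sum_mem _ fun v _ => (MvPolynomial.mem_homogeneousSubmodule _ _).2
    (MvPolynomial.isHomogeneous_C_mul_X _ _)

private theorem lam_H (A : Finset Ω) : S.lam A ∈ S.H 1 := by
  unfold lam
  exact Submodule.sum_mem _ fun v _ => (MvPolynomial.mem_homogeneousSubmodule _ _).2
    (MvPolynomial.isHomogeneous_X _ _)

private theorem mul_H {f g : S.T} {m n : ℕ} (hf : f ∈ S.H m) (hg : g ∈ S.H n) :
    f * g ∈ S.H (m + n) :=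
  (MvPolynomial.mem_homogeneousSubmodule _ _).2
    (((MvPolynomial.mem_homogeneousSubmodule _ _).1 hf).mul
      ((MvPolynomial.mem_homogeneousSubmodule _ _).1 hg))

private theorem hc_I {A : Finset Ω} {f : S.T} (k : ℕ) (hf : f ∈ S.I A) :
    MvPolynomial.homogeneousComponent k f ∈ S.I A := by
  refine (MvPolynomial.mem_restrictSupport_iff _).2 fun m hm => ?_
  refine (MvPolynomial.mem_restrictSupport_iff _).1 hf ?_
  rw [Finset.mem_coe, MvPolynomial.support_homogeneousComponent, Finset.mem_filter] at hm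
  exact hm.1

/-- Injectivity of the multiplication by `lam` from the spanning statement. -/
theorem orth (hP : S.TrP) {A : Finset Ω} {i : ℕ} (hi : 2 * i < A.card)
    (hs : S.J A A ⊓ S.H (A.card - i) ≤ S.GM A (A.card - i) ⊔ S.I A ⊔ S.thm A ⊤ ⊔
      (S.J A A ⊓ S.H (A.card - i - 1)).map (LinearMap.mulLeft S.K (S.lam A)))
    {g : S.T} (hg : g ∈ S.J A A) (hg' : g ∈ S.H i) (hl : S.lam A * g ∈ S.N A (i + 1)) :
    g ∈ S.N A i := by
  refine ⟨hg, hg', fun y hy hy' => ?_⟩
  let φ : S.T →ₗ[S.K] S.K := (S.Tr A).comp ((LinearMap.mulLeft S.K g).comp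
    (MvPolynomial.homogeneousComponent (A.card - i)))
  have hφ : ∀ z, φ z = S.Tr A (g * MvPolynomial.homogeneousComponent (A.card - i) z) :=
    fun z => rfl
  have hφm : ∀ {j : ℕ} {z : S.T}, z ∈ S.H j → φ z = if A.card - i = j then S.Tr A (g * z) else 0 := by
    intro j z hz
    rw [hφ, MvPolynomial.homogeneousComponent_of_mem hz]
    by_cases h : A.card - i = j
    · rw [if_pos h, if_pos h]
    · rw [if_neg h, if_neg h, mul_zero, map_zero]
  have hker : S.GM A (A.card - i) ⊔ S.I A ⊔ S.thm A ⊤ ⊔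
      (S.J A A ⊓ S.H (A.card - i - 1)).map (LinearMap.mulLeft S.K (S.lam A)) ≤
      LinearMap.ker φ := by
    refine sup_le (sup_le (sup_le ?_ ?_) ?_) ?_
    · unfold GM
      rw [Submodule.span_le]
      rintro _ ⟨m, h1, h2, rfl⟩
      rw [SetLike.mem_coe, LinearMap.mem_ker, hφm (S.mo_mem_H h2), if_pos rfl]
      exact hP.an A i hi g hg hg' hl m (S.Good_of_Gd h1) h2
    · intro r hr
      rw [LinearMap.mem_ker, hφ]
      exact hP.I A _ (S.mul_mem_I g (S.hc_I _ hr))
    · unfold thm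
      refine iSup₂_le fun c hc => ?_
      rw [Submodule.map_le_iff_le_comap]
      intro z _
      rw [Submodule.mem_comap, LinearMap.mem_ker, LinearMap.mulLeft_apply,
        ← MvPolynomial.sum_homogeneousComponent z, Finset.mul_sum, map_sum]
      refine Finset.sum_eq_zero fun j _ => ?_
      have h1 : MvPolynomial.homogeneousComponent j z ∈ S.H j :=
        MvPolynomial.homogeneousComponent_mem j z
      generalize MvPolynomial.homogeneousComponent j z = w at h1
      rw [hφm (S.mul_H (S.th_H c) h1)]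
      by_cases h2 : A.card - i = 1 + j
      · rw [if_pos h2, mul_left_comm, hP.th A c hc]
        have h3 : g * w ∈ S.J A A := by
          rw [mul_comm]
          exact S.mul_mem_J w hg
        rw [hP.res A (i + j) (by omega) _ h3 (S.mul_H hg' h1), mul_zero]
      · rw [if_neg h2]
    · rw [Submodule.map_le_iff_le_comap]
      rintro z ⟨hz1, hz2⟩
      rw [Submodule.mem_comap, LinearMap.mem_ker, LinearMap.mulLeft_apply,
        hφm (S.mul_H (S.lam_H A) hz2), if_pos (by omega), ← mul_assoc, mul_comm g]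
      exact hl.2.2 z hz1 (by rw [← Nat.sub_sub]; exact hz2)
  have h1 := hker (hs ⟨hy, hy'⟩)
  rwa [LinearMap.mem_ker, hφm hy', if_pos rfl] at h1

private theorem zero_case {A : Finset Ω} (hA : 1 ≤ A.card) {g : S.T} (hg : g ∈ S.J A A)
    (hg' : g ∈ S.H 0) : g = 0 := by
  refine MvPolynomial.support_eq_empty.1 (Finset.eq_empty_of_forall_notMem fun m hm => ?_)
  have h1 : m.degree = 0 := by
    rw [Finsupp.degree_eq_weight_one]
    exact (MvPolynomial.mem_homogeneousSubmodule _ _).1 hg' (MvPolynomial.mem_support_iff.1 hm)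
  have h2 : m = 0 := (Finsupp.degree_eq_zero_iff _).1 h1
  have h3 := (MvPolynomial.mem_restrictSupport_iff _).1 hg hm
  rw [h2] at h3
  have h4 : A ⊆ S.cr (0 : X →₀ ℕ).support := h3 (by
    rw [Finsupp.support_zero]
    exact Finset.mem_filter.2 ⟨S.empty_mem, Finset.empty_subset _⟩)
  rw [Finsupp.support_zero] at h4
  have h5 : A = ∅ := Finset.subset_empty.1 h4
  rw [h5, Finset.card_empty] at hA
  omega

/-- The inequalities. -/
theorem main (hT : S.Top S.K) (hQ : S.Qp) (hP : S.TrP)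
    (hInj : ∀ (A : Finset Ω) (i : ℕ), 2 * i < A.card →
      (∀ g ∈ S.J A A, g ∈ S.H i → S.lam A * g ∈ S.N A (i + 1) → g ∈ S.N A i) →
      (S.ell A).coeff i ≤ (S.ell A).coeff (i + 1)) (A : Finset Ω) :
    (1 ≤ A.card → (S.ell A).coeff 0 ≤ (S.ell A).coeff 1) ∧
    (3 ≤ A.card → (S.ell A).coeff 1 ≤ (S.ell A).coeff 2) ∧
    (5 ≤ A.card → (S.ell A).coeff 2 ≤ (S.ell A).coeff 3) ∧
    (7 ≤ A.card → (S.ell A).coeff 3 ≤ (S.ell A).coeff 4) ∧
    ((∀ v, S.car v ⊆ A → (S.car v).card = 1 ∨ A.card ≤ (S.car v).card + 2) →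
      ∀ i, 2 * i < A.card → (S.ell A).coeff i ≤ (S.ell A).coeff (i + 1)) := by
  refine ⟨fun hA => ?_, fun hA => ?_, fun hA => ?_, fun hA => ?_, fun hF i hi => ?_⟩
  · refine hInj A 0 (by omega) fun g hg hg' _ => ?_
    rw [S.zero_case hA hg hg']
    exact zero_mem _
  · exact hInj A 1 (by omega) fun g hg hg' hl => S.orth hP (by omega)
      ((S.span_one hA).trans le_sup_left) hg hg' hl
  · refine hInj A 2 (by omega) fun g hg hg' hl => S.orth hP (by omega)
      (((S.span_two hT (by omega)).trans (sup_le_sup_right (sup_le_sup_right ?_ _) _)).trans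
        le_sup_left) hg hg' hl
    rw [Submodule.span_le]
    rintro _ ⟨n, hn, rfl⟩
    have h1 := S.GG_Gd (by omega) hn
    exact Submodule.subset_span ⟨n, h1.1, h1.2, rfl⟩
  · refine hInj A 3 (by omega) fun g hg hg' hl => S.orth hP (by omega) ?_ hg hg' hl
    have hY : S.GM A (A.card - 3) ⊔ S.I A ⊔ S.thm A ⊤ ⊔
        (S.J A A ⊓ S.H (A.card - 3 - 1)).map (LinearMap.mulLeft S.K (S.lam A)) = S.Y3 A := by
      rw [Nat.sub_sub]
      rfl
    rw [hY]
    have hI : S.I A ≤ S.Y3 A := by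
      unfold Y3
      exact le_sup_of_le_left (le_sup_of_le_left le_sup_right)
    have hθ : S.thm A ⊤ ≤ S.Y3 A := by
      unfold Y3
      exact le_sup_of_le_left le_sup_right
    exact S.sq (Nat.sub_le _ _) hI hθ fun F hF => S.face_Ex1 hT hA hI hθ
      (fun n hn => S.mem_Y3 hT hQ hP hA hn) hF
  · exact hInj A i hi fun g hg hg' hl => S.orth hP hi
      ((S.span_family hT hF hi).trans le_sup_left) hg hg' hl

end Pool.Agent.LocH.Sub
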