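import Pool.Agent.LocH.GInd
import Pool.Agent.LocH.GCon

/-!
# Package GFl: the facet lemma (LEMMA F, P6.0 of `/team-store/LHV_proof.md`)

Proof. For a facet `G` of `Γ_W` and `g ∈ G`, `R = G.erase g`.
(A) `S.cr R ≠ W`: then `S.cr R = W.erase j` for some `j ∈ W` (`R.card = W.card - 1 ≤ (S.cr R).card`).
`th j * mo (ch R + nT) = ∑ u, a u j • mo (ch R + single u 1 + nT)` is in `S.thm A ⊤ ≤ Y`. The terms with
`u ∈ R`, or `j ∉ car u`: `a u j = 0`. `u = g`: `a g j ≠ 0` (`j ∈ S.cr G = W`, `j ∉ S.cr R`), the monomial is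
`mo (ch G + nT)`. `car u ⊆ W`, `u ≠ g`, `j ∈ car u`: `insert u R` is not in `S.Gam` (otherwise it would be a
second facet of `Γ_W` containing `R`, `c3`), so the monomial is in `S.I A` (its support contains
`insert u R`). `car u` not contained in `W`: in `Y` by `HA`. So `mo (ch G + nT) ∈ Y`.
(B) `S.cr R = W`: let `G' ∋ g'` be the other facet containing `R` (`c2`). Choose `ω` with `lf W ω g = 1`,
`lf W ω r = 0` for `r ∈ R`, extended to `ω'` by `HB`; `lf A ω' u = lf W ω u` if `car u ⊆ W`. The combination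
`∑ c ∈ A, ω' c • (th c * mo (ch R + nT))` is in `Y`, and it is
`mo (ch G + nT) + lf A ω' g' • mo (ch G' + nT)` plus terms in `S.I A` (other `u` with `car u ⊆ W`:
`insert u R` is not in `Gam`) plus the sum of `HB`. So `mo (ch G' + nT) ∈ Y → mo (ch G + nT) ∈ Y`.
Connection: there is a facet `G₀` of `Γ_W` with `g₀ ∈ G₀`, `S.cr (G₀.erase g₀) ≠ W`: take `j ∈ W` and a
facet `R` of `Γ_(W.erase j)` (for `W.erase j = ∅` it is `∅`), contained in a facet `G₀` of `Γ_W` (`Top.ne`).
The set of the facets `G` of `Γ_W` with `mo (ch G + nT) ∈ Y` is closed under passing to a facet with a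
common `W`-interior ridge, so its indicator function is a cycle (`Cyc W ∅ W.card`, `c2`), so constant
(`Top.const`), and it contains `G₀`.
-/

set_option autoImplicit false

open Finset

namespace Pool.Agent.LocH.Sub

variable {X Ω : Type} [Fintype X] [DecidableEq X] [Fintype Ω] [DecidableEq Ω] (S : Sub X Ω)

private theorem gfl_mem {W : Finset Ω} {F : Finset X} :
    F ∈ S.fac W ↔ F ∈ S.Gam ∧ S.cr F = W ∧ F.card = W.card := by
  rw [fac, st, Finset.mem_filter]
  exact ⟨fun h => ⟨h.1, h.2.2.1, h.2.2.2⟩, fun h => ⟨h.1, Finset.empty_subset _, h.2.1, h.2.2⟩⟩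

private theorem gfl_fcs {W : Finset Ω} {F : Finset X} :
    F ∈ S.fcs W ↔ F ∈ S.Gam ∧ S.cr F ⊆ W := by
  rw [fcs, Finset.mem_filter]

private theorem gfl_cr_insert (g : X) (R : Finset X) : S.cr (insert g R) = S.car g ∪ S.cr R := by
  rw [cr, cr, Finset.biUnion_insert]

omit [Fintype X] in
private theorem gfl_ch_insert {g : X} {R : Finset X} (hg : g ∉ R) :
    (ch (insert g R) : X →₀ ℕ) = ch R + Finsupp.single g 1 := by
  rw [ch, ch, Finset.sum_insert hg, add_comm]

/-- a monomial whose support contains a non-face is in the ideal -/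
private theorem gfl_out {A : Finset Ω} {R : Finset X} {u : X} (h : insert u R ∉ S.Gam)
    (nT : X →₀ ℕ) : S.mo (ch R + nT + Finsupp.single u 1) ∈ S.I A := by
  rw [mo_mem_I]
  intro hn
  refine h (S.down _ ((S.gfl_fcs).1 hn).1 _ fun v hv => ?_)
  rw [Finsupp.mem_support_iff, Finsupp.add_apply, Finsupp.add_apply]
  rcases Finset.mem_insert.1 hv with rfl | hv
  · rw [Finsupp.single_eq_same]
    omega
  · have h1 : (ch R : X →₀ ℕ) v ≠ 0 := by
      rw [← Finsupp.mem_support_iff, ch_support]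
      exact hv
    omega

/-- a vertex with carrier in `W` outside of a ridge: the new set is a facet or not a face -/
private theorem gfl_fac {W : Finset Ω} {R : Finset X} (hR : R ∈ S.fcs W)
    (hc : R.card + 1 = W.card) {u : X} (hu : u ∉ R) (hW : S.car u ⊆ W)
    (hG : insert u R ∈ S.Gam) : insert u R ∈ S.fac W := by
  have h1 : (insert u R).card = W.card := by rw [Finset.card_insert_of_notMem hu, hc]
  refine (S.gfl_mem).2 ⟨hG, ?_, h1⟩
  refine Finset.eq_of_subset_of_card_le ?_ ?_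
  · rw [gfl_cr_insert]
    exact Finset.union_subset hW ((S.gfl_fcs).1 hR).2
  · rw [← h1]
    exact S.card_le _ hG

/-- part (A) -/
private theorem gfl_A (hT : S.Top S.K) {A W : Finset Ω} (hWA : W ⊆ A) (hW : W.Nonempty)
    (nT : X →₀ ℕ) {Y : Submodule S.K S.T} (hI : S.I A ≤ Y) (hθ : S.thm A ⊤ ≤ Y)
    (HA : ∀ R ∈ S.fcs W, R.card + 1 = W.card → ∀ j ∈ W, S.cr R = W.erase j → ∀ u : X,
      j ∈ S.car u → ¬ S.car u ⊆ W → S.mo (ch R + Finsupp.single u 1 + nT) ∈ Y)
    {R : Finset X} {g : X} (hg : g ∉ R) (hR : R ∈ S.fcs W) (hc : R.card + 1 = W.card)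
    (hRW : S.cr R ≠ W) (hG : insert g R ∈ S.fac W) : S.mo (ch (insert g R) + nT) ∈ Y := by
  obtain ⟨hR1, hR2⟩ := (S.gfl_fcs).1 hR
  have h1 : (S.cr R).card < W.card := Finset.card_lt_card (lt_of_le_of_ne hR2 hRW)
  have h2 : R.card ≤ (S.cr R).card := S.card_le R hR1
  have h3 : (S.cr R).card + 1 = W.card := by omega
  obtain ⟨j, hj, hjW⟩ := Finset.exists_eq_insert_iff.2 ⟨hR2, h3⟩
  have hjW' : j ∈ W := by rw [← hjW]; exact Finset.mem_insert_self _ _
  have h4 : S.cr R = W.erase j := by rw [← hjW, Finset.erase_insert hj]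
  have h5 : S.th j * S.mo (ch R + nT) ∈ Y := hθ (S.th_mul_mem_thm (hWA hjW') _)
  rw [th_mul_mo, ← Finset.add_sum_erase _ _ (Finset.mem_univ g)] at h5
  have h6 : ∑ u ∈ univ.erase g, S.a u j • S.mo (ch R + nT + Finsupp.single u 1) ∈ Y := by
    refine Submodule.sum_mem _ fun u hu => ?_
    have hug : u ≠ g := Finset.ne_of_mem_erase hu
    by_cases hju : j ∈ S.car u
    · refine Submodule.smul_mem _ _ ?_
      by_cases huW : S.car u ⊆ W
      · have huR : u ∉ R := fun huR => hj (Finset.mem_biUnion.2 ⟨u, huR, hju⟩)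
        refine hI (S.gfl_out (fun hGam => ?_) nT)
        have h7 := S.gfl_fac hR hc huR huW hGam
        have h8 := S.c3 hT hR hW hc hRW
        rw [Finset.card_eq_one] at h8
        obtain ⟨σ, hσ⟩ := h8
        have h9 : insert u R = σ := by
          rw [← Finset.mem_singleton, ← hσ]
          exact Finset.mem_filter.2 ⟨h7, Finset.subset_insert _ _⟩
        have h10 : insert g R = σ := by
          rw [← Finset.mem_singleton, ← hσ]
          exact Finset.mem_filter.2 ⟨hG, Finset.subset_insert _ _⟩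
        have h11 : u ∈ insert g R := by
          rw [h10, ← h9]
          exact Finset.mem_insert_self _ _
        rcases Finset.mem_insert.1 h11 with h | h
        · exact hug h
        · exact huR h
      · have h7 := HA R hR hc j hjW' h4 u hju huW
        rwa [add_right_comm] at h7
    · rw [S.a_eq_zero hju, zero_smul]
      exact Y.zero_mem
  have h7 : S.a g j • S.mo (ch R + nT + Finsupp.single g 1) ∈ Y := by
    have h8 := Y.sub_mem h5 h6
    rwa [add_sub_cancel_right] at h8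
  have hjg : j ∈ S.car g := by
    have h8 : j ∈ S.cr (insert g R) := by
      rw [((S.gfl_mem).1 hG).2.1]
      exact hjW'
    rw [gfl_cr_insert, Finset.mem_union] at h8
    exact h8.resolve_right hj
  have h8 := (Submodule.smul_mem_iff Y (S.a_ne_zero hjg)).1 h7
  rw [gfl_ch_insert hg]
  rwa [add_right_comm] at h8

/-- part (B) -/
private theorem gfl_B (hT : S.Top S.K) {A W : Finset Ω} (hWA : W ⊆ A) (hW : W.Nonempty)
    (nT : X →₀ ℕ) {Y : Submodule S.K S.T} (hI : S.I A ≤ Y) (hθ : S.thm A ⊤ ≤ Y)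
    (HB : ∀ R ∈ S.st W ∅ (W.card - 1), ∀ ω : Ω → S.K, ∃ ω' : Ω → S.K, (∀ c ∈ W, ω' c = ω c) ∧
      ∑ u ∈ univ.filter (fun u => ¬ S.car u ⊆ W),
        S.lf A ω' u • S.mo (ch R + Finsupp.single u 1 + nT) ∈ Y)
    {R : Finset X} (hR : R ∈ S.st W ∅ (W.card - 1)) {g g' : X} (hg : g ∉ R) (hg' : g' ∉ R)
    (hgg : g ≠ g') (hG : insert g R ∈ S.fac W) (hG' : insert g' R ∈ S.fac W)
    (h : S.mo (ch (insert g' R) + nT) ∈ Y) : S.mo (ch (insert g R) + nT) ∈ Y := by
  have hR1 : R ∈ S.Gam ∧ S.cr R = W ∧ R.card = W.card - 1 := by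
    rw [st, Finset.mem_filter] at hR
    exact ⟨hR.1, hR.2.2⟩
  have hRf : R ∈ S.fcs W := (S.gfl_fcs).2 ⟨hR1.1, hR1.2.1.le⟩
  have hWc : 0 < W.card := hW.card_pos
  have hc : R.card + 1 = W.card := by omega
  have hGf : insert g R ∈ S.fcs W := by
    have h1 := (S.gfl_mem).1 hG
    exact (S.gfl_fcs).2 ⟨h1.1, h1.2.1.le⟩
  obtain ⟨ω, hω1, hω2⟩ := S.exists_form hGf (Finset.mem_insert_self g R)
  obtain ⟨ω', hω', hs⟩ := HB R hR ω
  have hlf : ∀ u, S.car u ⊆ W → S.lf A ω' u = S.lf W ω u := by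
    intro u hu
    rw [lf, lf]
    have h1 : ∑ c ∈ W, ω c * S.a u c = ∑ c ∈ W, ω' c * S.a u c :=
      Finset.sum_congr rfl fun c hc => by rw [hω' c hc]
    rw [h1]
    symm
    refine Finset.sum_subset hWA fun c _ hc => ?_
    rw [S.a_eq_zero fun hcu => hc (hu hcu), mul_zero]
  have h1 : ∑ c ∈ A, ω' c • (S.th c * S.mo (ch R + nT)) ∈ Y :=
    Submodule.sum_mem _ fun c hc => Submodule.smul_mem _ _ (hθ (S.th_mul_mem_thm hc _))
  rw [form_mul, ← Finset.sum_filter_add_sum_filter_not _ (fun u => S.car u ⊆ W)] at h1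
  have h2 : ∑ u ∈ univ.filter (fun u => ¬ S.car u ⊆ W),
      S.lf A ω' u • S.mo (ch R + nT + Finsupp.single u 1) ∈ Y := by
    have h3 : ∑ u ∈ univ.filter (fun u => ¬ S.car u ⊆ W),
        S.lf A ω' u • S.mo (ch R + nT + Finsupp.single u 1) =
        ∑ u ∈ univ.filter (fun u => ¬ S.car u ⊆ W),
        S.lf A ω' u • S.mo (ch R + Finsupp.single u 1 + nT) :=
      Finset.sum_congr rfl fun u _ => by rw [add_right_comm]
    rw [h3]
    exact hs
  have h3 : ∑ u ∈ univ.filter (fun u => S.car u ⊆ W),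
      S.lf A ω' u • S.mo (ch R + nT + Finsupp.single u 1) ∈ Y := by
    have h4 := Y.sub_mem h1 h2
    rwa [add_sub_cancel_right] at h4
  have hgW : S.car g ⊆ W := by
    rw [← ((S.gfl_mem).1 hG).2.1, gfl_cr_insert]
    exact Finset.subset_union_left
  have h4 : g ∈ univ.filter (fun u => S.car u ⊆ W) :=
    Finset.mem_filter.2 ⟨Finset.mem_univ _, hgW⟩
  rw [← Finset.add_sum_erase _ _ h4, hlf g hgW, hω1, one_smul] at h3
  have h5 : ∑ u ∈ (univ.filter (fun u => S.car u ⊆ W)).erase g,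
      S.lf A ω' u • S.mo (ch R + nT + Finsupp.single u 1) ∈ Y := by
    refine Submodule.sum_mem _ fun u hu => ?_
    obtain ⟨hug, hu'⟩ := Finset.mem_erase.1 hu
    have huW : S.car u ⊆ W := (Finset.mem_filter.1 hu').2
    by_cases huR : u ∈ R
    · rw [hlf u huW, hω2 u (Finset.mem_insert_of_mem huR) hug, zero_smul]
      exact Y.zero_mem
    · refine Submodule.smul_mem _ _ ?_
      by_cases hug' : u = g'
      · rw [hug', add_right_comm, ← gfl_ch_insert hg']
        exact h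
      · refine hI (S.gfl_out (fun hGam => ?_) nT)
        have h7 := S.gfl_fac hRf hc huR huW hGam
        have h8 := S.c2 hT hR hW
        have h9 : ({insert u R, insert g R, insert g' R} : Finset (Finset X)) ⊆
            (S.fac W).filter (R ⊆ ·) := by
          intro σ hσ
          rw [Finset.mem_insert, Finset.mem_insert, Finset.mem_singleton] at hσ
          rcases hσ with rfl | rfl | rfl
          · exact Finset.mem_filter.2 ⟨h7, Finset.subset_insert _ _⟩
          · exact Finset.mem_filter.2 ⟨hG, Finset.subset_insert _ _⟩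
          · exact Finset.mem_filter.2 ⟨hG', Finset.subset_insert _ _⟩
        have hne : ∀ {x y : X}, x ∉ R → x ≠ y → insert x R ≠ insert y R := by
          intro x y hx hxy he
          have h11 : x ∈ insert y R := by
            rw [← he]
            exact Finset.mem_insert_self _ _
          rcases Finset.mem_insert.1 h11 with h | h
          · exact hxy h
          · exact hx h
        have h10 : ({insert u R, insert g R, insert g' R} : Finset (Finset X)).card = 3 :=
          Finset.card_eq_three.2 ⟨_, _, _, hne huR hug, hne huR hug', hne hg hgg, rfl⟩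
        have h11 := Finset.card_le_card h9
        omega
  have h6 := Y.sub_mem h3 h5
  rw [add_sub_cancel_right, add_right_comm, ← gfl_ch_insert hg] at h6
  exact h6

/-- The facet lemma. -/
theorem facet_lemma (hT : S.Top S.K) {A W : Finset Ω} (hWA : W ⊆ A) (hW : W.Nonempty) (nT : X →₀ ℕ)
    {Y : Submodule S.K S.T} (hI : S.I A ≤ Y) (hθ : S.thm A ⊤ ≤ Y)
    (HA : ∀ R ∈ S.fcs W, R.card + 1 = W.card → ∀ j ∈ W, S.cr R = W.erase j → ∀ u : X,
      j ∈ S.car u → ¬ S.car u ⊆ W → S.mo (ch R + Finsupp.single u 1 + nT) ∈ Y)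
    (HB : ∀ R ∈ S.st W ∅ (W.card - 1), ∀ ω : Ω → S.K, ∃ ω' : Ω → S.K, (∀ c ∈ W, ω' c = ω c) ∧
      ∑ u ∈ univ.filter (fun u => ¬ S.car u ⊆ W),
        S.lf A ω' u • S.mo (ch R + Finsupp.single u 1 + nT) ∈ Y)
    {G : Finset X} (hG : G ∈ S.fac W) : S.mo (ch G + nT) ∈ Y := by
  have hWc : 0 < W.card := hW.card_pos
  obtain ⟨j, hj⟩ := hW
  have hW : W.Nonempty := ⟨j, hj⟩
  -- a facet of the restriction to `W.erase j`
  have h0 : ∃ R ∈ S.Gam, S.cr R = W.erase j ∧ R.card + 1 = W.card := by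
    rcases Finset.eq_empty_or_nonempty (W.erase j) with he | hne
    · refine ⟨∅, S.empty_mem, ?_, ?_⟩
      · rw [he, cr, Finset.biUnion_empty]
      · have h1 := Finset.card_erase_of_mem hj
        rw [he, Finset.card_empty] at h1
        rw [Finset.card_empty]
        omega
    · have h1 : (∅ : Finset X) ∈ S.fcs (W.erase j) := by
        refine (S.gfl_fcs).2 ⟨S.empty_mem, ?_⟩
        rw [cr, Finset.biUnion_empty]
        exact Finset.empty_subset _
      obtain ⟨R, hR⟩ := hT.ne (W.erase j) ∅ hne h1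
      have h2 := (S.gfl_mem).1 hR
      refine ⟨R, h2.1, h2.2.1, ?_⟩
      have h3 := Finset.card_erase_of_mem hj
      have h4 := h2.2.2
      omega
  obtain ⟨R, hR1, hR2, hR3⟩ := h0
  have hRf : R ∈ S.fcs W := (S.gfl_fcs).2 ⟨hR1, by rw [hR2]; exact Finset.erase_subset _ _⟩
  have hRW : S.cr R ≠ W := by
    rw [hR2]
    intro he
    rw [← he] at hj
    exact Finset.notMem_erase _ _ hj
  obtain ⟨G₀, hG₀⟩ := hT.ne W R hW hRf
  have hG₀' : G₀ ∈ S.fac W ∧ R ⊆ G₀ := by
    rw [st, Finset.mem_filter] at hG₀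
    exact ⟨(S.gfl_mem).2 ⟨hG₀.1, hG₀.2.2⟩, hG₀.2.1⟩
  have hG₀c : R.card + 1 = G₀.card := by rw [((S.gfl_mem).1 hG₀'.1).2.2, hR3]
  obtain ⟨g₀, hg₀, rfl⟩ := Finset.exists_eq_insert_iff.2 ⟨hG₀'.2, hG₀c⟩
  have hbase := S.gfl_A hT hWA hW nT hI hθ HA hg₀ hRf hR3 hRW hG₀'.1
  refine S.c4 hT hW (fun σ => S.mo (ch σ + nT) ∈ Y) (fun R' hR' σ hσ σ' hσ' hs hs' h => ?_)
    hG₀'.1 hG hbase
  by_cases he : σ = σ'
  · rw [← he]
    exact h
  have hR'c : R'.card + 1 = W.card := by
    rw [st, Finset.mem_filter] at hR'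
    have h1 := hR'.2.2.2
    omega
  obtain ⟨g', hg', rfl⟩ := Finset.exists_eq_insert_iff.2
    ⟨hs, show R'.card + 1 = σ.card by rw [((S.gfl_mem).1 hσ).2.2, hR'c]⟩
  obtain ⟨g, hg, rfl⟩ := Finset.exists_eq_insert_iff.2
    ⟨hs', show R'.card + 1 = σ'.card by rw [((S.gfl_mem).1 hσ').2.2, hR'c]⟩
  refine S.gfl_B hT hWA hW nT hI hθ HB hR' hg hg' (fun hgg => he ?_) hσ' hσ h
  rw [hgg]

end Pool.Agent.LocH.Sub
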