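import Pool.Agent.LocH.GCon
import Pool.Agent.LocH.GInd

/-!
# Package GPL1: piecewise linear functions with given bends (P6.3 of `/team-store/LHV_proof.md`, first half)

`m = A.card ≥ 2`. `om A M` is the functional `det (a_M, ·)` of an interior ridge `M` (`GPer.lean`), `lf A ω v` the
value of the functional `ω` at `a v`. For every `c ∈ A` let `z_c M = α M * om A M c`. It is a cycle for
`G = ∅` in size `m - 1`: let `K' ∈ S.st A ∅ (m - 2)`; the `M ∈ S.st A ∅ (m - 1)` containing `K'` are the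
`insert u K'` with `u ∉ K'`, `insert u K' ∈ S.fcs A` (carrier automatically `A`), and by `om_om2` with
`y = Pi.single c 1`: `∑ u, α (insert u K') * om A (insert u K') c = ∑ u, α (insert u K') * lf A ω u` with
`ω = om2 A K' (Pi.single c 1)`, which vanishes on `K'` (`om2_self`); so it is `0` by `h1`. By `Top.exact`
(`A` nonempty, `m - 1 < m`) there is `y_c` with `z_c M = ∑ ρ, y_c ρ` over the facets containing `M`; these
are two facets (`c2`). Put `φ σ c = y_c σ` for `c ∈ A`, `0` for `c ∉ A`. This is `hφ`.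
For a vertex `v` with `car v ⊆ A` the function `σ ↦ lf A (φ σ) v` on the facets containing `v` is a cycle
for `G = {v}`: for an interior ridge `M ∋ v` contained in `σ ≠ σ'`: `lf A (φ σ) v + lf A (φ σ') v =
α M * lf A (om A M) v = 0` (`om_self`). So it is a constant `g v` (`Top.const`, `{v} ∈ S.fcs A` by `vert`).
-/

set_option autoImplicit false

open Finset

namespace Pool.Agent.LocH.Sub

variable {X Ω : Type} [Fintype X] [DecidableEq X] [Fintype Ω] [DecidableEq Ω] (S : Sub X Ω)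

omit [Fintype X] [Fintype Ω] in
private theorem mem_st' {W : Finset Ω} {G F : Finset X} {j : ℕ} :
    F ∈ S.st W G j ↔ F ∈ S.Gam ∧ G ⊆ F ∧ S.cr F = W ∧ F.card = j := by
  unfold st
  rw [Finset.mem_filter]

omit [Fintype X] [Fintype Ω] in
private theorem mem_fcs' {W : Finset Ω} {F : Finset X} :
    F ∈ S.fcs W ↔ F ∈ S.Gam ∧ S.cr F ⊆ W := by
  unfold fcs
  rw [Finset.mem_filter]

/-- the faces with one more vertex -/
private theorem sum_insert_filter {W : Finset Ω} {G τ : Finset X} {k : ℕ}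
    (hτ : τ ∈ S.st W G k) (z : Finset X → S.K) :
    ∑ σ ∈ (S.st W G (k + 1)).filter (τ ⊆ ·), z σ =
      ∑ u ∈ univ.filter (fun u => u ∉ τ ∧ insert u τ ∈ S.fcs W), z (insert u τ) := by
  obtain ⟨h1, h2, h3, h4⟩ := S.mem_st'.1 hτ
  symm
  refine Finset.sum_bij (fun u _ => insert u τ) ?_ ?_ ?_ (fun _ _ => rfl)
  · intro u hu
    obtain ⟨_, h5, h6⟩ := Finset.mem_filter.1 hu
    obtain ⟨h7, h8⟩ := S.mem_fcs'.1 h6
    rw [Finset.mem_filter, S.mem_st']
    refine ⟨⟨h7, h2.trans (Finset.subset_insert u τ), ?_, ?_⟩, Finset.subset_insert u τ⟩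
    · refine Finset.Subset.antisymm h8 ?_
      rw [← h3]
      exact Finset.biUnion_subset_biUnion_of_subset_left _ (Finset.subset_insert u τ)
    · rw [Finset.card_insert_of_notMem h5, h4]
  · intro u hu u' hu' h
    obtain ⟨_, h5, _⟩ := Finset.mem_filter.1 hu
    have h6 : u ∈ insert u' τ := by
      change insert u τ = insert u' τ at h
      rw [← h]
      exact Finset.mem_insert_self u τ
    exact (Finset.mem_insert.1 h6).resolve_right h5
  · intro σ hσ
    obtain ⟨h5, h6⟩ := Finset.mem_filter.1 hσ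
    obtain ⟨h7, h8, h9, h10⟩ := S.mem_st'.1 h5
    obtain ⟨u, hu, huσ⟩ := Finset.exists_eq_insert_iff.2 ⟨h6, by rw [h4, h10]⟩
    refine ⟨u, ?_, huσ⟩
    rw [Finset.mem_filter]
    refine ⟨Finset.mem_univ u, hu, ?_⟩
    rw [huσ, S.mem_fcs']
    exact ⟨h7, h9.le⟩

/-- the two facets containing a ridge -/
private theorem two_facets (hT : S.Top S.K) {A : Finset Ω} (hA : A.Nonempty) {M : Finset X}
    (hM : M ∈ S.st A ∅ (A.card - 1)) {σ σ' : Finset X} (hσ : σ ∈ S.fac A) (hσ' : σ' ∈ S.fac A)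
    (h : M ⊆ σ) (h' : M ⊆ σ') (hne : σ ≠ σ') : (S.fac A).filter (M ⊆ ·) = {σ, σ'} := by
  symm
  refine Finset.eq_of_subset_of_card_le ?_ ?_
  · intro ρ hρ
    rw [Finset.mem_insert, Finset.mem_singleton] at hρ
    rw [Finset.mem_filter]
    rcases hρ with rfl | rfl
    · exact ⟨hσ, h⟩
    · exact ⟨hσ', h'⟩
  · rw [S.c2 hT hM hA, Finset.card_pair hne]

/-- Existence of the piecewise linear function. -/
theorem pl_exists (hT : S.Top S.K) {A : Finset Ω} (hA : 2 ≤ A.card) (α : Finset X → S.K)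
    (h1 : ∀ F ∈ S.st A ∅ (A.card - 2), ∀ ω : Ω → S.K, (∀ k ∈ F, S.lf A ω k = 0) →
      ∑ u ∈ univ.filter (fun u => u ∉ F ∧ insert u F ∈ S.fcs A), S.lf A ω u * α (insert u F) = 0) :
    ∃ (φ : Finset X → Ω → S.K) (g : X → S.K),
      (∀ M ∈ S.st A ∅ (A.card - 1), ∀ σ ∈ S.fac A, ∀ σ' ∈ S.fac A, M ⊆ σ → M ⊆ σ' → σ ≠ σ' →
        ∀ c ∈ A, φ σ c + φ σ' c = α M * S.om A M c) ∧
      ∀ σ ∈ S.fac A, ∀ v ∈ σ, S.lf A (φ σ) v = g v := by
  classical
  have hAne : A.Nonempty := Finset.card_pos.1 (by omega)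
  have hk1 : A.card - 1 = (A.card - 2) + 1 := by omega
  have hk2 : A.card = (A.card - 1) + 1 := by omega
  -- the functions `y c`
  have step1 : ∀ c : Ω, ∃ y : Finset X → S.K, c ∈ A → ∀ M ∈ S.st A ∅ (A.card - 1),
      α M * S.om A M c = ∑ ρ ∈ (S.fac A).filter (M ⊆ ·), y ρ := by
    intro c
    by_cases hc : c ∈ A
    · have hcyc : S.Cyc A ∅ (A.card - 1) (fun M => α M * S.om A M c) := by
        intro k hk τ hτ
        have hk' : k = A.card - 2 := by omega
        subst hk'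
        rw [← hk, S.sum_insert_filter hτ]
        have h2 := h1 τ hτ (S.om2 A τ (Pi.single c 1))
          (fun k hk => S.om2_self A τ k hk (Pi.single c 1))
        rw [← h2]
        refine Finset.sum_congr rfl fun u hu => ?_
        obtain ⟨_, h3, _⟩ := Finset.mem_filter.1 hu
        rw [← S.om_om2 A τ u h3 (Pi.single c 1), Finset.sum_eq_single c]
        · rw [Pi.single_eq_same, one_mul, mul_comm]
        · intro b _ hb
          rw [Pi.single_eq_of_ne hb, zero_mul]
        · intro h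
          exact absurd hc h
      have hemp : (∅ : Finset X) ∈ S.fcs A := by
        rw [S.mem_fcs']
        exact ⟨S.empty_mem, by simp [cr]⟩
      obtain ⟨y, hy⟩ := hT.exact A ∅ hAne hemp (A.card - 1) (by omega) _ hcyc
      refine ⟨y, fun _ M hM => ?_⟩
      have h3 := hy M hM
      rw [← hk2] at h3
      exact h3
    · exact ⟨fun _ => 0, fun h => absurd h hc⟩
  choose y hy using step1
  have hφ : ∀ M ∈ S.st A ∅ (A.card - 1), ∀ σ ∈ S.fac A, ∀ σ' ∈ S.fac A, M ⊆ σ → M ⊆ σ' →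
      σ ≠ σ' → ∀ c ∈ A, y c σ + y c σ' = α M * S.om A M c := by
    intro M hM σ hσ σ' hσ' h h' hne c hc
    rw [hy c hc M hM, S.two_facets hT hAne hM hσ hσ' h h' hne, Finset.sum_pair hne]
  have hg : ∀ v : X, ∃ g : S.K, ∀ σ ∈ S.fac A, v ∈ σ → S.lf A (fun c => y c σ) v = g := by
    intro v
    by_cases hv : ∃ σ ∈ S.fac A, v ∈ σ
    · obtain ⟨σ0, hσ0, hv0⟩ := hv
      refine ⟨S.lf A (fun c => y c σ0) v, fun σ hσ hvσ => ?_⟩
      have hst : ∀ ρ, ρ ∈ S.st A {v} A.card ↔ ρ ∈ S.fac A ∧ v ∈ ρ := by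
        intro ρ
        unfold fac
        rw [S.mem_st', S.mem_st', Finset.singleton_subset_iff]
        constructor
        · rintro ⟨a1, a2, a3, a4⟩
          exact ⟨⟨a1, Finset.empty_subset _, a3, a4⟩, a2⟩
        · rintro ⟨⟨a1, _, a3, a4⟩, a2⟩
          exact ⟨a1, a2, a3, a4⟩
      have hvf : {v} ∈ S.fcs A := by
        rw [S.mem_fcs']
        refine ⟨S.vert v, ?_⟩
        have h2 : S.cr σ0 = A := (S.mem_st'.1 hσ0).2.2.1
        rw [← h2]
        exact Finset.biUnion_subset_biUnion_of_subset_left _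
          (Finset.singleton_subset_iff.2 hv0)
      have hcyc : S.Cyc A {v} A.card (fun ρ => S.lf A (fun c => y c ρ) v) := by
        intro k hk τ hτ
        obtain ⟨a1, a2, a3, a4⟩ := S.mem_st'.1 hτ
        have hvτ : v ∈ τ := Finset.singleton_subset_iff.1 a2
        have hM : τ ∈ S.st A ∅ (A.card - 1) :=
          S.mem_st'.2 ⟨a1, Finset.empty_subset _, a3, by omega⟩
        have hset : (S.st A {v} A.card).filter (τ ⊆ ·) = (S.fac A).filter (τ ⊆ ·) := by
          ext ρ
          rw [Finset.mem_filter, Finset.mem_filter, hst]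
          constructor
          · rintro ⟨⟨b1, _⟩, b2⟩
            exact ⟨b1, b2⟩
          · rintro ⟨b1, b2⟩
            exact ⟨⟨b1, b2 hvτ⟩, b2⟩
        have h2 := S.c2 hT hM hAne
        obtain ⟨σ1, σ2, hne, he⟩ := Finset.card_eq_two.1 h2
        have m1 : σ1 ∈ (S.fac A).filter (τ ⊆ ·) := by
          rw [he]
          exact Finset.mem_insert_self _ _
        have m2 : σ2 ∈ (S.fac A).filter (τ ⊆ ·) := by
          rw [he]
          exact Finset.mem_insert_of_mem (Finset.mem_singleton_self _)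
        rw [Finset.mem_filter] at m1 m2
        rw [hset, he, Finset.sum_pair hne]
        have h3 := S.om_self A τ v hvτ
        unfold lf at h3 ⊢
        rw [← Finset.sum_add_distrib]
        have h4 : ∑ c ∈ A, (y c σ1 * S.a v c + y c σ2 * S.a v c) =
            α τ * ∑ c ∈ A, S.om A τ c * S.a v c := by
          rw [Finset.mul_sum]
          refine Finset.sum_congr rfl fun c hc => ?_
          rw [← add_mul, hφ τ hM σ1 m1.1 σ2 m2.1 m1.2 m2.2 hne c hc, mul_assoc]
        rw [h4, h3, mul_zero]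
      exact hT.const A {v} hAne hvf _ hcyc σ ((hst σ).2 ⟨hσ, hvσ⟩) σ0 ((hst σ0).2 ⟨hσ0, hv0⟩)
    · exact ⟨0, fun σ hσ hvσ => absurd ⟨σ, hσ, hvσ⟩ hv⟩
  choose g hg using hg
  exact ⟨fun σ c => y c σ, g, hφ, fun σ hσ v hv => hg v σ hσ hv⟩

end Pool.Agent.LocH.Sub
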