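import Pool.Agent.LocH.Defs

/-!
# Package GPer: determinants in characteristic two without orderings

For a finite set `A` of columns and rows `N i : Ω → K`, `i : ι`, let `pr A N` be the sum over all bijections
`e : ι ≃ A` of the products `∏ i, N i (e i)` (the permanent; it is the determinant in characteristic `2`).
* `pr_reindex`: reindex the sum by `Equiv`.
* `pr_expand`: a bijection `e : Option ι ≃ A` is given by `c = e none` and a bijection `ι ≃ A \ {c}`; or:
  both sides are linear in the row `y`, since every product contains exactly one factor `y (e none)`; write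
  `y (e none) = ∑ c ∈ A, y c * (if c = e none then 1 else 0)`.
* `pr_eq_zero`: for `i ≠ i'` with equal rows the involution `e ↦ (swap i i').trans e` of the set of the
  bijections has no fixed points and preserves the product; in characteristic `2` the sum is zero
  (`Finset.sum_involution`).
* `pr_col`: if `N i j = 0` for all `i` then only the bijections with `e none = j` contribute, and they
  correspond to the bijections `ι ≃ A.erase j`.
* `om_self`: `lf A (om A M) v = pr A (Option M) (a v, a_M)` (`pr_expand`), two equal rows.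
* `om_new`: `lf A (om A M) w = pr A (Option M) (a w, a_M)`; reindex along `Option M ≃ insert w M`; and
  `dA σ` is the sum over the bijections `σ ≃ cr σ = A`.
* `om_om2`, `om2_self`: both sides are the value of `pr A` at the rows `y`, `a u`, `a_k` (`k ∈ F`), in
  different order (`pr_reindex`, `pr_expand`); if `u ∈ F` two rows are equal.
* `om_edge`: `pr_col` for the column `j`: all rows `a k`, `k ∈ F`, and `y` vanish at `j`
  (`S.a k j = 0` if `j ∉ car k`).
-/

set_option autoImplicit false
set_option linter.unusedSectionVars false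

open Finset

namespace Pool.Agent.LocH

section Per

variable {K Ω : Type} [Field K] [DecidableEq Ω]

/-- The characteristic two determinant of the rows `N i`, `i : ι`, with columns in `A`. -/
noncomputable def pr (A : Finset Ω) {ι : Type} [Fintype ι] [DecidableEq ι] (N : ι → Ω → K) : K :=
  ∑ e : ι ≃ {c // c ∈ A}, ∏ i, N i (e i)

variable {ι ι' : Type} [Fintype ι] [DecidableEq ι] [Fintype ι'] [DecidableEq ι'] (A : Finset Ω)

theorem pr_reindex (f : ι ≃ ι') (N : ι' → Ω → K) : pr A (fun i => N (f i)) = pr A N := by
  unfold pr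
  refine Fintype.sum_equiv (Equiv.equivCongr f (Equiv.refl _)) _ _ fun e => ?_
  refine Fintype.prod_equiv f _ _ fun i => ?_
  simp

theorem pr_expand (y : Ω → K) (N : ι → Ω → K) :
    pr A (fun o : Option ι => o.elim y N) =
      ∑ c ∈ A, y c * pr A (fun o : Option ι => o.elim (Pi.single c 1) N) := by
  unfold pr
  simp only [Fintype.prod_option, Option.elim, Finset.mul_sum]
  rw [Finset.sum_comm]
  refine Finset.sum_congr rfl fun e _ => ?_
  rw [Finset.sum_eq_single (e none : Ω)]
  · rw [Pi.single_eq_same, one_mul]
  · intro c _ hc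
    rw [Pi.single_eq_of_ne (Ne.symm hc), zero_mul, mul_zero]
  · intro h
    exact absurd (e none).2 h

theorem pr_eq_zero [CharP K 2] {N : ι → Ω → K} {i i' : ι} (h : i ≠ i') (hN : ∀ c ∈ A, N i c = N i' c) :
    pr A N = 0 := by
  unfold pr
  have key : ∀ e : ι ≃ {c // c ∈ A},
      ∏ k, N k (((Equiv.swap i i').trans e) k) = ∏ k, N k (e k) := by
    intro e
    refine Fintype.prod_equiv (Equiv.swap i i') _ _ fun k => ?_
    rw [Equiv.trans_apply]
    by_cases hk : k = i
    · rw [hk, Equiv.swap_apply_left]
      exact hN _ (e i').2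
    · by_cases hk' : k = i'
      · rw [hk', Equiv.swap_apply_right]
        exact (hN _ (e i).2).symm
      · rw [Equiv.swap_apply_of_ne_of_ne hk hk']
  refine Finset.sum_involution (fun e _ => (Equiv.swap i i').trans e) ?_ ?_ ?_ ?_
  · intro e _
    rw [key e]
    exact CharTwo.add_self_eq_zero _
  · intro e _ _ h1
    have h2 := Equiv.congr_fun h1 i
    rw [Equiv.trans_apply, Equiv.swap_apply_left] at h2
    exact h (e.injective h2).symm
  · intro e _
    exact Finset.mem_univ _
  · intro e _
    ext k
    simp

theorem pr_col {j : Ω} (hj : j ∈ A) (y : Ω → K) (N : ι → Ω → K) (hN : ∀ i, N i j = 0) :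
    pr A (fun o : Option ι => o.elim y N) = y j * pr (A.erase j) N := by
  classical
  unfold pr
  simp only [Fintype.prod_option, Option.elim]
  let x : {c // c ∈ A} := ⟨j, hj⟩
  have h1 : ∀ e : Option ι ≃ {c // c ∈ A}, e none ≠ x →
      y (e none) * ∏ i, N i (e (some i)) = 0 := by
    intro e he
    obtain ⟨o, ho⟩ := e.surjective x
    rcases o with _ | i
    · exact absurd ho he
    · rw [Finset.prod_eq_zero (Finset.mem_univ i), mul_zero]
      rw [ho]
      exact hN i
  have h2 : ∑ e : Option ι ≃ {c // c ∈ A}, y (e none) * ∏ i, N i (e (some i)) =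
      ∑ e ∈ (Finset.univ : Finset (Option ι ≃ {c // c ∈ A})).filter (fun e => e none = x),
        y (e none) * ∏ i, N i (e (some i)) := by
    rw [Finset.sum_filter_of_ne]
    intro e _ hne
    by_contra hcon
    exact hne (h1 e hcon)
  rw [h2, Finset.sum_subtype (p := fun e : Option ι ≃ {c // c ∈ A} => e none = x) _
    (fun e => by simp), Finset.mul_sum]
  let g : {z : {c // c ∈ A} // z ≠ x} ≃ {c // c ∈ A.erase j} :=
    { toFun := fun z => ⟨z.1.1, Finset.mem_erase.2 ⟨fun h => z.2 (Subtype.ext h), z.1.2⟩⟩
      invFun := fun c => ⟨⟨c.1, (Finset.mem_erase.1 c.2).2⟩, fun h =>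
        (Finset.mem_erase.1 c.2).1 (congrArg Subtype.val h)⟩
      left_inv := fun z => rfl
      right_inv := fun c => rfl }
  refine Fintype.sum_equiv
    ((Equiv.optionSubtype x).trans (Equiv.equivCongr (Equiv.refl ι) g)) _ _ fun e => ?_
  have h3 : (e.1 none : Ω) = j := congrArg Subtype.val e.2
  rw [h3]
  congr 1

end Per

namespace Sub

variable {X Ω : Type} [Fintype X] [DecidableEq X] [Fintype Ω] [DecidableEq Ω] (S : Sub X Ω)

/-- The value of the linear form `∑ c ∈ A, ω c x_c` at the vector `a v`. -/
noncomputable def lf (A : Finset Ω) (ω : Ω → S.K) (v : X) : S.K := ∑ c ∈ A, ω c * S.a v c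

/-- The functional `det (a_M, ·)` of a set `M` with `M.card + 1 = A.card`: its coefficients. -/
noncomputable def om (A : Finset Ω) (M : Finset X) (c : Ω) : S.K :=
  pr A (fun o : Option {v // v ∈ M} => o.elim (Pi.single c 1) fun v => S.a v.1)

/-- The functional `det (·, y, a_F)` of a set `F` with `F.card + 2 = A.card`: its coefficients. -/
noncomputable def om2 (A : Finset Ω) (F : Finset X) (y : Ω → S.K) (c : Ω) : S.K :=
  pr A (fun o : Option (Option {v // v ∈ F}) => o.elim (Pi.single c 1)
    fun o' => o'.elim y fun v => S.a v.1)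

private theorem gper_lf (A : Finset Ω) (ι : Type) [Fintype ι] [DecidableEq ι]
    (N : ι → Ω → S.K) (v : X) :
    S.lf A (fun c => pr A (fun o : Option ι => o.elim (Pi.single c 1) N)) v =
      pr A (fun o : Option ι => o.elim (S.a v) N) := by
  rw [pr_expand]
  unfold lf
  exact Finset.sum_congr rfl fun c _ => mul_comm _ _

theorem om_self (A : Finset Ω) (M : Finset X) (v : X) (hv : v ∈ M) : S.lf A (S.om A M) v = 0 := by
  have h1 := gper_lf S A {v // v ∈ M} (fun v => S.a v.1) v
  have h2 : S.om A M = fun c => pr A (fun o : Option {v // v ∈ M} =>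
      o.elim (Pi.single c 1) fun v => S.a v.1) := rfl
  rw [h2, h1]
  exact pr_eq_zero A (i := none) (i' := some ⟨v, hv⟩) (by simp) fun c _ => rfl

theorem om_new (A : Finset Ω) (M : Finset X) (w : X) (hw : w ∉ M) (hA : S.cr (insert w M) = A) :
    S.lf A (S.om A M) w = S.dA (insert w M) := by
  subst hA
  have h1 := gper_lf S (S.cr (insert w M)) {v // v ∈ M} (fun v => S.a v.1) w
  have h2 : S.om (S.cr (insert w M)) M = fun c => pr (S.cr (insert w M))
      (fun o : Option {v // v ∈ M} => o.elim (Pi.single c 1) fun v => S.a v.1) := rfl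
  rw [h2, h1, ← pr_reindex _ (Finset.subtypeInsertEquivOption hw)]
  have h3 : (fun i : {i // i ∈ insert w M} => (Finset.subtypeInsertEquivOption hw i).elim (S.a w)
      fun v => S.a v.1) = fun i => S.a i.1 := by
    funext i
    by_cases hi : (i : X) = w
    · simp [Finset.subtypeInsertEquivOption, hi]
    · simp [Finset.subtypeInsertEquivOption, hi]
  rw [h3]
  rfl

private theorem gper_om (A : Finset Ω) (F : Finset X) (u : X) (hu : u ∉ F) (y : Ω → S.K) :
    ∑ c ∈ A, y c * S.om A (insert u F) c =
      pr A (fun o : Option (Option {v // v ∈ F}) => o.elim (S.a u)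
        fun o' => o'.elim y fun v => S.a v.1) := by
  unfold om
  rw [← pr_expand, ← pr_reindex A (Equiv.swap (none : Option (Option {v // v ∈ F})) (some none)),
    ← pr_reindex A (Equiv.optionCongr (Finset.subtypeInsertEquivOption hu))]
  congr 1
  funext o
  rcases o with _ | i
  · simp
  · by_cases hi : (i : X) = u
    · simp [Finset.subtypeInsertEquivOption, hi]
    · have h1 : Equiv.optionCongr (Finset.subtypeInsertEquivOption hu) (some i) =
          some (some ⟨i.1, (Finset.mem_insert.1 i.2).resolve_left hi⟩) := by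
        simp [Finset.subtypeInsertEquivOption, hi]
      rw [h1, Equiv.swap_apply_of_ne_of_ne (by simp) (by simp)]
      rfl

theorem om_om2 (A : Finset Ω) (F : Finset X) (u : X) (hu : u ∉ F) (y : Ω → S.K) :
    ∑ c ∈ A, y c * S.om A (insert u F) c = S.lf A (S.om2 A F y) u := by
  have h1 := gper_lf S A (Option {v // v ∈ F}) (fun o' => o'.elim y fun v => S.a v.1) u
  rw [gper_om S A F u hu y, ← h1]
  rfl

theorem om2_self (A : Finset Ω) (F : Finset X) (k : X) (hk : k ∈ F) (y : Ω → S.K) :
    S.lf A (S.om2 A F y) k = 0 := by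
  have h1 := gper_lf S A (Option {v // v ∈ F}) (fun o' => o'.elim y fun v => S.a v.1) k
  have h2 : S.om2 A F y = fun c => pr A (fun o : Option (Option {v // v ∈ F}) =>
      o.elim (Pi.single c 1) fun o' => o'.elim y fun v => S.a v.1) := rfl
  rw [h2, h1]
  exact pr_eq_zero A (i := none) (i' := some (some ⟨k, hk⟩)) (by simp) fun c _ => rfl

theorem om_edge (A : Finset Ω) (j : Ω) (hj : j ∈ A) (F : Finset X) (hF : ∀ k ∈ F, j ∉ S.car k) (u : X)
    (hu : u ∉ F) (y : Ω → S.K) (hy : y j = 0) :
    ∑ c ∈ A, y c * S.om A (insert u F) c =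
      S.a u j * pr (A.erase j) (fun o : Option {v // v ∈ F} => o.elim y fun v => S.a v.1) := by
  rw [gper_om S A F u hu y]
  refine pr_col A hj (S.a u) _ fun o => ?_
  rcases o with _ | k
  · exact hy
  · change S.a k.1 j = 0
    unfold a
    rw [dif_neg (hF k.1 k.2)]

end Sub

end Pool.Agent.LocH
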