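import Pool.Agent.LocH.GSq

/-!
# Package GSp1: bad faces of size `D - 2`, the set `GG` (P6.2 of `/team-store/LHV_proof.md`)

Write `D = A.card ≥ 4`, `F_U = F.filter (car ⊆ U)`.
`bad_two`: for `F ∈ S.st A ∅ (D - 2)` not good there is `U ⊆ A` with positive excess; `U ≠ A`, so
`F_U.card ≤ D - 3` (`F` is not contained in `Γ_U`), `F_U.card ≤ U.card`; `2 F_U.card - U.card > D - 4` forces
`F_U.card = U.card = D - 3`. So `F` has exactly one vertex `v` outside `F_U`, `F = insert v F_U`,
`S.cr F_U = U` (`cr_filter_eq`), and `A \ U ⊆ car v` since `S.cr F = A`.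
`GG_Gd`: first kind: by definition. Second kind, `n = ch R + single v 2`, `R ∈ S.fac (A \ Z)`,
`R.card = D - 4`, degree `D - 2`: for `U ⊆ A` let `R_U = R.filter (car ⊆ U)`. If `car v` is not contained in
`U`: `2 R_U.card - U.card ≤ R_U.card ≤ D - 4`. If `car v ⊆ U`: `Z ⊆ U`, `R_U.card ≤ (U \ Z).card = U.card - 4`,
`4 + 2 R_U.card - U.card ≤ R_U.card ≤ D - 4`.
-/

set_option autoImplicit false

open Finset

namespace Pool.Agent.LocH.Sub

variable {X Ω : Type} [Fintype X] [DecidableEq X] [Fintype Ω] [DecidableEq Ω] (S : Sub X Ω)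

/-- The bad faces of size `A.card - 2`. -/
theorem bad_two {A : Finset Ω} (hA : 4 ≤ A.card) {F : Finset X} (hF : F ∈ S.st A ∅ (A.card - 2))
    (hb : ¬ S.Gd A (ch F)) : ∃ U ⊆ A, U.card + 3 = A.card ∧ ∃ G ∈ S.fac U, ∃ v, v ∉ G ∧
      A \ U ⊆ S.car v ∧ F = insert v G ∧ G = F.filter fun v => S.car v ⊆ U := by
  unfold st at hF
  rw [Finset.mem_filter] at hF
  obtain ⟨hG, -, hcr, hcard⟩ := hF
  have hfcs : (ch F : X →₀ ℕ).support ∈ S.fcs A := by
    rw [ch_support]
    unfold fcs
    rw [Finset.mem_filter]
    exact ⟨hG, hcr.subset⟩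
  have hex : ∃ U ⊆ A, 0 < S.ex A U (ch F) := by
    by_contra hcon
    push Not at hcon
    exact hb ⟨hfcs, hcon⟩
  obtain ⟨U, hUA, hpos⟩ := hex
  unfold ex at hpos
  rw [S.dgI_ch, ch_degree, hcard] at hpos
  have h1 : (F.filter fun v => S.car v ⊆ U).card ≤ U.card :=
    (S.card_filter_le hG U).trans (Finset.card_le_card Finset.inter_subset_right)
  have h2 : (F.filter fun v => S.car v ⊆ U).card ≤ A.card - 2 := by
    rw [← hcard]
    exact Finset.card_le_card (Finset.filter_subset _ _)
  have hUne : U ≠ A := by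
    rintro rfl
    omega
  have h3 : (F.filter fun v => S.car v ⊆ U).card < A.card - 2 := by
    rw [← hcard]
    refine Finset.card_lt_card ⟨Finset.filter_subset _ _, fun hsub => hUne ?_⟩
    refine Finset.Subset.antisymm hUA ?_
    rw [← hcr]
    refine Finset.biUnion_subset.2 fun v hv => ?_
    exact (Finset.mem_filter.1 (hsub hv)).2
  have h4 : (F.filter fun v => S.car v ⊆ U).card = U.card := by omega
  have h5 : U.card + 3 = A.card := by omega
  have h6 : (F \ F.filter fun v => S.car v ⊆ U).card = 1 := by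
    rw [Finset.card_sdiff_of_subset (Finset.filter_subset _ _), h4, hcard]
    omega
  obtain ⟨v, hv⟩ := Finset.card_eq_one.1 h6
  have hvF : v ∈ F \ F.filter fun v => S.car v ⊆ U := by
    rw [hv]
    exact Finset.mem_singleton_self v
  have hins : F = insert v (F.filter fun v => S.car v ⊆ U) := by
    rw [Finset.insert_eq, ← hv]
    exact (Finset.sdiff_union_of_subset (Finset.filter_subset _ _)).symm
  have hcrG := S.cr_filter_eq hG h4
  refine ⟨U, hUA, h5, F.filter fun v => S.car v ⊆ U, ?_, v, (Finset.mem_sdiff.1 hvF).2, ?_,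
    hins, rfl⟩
  · unfold fac st
    rw [Finset.mem_filter]
    exact ⟨S.down F hG _ (Finset.filter_subset _ _), Finset.empty_subset _, hcrG, h4⟩
  · intro c hc
    rw [Finset.mem_sdiff] at hc
    have h7 : c ∈ S.cr F := by
      rw [hcr]
      exact hc.1
    unfold cr at h7 hcrG
    rw [Finset.mem_biUnion] at h7
    obtain ⟨w, hw, hcw⟩ := h7
    rw [hins, Finset.mem_insert] at hw
    rcases hw with rfl | hw
    · exact hcw
    · exfalso
      apply hc.2
      rw [← hcrG]
      exact Finset.mem_biUnion.2 ⟨w, hw, hcw⟩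

/-- The elements of `GG` are good monomials of degree `A.card - 2`. -/
theorem GG_Gd {A : Finset Ω} (hA : 4 ≤ A.card) {n : X →₀ ℕ} (h : S.GG A n) :
    S.Gd A n ∧ n.degree = A.card - 2 := by
  rcases h with ⟨F, hF, rfl, hgd⟩ | ⟨v, R, Z, hZA, hZ, hR, hvR, hZv, hins, rfl⟩
  · unfold st at hF
    rw [Finset.mem_filter] at hF
    exact ⟨hgd, by rw [ch_degree]; exact hF.2.2.2⟩
  · unfold fac st at hR
    rw [Finset.mem_filter] at hR
    obtain ⟨hG, -, hcr, hcard⟩ := hR
    have hc4 : (A \ Z).card = A.card - 4 := by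
      rw [Finset.card_sdiff_of_subset hZA, hZ]
    have hdeg : (ch R + Finsupp.single v 2 : X →₀ ℕ).degree = A.card - 2 := by
      rw [map_add, ch_degree, Finsupp.degree_single, hcard, hc4]
      omega
    refine ⟨⟨?_, fun U hU => ?_⟩, hdeg⟩
    · have hsupp : (ch R + Finsupp.single v 2 : X →₀ ℕ).support = insert v R := by
        ext w
        have hR := congrArg (fun s => w ∈ s) (ch_support R)
        simp only [Finsupp.mem_support_iff] at hR
        rw [Finsupp.mem_support_iff, Finsupp.add_apply, Finset.mem_insert, Ne,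
          Nat.add_eq_zero_iff, Finsupp.single_apply]
        by_cases hw : v = w
        · subst hw
          simp
        · rw [if_neg hw, ← hR]
          constructor
          · intro h1
            right
            intro h2
            exact h1 ⟨h2, rfl⟩
          · rintro (h1 | h1) h2
            · exact hw h1.symm
            · exact h1 h2.1
      rw [hsupp]
      exact hins
    · unfold ex
      rw [S.dgI_add, S.dgI_ch, S.dgI_single, hdeg]
      have h1 : (R.filter fun v => S.car v ⊆ U).card ≤ A.card - 4 := by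
        rw [← hc4, ← hcard]
        exact Finset.card_le_card (Finset.filter_subset _ _)
      have h2 := S.card_filter_le hG U
      rw [hcr] at h2
      by_cases hvU : S.car v ⊆ U
      · rw [if_pos hvU]
        have h3 : ((A \ Z) ∩ U).card ≤ U.card - 4 := by
          rw [← hZ, ← Finset.card_sdiff_of_subset (hZv.trans hvU)]
          refine Finset.card_le_card fun c hc => ?_
          rw [Finset.mem_inter, Finset.mem_sdiff] at hc
          exact Finset.mem_sdiff.2 ⟨hc.2, hc.1.2⟩
        have h4 : 4 ≤ U.card := by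
          rw [← hZ]
          exact Finset.card_le_card (hZv.trans hvU)
        omega
      · rw [if_neg hvU]
        have h3 : ((A \ Z) ∩ U).card ≤ U.card :=
          Finset.card_le_card Finset.inter_subset_right
        omega

end Pool.Agent.LocH.Sub
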