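import Pool.Agent.LocH.GSp1

/-!
# Package GSp2: the spanning statement for `i = 2` (P6.2 of `/team-store/LHV_proof.md`)

Write `D = A.card ≥ 4`, `F_U = F.filter (car ⊆ U)`.
`span_two`: by `sq` (with `Y` the right side) let `F ∈ S.st A ∅ (D - 2)`. If `F` is good it is in `GG`.
Otherwise `bad_two` gives `U =: W` (`W.card = D - 3 ≥ 1`), `G = F_W ∈ S.fac W`, `v`, `Z = A \ W ⊆ car v`,
`Z.card = 3`, and `ch F = ch G + single v 1`. Apply `facet_lemma` with `nT = single v 1`.
Let `R` be a ridge of `Γ_W`, `R.card = D - 4`, `u` a vertex with `car u` not contained in `W`, `u ≠ v`, `n =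
ch R + single u 1 + single v 1`. If `n.support ∉ S.fcs A` then `mo n ∈ S.I A`. Otherwise
`F' = insert u (insert v R)` is a face with `D - 2` elements (`u, v ∉ R` because the carriers of `R` are in
`W`), and `n = ch F'`. `S.cr F' = A`: (HA) `S.cr R = W.erase j`, `j ∈ car u`; (HB) `S.cr R = W`. Good: let
`U ⊆ A`, `R_U = R.filter (car ⊆ U)`; `R_U.card ≤ (U ∩ W).card`, in case (HA) `≤ (U ∩ W.erase j).card`.
 - `car u, car v` not contained in `U`: `2 R_U.card - U.card ≤ R_U.card ≤ D - 4`.
 - only `car v ⊆ U`: `Z ⊆ U`, `R_U.card ≤ U.card - 3`: `2 + 2 R_U.card - U.card ≤ R_U.card - 1`.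
 - only `car u ⊆ U`: `U` meets `Z`. (HA) `j ∈ U`: `R_U.card ≤ U.card - 2`: `2 + 2 R_U.card - U.card ≤ D - 4`.
   (HB) if `W ⊆ U`: `U.card ≥ D - 2`: `2 + 2 (D-4) - U.card ≤ D - 4`. If not `W ⊆ U`: `R_U ≠ R` (`S.cr R = W`), so
   `R_U.card ≤ D - 5`, and `R_U.card ≤ U.card - 1`: `2 + 2 R_U.card - U.card ≤ 1 + R_U.card ≤ D - 4`.
 - both: (HA) `R_U.card ≤ U.card - 4`. (HB) `W ⊆ U`: `U = A`, excess `0`; otherwise `R_U.card ≤ D - 5`,
   `R_U.card ≤ U.card - 3`: `4 + 2 R_U.card - U.card ≤ 1 + R_U.card ≤ D - 4`.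
 (HA), `u ≠ v`: in `GG`, first kind. (HA), `u = v`: `j ∈ car v`, so `Z' = insert j Z ⊆ car v`, `Z'.card = 4`,
 `R ∈ S.fac (A \ Z')` (`A \ Z' = W.erase j`), `n = ch R + single v 2`: in `GG`, second kind, if
 `insert v R ∈ S.fcs A`, else in `S.I A`.
 (HB): given `ω` choose `z ∈ Z` and `ω' = ω` on `W`, `ω' z = κ`, `ω' = 0` on `Z.erase z`, with `κ` such that
 `lf A ω' v = lf W ω v + κ * a v z = 0` (`a v z ≠ 0`; `lf A ω' v = lf W ω v + κ * a v z`). The term `u = v` of
 the sum is zero, the others are in `GG` or in `S.I A`.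
-/

set_option autoImplicit false

open Finset

namespace Pool.Agent.LocH.Sub

variable {X Ω : Type} [Fintype X] [DecidableEq X] [Fintype Ω] [DecidableEq Ω] (S : Sub X Ω)

private theorem s2_ch {F : Finset X} {v : X} (h : v ∉ F) :
    (ch (insert v F) : X →₀ ℕ) = ch F + Finsupp.single v 1 := by
  rw [ch, Finset.sum_insert h, add_comm]
  rfl

private theorem s2_three {A W : Finset Ω} (hWA : W ⊆ A) (hc : W.card + 3 = A.card) :
    (A \ W).card = 3 := by
  have h := Finset.card_sdiff_add_card_eq_card hWA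
  omega

private theorem s2_v {A W : Finset Ω} (hWA : W ⊆ A) (hc : W.card + 3 = A.card) {v : X}
    (hv : A \ W ⊆ S.car v) : ¬ S.car v ⊆ W := by
  intro h
  have h1 : (A \ W).Nonempty := card_pos.1 (by rw [s2_three hWA hc]; omega)
  obtain ⟨z, hz⟩ := h1
  exact (mem_sdiff.1 hz).2 (h (hv hz))

private theorem s2_mem {R : Finset X} {W : Finset Ω} (hR : R ∈ S.fcs W) {u : X}
    (hu : ¬ S.car u ⊆ W) : u ∉ R := by
  intro h
  rw [fcs, mem_filter] at hR
  exact hu ((Finset.subset_biUnion_of_mem S.car h).trans hR.2)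

/-- The monomials of the facet lemma. -/
private theorem s2_term {A W : Finset Ω} (hWA : W ⊆ A) (hc : W.card + 3 = A.card)
    (hW1 : 1 ≤ W.card) {v : X} (hv : A \ W ⊆ S.car v) {R : Finset X} (hR : R ∈ S.fcs W)
    (hRc : R.card + 1 = W.card) {u : X} (huv : u ≠ v) (hu : ¬ S.car u ⊆ W)
    (hcase : (∃ j ∈ W, j ∈ S.car u ∧ S.cr R = W.erase j) ∨ S.cr R = W) :
    S.GG A (ch R + Finsupp.single u 1 + Finsupp.single v 1) ∨
      S.mo (ch R + Finsupp.single u 1 + Finsupp.single v 1) ∈ S.I A := by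
  have huR : u ∉ R := S.s2_mem hR hu
  have hvW : ¬ S.car v ⊆ W := S.s2_v hWA hc hv
  have hvR : v ∉ R := S.s2_mem hR hvW
  have hvR' : v ∉ insert u R := by
    rw [mem_insert]
    rintro (h | h)
    · exact huv h.symm
    · exact hvR h
  have hch : (ch (insert v (insert u R)) : X →₀ ℕ) =
      ch R + Finsupp.single u 1 + Finsupp.single v 1 := by
    rw [s2_ch hvR', s2_ch huR]
  rw [← hch]
  by_cases hF : insert v (insert u R) ∈ S.fcs A
  swap
  · right
    rw [mo_mem_I, ch_support]
    exact hF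
  left
  left
  have hR' := hR
  have hF' := hF
  rw [fcs, mem_filter] at hR' hF'
  have hcard : (insert v (insert u R)).card = R.card + 2 := by
    rw [card_insert_of_notMem hvR', card_insert_of_notMem huR]
  have hcr : S.cr (insert v (insert u R)) = A := by
    apply Finset.Subset.antisymm hF'.2
    intro c hcA
    rw [cr, Finset.biUnion_insert, Finset.biUnion_insert, mem_union, mem_union]
    by_cases hcW : c ∈ W
    · right
      rcases hcase with ⟨j, hj, hju, hRj⟩ | hRW
      · by_cases hcj : c = j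
        · left
          rw [hcj]
          exact hju
        · right
          change c ∈ S.cr R
          rw [hRj]
          exact mem_erase.2 ⟨hcj, hcW⟩
      · right
        change c ∈ S.cr R
        rw [hRW]
        exact hcW
    · left
      exact hv (mem_sdiff.2 ⟨hcA, hcW⟩)
  refine ⟨insert v (insert u R), ?_, rfl, by rw [ch_support]; exact hF, fun U hU => ?_⟩
  · rw [st, mem_filter]
    exact ⟨hF'.1, Finset.empty_subset _, hcr, by rw [hcard]; omega⟩
  rw [ex, ch_degree, hcard, hch, dgI_add, dgI_add, dgI_ch, dgI_single, dgI_single]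
  have hr1 : (R.filter fun x => S.car x ⊆ U).card ≤ R.card := Finset.card_filter_le _ _
  have hr2 : (R.filter fun x => S.car x ⊆ U).card ≤ (S.cr R ∩ U).card :=
    S.card_filter_le hR'.1 U
  have hp : (U ∩ W).card + (U \ W).card = U.card := Finset.card_inter_add_card_sdiff U W
  have hs : (S.cr R ∩ U).card ≤ (U ∩ W).card := card_le_card fun c hc => by
    rw [mem_inter] at hc ⊢
    exact ⟨hc.2, hR'.2 hc.1⟩
  have h3 := s2_three hWA hc
  have hv3 : S.car v ⊆ U → 3 ≤ (U \ W).card := by
    intro h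
    rw [← h3]
    refine card_le_card fun c hc => ?_
    exact mem_sdiff.2 ⟨h (hv hc), (mem_sdiff.1 hc).2⟩
  have hu1 : S.car u ⊆ U → 1 ≤ (U \ W).card := by
    intro h
    obtain ⟨c, hcu, hcW⟩ := Finset.not_subset.1 hu
    exact card_pos.2 ⟨c, mem_sdiff.2 ⟨h hcu, hcW⟩⟩
  rcases hcase with ⟨j, hj, hju, hRj⟩ | hRW
  · have hj1 : S.car u ⊆ U → (S.cr R ∩ U).card + 1 ≤ (U ∩ W).card := by
      intro h
      have hjm : j ∈ U ∩ W := mem_inter.2 ⟨h hju, hj⟩
      have h4 : S.cr R ∩ U ⊆ (U ∩ W).erase j := by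
        intro c hc
        rw [hRj, mem_inter, mem_erase] at hc
        exact mem_erase.2 ⟨hc.1.1, mem_inter.2 ⟨hc.2, hc.1.2⟩⟩
      have h5 := card_le_card h4
      have h6 := card_erase_add_one hjm
      omega
    by_cases h7 : S.car u ⊆ U <;> by_cases h8 : S.car v ⊆ U
    · have := hv3 h8
      have := hu1 h7
      have := hj1 h7
      rw [if_pos h7, if_pos h8]
      omega
    · have := hu1 h7
      have := hj1 h7
      rw [if_pos h7, if_neg h8]
      omega
    · have := hv3 h8
      rw [if_neg h7, if_pos h8]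
      omega
    · rw [if_neg h7, if_neg h8]
      omega
  · by_cases hWU : W ⊆ U
    · have h9 : (U ∩ W).card = W.card := by rw [inter_eq_right.2 hWU]
      by_cases h7 : S.car u ⊆ U <;> by_cases h8 : S.car v ⊆ U
      · have := hv3 h8
        rw [if_pos h7, if_pos h8]
        omega
      · have := hu1 h7
        rw [if_pos h7, if_neg h8]
        omega
      · have := hv3 h8
        rw [if_neg h7, if_pos h8]
        omega
      · rw [if_neg h7, if_neg h8]
        omega
    · have h9 : (R.filter fun x => S.car x ⊆ U).card + 1 ≤ R.card := by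
        refine Finset.card_lt_card ⟨Finset.filter_subset _ _, fun h => hWU ?_⟩
        rw [← hRW]
        exact Finset.biUnion_subset.2 fun x hx => (mem_filter.1 (h hx)).2
      by_cases h7 : S.car u ⊆ U <;> by_cases h8 : S.car v ⊆ U
      · have := hv3 h8
        rw [if_pos h7, if_pos h8]
        omega
      · have := hu1 h7
        rw [if_pos h7, if_neg h8]
        omega
      · have := hv3 h8
        rw [if_neg h7, if_pos h8]
        omega
      · rw [if_neg h7, if_neg h8]
        omega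

/-- The monomials with the vertex `v` twice. -/
private theorem s2_two {A W : Finset Ω} (hWA : W ⊆ A) (hc : W.card + 3 = A.card) {v : X}
    (hv : A \ W ⊆ S.car v) {R : Finset X} (hR : R ∈ S.fcs W)
    (hRc : R.card + 1 = W.card) {j : Ω} (hj : j ∈ W) (hjv : j ∈ S.car v)
    (hRj : S.cr R = W.erase j) :
    S.GG A (ch R + Finsupp.single v 1 + Finsupp.single v 1) ∨
      S.mo (ch R + Finsupp.single v 1 + Finsupp.single v 1) ∈ S.I A := by
  have hvR : v ∉ R := S.s2_mem hR (S.s2_v hWA hc hv)
  have h2 : (ch R + Finsupp.single v 1 + Finsupp.single v 1 : X →₀ ℕ) =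
      ch R + Finsupp.single v 2 := by
    rw [add_assoc, ← Finsupp.single_add]
  rw [h2]
  have hR' := hR
  rw [fcs, mem_filter] at hR'
  by_cases hF : insert v R ∈ S.fcs A
  swap
  · right
    rw [mo_mem_I]
    have h3 : (ch R + Finsupp.single v 2 : X →₀ ℕ).support = insert v R := by
      ext x
      have h4 : x ∈ R ↔ (ch R : X →₀ ℕ) x ≠ 0 := by
        rw [← Finsupp.mem_support_iff, ch_support]
      rw [Finsupp.mem_support_iff, Finsupp.add_apply, mem_insert, h4, Finsupp.single_apply]
      by_cases h5 : v = x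
      · rw [if_pos h5]
        constructor
        · intro _
          exact Or.inl h5.symm
        · intro _
          omega
      · rw [if_neg h5, add_zero]
        constructor
        · exact fun h => Or.inr h
        · rintro (h | h)
          · exact absurd h.symm h5
          · exact h
    rw [h3]
    exact hF
  left
  right
  have h3 := s2_three hWA hc
  have hj' : j ∉ A \ W := fun h => (mem_sdiff.1 h).2 hj
  have h4 : A \ insert j (A \ W) = W.erase j := by
    ext c
    rw [mem_sdiff, mem_insert, mem_sdiff, mem_erase]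
    constructor
    · rintro ⟨h5, h6⟩
      push Not at h6
      exact ⟨h6.1, h6.2 h5⟩
    · rintro ⟨h5, h6⟩
      exact ⟨hWA h6, fun h => h.elim h5 fun h => h.2 h6⟩
  refine ⟨v, R, insert j (A \ W), ?_, ?_, ?_, hvR, ?_, hF, rfl⟩
  · exact insert_subset (hWA hj) sdiff_subset
  · rw [card_insert_of_notMem hj', h3]
  · rw [h4, fac, st, mem_filter]
    refine ⟨hR'.1, Finset.empty_subset _, hRj, ?_⟩
    have := card_erase_add_one hj
    omega
  · exact insert_subset hjv hv

/-- The interior ideal in degree `A.card - 2` is spanned by the monomials of `GG`. -/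
theorem span_two (hT : S.Top S.K) {A : Finset Ω} (hA : 4 ≤ A.card) :
    S.J A A ⊓ S.H (A.card - 2) ≤
      Submodule.span S.K {f | ∃ n : X →₀ ℕ, S.GG A n ∧ f = S.mo n} ⊔ S.I A ⊔ S.thm A ⊤ := by
  set Y := Submodule.span S.K {f | ∃ n : X →₀ ℕ, S.GG A n ∧ f = S.mo n} ⊔ S.I A ⊔ S.thm A ⊤
    with hY
  have hI : S.I A ≤ Y := le_sup_of_le_left le_sup_right
  have hθ : S.thm A ⊤ ≤ Y := le_sup_right
  have hG : ∀ n, S.GG A n → S.mo n ∈ Y := fun n hn =>
    Submodule.mem_sup_left (Submodule.mem_sup_left (Submodule.subset_span ⟨n, hn, rfl⟩))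
  refine S.sq (by omega) hI hθ fun F hF => ?_
  by_cases hgd : S.Gd A (ch F)
  · exact hG _ (Or.inl ⟨F, hF, rfl, hgd⟩)
  obtain ⟨W, hWA, hWc, G, hGf, v, hvG, hZ, hFG, -⟩ := S.bad_two hA hF hgd
  have hW1 : 1 ≤ W.card := by omega
  have hWn : W.Nonempty := card_pos.1 hW1
  rw [hFG, s2_ch hvG]
  have hterm : ∀ R ∈ S.fcs W, R.card + 1 = W.card → ∀ u, u ≠ v → ¬ S.car u ⊆ W →
      ((∃ j ∈ W, j ∈ S.car u ∧ S.cr R = W.erase j) ∨ S.cr R = W) →
      S.mo (ch R + Finsupp.single u 1 + Finsupp.single v 1) ∈ Y :=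
    fun R hR hRc u huv hu hcase =>
      (S.s2_term hWA hWc hW1 hZ hR hRc huv hu hcase).elim (hG _) fun h => hI h
  refine S.facet_lemma hT hWA hWn (Finsupp.single v 1) hI hθ ?_ ?_ hGf
  · intro R hR hRc j hj hRj u hju hu
    by_cases huv : u = v
    · rw [huv] at hju ⊢
      exact (S.s2_two hWA hWc hZ hR hRc hj hju hRj).elim (hG _) fun h => hI h
    · exact hterm R hR hRc u huv hu (Or.inl ⟨j, hj, hju, hRj⟩)
  · intro R hR ω
    rw [st, mem_filter] at hR
    have hRf : R ∈ S.fcs W := by
      rw [fcs, mem_filter]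
      exact ⟨hR.1, hR.2.2.1.subset⟩
    have hRc : R.card + 1 = W.card := by
      have := hR.2.2.2
      omega
    obtain ⟨z, hz⟩ : (A \ W).Nonempty := card_pos.1 (by rw [s2_three hWA hWc]; omega)
    have haz : S.a v z ≠ 0 := S.a_ne_zero (hZ hz)
    obtain ⟨κ, hκ⟩ : ∃ κ, S.lf W ω v + κ * S.a v z = 0 := by
      refine ⟨-(S.lf W ω v) / S.a v z, ?_⟩
      rw [div_mul_cancel₀ _ haz, add_neg_cancel]
    let ω' : Ω → S.K := fun c => if c ∈ W then ω c else if c = z then κ else 0
    have hω1 : ∀ c ∈ W, ω' c = ω c := fun c hc => if_pos hc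
    have hωv : S.lf A ω' v = 0 := by
      rw [← hκ, lf, ← Finset.sum_sdiff hWA, add_comm]
      congr 1
      · exact Finset.sum_congr rfl fun c hc => by rw [hω1 c hc]
      · rw [Finset.sum_eq_single z]
        · have h1 : ω' z = κ := by
            change (if z ∈ W then ω z else if z = z then κ else 0) = κ
            rw [if_neg (mem_sdiff.1 hz).2, if_pos rfl]
          rw [h1]
        · intro c hc hcz
          have h1 : ω' c = 0 := by
            change (if c ∈ W then ω c else if c = z then κ else 0) = 0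
            rw [if_neg (mem_sdiff.1 hc).2, if_neg hcz]
          rw [h1, zero_mul]
        · intro h
          exact absurd hz h
    refine ⟨ω', hω1, Submodule.sum_mem _ fun u hu => ?_⟩
    by_cases huv : u = v
    · rw [huv, hωv, zero_smul]
      exact Submodule.zero_mem _
    · exact Submodule.smul_mem _ _ (hterm R hRf hRc u huv (mem_filter.1 hu).2
        (Or.inr hR.2.2.1))

end Pool.Agent.LocH.Sub
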