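import Pool.Agent.LocH.GFl

/-!
# Package GSq: squarefree monomials span (the step (Sq) of P6 of `/team-store/LHV_proof.md`), and i = 1

`sq`: `JH_le`: let `n` have degree `k ≤ A.card`, `F = n.support`; if `F ∉ S.fcs A` then `mo n ∈ S.I A`.
Otherwise `A ⊆ S.cr F`, so `S.cr F = A`. Downward induction on `F.card ≤ n.degree = k`. If `F.card = k` then
`n = ch F`. If `F.card < k` there is `v ∈ F` with `2 ≤ n v`; let `n' = n - single v 1`, with the same support
`F`. Choose `ω` with `lf A ω v = 1`, `lf A ω u = 0` for `u ∈ F`, `u ≠ v` (`exists_form`). Then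
`∑ c ∈ A, ω c • (th c * mo n')` (`form_mul`) is in `S.thm A ⊤` and equals `mo n` plus a combination of the
`mo (n' + single u 1)`, `u ∉ F`, which are in `S.I A` or have larger support.
`good_one`: for `U ⊆ A`, `F_U = F.filter (car ⊆ U)`: `U = A`: the excess is `≤ 0` (`dgI_le`). `U ≠ A`:
`S.cr F = A` is not contained in `U`, so `F_U.card ≤ F.card - 1 = A.card - 2`, and `F_U.card ≤ U.card`
(`card_filter_le`), so `2 F_U.card - U.card ≤ A.card - 2 = 2 F.card - A.card`.
-/

set_option autoImplicit false

open Finset

namespace Pool.Agent.LocH.Sub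

variable {X Ω : Type} [Fintype X] [DecidableEq X] [Fintype Ω] [DecidableEq Ω] (S : Sub X Ω)

omit [Fintype X] in
private lemma gsq_supp (n : X →₀ ℕ) (u : X) :
    (n + Finsupp.single u 1).support = insert u n.support := by
  ext w
  rw [Finsupp.mem_support_iff, Finset.mem_insert, Finsupp.mem_support_iff, Finsupp.add_apply,
    Finsupp.single_apply]
  by_cases h : u = w
  · subst h
    simp
  · have h' : ¬ w = u := fun e => h e.symm
    simp [h, h']

omit [Fintype X] [DecidableEq X] in
private lemma gsq_deg (n : X →₀ ℕ) : n.degree = ∑ v ∈ n.support, n v := rfl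

omit [Fintype X] [DecidableEq X] in
private lemma gsq_card (n : X →₀ ℕ) : n.support.card ≤ n.degree := by
  rw [gsq_deg, Finset.card_eq_sum_ones]
  exact Finset.sum_le_sum fun v hv => Nat.one_le_iff_ne_zero.2 (Finsupp.mem_support_iff.1 hv)

omit [Fintype X] in
private lemma gsq_one (n : X →₀ ℕ) (h : n.support.card = n.degree) : n = ch n.support := by
  have h1 : ∀ v ∈ n.support, 1 = n v := by
    refine (Finset.sum_eq_sum_iff_of_le (f := fun _ => 1) (g := fun v => n v) fun v hv =>
      Nat.one_le_iff_ne_zero.2 (Finsupp.mem_support_iff.1 hv)).1 ?_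
    rw [← Finset.card_eq_sum_ones, h, gsq_deg]
  ext v
  unfold ch
  rw [Finsupp.finsetSum_apply]
  by_cases hv : v ∈ n.support
  · rw [Finset.sum_eq_single v, Finsupp.single_eq_same, ← h1 v hv]
    · intro w _ hw
      exact Finsupp.single_eq_of_ne (Ne.symm hw)
    · intro h
      exact absurd hv h
  · rw [Finsupp.notMem_support_iff.1 hv]
    symm
    apply Finset.sum_eq_zero
    intro w hw
    exact Finsupp.single_eq_of_ne fun e => hv (e ▸ hw)

omit [Fintype X] [DecidableEq X] in
private lemma gsq_two (n : X →₀ ℕ) (h : n.support.card < n.degree) :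
    ∃ v ∈ n.support, 2 ≤ n v := by
  by_contra hcon
  push Not at hcon
  have h1 : n.degree ≤ n.support.card := by
    rw [gsq_deg, Finset.card_eq_sum_ones]
    exact Finset.sum_le_sum fun v hv => Nat.le_of_lt_succ (hcon v hv)
  omega

/-- The interior ideal is spanned by squarefree monomials modulo `I + θ T`. -/
theorem sq {A : Finset Ω} {k : ℕ} (hk : k ≤ A.card) {Y : Submodule S.K S.T} (hI : S.I A ≤ Y)
    (hθ : S.thm A ⊤ ≤ Y) (hF : ∀ F ∈ S.st A ∅ k, S.mo (ch F) ∈ Y) : S.J A A ⊓ S.H k ≤ Y := by
  have key : ∀ d : ℕ, ∀ n : X →₀ ℕ, n.degree = k →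
      (n.support ∈ S.fcs A → A ⊆ S.cr n.support) → n.support.card + d = k → S.mo n ∈ Y := by
    intro d
    induction d with
    | zero =>
      intro n hn hA hd
      by_cases hs : n.support ∈ S.fcs A
      · have h1 := gsq_one n (by omega)
        have h2 : n.support ∈ S.st A ∅ k := by
          have h3 := Finset.mem_filter.1 hs
          unfold st
          rw [Finset.mem_filter]
          exact ⟨h3.1, Finset.empty_subset _, Finset.Subset.antisymm h3.2 (hA hs), by omega⟩
        rw [h1]
        exact hF _ h2
      · exact hI ((S.mo_mem_I).2 hs)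
    | succ d ih =>
      intro n hn hA hd
      by_cases hs : n.support ∈ S.fcs A
      swap
      · exact hI ((S.mo_mem_I).2 hs)
      obtain ⟨v, hv, hv2⟩ := gsq_two n (by omega)
      have hle : Finsupp.single v 1 ≤ n := by
        rw [Finsupp.single_le_iff]
        omega
      obtain ⟨n', rfl⟩ : ∃ n', n = n' + Finsupp.single v 1 :=
        ⟨n - Finsupp.single v 1, (tsub_add_cancel_of_le hle).symm⟩
      have hv1 : v ∈ n'.support := by
        rw [Finsupp.mem_support_iff]
        rw [Finsupp.add_apply, Finsupp.single_eq_same] at hv2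
        omega
      have hsup : (n' + Finsupp.single v 1).support = n'.support := by
        rw [gsq_supp, Finset.insert_eq_self.2 hv1]
      have hdeg : n'.degree + 1 = k := by
        rw [map_add, Finsupp.degree_single] at hn
        exact hn
      rw [hsup] at hs hA hd
      obtain ⟨ω, hω1, hω2⟩ := S.exists_form hs hv1
      have h1 := S.form_mul A ω n'
      have h2 : ∑ c ∈ A, ω c • (S.th c * S.mo n') ∈ Y :=
        Submodule.sum_mem _ fun c hc => Y.smul_mem _ (hθ (S.th_mul_mem_thm hc _))
      rw [h1, ← Finset.add_sum_erase _ _ (Finset.mem_univ v), hω1, one_smul] at h2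
      have h3 : ∑ u ∈ Finset.univ.erase v, S.lf A ω u • S.mo (n' + Finsupp.single u 1) ∈ Y := by
        refine Submodule.sum_mem _ fun u hu => ?_
        have huv : u ≠ v := (Finset.mem_erase.1 hu).1
        by_cases hun : u ∈ n'.support
        · rw [hω2 u hun huv, zero_smul]
          exact Y.zero_mem
        · refine Y.smul_mem _ (ih _ ?_ ?_ ?_)
          · rw [map_add, Finsupp.degree_single]
            exact hdeg
          · intro _
            rw [gsq_supp]
            refine (hA hs).trans ?_
            unfold cr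
            exact Finset.biUnion_subset_biUnion_of_subset_left _ (Finset.subset_insert _ _)
          · rw [gsq_supp, Finset.card_insert_of_notMem hun]
            omega
      have h4 := Y.sub_mem h2 h3
      rwa [add_sub_cancel_right] at h4
  refine S.JH_le fun n hn hA => ?_
  have h1 := gsq_card n
  exact key (k - n.support.card) n hn hA (by omega)

private lemma gsq_st {A : Finset Ω} {k : ℕ} {F : Finset X} (hF : F ∈ S.st A ∅ k) :
    F ∈ S.Gam ∧ S.cr F = A ∧ F.card = k := by
  unfold st at hF
  rw [Finset.mem_filter] at hF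
  exact ⟨hF.1, hF.2.2⟩

/-- The interior faces of size `A.card - 1` are good. -/
theorem good_one {A : Finset Ω} (hA : 3 ≤ A.card) {F : Finset X}
    (hF : F ∈ S.st A ∅ (A.card - 1)) : S.Gd A (ch F) := by
  obtain ⟨h1, h2, h3⟩ := gsq_st S hF
  refine ⟨?_, fun U hU => ?_⟩
  · rw [ch_support]
    unfold fcs
    rw [Finset.mem_filter]
    exact ⟨h1, h2.le⟩
  · unfold ex
    have h4 := S.dgI_le U (ch F)
    have h5 := ch_degree F
    by_cases hUA : U = A
    · subst hUA
      omega
    · have h6 : S.dgI U (ch F) < (ch F : X →₀ ℕ).degree := by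
        apply S.dgI_lt
        rw [ch_support, h2]
        exact fun h => hUA (Finset.Subset.antisymm hU h)
      have h7 := S.dgI_ch U F
      have h8 := S.card_filter_le h1 U
      have h9 : (S.cr F ∩ U).card ≤ U.card := Finset.card_le_card Finset.inter_subset_right
      omega

/-- The spanning statement for `i = 1`. -/
theorem span_one {A : Finset Ω} (hA : 3 ≤ A.card) :
    S.J A A ⊓ S.H (A.card - 1) ≤ S.GM A (A.card - 1) ⊔ S.I A ⊔ S.thm A ⊤ := by
  refine S.sq (by omega) (le_sup_right.trans le_sup_left) le_sup_right fun F hF => ?_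
  refine (le_sup_left.trans le_sup_left : S.GM A (A.card - 1) ≤ _) ?_
  apply Submodule.subset_span
  refine ⟨ch F, S.good_one hA hF, ?_, rfl⟩
  rw [ch_degree]
  exact (gsq_st S hF).2.2

end Pool.Agent.LocH.Sub
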