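import Pool.Agent.LocH.GC1

/-!
# Package GSt1: the new monomials of the step (1,3) are good (P6.5 of `/team-store/LHV_proof.md`)

`D = A.card`, `W ⊆ A`, `m = W.card = D - 3 ≥ 4`, `Z = A \ W`, `Z.card = 3`, `Z ⊆ car v`, `not car u ⊆ W`, `n` of
degree `m - 2` with support in `S.fcs W`, `n' = n + single v 1 + single u 1`, of degree `D - 3`, support in
`S.fcs A`. `not car v ⊆ W`. Let `U ⊆ A`, `ζ = (U ∩ Z).card`. `dgI U n = dgI (U ∩ W) n` (the support of `n` is in
`Γ_W`), `dgI U n' = dgI U n + [car v ⊆ U] + [car u ⊆ U]`, and `2 * dgI (U ∩ W) n - (U ∩ W).card ≤ 2 (m - 2) - m =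
m - 4` if `n` is good or `c ∈ U`, and `≤ m - 3` always (if `c ∉ U` compare `U ∩ W` and `insert c (U ∩ W)`).
`U.card = (U ∩ W).card + ζ`. The bound to prove: `2 * dgI U n' - U.card ≤ 2 (D - 3) - D = m - 3`.
 `not car u ⊆ U`: the left side is at most `2 [car v ⊆ U] + m - 3 - ζ`; if `car v ⊆ U` then `ζ = 3`.
 `car u ⊆ U`: then `ζ ≥ 1`, and `c ∈ U` in the second case of the hypothesis `h`: at most
 `2 + 2 [car v ⊆ U] + m - 4 - ζ`; if `car v ⊆ U` then `ζ = 3`.
-/

set_option autoImplicit false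
set_option linter.unusedSectionVars false

open Finset

namespace Pool.Agent.LocH.Sub

variable {X Ω : Type} [Fintype X] [DecidableEq X] [Fintype Ω] [DecidableEq Ω] (S : Sub X Ω)

private theorem dgI_inter {W : Finset Ω} {n : X →₀ ℕ} (hn : n.support ∈ S.fcs W) (U : Finset Ω) :
    S.dgI U n = S.dgI (U ∩ W) n := by
  have hcar : ∀ x, n x ≠ 0 → S.car x ⊆ W := by
    intro x hx
    have h1 := (Finset.mem_filter.1 hn).2
    exact (Finset.subset_biUnion_of_mem S.car (Finsupp.mem_support_iff.2 hx)).trans h1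
  unfold dgI
  rw [Finset.sum_filter, Finset.sum_filter]
  refine Finset.sum_congr rfl fun x _ => ?_
  by_cases hx : n x = 0
  · rw [hx]
    simp
  · have h1 : S.car x ⊆ U ∩ W ↔ S.car x ⊆ U :=
      ⟨fun h => h.trans Finset.inter_subset_left, fun h => Finset.subset_inter h (hcar x hx)⟩
    simp only [h1]

/-- The new monomials are good. `e = true` for the monomials of `y`, otherwise `c ∈ car u`. -/
theorem new_good {A W : Finset Ω} (hWA : W ⊆ A) (hW : W.card + 3 = A.card) (hW4 : 4 ≤ W.card)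
    {v u : X} (hv : A \ W ⊆ S.car v) (hu : ¬ S.car u ⊆ W) {n : X →₀ ℕ} (hn : n.support ∈ S.fcs W)
    (hd : n.degree + 2 = W.card)
    (h : S.Gd W n ∨ ∃ c ∈ S.car u, c ∈ W ∧ ∀ U ⊆ W, c ∈ U → S.ex W U n ≤ 0)
    (hs : (n + Finsupp.single v 1 + Finsupp.single u 1).support ∈ S.fcs A) :
    S.Gd A (n + Finsupp.single v 1 + Finsupp.single u 1) := by
  refine ⟨hs, fun U hU => ?_⟩
  have hdeg : (n + Finsupp.single v 1 + Finsupp.single u 1).degree = n.degree + 2 := by
    simp only [map_add, Finsupp.degree_single]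
  have hdg : S.dgI U (n + Finsupp.single v 1 + Finsupp.single u 1)
      = S.dgI (U ∩ W) n + (if S.car v ⊆ U then 1 else 0) + (if S.car u ⊆ U then 1 else 0) := by
    rw [S.dgI_add, S.dgI_add, S.dgI_single, S.dgI_single, S.dgI_inter hn U]
  -- the cardinality of `U`
  have hUc : U.card = (U ∩ W).card + (U ∩ (A \ W)).card := by
    have h1 : (U ∩ (A \ W)) = U \ W := by
      ext x
      simp only [Finset.mem_inter, Finset.mem_sdiff]
      constructor
      · rintro ⟨h1, _, h2⟩
        exact ⟨h1, h2⟩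
      · rintro ⟨h1, h2⟩
        exact ⟨h1, hU h1, h2⟩
    rw [h1, Finset.card_inter_add_card_sdiff]
  have hZ : (A \ W).card = 3 := by
    rw [Finset.card_sdiff_of_subset hWA]
    omega
  have hv3 : S.car v ⊆ U → (U ∩ (A \ W)).card = 3 := by
    intro h1
    rw [Finset.inter_eq_right.2 (hv.trans h1), hZ]
  have hu1 : S.car u ⊆ U → 1 ≤ (U ∩ (A \ W)).card := by
    intro h1
    rw [Finset.not_subset] at hu
    obtain ⟨z, hz, hzW⟩ := hu
    exact Finset.card_pos.2 ⟨z, Finset.mem_inter.2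
      ⟨h1 hz, Finset.mem_sdiff.2 ⟨hU (h1 hz), hzW⟩⟩⟩
  have hUW : U ∩ W ⊆ W := Finset.inter_subset_right
  -- the two bounds
  have hb1 : 2 * (S.dgI (U ∩ W) n : ℤ) - (U ∩ W).card ≤ (W.card : ℤ) - 3 := by
    rcases h with h | ⟨c, hcu, hcW, hc⟩
    · have h1 := h.2 (U ∩ W) hUW
      unfold ex at h1
      omega
    · by_cases hcU : c ∈ U ∩ W
      · have h1 := hc (U ∩ W) hUW hcU
        unfold ex at h1
        omega
      · have h1 := hc (insert c (U ∩ W)) (Finset.insert_subset hcW hUW)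
          (Finset.mem_insert_self _ _)
        have h2 : S.dgI (U ∩ W) n ≤ S.dgI (insert c (U ∩ W)) n := by
          unfold dgI
          refine Finset.sum_le_sum_of_subset ?_
          intro x hx
          rw [Finset.mem_filter] at hx ⊢
          exact ⟨hx.1, hx.2.trans (Finset.subset_insert _ _)⟩
        unfold ex at h1
        rw [Finset.card_insert_of_notMem hcU] at h1
        push_cast at h1
        omega
  have hb2 : S.car u ⊆ U → 2 * (S.dgI (U ∩ W) n : ℤ) - (U ∩ W).card ≤ (W.card : ℤ) - 4 := by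
    intro huU
    rcases h with h | ⟨c, hcu, hcW, hc⟩
    · have h1 := h.2 (U ∩ W) hUW
      unfold ex at h1
      omega
    · have h1 := hc (U ∩ W) hUW (Finset.mem_inter.2 ⟨huU hcu, hcW⟩)
      unfold ex at h1
      omega
  unfold ex
  rw [hdeg, hdg, hUc]
  by_cases h1 : S.car v ⊆ U
  · have h3 := hv3 h1
    by_cases h2 : S.car u ⊆ U
    · have h4 := hb2 h2
      rw [if_pos h1, if_pos h2]
      push_cast
      omega
    · rw [if_pos h1, if_neg h2]
      push_cast
      omega
  · by_cases h2 : S.car u ⊆ U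
    · have h4 := hb2 h2
      have h5 := hu1 h2
      rw [if_neg h1, if_pos h2]
      push_cast
      omega
    · rw [if_neg h1, if_neg h2]
      push_cast
      omega

end Pool.Agent.LocH.Sub
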