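import Pool.Agent.LocH.GC1

/-!
# Package GSt2: an element of `BC W` in the vertices of `Γ_W` (P6.5 of `/team-store/LHV_proof.md`)

`f ∈ BC W` and all monomials of `f` are monomials in the vertices `u` with `car u ⊆ W`. Let `π` be the algebra
homomorphism of `S.T` with `π (X u) = X u` if `car u ⊆ W` and `0` otherwise (`MvPolynomial.aeval`). `π f = f`.
Write `f = S.lam W * y + ∑ c ∈ W, S.th c * z c + r` with `y ∈ GM W (W.card - 2)`, `z c ∈ XC W c`, `r ∈ S.I W`
(definition of `BC`: suprema of submodules; `Submodule.mem_iSup_finset_iff_exists_sum` or induction). Apply `π`: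
`π (S.lam W) = S.lam W`, `π y = y`, `π (z c) = z c` (their monomials have support in `S.fcs W`),
`π (S.th c) = ∑ u, car u ⊆ W, C (a u c) * X u`, and `π r` consists of the monomials of `r` whose support
consists of vertices `u` with `car u ⊆ W`; such a support `F` is not in `S.fcs W`, and `S.cr F ⊆ W`, so it is
not in `S.Gam`.
-/

set_option autoImplicit false

open Finset

namespace Pool.Agent.LocH.Sub

variable {X Ω : Type} [Fintype X] [DecidableEq X] [Fintype Ω] [DecidableEq Ω] (S : Sub X Ω)

/-- The projection to the polynomials in the vertices of the restriction to `W`. -/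
private noncomputable def prj (W : Finset Ω) : S.T →ₐ[S.K] S.T :=
  MvPolynomial.aeval fun u => if S.car u ⊆ W then MvPolynomial.X u else 0

private theorem prj_X (W : Finset Ω) (u : X) :
    S.prj W (MvPolynomial.X u) = if S.car u ⊆ W then MvPolynomial.X u else 0 := by
  unfold prj
  rw [MvPolynomial.aeval_X]

private theorem prj_mon {W : Finset Ω} {n : X →₀ ℕ} (h : ∀ u ∈ n.support, S.car u ⊆ W) (a : S.K) :
    S.prj W (MvPolynomial.monomial n a) = MvPolynomial.monomial n a := by
  unfold prj
  rw [MvPolynomial.aeval_monomial, MvPolynomial.monomial_eq]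
  refine congrArg₂ (· * ·) rfl (Finset.prod_congr rfl fun u hu => ?_)
  simp only
  rw [if_pos (h u hu)]

private theorem prj_mon_not {W : Finset Ω} {n : X →₀ ℕ} (h : ¬ ∀ u ∈ n.support, S.car u ⊆ W)
    (a : S.K) : S.prj W (MvPolynomial.monomial n a) = 0 := by
  push Not at h
  obtain ⟨u, hu, h1⟩ := h
  unfold prj
  rw [MvPolynomial.aeval_monomial]
  have h2 : (n.prod fun (i : X) (k : ℕ) =>
      (if S.car i ⊆ W then (MvPolynomial.X i : S.T) else 0) ^ k) = 0 := by
    refine Finset.prod_eq_zero hu ?_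
    simp only
    rw [if_neg h1, zero_pow (Finsupp.mem_support_iff.1 hu)]
  rw [h2, mul_zero]

private theorem coeff_prj {W : Finset Ω} (f : S.T) (n : X →₀ ℕ) :
    MvPolynomial.coeff n (S.prj W f) =
      if ∀ u ∈ n.support, S.car u ⊆ W then MvPolynomial.coeff n f else 0 := by
  induction f using MvPolynomial.induction_on' with
  | monomial m a =>
    by_cases hm : ∀ u ∈ m.support, S.car u ⊆ W
    · rw [S.prj_mon hm]
      split_ifs with h
      · rfl
      · rw [MvPolynomial.coeff_monomial, if_neg]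
        rintro rfl
        exact h hm
    · rw [S.prj_mon_not hm, MvPolynomial.coeff_zero]
      split_ifs with h
      · rw [MvPolynomial.coeff_monomial, if_neg]
        rintro rfl
        exact hm h
      · rfl
  | add p q hp hq =>
    rw [map_add, MvPolynomial.coeff_add, hp, hq]
    split_ifs with h
    · rw [MvPolynomial.coeff_add]
    · rw [add_zero]

private theorem prj_self {W : Finset Ω} {f : S.T}
    (hs : ∀ n : X →₀ ℕ, MvPolynomial.coeff n f ≠ 0 → ∀ u ∈ n.support, S.car u ⊆ W) :
    S.prj W f = f := by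
  ext n
  rw [coeff_prj]
  split_ifs with h
  · rfl
  · by_contra h1
    exact h (hs n fun h2 => h1 h2.symm)

private theorem prj_span {W : Finset Ω} {s : Set S.T} (h : ∀ f ∈ s, S.prj W f = f) {f : S.T}
    (hf : f ∈ Submodule.span S.K s) : S.prj W f = f := by
  induction hf using Submodule.span_induction with
  | mem x hx => exact h x hx
  | zero => rw [map_zero]
  | add x y _ _ hx hy => rw [map_add, hx, hy]
  | smul a x _ hx => rw [map_smul, hx]

private theorem fcs_car {W : Finset Ω} {F : Finset X} (hF : F ∈ S.fcs W) {u : X} (hu : u ∈ F) :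
    S.car u ⊆ W :=
  (Finset.subset_biUnion_of_mem S.car hu).trans (Finset.mem_filter.1 hF).2

/-- The consequence of LEMMA C with clean supports. -/
theorem clean {W : Finset Ω} {f : S.T} (hf : f ∈ S.BC W)
    (hs : ∀ n : X →₀ ℕ, MvPolynomial.coeff n f ≠ 0 → ∀ u ∈ n.support, S.car u ⊆ W) :
    ∃ (y : S.T) (z : Ω → S.T) (r : S.T), y ∈ S.GM W (W.card - 2) ∧ (∀ c ∈ W, z c ∈ S.XC W c) ∧
      (∀ n : X →₀ ℕ, MvPolynomial.coeff n r ≠ 0 → n.support ∉ S.Gam) ∧
      f = S.lam W * y + ∑ c ∈ W, (∑ u ∈ univ.filter (fun u => S.car u ⊆ W),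
        MvPolynomial.C (S.a u c) * MvPolynomial.X u) * z c + r := by
  unfold BC at hf
  obtain ⟨p, hp, r, hr, rfl⟩ := Submodule.mem_sup.1 hf
  obtain ⟨a, ha, b, hb, rfl⟩ := Submodule.mem_sup.1 hp
  obtain ⟨y, hy, rfl⟩ := Submodule.mem_map.1 ha
  obtain ⟨μ, rfl⟩ := (Submodule.mem_iSup_finset_iff_exists_sum _ _).1 hb
  have hz : ∀ c : Ω, ∃ z, z ∈ S.XC W c ∧ LinearMap.mulLeft S.K (S.th c) z = μ c :=
    fun c => Submodule.mem_map.1 (μ c).2
  choose z hz1 hz2 using hz
  have ey : S.prj W y = y := by
    refine S.prj_span ?_ hy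
    rintro _ ⟨m, hm, -, rfl⟩
    exact S.prj_mon (fun u hu => S.fcs_car hm.1 hu) _
  have ez : ∀ c, S.prj W (z c) = z c := by
    intro c
    refine S.prj_span ?_ (hz1 c)
    rintro _ ⟨m, hm, -, -, rfl⟩
    exact S.prj_mon (fun u hu => S.fcs_car hm hu) _
  have el : S.prj W (S.lam W) = S.lam W := by
    unfold lam
    rw [map_sum]
    refine Finset.sum_congr rfl fun u hu => ?_
    rw [prj_X, if_pos (Finset.mem_filter.1 hu).2]
  have et : ∀ c, S.prj W (S.th c) = ∑ u ∈ univ.filter (fun u => S.car u ⊆ W),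
      MvPolynomial.C (S.a u c) * MvPolynomial.X u := by
    intro c
    unfold th
    rw [map_sum, Finset.sum_filter]
    refine Finset.sum_congr rfl fun u _ => ?_
    rw [map_mul, prj_X]
    have h1 : S.prj W (MvPolynomial.C (S.a u c)) = MvPolynomial.C (S.a u c) :=
      (S.prj W).commutes (S.a u c)
    rw [h1]
    split_ifs
    · rfl
    · rw [mul_zero]
  refine ⟨y, z, S.prj W r, hy, fun c _ => hz1 c, ?_, ?_⟩
  · intro n hn
    rw [coeff_prj] at hn
    split_ifs at hn with h
    · have h1 : n.support ∉ S.fcs W := by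
        have h2 := (MvPolynomial.mem_restrictSupport_iff S.K).1 hr
        exact h2 (MvPolynomial.mem_support_iff.2 hn)
      intro h3
      exact h1 (Finset.mem_filter.2 ⟨h3, Finset.biUnion_subset.2 h⟩)
    · exact absurd rfl hn
  · conv_lhs => rw [← S.prj_self hs]
    rw [map_add, map_add, map_sum, LinearMap.mulLeft_apply, map_mul, el, ey]
    refine congrArg₂ (· + ·) (congrArg₂ (· + ·) rfl (Finset.sum_congr rfl fun c _ => ?_)) rfl
    rw [← hz2 c, LinearMap.mulLeft_apply, map_mul, et, ez]

end Pool.Agent.LocH.Sub
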