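import Pool.Agent.LocH.GC3
import Pool.Agent.LocH.GSt1
import Pool.Agent.LocH.GSt2

/-!
# Package GSt: the step (1,3) (P6.5 of `/team-store/LHV_proof.md`)

`D = A.card`, `W ⊆ A`, `m = W.card = D - 3 ≥ 4`, `Z = A \ W`, `Z.card = 3`, `Z ⊆ car v ⊆ A`,
`M ∈ S.st W ∅ (m - 1)`. To show: `mo (ch M + single v 1) ∈ Y3 A`. By `lem_C` for `W` and `clean`:
`mo (ch M) = S.lam W * y + ∑ c ∈ W, thW c * z c + r`, `thW c = ∑ u, car u ⊆ W, C (a u c) * X u`,
`y ∈ GM W (m - 2)`, `z c ∈ XC W c`, the monomials of `r` have a support that is not in `Gam`. Multiply by `X v`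
(`mo (ch M + single v 1) = X v * mo (ch M)`):
 - `S.lam W * (X v * y) = S.lam A * (X v * y) - ∑ u, (car u ⊆ A, not car u ⊆ W), X u * X v * y`;
   `X v * y ∈ S.J A A ⊓ S.H (D - 4)`: the monomials of `y` have carrier `W` (`Gd_cr`) and `Z ⊆ car v`.
 - `thW c * (X v * z c) = S.th c * (X v * z c) - ∑ u, (not car u ⊆ W), a u c • X u * X v * z c`.
 - `X v * r ∈ S.I A`.
 - the monomials `n + single v 1 + single u 1`, `not car u ⊆ W`, `n` a monomial of `y` (good for `W`) or of `z c`
   with `a u c ≠ 0` (so `c ∈ car u`): if the support is not in `S.fcs A` they are in `S.I A`, otherwise good of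
   degree `D - 3` (`new_good`), so in `GM A (D - 3)`.
-/

set_option autoImplicit false

open Finset

namespace Pool.Agent.LocH.Sub

variable {X Ω : Type} [Fintype X] [DecidableEq X] [Fintype Ω] [DecidableEq Ω] (S : Sub X Ω)

private lemma mo_add_single (n : X →₀ ℕ) (v : X) :
    S.mo (n + Finsupp.single v 1) = MvPolynomial.X v * S.mo n := by
  rw [mo, mo, MvPolynomial.X, MvPolynomial.monomial_mul, one_mul, add_comm]

/-- The new monomials are in the target. -/
private lemma new_mem {A W : Finset Ω} (hWA : W ⊆ A) (hW : W.card + 3 = A.card) (hW4 : 4 ≤ W.card)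
    {v u : X} (hv : A \ W ⊆ S.car v) (hu : ¬ S.car u ⊆ W) {n : X →₀ ℕ} (hn : n.support ∈ S.fcs W)
    (hd : n.degree + 2 = W.card)
    (h : S.Gd W n ∨ ∃ c ∈ S.car u, c ∈ W ∧ ∀ U ⊆ W, c ∈ U → S.ex W U n ≤ 0) :
    S.mo (n + Finsupp.single v 1 + Finsupp.single u 1) ∈ S.Y3 A := by
  by_cases hs : (n + Finsupp.single v 1 + Finsupp.single u 1).support ∈ S.fcs A
  · have h1 := S.new_good hWA hW hW4 hv hu hn hd h hs
    have h2 : (n + Finsupp.single v 1 + Finsupp.single u 1).degree = A.card - 3 := by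
      rw [map_add, map_add, Finsupp.degree_single, Finsupp.degree_single]
      omega
    refine Submodule.mem_sup_left (Submodule.mem_sup_left (Submodule.mem_sup_left ?_))
    exact Submodule.subset_span ⟨_, h1, h2, rfl⟩
  · exact Submodule.mem_sup_left (Submodule.mem_sup_left (Submodule.mem_sup_right
      (S.mo_mem_I.2 hs)))

private lemma part_y {A W : Finset Ω} (hWA : W ⊆ A) (hW : W.card + 3 = A.card) (hW4 : 4 ≤ W.card)
    {v : X} (hv : A \ W ⊆ S.car v) {y : S.T} (hy : y ∈ S.GM W (W.card - 2)) :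
    MvPolynomial.X v * (S.lam W * y) ∈ S.Y3 A := by
  refine Submodule.span_induction ?_ ?_ ?_ ?_ hy
  · rintro _ ⟨n, hn, hd, rfl⟩
    have h1 : MvPolynomial.X v * (S.lam W * S.mo n) =
        S.lam A * S.mo (n + Finsupp.single v 1) -
          ∑ u ∈ (univ.filter (fun u => S.car u ⊆ A)).filter (fun u => ¬ S.car u ⊆ W),
            S.mo (n + Finsupp.single v 1 + Finsupp.single u 1) := by
      have e1 : MvPolynomial.X v * (S.lam W * S.mo n) =
          S.lam W * S.mo (n + Finsupp.single v 1) := by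
        rw [S.mo_add_single]
        ring
      rw [e1, S.lam_mul_mo, S.lam_mul_mo, eq_sub_iff_add_eq,
        ← Finset.sum_filter_add_sum_filter_not (univ.filter (fun u => S.car u ⊆ A))
          (fun u => S.car u ⊆ W)]
      congr 1
      refine Finset.sum_congr ?_ fun _ _ => rfl
      ext u
      simp only [Finset.mem_filter, Finset.mem_univ, true_and]
      exact ⟨fun h => ⟨h.trans hWA, h⟩, fun h => h.2⟩
    rw [h1]
    refine Submodule.sub_mem _ ?_ (Submodule.sum_mem _ fun u hu => ?_)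
    · refine Submodule.mem_sup_right ?_
      refine ⟨S.mo (n + Finsupp.single v 1), ⟨?_, ?_⟩, rfl⟩
      · refine S.mo_mem_J.2 fun _ => ?_
        intro c hc
        by_cases hcW : c ∈ W
        · rw [← S.Gd_cr hn] at hcW
          obtain ⟨x, hx, hxc⟩ := Finset.mem_biUnion.1 hcW
          refine Finset.mem_biUnion.2 ⟨x, ?_, hxc⟩
          rw [Finsupp.mem_support_iff] at hx ⊢
          rw [Finsupp.add_apply]
          omega
        · refine Finset.mem_biUnion.2 ⟨v, ?_, hv (Finset.mem_sdiff.2 ⟨hc, hcW⟩)⟩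
          rw [Finsupp.mem_support_iff, Finsupp.add_apply, Finsupp.single_eq_same]
          omega
      · refine S.mo_mem_H ?_
        rw [map_add, Finsupp.degree_single, hd]
        omega
    · exact S.new_mem hWA hW hW4 hv (Finset.mem_filter.1 hu).2 hn.1 (by omega) (Or.inl hn)
  · rw [mul_zero, mul_zero]
    exact zero_mem _
  · intro a b _ _ ha hb
    rw [mul_add, mul_add]
    exact add_mem ha hb
  · intro k a _ ha
    rw [mul_smul_comm, mul_smul_comm]
    exact Submodule.smul_mem _ _ ha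

private lemma part_z {A W : Finset Ω} (hWA : W ⊆ A) (hW : W.card + 3 = A.card) (hW4 : 4 ≤ W.card)
    {v : X} (hv : A \ W ⊆ S.car v) {c : Ω} (hc : c ∈ W) {z : S.T} (hz : z ∈ S.XC W c) :
    MvPolynomial.X v * ((∑ u ∈ univ.filter (fun u => S.car u ⊆ W),
      MvPolynomial.C (S.a u c) * MvPolynomial.X u) * z) ∈ S.Y3 A := by
  refine Submodule.span_induction ?_ ?_ ?_ ?_ hz
  · rintro _ ⟨n, hn, hd, hex, rfl⟩
    have h1 : MvPolynomial.X v * ((∑ u ∈ univ.filter (fun u => S.car u ⊆ W),
        MvPolynomial.C (S.a u c) * MvPolynomial.X u) * S.mo n) =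
        S.th c * S.mo (n + Finsupp.single v 1) -
          ∑ u ∈ univ.filter (fun u => ¬ S.car u ⊆ W),
            S.a u c • S.mo (n + Finsupp.single v 1 + Finsupp.single u 1) := by
      have e1 : MvPolynomial.X v * ((∑ u ∈ univ.filter (fun u => S.car u ⊆ W),
          MvPolynomial.C (S.a u c) * MvPolynomial.X u) * S.mo n) =
          ∑ u ∈ univ.filter (fun u => S.car u ⊆ W),
            S.a u c • S.mo (n + Finsupp.single v 1 + Finsupp.single u 1) := by
        rw [Finset.sum_mul, Finset.mul_sum]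
        refine Finset.sum_congr rfl fun u _ => ?_
        rw [S.mo_add_single, S.mo_add_single, MvPolynomial.smul_eq_C_mul]
        ring
      rw [e1, S.th_mul_mo, eq_sub_iff_add_eq, Finset.sum_filter_add_sum_filter_not]
    rw [h1]
    refine Submodule.sub_mem _ ?_ (Submodule.sum_mem _ fun u hu => ?_)
    · exact Submodule.mem_sup_left (Submodule.mem_sup_right (S.th_mul_mem_thm (hWA hc) _))
    · by_cases hcu : c ∈ S.car u
      · exact Submodule.smul_mem _ _ (S.new_mem hWA hW hW4 hv (Finset.mem_filter.1 hu).2 hn hd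
          (Or.inr ⟨c, hcu, hc, hex⟩))
      · rw [S.a_eq_zero hcu, zero_smul]
        exact zero_mem _
  · rw [mul_zero, mul_zero]
    exact zero_mem _
  · intro a b _ _ ha hb
    rw [mul_add, mul_add]
    exact add_mem ha hb
  · intro k a _ ha
    rw [mul_smul_comm, mul_smul_comm]
    exact Submodule.smul_mem _ _ ha

/-- The step (1,3). -/
theorem step_13 (hT : S.Top S.K) (hQ : S.Qp) (hP : S.TrP) {A W : Finset Ω} (hWA : W ⊆ A)
    (hW : W.card + 3 = A.card) (hW4 : 4 ≤ W.card) {v : X} (hv : A \ W ⊆ S.car v)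
    (hvA : S.car v ⊆ A) {M : Finset X} (hM : M ∈ S.st W ∅ (W.card - 1)) :
    S.mo (ch M + Finsupp.single v 1) ∈ S.Y3 A := by
  have h0 := S.lem_C hT hQ hP hW4 hM
  have hMcr : S.cr M = W := (Finset.mem_filter.1 hM).2.2.1
  obtain ⟨y, z, r, hy, hz, hr, he⟩ := S.clean h0 (by
    intro n hn u hu
    rw [mo, MvPolynomial.coeff_monomial] at hn
    have hn' : ch M = n := by
      by_contra h
      exact hn (if_neg h)
    rw [← hn', ch_support] at hu
    rw [← hMcr]
    exact Finset.subset_biUnion_of_mem S.car hu)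
  rw [S.mo_add_single, he, mul_add, mul_add, Finset.mul_sum]
  refine add_mem (add_mem (S.part_y hWA hW hW4 hv hy) (Submodule.sum_mem _ fun c hc =>
    S.part_z hWA hW hW4 hv hc (hz c hc))) ?_
  refine Submodule.mem_sup_left (Submodule.mem_sup_left (Submodule.mem_sup_right
    (S.mul_mem_I _ ?_)))
  rw [I, MvPolynomial.mem_restrictSupport_iff]
  intro n hn
  have h1 := hr n (MvPolynomial.mem_support_iff.1 hn)
  exact fun h => h1 (Finset.mem_filter.1 h).1

end Pool.Agent.LocH.Sub
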