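import Pool.Agent.LocH.QD

/-! LH-F7: the derivatives of Laurent monomials `lm σ k = ∏ v ∈ σ, q σ v ^ k v` divided by the determinant. -/

set_option autoImplicit false

open Finset

namespace Pool.Agent.LocH.Sub

variable {X Ω : Type} [Fintype X] [DecidableEq X] [Fintype Ω] [DecidableEq Ω] (S : Sub X Ω)
  {W : Finset Ω} {σ : Finset X}

private theorem pr_mul {Q x y : S.K} {i : X} {c : Ω} (hx : S.pa i c x = Q * S.pt c x)
    (hy : S.pa i c y = Q * S.pt c y) : S.pa i c (x * y) = Q * S.pt c (x * y) := by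
  rw [pa_mul, pt_mul, hx, hy]
  ring

private theorem pr_one {Q : S.K} {i : X} {c : Ω} : S.pa i c 1 = Q * S.pt c 1 := by
  rw [pa_one, pt_one, mul_zero]

private theorem pr_inv {Q x : S.K} {i : X} {c : Ω} (hx : S.pa i c x = Q * S.pt c x) :
    S.pa i c x⁻¹ = Q * S.pt c x⁻¹ := by
  rw [pa_inv, pt_inv, hx]
  ring

private theorem pr_pow {Q x : S.K} {i : X} {c : Ω} (hx : S.pa i c x = Q * S.pt c x) (n : ℕ) :
    S.pa i c (x ^ n) = Q * S.pt c (x ^ n) := by
  induction n with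
  | zero =>
    rw [pow_zero]
    exact S.pr_one
  | succ n ih =>
    rw [pow_succ]
    exact S.pr_mul ih hx

private theorem pr_zpow {Q x : S.K} {i : X} {c : Ω} (hx : S.pa i c x = Q * S.pt c x) (n : ℤ) :
    S.pa i c (x ^ n) = Q * S.pt c (x ^ n) := by
  cases n with
  | ofNat n =>
    rw [Int.ofNat_eq_natCast, zpow_natCast]
    exact S.pr_pow hx n
  | negSucc n =>
    rw [zpow_negSucc]
    exact S.pr_inv (S.pr_pow hx _)

private theorem pr_lm {Q : S.K} {i : X} {c : Ω}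
    (h : ∀ v ∈ σ, S.pa i c (S.q σ v) = Q * S.pt c (S.q σ v)) (k : X → ℤ) :
    S.pa i c (S.lm σ k) = Q * S.pt c (S.lm σ k) := by
  unfold lm
  exact Finset.prod_induction _ (fun x => S.pa i c x = Q * S.pt c x)
    (fun x y hx hy => S.pr_mul hx hy) S.pr_one fun v hv => S.pr_zpow (h v hv) _

private theorem pt_PT (c : Ω) (l : List Ω) (x : S.K) : S.pt c (S.PT l x) = S.PT l (S.pt c x) := by
  induction l with
  | nil => rfl
  | cons c' l ih =>
    change S.pt c (S.pt c' (S.PT l x)) = S.pt c' (S.PT l (S.pt c x))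
    rw [pt_comm, ih]

private theorem pt_div (c : Ω) (x : S.K) : S.pt c (x / S.dA σ) = S.pt c x / S.dA σ := by
  rw [div_eq_mul_inv, pt_mul, pt_inv, pt_dA, zero_div, mul_zero, zero_add, div_eq_mul_inv,
    mul_comm]

private theorem PT_div (l : List Ω) (x : S.K) : S.PT l (x / S.dA σ) = S.PT l x / S.dA σ := by
  induction l with
  | nil => rfl
  | cons c l ih =>
    change S.pt c (S.PT l (x / S.dA σ)) = S.pt c (S.PT l x) / S.dA σ
    rw [ih, pt_div]

private theorem q_lm (hσ : σ ∈ S.fac W) {v : X} (hv : v ∈ σ) (k : X → ℤ) :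
    S.q σ v * S.lm σ k = S.lm σ (Function.update k v (k v + 1)) := by
  unfold lm
  rw [← Finset.mul_prod_erase _ _ hv, ← Finset.mul_prod_erase _ _ hv, Function.update_self,
    zpow_add_one₀ (S.q_ne hσ hv), ← mul_assoc, mul_comm (S.q σ v)]
  congr 1
  refine Finset.prod_congr rfl fun u hu => ?_
  rw [Function.update_of_ne (Finset.ne_of_mem_erase hu)]

private theorem qs_lm (hσ : σ ∈ S.fac W) (i : Ω → X) (l : List Ω) (hi : ∀ c ∈ l, i c ∈ σ)
    (k : X → ℤ) : ∃ k', (l.map fun c => S.q σ (i c)).prod * S.lm σ k = S.lm σ k' := by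
  induction l with
  | nil => exact ⟨k, by rw [List.map_nil, List.prod_nil, one_mul]⟩
  | cons c l ih =>
    obtain ⟨k', h⟩ := ih fun c' hc' => hi c' (List.mem_cons_of_mem _ hc')
    refine ⟨Function.update k' (i c) (k' (i c) + 1), ?_⟩
    rw [List.map_cons, List.prod_cons, mul_assoc, h, S.q_lm hσ (hi c List.mem_cons_self)]

/-- PROOF. The set of the `x` with `pa i c x = q σ i * pt c x` contains the `q σ v` (`pa_q`) and is closed under products and inverses (`pa_mul`, `pt_mul`,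
`pa_inv`, `pt_inv`), so it contains all Laurent monomials. -/
theorem pa_lm (hσ : σ ∈ S.fac W) {i : X} (hi : i ∈ σ) {c : Ω} (hc : c ∈ S.car i) (k : X → ℤ) :
    S.pa i c (S.lm σ k) = S.q σ i * S.pt c (S.lm σ k) :=
  S.pr_lm (fun v _ => S.pa_q hσ hi hc v) k

/-- PROOF. `pa i c (g / d) = pa i c g / d + g * pa i c d / d ^ 2 = (q i * pt c g + g * pt c (q i)) / d = pt c (q i * g) / d` (`pa_lm`, `pa_dA`, `pa_inv`). -/
theorem pa_lm_div (hσ : σ ∈ S.fac W) {i : X} (hi : i ∈ σ) {c : Ω} (hc : c ∈ S.car i)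
    (k : X → ℤ) : S.pa i c (S.lm σ k / S.dA σ) = S.pt c (S.q σ i * S.lm σ k) / S.dA σ := by
  have hd := S.dA_ne hσ
  rw [div_eq_mul_inv, pa_mul, pa_inv, S.pa_dA hσ hi hc, S.pa_lm hσ hi hc, pt_mul]
  field_simp
  ring

/-- PROOF. Induction on `l`. For `c :: l` put `Q = (l.map fun c => q (i c)).prod`: `pa (i c) c` of `PT l (Q * lm k) / dA` is `PT l` of `pa (i c) c (Q * lm k / dA)`
(`PT_pa`; `1 / dA` is killed by all `pt c'`, so it can be moved into and out of `PT l`: `pt_dA`, `pt_mul`, `pt_inv`, induction on `l`), `Q * lm σ k` is again a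
Laurent monomial (all `i c ∈ σ`, `q_ne`), so by `pa_lm_div` this is `PT l (pt c (q (i c) * (Q * lm k)) / dA)`, and `pt c` commutes with `PT l` (`pt_comm`). -/
theorem DI_lm (hσ : σ ∈ S.fac W) (i : Ω → X) (l : List Ω)
    (hi : ∀ c ∈ l, i c ∈ σ ∧ c ∈ S.car (i c)) (k : X → ℤ) :
    S.DI i l (S.lm σ k / S.dA σ) =
      S.PT l ((l.map fun c => S.q σ (i c)).prod * S.lm σ k) / S.dA σ := by
  induction l with
  | nil =>
    rw [List.map_nil, List.prod_nil, one_mul]
    rfl
  | cons c l ih =>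
    have h1 := hi c List.mem_cons_self
    have h2 : ∀ c' ∈ l, i c' ∈ σ ∧ c' ∈ S.car (i c') :=
      fun c' hc' => hi c' (List.mem_cons_of_mem _ hc')
    obtain ⟨k', hk'⟩ := S.qs_lm hσ i l (fun c' hc' => (h2 c' hc').1) k
    change S.pa (i c) c (S.DI i l (S.lm σ k / S.dA σ)) = S.pt c (S.PT l _) / S.dA σ
    rw [ih h2, ← PT_div, PT_pa, hk', S.pa_lm_div hσ h1.1 h1.2, PT_div, pt_PT, List.map_cons,
      List.prod_cons, mul_assoc, hk']

/-- PROOF. Let `c ∈ l` with `i c ∉ σ`. `pa (i c) c (lm σ k / dA σ) = 0` (`pa_q_out`, `pa_dA_out`), and `DI i l` has the factor `pa (i c) c`, which commutes with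
the others (induction on `l`, `DI_pa`, `DI_zero`). -/
theorem DI_lm_out (hσ : σ ∈ S.fac W) (i : Ω → X) (l : List Ω) {c : Ω} (hc : c ∈ l)
    (hi : i c ∉ σ) (k : X → ℤ) : S.DI i l (S.lm σ k / S.dA σ) = 0 := by
  have h0 : S.pa (i c) c (S.lm σ k / S.dA σ) = 0 := by
    have h1 : S.pa (i c) c (S.lm σ k) = 0 := by
      rw [S.pr_lm (Q := 0) (fun v _ => by rw [S.pa_q_out hσ hi, zero_mul]) k, zero_mul]
    rw [div_eq_mul_inv, pa_mul, pa_inv, S.pa_dA_out hi, h1, zero_div, mul_zero, mul_zero,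
      add_zero]
  induction l with
  | nil => exact absurd hc List.not_mem_nil
  | cons c' l ih =>
    change S.pa (i c') c' (S.DI i l (S.lm σ k / S.dA σ)) = 0
    rcases List.mem_cons.1 hc with h | h
    · rw [← h, DI_pa, h0, DI_zero]
    · rw [ih h, pa_zero]

end Pool.Agent.LocH.Sub
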