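import Mathlib

/-! LH-R7: linear algebra (Mathlib only): a nonzero term of a determinant. -/

set_option autoImplicit false

open Finset

namespace Pool.Agent.LocH

/-- PROOF. Number `κ` by `Fin N`. The matrices `A = (u j k)`, `B = (u' j k)` have spanning rows, so their determinants are not `0` (a spanning family of `N` vectors of
`κ → K` is a basis; `Matrix.linearIndependent_rows_iff_isUnit`). The matrix `M = A * diagonal w * Bᵀ` has `det M = det A * ∏ w * det B ≠ 0`. By
`Matrix.det_apply` some term of the sum is not `0`: there is a permutation with all factors `M j (π j)` (or `M (π j) j`: take the inverse) different from `0`. -/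
theorem exists_perm {K κ : Type} [Field K] [Fintype κ] [DecidableEq κ] {N : ℕ}
    (hN : Fintype.card κ = N) (u u' : Fin N → κ → K)
    (hu : Submodule.span K (Set.range u) = ⊤) (hu' : Submodule.span K (Set.range u') = ⊤)
    (w : κ → K) (hw : ∀ k, w k ≠ 0) :
    ∃ π : Equiv.Perm (Fin N), ∀ j, ∑ k, w k * (u j k * u' (π j) k) ≠ 0 := by
  classical
  have hcard : Fintype.card (Fin N) = Module.finrank K (κ → K) := by
    rw [Module.finrank_fintype_fun_eq_card, hN, Fintype.card_fin]
  have hli : LinearIndependent K u := linearIndependent_of_top_le_span_of_card_eq_finrank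
    hu.ge hcard
  let M : Matrix (Fin N) (Fin N) K := Matrix.of fun j j' => ∑ k, w k * (u j k * u' j' k)
  have hM : ∀ j j', M j j' = ∑ k, w k * (u j k * u' j' k) := fun _ _ => rfl
  have hdet : M.det ≠ 0 := by
    intro h0
    obtain ⟨v, hv, hvM⟩ := Matrix.exists_vecMul_eq_zero_iff.2 h0
    refine hv ?_
    -- the vector which is orthogonal to all `u' j`
    let x : κ → K := fun k => w k * ∑ j, v j * u j k
    let φ : (κ → K) →ₗ[K] K := ∑ k, x k • LinearMap.proj k
    have hφ : ∀ y, φ y = ∑ k, x k * y k := by
      intro y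
      change (∑ k, x k • LinearMap.proj k : (κ → K) →ₗ[K] K) y = _
      rw [LinearMap.sum_apply]
      rfl
    have h1 : ∀ j', φ (u' j') = 0 := by
      intro j'
      have h2 := congrFun hvM j'
      rw [Matrix.vecMul, dotProduct, Pi.zero_apply] at h2
      rw [hφ, ← h2]
      change ∑ k, (w k * ∑ j, v j * u j k) * u' j' k = _
      simp only [hM, Finset.mul_sum, Finset.sum_mul]
      rw [Finset.sum_comm]
      exact Finset.sum_congr rfl fun j _ => Finset.sum_congr rfl fun k _ => by ring
    have h2 : φ = 0 := by
      have h3 : Submodule.span K (Set.range u') ≤ LinearMap.ker φ := by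
        rw [Submodule.span_le]
        rintro _ ⟨j', rfl⟩
        exact h1 j'
      rw [hu'] at h3
      exact LinearMap.ker_eq_top.1 (top_le_iff.1 h3)
    have h3 : ∀ k, x k = 0 := by
      intro k
      have h4 := hφ (Pi.single k 1)
      rw [h2, LinearMap.zero_apply, Finset.sum_eq_single k] at h4
      · rw [Pi.single_eq_same, mul_one] at h4
        exact h4.symm
      · intro b _ hb
        rw [Pi.single_eq_of_ne hb, mul_zero]
      · intro h
        exact absurd (Finset.mem_univ k) h
    have h4 : ∑ j, v j • u j = 0 := by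
      funext k
      rw [Finset.sum_apply]
      exact (mul_eq_zero.1 (h3 k)).resolve_left (hw k)
    funext j
    exact Fintype.linearIndependent_iff.1 hli v h4 j
  rw [Matrix.det_apply] at hdet
  obtain ⟨σ, _, hσ⟩ := Finset.exists_ne_zero_of_sum_ne_zero hdet
  have h5 : ∏ i, M (σ i) i ≠ 0 := by
    intro h
    rw [h, smul_zero] at hσ
    exact hσ rfl
  rw [Finset.prod_ne_zero_iff] at h5
  refine ⟨σ⁻¹, fun j => ?_⟩
  have h6 := h5 (σ⁻¹ j) (Finset.mem_univ _)
  have h7 : σ (σ⁻¹ j) = j := σ.apply_symm_apply j
  rw [h7] at h6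
  exact h6

/-- If `d j + e (π j) ≥ D` for all `j` and the sum of all `d j` and `e j` is `D * N` then all are equalities. -/
theorem all_eq {N D : ℕ} (d e : Fin N → ℕ) (π : Equiv.Perm (Fin N))
    (h : ∀ j, D ≤ d j + e (π j)) (hs : ∑ j, d j + ∑ j, e j = D * N) (j : Fin N) :
    d j + e (π j) = D := by
  have h1 : ∑ _j : Fin N, D = ∑ j, (d j + e (π j)) := by
    rw [Finset.sum_add_distrib, Equiv.sum_comp π e, hs, Finset.sum_const, Finset.card_univ,
      Fintype.card_fin, smul_eq_mul, mul_comm]
  exact ((Finset.sum_eq_sum_iff_of_le fun j _ => h j).1 h1 j (Finset.mem_univ j)).symm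

end Pool.Agent.LocH
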