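import Pool.Agent.LocH.Grd

/-! LH-R6: spanning families of homogeneous elements with given degrees. -/

set_option autoImplicit false

open Finset

namespace Pool.Agent.LocH.Sub

variable {X Ω : Type} [Fintype X] [DecidableEq X] [Fintype Ω] [DecidableEq Ω] (S : Sub X Ω)

private theorem sp_lift {K M : Type*} [Field K] [AddCommGroup M] [Module K M]
    {A B : Submodule K M} {r : ℕ} (b : Module.Basis (Fin r) K (A.map B.mkQ)) {z : Fin r → M}
    (hz : ∀ j, B.mkQ (z j) = (b j : M ⧸ B)) : A ≤ Submodule.span K (Set.range z) ⊔ B := by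
  intro f hf
  have h1 := b.sum_repr ⟨B.mkQ f, Submodule.mem_map_of_mem hf⟩
  have h2 := congrArg (fun x : A.map B.mkQ => (x : M ⧸ B)) h1
  simp only [Submodule.coe_sum, Submodule.coe_smul] at h2
  have h3 : f - ∑ j, (b.repr ⟨B.mkQ f, Submodule.mem_map_of_mem hf⟩) j • z j ∈ B := by
    rw [← Submodule.Quotient.mk_eq_zero, ← Submodule.mkQ_apply, map_sub, map_sum]
    simp only [map_smul, hz]
    rw [h2, sub_self]
  have h4 : ∑ j, (b.repr ⟨B.mkQ f, Submodule.mem_map_of_mem hf⟩) j • z j ∈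
      Submodule.span K (Set.range z) :=
    Submodule.sum_mem _ fun j _ => Submodule.smul_mem _ _ (Submodule.subset_span ⟨j, rfl⟩)
  rw [← add_sub_cancel (∑ j, (b.repr ⟨B.mkQ f, Submodule.mem_map_of_mem hf⟩) j • z j) f]
  exact Submodule.add_mem_sup h4 h3

private theorem sp_one {K M : Type*} [Field K] [AddCommGroup M] [Module K M]
    {A B : Submodule K M} {r : ℕ} (hA : A.FG) (hr : Module.finrank K (A.map B.mkQ) = r) :
    ∃ z : Fin r → M, (∀ j, z j ∈ A) ∧ A ≤ Submodule.span K (Set.range z) ⊔ B := by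
  have : Module.Finite K (A.map B.mkQ) := Module.Finite.iff_fg.2 (hA.map _)
  let b := Module.finBasisOfFinrankEq K (A.map B.mkQ) hr
  have h1 : ∀ j, ∃ x ∈ A, B.mkQ x = (b j : M ⧸ B) := fun j => (b j).2
  choose z hz1 hz2 using h1
  exact ⟨z, hz1, sp_lift b hz2⟩

private theorem sp_one' {K M : Type*} [Field K] [AddCommGroup M] [Module K M]
    {A B : Submodule K M} {r : ℕ} (hA : A.FG) (hr : Module.finrank K (A.map B.mkQ) = r) {g : M}
    (hg : g ∈ A) (hB : g ∉ B) :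
    ∃ z : Fin r → M, (∀ j, z j ∈ A) ∧ (∃ j, z j = g) ∧
      A ≤ Submodule.span K (Set.range z) ⊔ B := by
  classical
  have : Module.Finite K (A.map B.mkQ) := Module.Finite.iff_fg.2 (hA.map _)
  let v : A.map B.mkQ := ⟨B.mkQ g, Submodule.mem_map_of_mem hg⟩
  have hv : v ≠ 0 := by
    intro h
    have h1 := congrArg (fun x : A.map B.mkQ => (x : M ⧸ B)) h
    change B.mkQ g = 0 at h1
    rw [Submodule.mkQ_apply, Submodule.Quotient.mk_eq_zero] at h1
    exact hB h1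
  have hs : LinearIndepOn K id ({v} : Set (A.map B.mkQ)) := LinearIndepOn.singleton hv
  let b0 := Module.Basis.extend hs
  let _ : Fintype (hs.extend (Set.subset_univ _)) :=
    @Fintype.ofFinite _ (Module.Finite.finite_basis b0)
  have hc : Fintype.card (hs.extend (Set.subset_univ ({v} : Set (A.map B.mkQ)))) = r := by
    rw [← Module.finrank_eq_card_basis b0, hr]
  let e := Fintype.equivFinOfCardEq hc
  let b := b0.reindex e
  have hvm : v ∈ hs.extend (Set.subset_univ ({v} : Set (A.map B.mkQ))) :=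
    hs.subset_extend _ rfl
  have hb : b (e ⟨v, hvm⟩) = v := by
    change b0.reindex e (e ⟨v, hvm⟩) = v
    rw [Module.Basis.reindex_apply, Equiv.symm_apply_apply]
    exact Module.Basis.extend_apply_self hs ⟨v, hvm⟩
  have h1 : ∀ j, ∃ x ∈ A, B.mkQ x = (b j : M ⧸ B) ∧ (j = e ⟨v, hvm⟩ → x = g) := by
    intro j
    by_cases hj : j = e ⟨v, hvm⟩
    · refine ⟨g, hg, ?_, fun _ => rfl⟩
      rw [hj, hb]
    · obtain ⟨x, hx, hx2⟩ := (b j).2
      exact ⟨x, hx, hx2, fun h => absurd h hj⟩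
  choose z hz1 hz2 hz3 using h1
  exact ⟨z, hz1, ⟨_, hz3 _ rfl⟩, sp_lift b hz2⟩

private theorem sp_fg (A : Submodule S.K S.T) (n : ℕ) : (A ⊓ S.H n).FG := by
  have : Module.Finite S.K (S.H n) :=
    Module.Finite.iff_fg.2 (MvPolynomial.homogeneousSubmodule_fg X S.K n)
  have : Module.Finite S.K (A ⊓ S.H n : Submodule S.K S.T) :=
    Submodule.finiteDimensional_of_le inf_le_right
  exact Module.Finite.iff_fg.1 this

/-- PROOF. `S.H n` is finite dimensional, so is the space `V = (A ⊓ S.H n).map B.mkQ` of dimension `r`. Take a basis of `V` (in `exists_one'` one whose first member is the class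
of `g`, which is not `0`: extend `{g}` to a basis, `Module.Basis.extend` / `exists_linearIndependent_extension`, and number it) and lift its members to `A ⊓ S.H n`. If
`f ∈ A ⊓ S.H n` its class is a linear combination of the classes of the `z j`, so `f` differs from a linear combination of the `z j` by an element of `B`. -/
theorem exists_one {A B : Submodule S.K S.T} {n r : ℕ} (hr : S.dm n A B = r) :
    ∃ z : Fin r → S.T, (∀ j, z j ∈ A ∧ z j ∈ S.H n) ∧
      A ⊓ S.H n ≤ Submodule.span S.K (Set.range z) ⊔ B := by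
  obtain ⟨z, hz, h⟩ := sp_one (S.sp_fg A n) hr
  exact ⟨z, fun j => ⟨(hz j).1, (hz j).2⟩, h⟩

theorem exists_one' {A B : Submodule S.K S.T} {n r : ℕ} (hr : S.dm n A B = r) {g : S.T}
    (hg : g ∈ A) (hn : g ∈ S.H n) (hB : g ∉ B) :
    ∃ z : Fin r → S.T, (∀ j, z j ∈ A ∧ z j ∈ S.H n) ∧ (∃ j, z j = g) ∧
      A ⊓ S.H n ≤ Submodule.span S.K (Set.range z) ⊔ B := by
  obtain ⟨z, hz, hg', h⟩ := sp_one' (S.sp_fg A n) hr (g := g) ⟨hg, hn⟩ hB
  exact ⟨z, fun j => ⟨(hz j).1, (hz j).2⟩, hg', h⟩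

/-- The part of degree `n > D` is in `B`. -/
private theorem sp_zero {A B : Submodule S.K S.T} {n : ℕ} (h : S.dm n A B = 0) :
    A ⊓ S.H n ≤ B := by
  obtain ⟨z, -, hz⟩ := S.exists_one h
  refine hz.trans ?_
  rw [Set.range_eq_empty, Submodule.span_empty, bot_sup_eq]

private theorem sp_asm {A B : Submodule S.K S.T} {D N : ℕ} {r : ℕ → ℕ}
    (hr : ∀ n, S.dm n A B = r n) (h0 : ∀ n, D < n → r n = 0)
    (hN : ∑ n ∈ range (D + 1), r n = N) (Z : ∀ n, Fin (r n) → S.T)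
    (hZ1 : ∀ n j, Z n j ∈ A ∧ Z n j ∈ S.H n)
    (hZ2 : ∀ n, A ⊓ S.H n ≤ Submodule.span S.K (Set.range (Z n)) ⊔ B) :
    ∃ (z : Fin N → S.T) (d : Fin N → ℕ), (∀ j, z j ∈ A ∧ z j ∈ S.H (d j)) ∧
      ∑ j, d j = ∑ n ∈ range (D + 1), n * r n ∧
      (∀ n ≤ D, ∀ j : Fin (r n), ∃ j', z j' = Z n j ∧ d j' = n) ∧
      ∀ n, A ⊓ S.H n ≤ Submodule.span S.K (z '' {j | d j = n}) ⊔ B := by
  have hc : Fintype.card (Σ n : Fin (D + 1), Fin (r n)) = N := by
    rw [Fintype.card_sigma, ← hN, Finset.sum_range]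
    exact Finset.sum_congr rfl fun n _ => Fintype.card_fin _
  let e := Fintype.equivFinOfCardEq hc
  have h3 : ∀ n ≤ D, ∀ j : Fin (r n), ∃ j' : Fin N,
      Z ((e.symm j').1 : ℕ) (e.symm j').2 = Z n j ∧ (((e.symm j').1 : Fin (D + 1)) : ℕ) = n := by
    intro n hn j
    refine ⟨e ⟨⟨n, by omega⟩, j⟩, ?_, ?_⟩
    · rw [Equiv.symm_apply_apply]
    · rw [Equiv.symm_apply_apply]
  refine ⟨fun j => Z ((e.symm j).1 : ℕ) (e.symm j).2, fun j => ((e.symm j).1 : ℕ),
    fun j => hZ1 _ _, ?_, h3, fun n => ?_⟩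
  · rw [Equiv.sum_comp e.symm (fun x : (Σ n : Fin (D + 1), Fin (r n)) => ((x.1 : ℕ))),
      Fintype.sum_sigma, Finset.sum_range]
    refine Finset.sum_congr rfl fun n _ => ?_
    change ∑ _y : Fin (r n), (n : ℕ) = _
    rw [Finset.sum_const, Finset.card_univ, Fintype.card_fin, smul_eq_mul, mul_comm]
  · by_cases hn : n ≤ D
    · refine (hZ2 n).trans (sup_le_sup_right (Submodule.span_mono ?_) B)
      rintro _ ⟨j, rfl⟩
      obtain ⟨j', h4, h5⟩ := h3 n hn j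
      exact ⟨j', h5, h4⟩
    · exact (S.sp_zero (by rw [hr, h0 n (by omega)])).trans le_sup_right

/-- PROOF. `exists_one` for all `n ≤ D`; the index set `Σ n : Fin (D + 1), Fin (r n)` has `N` elements (`Fintype.equivFin`), the degree of the members of the part `n` is
`n`. For `n > D` the dimension is `0`, so `A ⊓ S.H n ≤ B`. -/
theorem exists_span {A B : Submodule S.K S.T} {D N : ℕ} {r : ℕ → ℕ}
    (hr : ∀ n, S.dm n A B = r n) (h0 : ∀ n, D < n → r n = 0)
    (hN : ∑ n ∈ range (D + 1), r n = N) :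
    ∃ (z : Fin N → S.T) (d : Fin N → ℕ), (∀ j, z j ∈ A ∧ z j ∈ S.H (d j)) ∧
      ∑ j, d j = ∑ n ∈ range (D + 1), n * r n ∧
      ∀ n, A ⊓ S.H n ≤ Submodule.span S.K (z '' {j | d j = n}) ⊔ B := by
  choose Z hZ1 hZ2 using fun n => S.exists_one (hr n)
  obtain ⟨z, d, h1, h2, -, h3⟩ := S.sp_asm hr h0 hN Z hZ1 hZ2
  exact ⟨z, d, h1, h2, h3⟩

/-- The same with a given member (then `i ≤ D`, because `A ⊓ S.H i ≤ B` for `i > D`). -/
theorem exists_span' {A B : Submodule S.K S.T} {D N : ℕ} {r : ℕ → ℕ}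
    (hr : ∀ n, S.dm n A B = r n) (h0 : ∀ n, D < n → r n = 0)
    (hN : ∑ n ∈ range (D + 1), r n = N) {g : S.T} {i : ℕ} (hg : g ∈ A) (hi : g ∈ S.H i)
    (hB : g ∉ B) :
    ∃ (z : Fin N → S.T) (d : Fin N → ℕ), (∀ j, z j ∈ A ∧ z j ∈ S.H (d j)) ∧
      ∑ j, d j = ∑ n ∈ range (D + 1), n * r n ∧ (∃ j, z j = g ∧ d j = i) ∧
      ∀ n, A ⊓ S.H n ≤ Submodule.span S.K (z '' {j | d j = n}) ⊔ B := by
  have hiD : i ≤ D := by
    by_contra hc
    exact hB (S.sp_zero (by rw [hr, h0 i (by omega)]) ⟨hg, hi⟩)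
  have h : ∀ n, ∃ Z : Fin (r n) → S.T, (∀ j, Z j ∈ A ∧ Z j ∈ S.H n) ∧ (n = i → ∃ j, Z j = g) ∧
      A ⊓ S.H n ≤ Submodule.span S.K (Set.range Z) ⊔ B := by
    intro n
    by_cases hn : n = i
    · subst hn
      obtain ⟨Z, h1, h2, h3⟩ := S.exists_one' (hr n) hg hi hB
      exact ⟨Z, h1, fun _ => h2, h3⟩
    · obtain ⟨Z, h1, h3⟩ := S.exists_one (hr n)
      exact ⟨Z, h1, fun h => absurd h hn, h3⟩
  choose Z hZ1 hZ3 hZ2 using h
  obtain ⟨z, d, h1, h2, h4, h3⟩ := S.sp_asm hr h0 hN Z hZ1 hZ2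
  obtain ⟨j, hj⟩ := hZ3 i rfl
  obtain ⟨j', h5, h6⟩ := h4 i hiD j
  exact ⟨z, d, h1, h2, ⟨j', h5.trans hj, h6⟩, h3⟩

end Pool.Agent.LocH.Sub
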