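import Pool.Agent.LocH.Res
import Pool.Agent.LocH.Cnt
import Pool.Agent.LocH.Spn
import Pool.Agent.LocH.Perm
import Pool.Agent.LocH.Ev

/-! LH-R9: duality. -/

set_option autoImplicit false

open Finset

namespace Pool.Agent.LocH.Sub

variable {X Ω : Type} [Fintype X] [DecidableEq X] [Fintype Ω] [DecidableEq Ω] (S : Sub X Ω)
  {W : Finset Ω}

/-- PROOF. Let `D = W.card`, `N = (S.fac W).card`. Suppose `g ∉ I W ⊔ thm W ⊤`. Let `r n = dm n ⊤ (I W ⊔ thm W ⊤)`, `s n = dm n (J W W) (I W ⊔ thm W (J W W))`;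
these are the coefficients of `hW`, `hI` (`hD.hR`, `hD.hS`), so by `sum_coeff`, `deg_hW`, `deg_hI`, `eval_hW`, `eval_hI`, `der_sum`: they vanish for `n > D`, `∑ r n = N`, `∑ s n = N`
and `∑ n * r n + ∑ n * s n = D * N`. `exists_span'` (`A = ⊤`, the member `g`) gives `z`, `d`, and `exists_span` (`A = J W W`) gives `y`, `e`. By `span_evs`
(`grd_top`, `grd_J`, `fac_J`) the `evs W (z j)` and the `evs W (y k)` span everything. `exists_perm` with the weights `w σ ≠ 0` (`w_ne`) gives `π` with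
`Tr W (z j * y (π j)) ≠ 0` for all `j` (`Tr_apply`, `aeval` is multiplicative). By `res` (`z j * y k ∈ J W W`, `mul_J`, `mul_H`) `D ≤ d j + e (π j)`, so all are
equalities (`all_eq`). For the `j` with `z j = g`, `d j = i`: `e (π j) = D - i`, so `Tr W (g * y (π j)) = 0` by `hg`, a contradiction. -/
theorem nd (hT : S.Top S.K) (hD : S.Dim) {i : ℕ} (hi : i ≤ W.card) {g : S.T}
    (hg : g ∈ S.N W i) : g ∈ S.I W ⊔ S.thm W ⊤ := by
  by_contra hB
  obtain ⟨r, hr⟩ : ∃ r : ℕ → ℕ, ∀ n, S.dm n ⊤ (S.I W ⊔ S.thm W ⊤) = r n := ⟨_, fun _ => rfl⟩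
  obtain ⟨s, hs⟩ : ∃ s : ℕ → ℕ, ∀ n, S.dm n (S.J W W) (S.I W ⊔ S.thm W (S.J W W)) = s n :=
    ⟨_, fun _ => rfl⟩
  have hr' : ∀ n, (r n : ℤ) = (S.hW W).coeff n := fun n => by rw [← hr, hD.hR]
  have hs' : ∀ n, (s n : ℤ) = (S.hI W).coeff n := fun n => by rw [← hs, hD.hS]
  have hr0 : ∀ n, W.card < n → r n = 0 := by
    intro n hn
    have h1 := hr' n
    rw [Polynomial.coeff_eq_zero_of_natDegree_lt (S.deg_hW.trans_lt hn)] at h1
    exact_mod_cast h1
  have hs0 : ∀ n, W.card < n → s n = 0 := by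
    intro n hn
    have h1 := hs' n
    rw [Polynomial.coeff_eq_zero_of_natDegree_lt (S.deg_hI.trans_lt hn)] at h1
    exact_mod_cast h1
  obtain ⟨a1, a2⟩ := sum_coeff (S.hW W) S.deg_hW
  obtain ⟨b1, b2⟩ := sum_coeff (S.hI W) S.deg_hI
  have hrN : ∑ n ∈ range (W.card + 1), r n = (S.fac W).card := by
    have h1 : ((∑ n ∈ range (W.card + 1), r n : ℕ) : ℤ) = (S.fac W).card := by
      rw [Nat.cast_sum, Finset.sum_congr rfl fun n _ => hr' n, a1, S.eval_hW]
    exact_mod_cast h1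
  have hsN : ∑ n ∈ range (W.card + 1), s n = (S.fac W).card := by
    have h1 : ((∑ n ∈ range (W.card + 1), s n : ℕ) : ℤ) = (S.fac W).card := by
      rw [Nat.cast_sum, Finset.sum_congr rfl fun n _ => hs' n, b1, S.eval_hI]
    exact_mod_cast h1
  have hsum : ∑ n ∈ range (W.card + 1), n * r n + ∑ n ∈ range (W.card + 1), n * s n =
      W.card * (S.fac W).card := by
    have h1 := S.der_sum (W := W) hT
    rw [← a2, ← b2] at h1
    have h2 : ((∑ n ∈ range (W.card + 1), n * r n + ∑ n ∈ range (W.card + 1), n * s n : ℕ) : ℤ) =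
        ((W.card * (S.fac W).card : ℕ) : ℤ) := by
      push_cast
      simp only [hr', hs']
      exact h1
    exact_mod_cast h2
  obtain ⟨z, d, hz, hd, ⟨j0, hj0, hj0'⟩, hzs⟩ := S.exists_span' hr hr0 hrN
    (Submodule.mem_top : g ∈ ⊤) hg.2.1 hB
  obtain ⟨y, e, hy, he, hys⟩ := S.exists_span hs hs0 hsN
  have hz1 := S.span_evs S.grd_top (fun _ _ => Submodule.mem_top) z d (fun j => (hz j).2) hzs
  have hy1 := S.span_evs S.grd_J (fun σ hσ => S.fac_J hσ) y e (fun j => (hy j).2) hys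
  obtain ⟨π, hπ⟩ := exists_perm (Fintype.card_coe (S.fac W)) (fun j => S.evs W (z j))
    (fun j => S.evs W (y j)) hz1 hy1 (fun k => S.w k) (fun k => S.w_ne k.2)
  have hTr : ∀ j, S.Tr W (z j * y (π j)) ≠ 0 := by
    intro j
    have h1 := hπ j
    rw [S.Tr_apply]
    rw [← Finset.sum_coe_sort (S.fac W)]
    intro h2
    apply h1
    rw [← h2]
    exact Finset.sum_congr rfl fun k _ => by
      rw [map_mul]
      rfl
  have hle : ∀ j, W.card ≤ d j + e (π j) := by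
    intro j
    by_contra hlt
    exact hTr j (S.res hT (S.mul_J (hy (π j)).1 (z j)) (S.mul_H (hz j).2 (hy (π j)).2)
      (not_le.1 hlt))
  have hall := all_eq d e π hle (by rw [hd, he, hsum]) j0
  have h3 : e (π j0) = W.card - i := by omega
  have h4 := (hy (π j0)).2
  rw [h3] at h4
  have h5 := hTr j0
  rw [hj0] at h5
  exact h5 (hg.2.2 _ (hy (π j0)).1 h4)

/-- PROOF. `g ∈ J W W ⊓ H i`, `g ∈ I W ⊔ thm W ⊤`, `y ∈ J W W ⊓ H (D - i)`. `i = 0`: `g ∈ I W` (`split_zero`), `g * y ∈ I W`. `i = k + 1`: `g = ∑ c ∈ W, th c * f c` modulo `I W`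
with `f c ∈ H k` (`split_succ`), so `Tr W (g * y) = ∑ t c * Tr W (f c * y) = 0` by `Tr_th` and `res`, as `f c * y ∈ J W W` has the degree `D - 1`. -/
theorem nd' (hT : S.Top S.K) {i : ℕ} (hi : i ≤ W.card) {g : S.T} (hg : g ∈ S.J W W)
    (hn : g ∈ S.H i) (hI : g ∈ S.I W ⊔ S.thm W ⊤) : g ∈ S.N W i := by
  refine ⟨hg, hn, fun y hy hyD => ?_⟩
  cases i with
  | zero =>
    have h1 := S.split_zero S.grd_top hI hn
    rw [mul_comm]
    exact S.Tr_I (S.mul_I h1 y)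
  | succ k =>
    obtain ⟨f, hf, hI'⟩ := S.split_succ S.grd_top hI hn
    have h1 : g * y = y * (g - ∑ c ∈ W, S.th c * f c) + ∑ c ∈ W, S.th c * (f c * y) := by
      have h2 : ∑ c ∈ W, S.th c * (f c * y) = (∑ c ∈ W, S.th c * f c) * y := by
        rw [Finset.sum_mul]
        exact Finset.sum_congr rfl fun c _ => (mul_assoc _ _ _).symm
      rw [h2]
      ring
    rw [h1, map_add, S.Tr_I (S.mul_I hI' y), zero_add, map_sum]
    refine Finset.sum_eq_zero fun c hc => ?_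
    rw [S.Tr_th hc, S.res hT (S.mul_J hy (f c)) (S.mul_H (hf c hc).2 hyD) (by omega), mul_zero]

theorem N_eq (hT : S.Top S.K) (hD : S.Dim) {i : ℕ} (hi : i ≤ W.card) :
    S.N W i = S.J W W ⊓ S.H i ⊓ (S.I W ⊔ S.thm W ⊤) := by
  ext g
  constructor
  · intro h
    exact ⟨⟨h.1, h.2.1⟩, S.nd hT hD hi h⟩
  · rintro ⟨⟨h1, h2⟩, h3⟩
    exact S.nd' hT hi h1 h2 h3

end Pool.Agent.LocH.Sub
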