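import Pool.Agent.LocH.DetA

/-! LH-F6: the derivatives of the coordinates `q σ v` and of the determinant `dA σ`; the permanent of the dual basis. -/

set_option autoImplicit false

open Finset

namespace Pool.Agent.LocH.Sub

variable {X Ω : Type} [Fintype X] [DecidableEq X] [Fintype Ω] [DecidableEq Ω] (S : Sub X Ω)
  {W : Finset Ω} {σ : Finset X}

private theorem eq_of_add {ι : Type} {x y : FF ι} (h : x + y = 0) : x = y := by
  have h1 := add_self y
  calc x = x + (y + y) := by rw [h1, add_zero]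
    _ = (x + y) + y := by ring
    _ = y := by rw [h, zero_add]

/-- the determinant is a permanent -/
private theorem det_two {m n ι : Type} [Fintype m] [DecidableEq m] [Fintype n] [DecidableEq n]
    (e : m ≃ n) (M : Matrix n n (FF ι)) : M.det = ∑ g : m ≃ n, ∏ v : m, M (e v) (g v) := by
  have hs : ∀ π : Equiv.Perm n, (((Equiv.Perm.sign π : ℤˣ) : ℤ) : FF ι) = 1 := by
    intro π
    rcases Int.units_eq_one_or (Equiv.Perm.sign π) with h | h
    · rw [h]
      simp
    · rw [h]
      have := add_self (1 : FF ι)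
      push_cast
      linear_combination -this
  rw [← Matrix.det_transpose, Matrix.det_apply']
  refine Fintype.sum_bijective (fun π : Equiv.Perm n => e.trans π) ?_ _ _ fun π => ?_
  · refine Function.bijective_iff_has_inverse.2 ⟨fun g => e.symm.trans g, fun π => ?_, fun g => ?_⟩
    · ext x
      simp
    · ext x
      simp
  · rw [hs, one_mul, ← Equiv.prod_comp e]
    rfl

omit [Fintype X] [Fintype Ω] in
private theorem pa_nc {i : X} {c : Ω} (h : c ∉ S.car i) (x : S.K) : S.pa i c x = 0 := by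
  unfold pa
  exact dif_neg h

private theorem pa_key (hσ : σ ∈ S.fac W) {i : X} {c c' : Ω} (hc : c ∈ S.car i) (hc' : c' ∈ W) :
    ∑ v, S.a v c' * S.pa i c (S.q σ v) = if c = c' then S.q σ i else 0 := by
  have h1 := congrArg (S.pa i c) (S.q_spec hσ hc')
  rw [S.pa_t, S.pa_sum] at h1
  simp only [S.pa_mul] at h1
  rw [Finset.sum_add_distrib] at h1
  rw [eq_of_add h1]
  simp only [S.pa_a hc]
  rw [Finset.sum_eq_single i]
  · by_cases h : c = c'
    · simp [h]
    · simp [h]
  · intro v _ hv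
    rw [if_neg fun h => hv h.1.symm, mul_zero]
  · intro h
    exact absurd (Finset.mem_univ i) h

/-- PROOF. Apply `pa i c` to `q_spec` for `c' ∈ W`: `∑ v, a v c' * pa i c (q v) + [c' = c] q i = 0` (`pa_a`, `pa_t`); by `q_pt` the function
`x v = pa i c (q v) + q i * pt c (q v)` satisfies `∑ v, a v c' * x v = 0` for all `c' ∈ W` (characteristic `2`) and vanishes outside `σ`; `uniq`, and
characteristic `2` again. -/
theorem pa_q (hσ : σ ∈ S.fac W) {i : X} (hi : i ∈ σ) {c : Ω} (hc : c ∈ S.car i) (v : X) :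
    S.pa i c (S.q σ v) = S.q σ i * S.pt c (S.q σ v) := by
  have hx := S.uniq hσ (x := fun v => S.pa i c (S.q σ v) + S.q σ i * S.pt c (S.q σ v))
    (fun v hv => by rw [S.q_out hv, S.pa_zero, S.pt_zero, mul_zero, add_zero]) (fun c' hc' => by
    have h1 := S.pa_key hσ (i := i) hc hc'
    have h2 := S.q_pt hσ hc' c
    have h3 : ∑ v, S.a v c' * (S.pa i c (S.q σ v) + S.q σ i * S.pt c (S.q σ v)) =
        ∑ v, S.a v c' * S.pa i c (S.q σ v) + S.q σ i * ∑ v, S.a v c' * S.pt c (S.q σ v) := by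
      rw [Finset.mul_sum, ← Finset.sum_add_distrib]
      exact Finset.sum_congr rfl fun v _ => by ring
    rw [h3, h1, h2]
    by_cases h : c = c'
    · simp only [if_pos h, mul_one]
      exact add_self _
    · simp only [if_neg h, mul_zero, add_zero])
  exact eq_of_add (congrFun hx v)

/-- PROOF. The same; now `pa i c (a v c') = 0` for `v ∈ σ` because `i ∉ σ` (if `c ∉ S.car i` then `pa i c = 0`). -/
theorem pa_q_out (hσ : σ ∈ S.fac W) {i : X} (hi : i ∉ σ) (c : Ω) (v : X) :
    S.pa i c (S.q σ v) = 0 := by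
  by_cases hc : c ∈ S.car i
  · have hx := S.uniq hσ (x := fun v => S.pa i c (S.q σ v))
      (fun v hv => by rw [S.q_out hv, S.pa_zero]) (fun c' hc' => by
      rw [S.pa_key hσ (i := i) hc hc', S.q_out hi, ite_self])
    exact congrFun hx v
  · exact S.pa_nc hc _

theorem pt_dA (c : Ω) : S.pt c (S.dA σ) = 0 := by
  unfold dA
  rw [S.pt_sum]
  refine Finset.sum_eq_zero fun g _ => ?_
  rw [S.pt_prod]
  exact Finset.sum_eq_zero fun v _ => by rw [S.pt_a, zero_mul]

theorem pa_dA_out {i : X} (hi : i ∉ σ) (c : Ω) : S.pa i c (S.dA σ) = 0 := by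
  by_cases hc : c ∈ S.car i
  · unfold dA
    rw [S.pa_sum]
    refine Finset.sum_eq_zero fun g _ => ?_
    rw [S.pa_prod]
    refine Finset.sum_eq_zero fun v _ => ?_
    rw [S.pa_a hc, if_neg, zero_mul]
    rintro ⟨h, -⟩
    rw [h] at hi
    exact hi v.2
  · exact S.pa_nc hc _

private theorem ex_e (hσ : σ ∈ S.fac W) : Nonempty ({v // v ∈ σ} ≃ {c // c ∈ S.cr σ}) := by
  obtain ⟨-, hcr, hcard⟩ := S.mem_fac.1 hσ
  refine ⟨Fintype.equivOfCardEq ?_⟩
  rw [Fintype.card_coe, Fintype.card_coe, hcr, hcard]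

private theorem mul_AB (hσ : σ ∈ S.fac W) (e : {v // v ∈ σ} ≃ {c // c ∈ S.cr σ}) :
    (Matrix.of fun b b' : {c // c ∈ S.cr σ} => S.a (e.symm b) b') *
      (Matrix.of fun b b' : {c // c ∈ S.cr σ} => S.pt b (S.q σ (e.symm b'))) = 1 := by
  obtain ⟨-, hcr, -⟩ := S.mem_fac.1 hσ
  ext b b'
  rw [Matrix.mul_apply, Matrix.one_apply]
  simp only [Matrix.of_apply]
  have h1 := S.om_spec hσ (e.symm b).2 (e.symm b').2
  rw [← hcr] at h1
  have h2 : ∑ c ∈ S.cr σ, S.pt c (S.q σ (e.symm b')) * S.a (e.symm b) c =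
      ∑ c : {c // c ∈ S.cr σ}, S.a (e.symm b) c * S.pt c (S.q σ (e.symm b')) := by
    rw [← Finset.sum_coe_sort (S.cr σ)]
    exact Finset.sum_congr rfl fun c _ => mul_comm _ _
  rw [← h2, h1]
  by_cases h : b = b'
  · rw [h, if_pos rfl, if_pos rfl]
  · rw [if_neg h, if_neg fun h' => h (e.symm.injective (Subtype.ext h'))]

/-- PROOF. `dA_eq`; by the product rule in every term of the determinant (`dA`: only the factor of the row `i` contributes, `pa_a`), `pa i c (dA σ)` is the
determinant with the row of `i` replaced by the unit vector of `c` (`Matrix.det_updateRow_eq...`, `Matrix.adjugate_apply`). The unit vector of `c` on `W` is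
`∑ v ∈ σ, pt c (q v) • a v` (`q_pt`), so this determinant is `pt c (q i) * dA σ` (only the row `v = i` contributes; Cramer). (Alternatively with
`A * adjugate A = det A • 1` and `om_spec`: `B = (pt c (q v))` is the inverse matrix, `adjugate A = det A • B`.) -/
theorem pa_dA (hσ : σ ∈ S.fac W) {i : X} (hi : i ∈ σ) {c : Ω} (hc : c ∈ S.car i) :
    S.pa i c (S.dA σ) = S.dA σ * S.pt c (S.q σ i) := by
  obtain ⟨e⟩ := S.ex_e hσ
  have hc' : c ∈ S.cr σ := Finset.mem_biUnion.2 ⟨i, hi, hc⟩
  have hAB := S.mul_AB hσ e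
  have hdA := S.dA_eq e
  obtain ⟨A, hA⟩ : ∃ A : Matrix {c // c ∈ S.cr σ} {c // c ∈ S.cr σ} S.K,
    A = Matrix.of fun b b' : {c // c ∈ S.cr σ} => S.a (e.symm b) b' := ⟨_, rfl⟩
  obtain ⟨B, hB⟩ : ∃ B : Matrix {c // c ∈ S.cr σ} {c // c ∈ S.cr σ} S.K,
    B = Matrix.of fun b b' : {c // c ∈ S.cr σ} => S.pt b (S.q σ (e.symm b')) := ⟨_, rfl⟩
  rw [← hA, ← hB] at hAB
  rw [← hA] at hdA
  have hadj : A.adjugate = A.det • B := by
    calc A.adjugate = A.adjugate * (A * B) := by rw [hAB, Matrix.mul_one]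
      _ = (A.adjugate * A) * B := (Matrix.mul_assoc _ _ _).symm
      _ = A.det • B := by rw [Matrix.adjugate_mul, Matrix.smul_mul, Matrix.one_mul]
  have hd : S.pa i c (S.dA σ) = (A.updateRow (e ⟨i, hi⟩) (Pi.single ⟨c, hc'⟩ 1)).det := by
    rw [det_two e]
    unfold dA
    rw [S.pa_sum]
    refine Finset.sum_congr rfl fun g _ => ?_
    rw [S.pa_prod, ← Finset.mul_prod_erase Finset.univ _ (Finset.mem_univ ⟨i, hi⟩),
      Finset.sum_eq_single ⟨i, hi⟩]
    · rw [S.pa_a hc, Matrix.updateRow_self]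
      congr 1
      · rw [Pi.single_apply]
        by_cases h : c = g ⟨i, hi⟩
        · rw [if_pos ⟨rfl, h⟩, if_pos (Subtype.ext h.symm)]
        · rw [if_neg fun h' => h h'.2, if_neg fun h' => h (congrArg Subtype.val h').symm]
      · refine Finset.prod_congr rfl fun v hv => ?_
        rw [Matrix.updateRow_ne fun h => (Finset.ne_of_mem_erase hv) (e.injective h), hA,
          Matrix.of_apply, Equiv.symm_apply_apply]
    · intro v _ hv
      rw [S.pa_a hc, if_neg fun h => hv (Subtype.ext h.1.symm), zero_mul]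
    · intro h
      exact absurd (Finset.mem_univ _) h
  rw [hd, ← Matrix.adjugate_apply, hadj, Matrix.smul_apply, hdA, hB, Matrix.of_apply,
    Equiv.symm_apply_apply, smul_eq_mul]

/-- PROOF. The sum is the determinant of the matrix `B = (pt c (q σ v))` (as in `dA_eq`), and `A * B = 1` (`om_spec`), so `det A * det B = 1`. -/
theorem perm_q (hσ : σ ∈ S.fac W) :
    ∑ g : {v // v ∈ σ} ≃ {c // c ∈ S.cr σ}, ∏ v : {v // v ∈ σ}, S.pt (g v) (S.q σ v) =
      (S.dA σ)⁻¹ := by
  obtain ⟨e⟩ := S.ex_e hσ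
  have hAB := congrArg Matrix.det (S.mul_AB hσ e)
  rw [Matrix.det_mul, Matrix.det_one, ← S.dA_eq e] at hAB
  rw [← eq_inv_of_mul_eq_one_right hAB, ← Matrix.det_transpose, det_two e]
  refine Finset.sum_congr rfl fun g _ => Finset.prod_congr rfl fun v _ => ?_
  rw [Matrix.transpose_apply, Matrix.of_apply, Equiv.symm_apply_apply]

end Pool.Agent.LocH.Sub
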