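import Pool.Agent.LocH.TSg

/-!
# Package TA: cells of dimension one less than the pattern

Paper proof (P1.1, (F1) and the first part of (F3) of `/team-store/LHV_proof.md`).
* `tilt_eq`: let `sg l x = s`. For `i` with `s i = 0` we have `l i (x + ε u) = ε l i u`, whose sign is the
  sign of `l i u`; for `s i ≠ 0` the sign of `l i (x + ε u) = l i x + ε l i u` is the sign of `l i x` if
  `0 < ε` is small (finitely many `i`: take `δ` the minimum over `i` of numbers `δ_i` with
  `δ_i |l i u| < |l i x|`).
* `tilt_cell`: by `tilt_eq` the sign vector `tilt l s u` is realised; for `i ∈ P`: if `s i ≠ 0` it is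
  `s i = p i`; if `s i = 0` then `p i = 0`, so `l i u = 0` (`u ∈ kp l P p`) and the sign is `0 = p i`.
* `ks_tilt`, `mem_ks_tilt`: if `tilt l s u i = 0` then `s i = 0` and `l i u = 0`.
* `dm_lt_tilt`: `ks l s` and `u` are contained in `ks l (tilt l s u)`.
* `eq_tilt`: let `s ≤ s'`, `sg l y = s'`, `y = w + r u` with `w ∈ ks l s`, `0 < r`. If `s i ≠ 0` then
  `s' i = s i`. If `s i = 0` then `l i y = r l i u`, so `s' i` is the sign of `l i u`.
* `dm_le`: `ks_le_kp` and monotonicity of `finrank`.
* `exists_top`: take a cell (`cell_sg`) of maximal dimension; if its dimension is smaller than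
  `dp l P p` there is `u ∈ kp l P p` not in `ks l s`, and `tilt l s u` is a cell of larger dimension.
* `up_card_two`: `ks l s ≤ kp l P p` has codimension one; choose `u ∈ kp l P p` not in `ks l s`. Claim:
  `up l P p s = {tilt l s u, tilt l s (-u)}` and the two are different. Both are cells, `s ≤ tilt`,
  and `ks l (tilt)` contains `ks l s` and `u` and is contained in `kp l P p`, so it has dimension
  `dp l P p`. They are different: since `u ∉ ks l s` there is `i` with `s i = 0` and `l i u ≠ 0`, and the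
  signs of `l i u` and `- l i u` differ. Conversely let `s' ∈ up`, `sg l y = s'`. Then `y ∈ ks l s' ≤ kp`,
  and `kp = ks l s ⊕ ℝ u`: `y = w + r u`. If `r = 0` then `y ∈ ks l s`, so `s' i = 0` whenever
  `s i = 0`, and `s' i = s i` otherwise, `s' = s`, contradiction to the dimensions. If `r > 0` then
  `s' = tilt l s u`, if `r < 0` then `s' = tilt l s (-u)` (`eq_tilt`).
* `up_card_one`: in addition `s i = 0`, so `ks l s ≤ ker (l i)`, and `x₀ ∈ kp l P p` with `l i x₀ ≠ 0`
  is not in `ks l s`; take `u = x₀` or `u = - x₀` such that the sign of `l i u` is `e`. Of the two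
  elements `tilt l s u`, `tilt l s (-u)` exactly the first one has the value `e` at `i`.
-/

set_option autoImplicit false
set_option linter.unusedSectionVars false

open Finset

namespace Pool.Agent.LocH.Sg

variable {E ι : Type} [AddCommGroup E] [Module ℝ E] [FiniteDimensional ℝ E] [Fintype ι]
  (l : ι → E →ₗ[ℝ] ℝ) {P : Finset ι} {p : ι → SignType}

/-- The sign of `a + ε b` for small `ε`. -/
private theorem ta_sign (a b : ℝ) : ∃ δ : ℝ, 0 < δ ∧ ∀ ε : ℝ, 0 < ε → ε ≤ δ →
    SignType.sign (a + ε * b) =
      if SignType.sign a = 0 then SignType.sign b else SignType.sign a := by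
  by_cases ha : a = 0
  · refine ⟨1, one_pos, fun ε hε _ => ?_⟩
    rw [ha, zero_add, sign_zero, if_pos rfl, sign_mul, sign_pos hε, one_mul]
  · have hb : 0 < |b| + 1 := by positivity
    refine ⟨|a| / (|b| + 1), div_pos (abs_pos.2 ha) hb, fun ε hε hle => ?_⟩
    rw [if_neg (fun h => ha (sign_eq_zero_iff.1 h))]
    rw [le_div_iff₀ hb] at hle
    have h1 : |ε * b| < |a| := by
      rw [abs_mul, abs_of_pos hε]
      nlinarith
    rw [abs_lt] at h1
    rcases lt_or_gt_of_ne ha with h | h
    · rw [abs_of_neg h] at h1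
      rw [sign_neg h, sign_neg (by linarith [h1.2])]
    · rw [abs_of_pos h] at h1
      rw [sign_pos h, sign_pos (by linarith [h1.1])]

/-- The tilted sign vector is the sign vector of the points `x + ε u`. -/
theorem tilt_eq {s : ι → SignType} {x : E} (u : E) (hx : sg l x = s) :
    ∃ δ : ℝ, 0 < δ ∧ ∀ ε : ℝ, 0 < ε → ε ≤ δ → sg l (x + ε • u) = tilt l s u := by
  have h1 : ∀ i, ∃ δ : ℝ, 0 < δ ∧ ∀ ε : ℝ, 0 < ε → ε ≤ δ →
      sg l (x + ε • u) i = tilt l s u i := by
    intro i
    obtain ⟨δ, hδ, h⟩ := ta_sign (l i x) (l i u)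
    refine ⟨δ, hδ, fun ε hε hle => ?_⟩
    have h2 : s i = SignType.sign (l i x) := by rw [← hx]; rfl
    unfold sg tilt
    rw [map_add, map_smul, smul_eq_mul, h ε hε hle, h2]
  choose δ hδ h using h1
  rcases isEmpty_or_nonempty ι with he | hn
  · exact ⟨1, one_pos, fun ε _ _ => funext fun i => (he.false i).elim⟩
  · obtain ⟨i₀, hi₀⟩ := Finite.exists_min δ
    exact ⟨δ i₀, hδ i₀, fun ε hε hle => funext fun i => h i ε hε (hle.trans (hi₀ i))⟩

/-- A cell is a face of its tilts. -/
theorem sle_tilt (s : ι → SignType) (u : E) : sle s (tilt l s u) := by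
  intro i
  by_cases h : s i = 0
  · exact Or.inl h
  · right
    unfold tilt
    rw [if_neg h]

/-- The tilt of a cell in a direction of the pattern is a cell. -/
theorem tilt_cell {s : ι → SignType} {u : E} (hs : Cell l P p s) (hu : u ∈ kp l P p) :
    Cell l P p (tilt l s u) := by
  obtain ⟨⟨x, hx⟩, hP⟩ := hs
  obtain ⟨δ, hδ, h⟩ := tilt_eq l u hx
  refine ⟨⟨x + δ • u, h δ hδ le_rfl⟩, fun i hi => ?_⟩
  unfold tilt
  split_ifs with h0
  · have h1 : p i = 0 := by rw [← hP i hi, h0]
    rw [hu i hi h1, sign_zero, h1]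
  · exact hP i hi

/-- The direction lies in the span of the tilt. -/
theorem mem_ks_tilt (s : ι → SignType) (u : E) : u ∈ ks l (tilt l s u) := by
  intro i hi
  unfold tilt at hi
  split_ifs at hi with h0
  · exact sign_eq_zero_iff.1 hi
  · exact absurd hi h0

/-- A tilt in a new direction has larger dimension. -/
theorem dm_lt_tilt {s : ι → SignType} {u : E} (hu : u ∉ ks l s) : dm l s < dm l (tilt l s u) := by
  refine Submodule.finrank_lt_finrank_of_lt (lt_of_le_of_ne (ks_mono (sle_tilt l s u)) ?_)
  intro h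
  exact hu (h ▸ mem_ks_tilt l s u)

/-- Recognition of tilts. -/
theorem eq_tilt {s s' : ι → SignType} {u y w : E} {r : ℝ} (h : sle s s') (hy : sg l y = s')
    (hw : w ∈ ks l s) (hr : 0 < r) (he : y = w + r • u) : s' = tilt l s u := by
  funext i
  unfold tilt
  split_ifs with h0
  · rw [← hy]
    unfold sg
    rw [he, map_add, map_smul, hw i h0, zero_add, smul_eq_mul, sign_mul, sign_pos hr, one_mul]
  · exact ((h i).resolve_left h0).symm

/-- The dimension of a cell is at most the dimension of the pattern. -/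
theorem dm_le {s : ι → SignType} (hs : Cell l P p s) : dm l s ≤ dp l P p :=
  Submodule.finrank_mono (ks_le_kp hs)

/-- There is a cell of the dimension of the pattern. -/
theorem exists_top (hO : (OP l P p).Nonempty) : ∃ s, Cell l P p s ∧ dm l s = dp l P p := by
  classical
  obtain ⟨x, hx⟩ := hO
  have hne : (univ.filter fun s => Cell l P p s).Nonempty :=
    ⟨sg l x, mem_filter.2 ⟨mem_univ _, cell_sg hx⟩⟩
  obtain ⟨s, hs, hmax⟩ := exists_max_image _ (dm l) hne
  have hs' := (mem_filter.1 hs).2
  refine ⟨s, hs', le_antisymm (dm_le l hs') ?_⟩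
  by_contra hlt
  have h1 : ks l s < kp l P p := by
    refine lt_of_le_of_ne (ks_le_kp hs') fun h => hlt ?_
    unfold dm dp
    rw [h]
  obtain ⟨u, hu, hus⟩ := SetLike.exists_of_lt h1
  have h2 := dm_lt_tilt l hus
  have h3 := hmax _ (mem_filter.2 ⟨mem_univ _, tilt_cell l hs' hu⟩)
  omega

private theorem ta_mem_up {s : ι → SignType} {u : E} (hs : Cell l P p s)
    (hd : dm l s + 1 = dp l P p) (hu : u ∈ kp l P p) (hus : u ∉ ks l s) :
    tilt l s u ∈ up l P p s := by
  have h1 := dm_lt_tilt l hus
  have h2 := dm_le l (tilt_cell l hs hu)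
  exact mem_up.2 ⟨tilt_cell l hs hu, sle_tilt l s u, by omega⟩

/-- the elements of `up` -/
private theorem ta_up {s : ι → SignType} {u : E} (hs : Cell l P p s)
    (hd : dm l s + 1 = dp l P p) (hu : u ∈ kp l P p) (hus : u ∉ ks l s) (s' : ι → SignType) :
    s' ∈ up l P p s ↔ s' = tilt l s u ∨ s' = tilt l s (-u) := by
  constructor
  · intro h
    obtain ⟨hc, hle, hdm⟩ := mem_up.1 h
    obtain ⟨y, hy⟩ := hc.1
    have hlt : ks l s < ks l s ⊔ Submodule.span ℝ {u} := by
      refine lt_of_le_of_ne le_sup_left fun h1 => hus ?_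
      rw [h1]
      exact le_sup_right (a := ks l s) (Submodule.mem_span_singleton_self u)
    have hle2 : ks l s ⊔ Submodule.span ℝ {u} ≤ kp l P p :=
      sup_le (ks_le_kp hs) ((Submodule.span_singleton_le_iff_mem u _).2 hu)
    have hfr := Submodule.finrank_lt_finrank_of_lt hlt
    have heq : ks l s ⊔ Submodule.span ℝ {u} = kp l P p := by
      refine Submodule.eq_of_le_of_finrank_le hle2 ?_
      unfold dm dp at hd
      omega
    have hyk : y ∈ ks l s ⊔ Submodule.span ℝ {u} := by
      rw [heq]
      exact ks_le_kp hc (sg_mem_ks hy)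
    obtain ⟨w, hw, z, hz, hwz⟩ := Submodule.mem_sup.1 hyk
    obtain ⟨r, rfl⟩ := Submodule.mem_span_singleton.1 hz
    rcases lt_trichotomy r 0 with hr | hr | hr
    · right
      refine eq_tilt l hle hy hw (neg_pos.2 hr) ?_
      rw [← hwz, smul_neg, neg_smul, neg_neg]
    · exfalso
      rw [hr, zero_smul, add_zero] at hwz
      have h1 : s' = s := by
        funext i
        rcases hle i with h2 | h2
        · rw [h2, ← hy]
          unfold sg
          rw [← hwz, hw i h2, sign_zero]
        · exact h2.symm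
      rw [h1] at hdm
      omega
    · left
      exact eq_tilt l hle hy hw hr hwz.symm
  · rintro (rfl | rfl)
    · exact ta_mem_up l hs hd hu hus
    · exact ta_mem_up l hs hd ((kp l P p).neg_mem hu) fun h => hus (by
        have h1 := (ks l s).neg_mem h
        rwa [neg_neg] at h1)

private theorem ta_neg (a : SignType) (h : a = -a) : a = 0 := by
  revert h
  cases a <;> decide

private theorem ta_tilt_neg {s : ι → SignType} {u : E} {i : ι} (hi : s i = 0) :
    tilt l s u i = SignType.sign (l i u) ∧ tilt l s (-u) i = -SignType.sign (l i u) := by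
  unfold tilt
  rw [if_pos hi, if_pos hi, map_neg, Left.sign_neg]
  exact ⟨rfl, rfl⟩

/-- A cell of codimension one lies in exactly two top cells. -/
theorem up_card_two {s : ι → SignType} (hs : Cell l P p s) (hd : dm l s + 1 = dp l P p) :
    (up l P p s).card = 2 := by
  classical
  have h1 : ks l s < kp l P p := by
    refine lt_of_le_of_ne (ks_le_kp hs) fun h => ?_
    unfold dm dp at hd
    rw [h] at hd
    omega
  obtain ⟨u, hu, hus⟩ := SetLike.exists_of_lt h1
  have h2 : ∃ i, s i = 0 ∧ l i u ≠ 0 := by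
    by_contra hcon
    push Not at hcon
    exact hus hcon
  obtain ⟨i, hi, hiu⟩ := h2
  have h3 : tilt l s u ≠ tilt l s (-u) := by
    intro h
    have h4 := congrFun h i
    rw [(ta_tilt_neg l hi).1, (ta_tilt_neg l hi).2] at h4
    exact hiu (sign_eq_zero_iff.1 (ta_neg _ h4))
  have h4 : up l P p s = {tilt l s u, tilt l s (-u)} := by
    ext s'
    rw [ta_up l hs hd hu hus, mem_insert, mem_singleton]
  rw [h4, card_pair h3]

/-- The two top cells lie on different sides of a hyperplane containing the cell. -/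
theorem up_card_one {s : ι → SignType} {i : ι} (hs : Cell l P p s) (hd : dm l s + 1 = dp l P p)
    (hi : s i = 0) (hne : ∃ x ∈ kp l P p, l i x ≠ 0) {e : SignType} (he : e ≠ 0) :
    ((up l P p s).filter fun s' => s' i = e).card = 1 := by
  classical
  have h1 : ∃ u ∈ kp l P p, SignType.sign (l i u) = e := by
    obtain ⟨x, hx, hxi⟩ := hne
    have h2 : ∀ a b : SignType, a ≠ 0 → b ≠ 0 → a = b ∨ -a = b := by decide
    rcases h2 (SignType.sign (l i x)) e (fun h => hxi (sign_eq_zero_iff.1 h)) he with h3 | h3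
    · exact ⟨x, hx, h3⟩
    · refine ⟨-x, (kp l P p).neg_mem hx, ?_⟩
      rw [map_neg, Left.sign_neg, h3]
  obtain ⟨u, hu, hue⟩ := h1
  have hus : u ∉ ks l s := fun h => he (by rw [← hue, h i hi, sign_zero])
  rw [card_eq_one]
  refine ⟨tilt l s u, ?_⟩
  ext s'
  rw [mem_filter, ta_up l hs hd hu hus, mem_singleton]
  constructor
  · rintro ⟨rfl | rfl, h3⟩
    · rfl
    · rw [(ta_tilt_neg l hi).2, hue] at h3
      exact absurd (ta_neg e h3.symm) he
  · rintro rfl
    exact ⟨Or.inl rfl, by rw [(ta_tilt_neg l hi).1, hue]⟩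

end Pool.Agent.LocH.Sg
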