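import Pool.Agent.LocH.TA

/-!
# Package TB: a sector of a plane has two rays

Paper proof (P1.1, (F2) of `/team-store/LHV_proof.md`).
`even_between`: write `K₂ = ks l s`, `K₀ = ks l s₀`, `K₀ ≤ K₂`, `dim K₂ = dim K₀ + 2`. Let
`I = {i | s₀ i = 0, s i ≠ 0}`, `τ i = s i = ± 1` for `i ∈ I`, `φ = ∑_{i ∈ I} τ i • l i`.
(1) If `x ∈ K₂`, `τ i * l i x ≥ 0` for all `i ∈ I` and `φ x = 0`, then `l i x = 0` for all `i ∈ I`, so
`x ∈ K₀` (the `i` with `s₀ i = 0` are those with `s i = 0` and those in `I`; note that `s i = 0` implies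
`s₀ i = 0`).
(2) Let `x₂` be in the cell `s` (`sg l x₂ = s`), so `τ i * l i x₂ > 0` for `i ∈ I`; `I` is nonempty since
the dimensions differ, so `φ x₂ > 0`. There is `w ∈ K₂`, `φ w = 0`, `w ∉ K₀` (`ker φ ⊓ K₂` has dimension at
least `dim K₂ - 1 > dim K₀`), and `K₂ = K₀ + ℝ x₂ + ℝ w` (dimension: `x₂ ∉ K₀ + ℝ w` because of `φ`,
`φ = 0` on `K₀`).
(3) One side: for such a `w` there is exactly one real `t > 0` with `τ i * l i (x₂ + t w) ≥ 0` for all
`i ∈ I` and equality for some `i ∈ I`: since `∑_{i ∈ I} τ i * l i w = 0` and not all terms are zero (else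
`w ∈ K₀`), the set `I⁻ = {i ∈ I | τ i * l i w < 0}` is not empty, and `t` is the minimum over `I⁻` of
`(τ i * l i x₂) / (- τ i * l i w)`. Apply it to `w` (`t = b`) and to `- w` (`t = a`). The vectors
`y₁ = x₂ + b w`, `y₂ = x₂ - a w`.
(4) The set of the problem is `{tilt l s₀ y₁, tilt l s₀ y₂}` and the two are different, so its cardinality
is `2`. Membership: realised by `tilt_eq` (for `x₀` with `sg l x₀ = s₀`); `s₀ ≤ tilt`; `tilt ≤ s`: for
`s₀ i ≠ 0` the value is `s₀ i = s i`, for `i ∈ I` it is `τ i` or `0`, for `s i = 0` it is `0` (`y ∈ K₂`).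
Dimension: `ks l (tilt l s₀ y)` contains `K₀` and `y ∉ K₀` (`φ y > 0`), and it is contained in
`K₂ ⊓ ker (l i)` for some `i ∈ I` with `l i y = 0`, which has dimension at most `dim K₂ - 1` because
`l i x₂ ≠ 0`. Different: an `i ∈ I` with `l i y₁ = 0` has `τ i * l i w < 0`, so `τ i * l i y₂ > 0`.
Conversely let `s'` be in the set, `sg l y = s'`. `y ∈ ks l s' ≤ K₂`, `τ i * l i y ≥ 0` for `i ∈ I`
(`s' ≤ s`), `y ∉ K₀` (else `s' = s₀`: for `s₀ i = 0` we get `s' i = 0`), so `φ y > 0` by (1). Write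
`y = e + α x₂ + β w` with `e ∈ K₀`; `φ y = α φ x₂`, so `α > 0`, and modulo `K₀` and up to the positive
factor `α` it is `x₂ + t w`, `t = β / α`. By the dimension of `s'` there is `i ∈ I` with `s' i = 0`
(otherwise `s' i = 0` only if `s i = 0`, so `ks l s' = K₂`). So `t ≠ 0` and by the uniqueness in (3)
`t = b` or `- t = a`; and `s' = tilt l s₀ y₁` or `tilt l s₀ y₂` by `eq_tilt`.
`bd_bd`: exchange the sums: the coefficient of `z s` is the number of `s' ∈ up l P p s₀` with
`s ∈ up l P p s'`. If it is not zero then `s₀ ≤ s`, `dm l s = dm l s₀ + 2`, `s` is a cell of the pattern,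
and the set of these `s'` is the set of `even_between` (every realised `s'` with `s₀ ≤ s' ≤ s` is a cell
of the pattern: for `i ∈ P`, if `p i ≠ 0` then `s₀ i = p i ≠ 0` so `s' i = s₀ i`; if `p i = 0` then
`s i = 0`, so `s' i = 0`); even, so the coefficient is zero in characteristic `2`.
-/

set_option autoImplicit false

open Finset

namespace Pool.Agent.LocH.Sg

variable {E ι : Type} [AddCommGroup E] [Module ℝ E] [FiniteDimensional ℝ E] [Fintype ι]
  (l : ι → E →ₗ[ℝ] ℝ) {P : Finset ι} {p : ι → SignType}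

private lemma tb_sign {a : SignType} {r : ℝ} (ha : a ≠ 0) (h : 0 ≤ (a : ℝ) * r) (hr : r ≠ 0) :
    SignType.sign r = a := by
  rcases a with _ | _ | _
  · exact absurd rfl ha
  · have h1 : ((SignType.neg : SignType) : ℝ) = -1 := rfl
    rw [h1] at h
    have h2 : r < 0 := lt_of_le_of_ne (by linarith) hr
    exact sign_neg h2
  · have h1 : ((SignType.pos : SignType) : ℝ) = 1 := rfl
    rw [h1] at h
    have h2 : 0 < r := lt_of_le_of_ne (by linarith) hr.symm
    exact sign_pos h2

private lemma tb_cast_ne {a : SignType} (ha : a ≠ 0) : (a : ℝ) ≠ 0 := by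
  rcases a with _ | _ | _
  · exact absurd rfl ha
  · have h1 : ((SignType.neg : SignType) : ℝ) = -1 := rfl
    rw [h1]
    norm_num
  · have h1 : ((SignType.pos : SignType) : ℝ) = 1 := rfl
    rw [h1]
    norm_num

private lemma tb_self (r : ℝ) : ((SignType.sign r : SignType) : ℝ) * r = |r| := sign_mul_self r

open Classical in
/-- the indices which separate the two cells -/
private noncomputable def II (s₀ s : ι → SignType) : Finset ι :=
  univ.filter fun i => s₀ i = 0 ∧ s i ≠ 0

private lemma mem_II {s₀ s : ι → SignType} {i : ι} : i ∈ II s₀ s ↔ s₀ i = 0 ∧ s i ≠ 0 := by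
  simp [II]

/-- the functional `φ` -/
private noncomputable def ph (s₀ s : ι → SignType) : E →ₗ[ℝ] ℝ :=
  ∑ i ∈ II s₀ s, (s i : ℝ) • l i

omit [FiniteDimensional ℝ E] in
private lemma ph_apply (s₀ s : ι → SignType) (x : E) :
    ph l s₀ s x = ∑ i ∈ II s₀ s, (s i : ℝ) * l i x := by
  simp [ph]

omit [FiniteDimensional ℝ E] in
private lemma tb_one {s₀ s : ι → SignType} {x : E} (hx : x ∈ ks l s)
    (h : ∀ i ∈ II s₀ s, 0 ≤ (s i : ℝ) * l i x) (h0 : ph l s₀ s x = 0) : x ∈ ks l s₀ := by
  rw [ph_apply, Finset.sum_eq_zero_iff_of_nonneg h] at h0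
  intro i hi
  by_cases hs : s i = 0
  · exact hx i hs
  · exact (mul_eq_zero.1 (h0 i (mem_II.2 ⟨hi, hs⟩))).resolve_left (tb_cast_ne hs)

omit [FiniteDimensional ℝ E] in
private lemma ph_zero {s₀ s : ι → SignType} {x : E} (hx : x ∈ ks l s₀) : ph l s₀ s x = 0 := by
  rw [ph_apply]
  refine Finset.sum_eq_zero fun i hi => ?_
  rw [hx i (mem_II.1 hi).1, mul_zero]

omit [FiniteDimensional ℝ E] in
/-- one side: the end of the segment in the direction `w` -/
private lemma tb_side {s₀ s : ι → SignType} {x₂ w : E} (hx₂ : sg l x₂ = s) (hw : w ∈ ks l s)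
    (hφ : ph l s₀ s w = 0) (hw0 : w ∉ ks l s₀) :
    ∃ t : ℝ, 0 < t ∧ (∀ i ∈ II s₀ s, 0 ≤ (s i : ℝ) * l i (x₂ + t • w)) ∧
      (∃ i ∈ II s₀ s, (s i : ℝ) * l i w < 0 ∧ l i (x₂ + t • w) = 0) ∧
      ∀ t' : ℝ, 0 < t' → (∀ i ∈ II s₀ s, 0 ≤ (s i : ℝ) * l i (x₂ + t' • w)) →
        (∃ i ∈ II s₀ s, l i (x₂ + t' • w) = 0) → t' = t := by
  classical
  have hpos : ∀ i ∈ II s₀ s, 0 < (s i : ℝ) * l i x₂ := by
    intro i hi
    have h1 : s i = SignType.sign (l i x₂) := (congrFun hx₂ i).symm
    have h2 := (mem_II.1 hi).2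
    rw [h1] at h2 ⊢
    rw [tb_self]
    exact abs_pos.2 fun h3 => h2 (by rw [h3, sign_zero])
  have hne : ((II s₀ s).filter fun i => (s i : ℝ) * l i w < 0).Nonempty := by
    by_contra hcon
    rw [Finset.not_nonempty_iff_eq_empty, Finset.filter_eq_empty_iff] at hcon
    exact hw0 (tb_one l hw (fun i hi => not_lt.1 (hcon hi)) hφ)
  obtain ⟨j, hj, hmin⟩ := Finset.exists_min_image _
    (fun i => ((s i : ℝ) * l i x₂) / (-((s i : ℝ) * l i w))) hne
  rw [Finset.mem_filter] at hj
  obtain ⟨hjI, hjw⟩ := hj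
  have hexp : ∀ i (t : ℝ), (s i : ℝ) * l i (x₂ + t • w) =
      (s i : ℝ) * l i x₂ + t * ((s i : ℝ) * l i w) := by
    intro i t
    rw [map_add, map_smul, smul_eq_mul]
    ring
  set t : ℝ := ((s j : ℝ) * l j x₂) / (-((s j : ℝ) * l j w)) with ht
  have htpos : 0 < t := div_pos (hpos j hjI) (by linarith)
  have hjt : (s j : ℝ) * l j x₂ + t * ((s j : ℝ) * l j w) = 0 := by
    have h1 : t * (-((s j : ℝ) * l j w)) = (s j : ℝ) * l j x₂ := by
      rw [ht]
      exact div_mul_cancel₀ _ (by linarith)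
    linarith
  have hnn : ∀ i ∈ II s₀ s, 0 ≤ (s i : ℝ) * l i (x₂ + t • w) := by
    intro i hi
    rw [hexp]
    rcases lt_or_ge ((s i : ℝ) * l i w) 0 with h1 | h1
    · have h2 := hmin i (Finset.mem_filter.2 ⟨hi, h1⟩)
      have h3 : t ≤ ((s i : ℝ) * l i x₂) / (-((s i : ℝ) * l i w)) := h2
      rw [le_div_iff₀ (by linarith)] at h3
      linarith
    · have h2 := hpos i hi
      have h3 := mul_nonneg htpos.le h1
      linarith
  refine ⟨t, htpos, hnn, ⟨j, hjI, hjw, ?_⟩, ?_⟩
  · have h1 := hexp j t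
    rw [hjt] at h1
    exact (mul_eq_zero.1 h1).resolve_left (tb_cast_ne (mem_II.1 hjI).2)
  · rintro t' ht' hnn' ⟨i, hi, hi0⟩
    apply le_antisymm
    · by_contra hcon
      rw [not_le] at hcon
      have h1 := hnn' j hjI
      rw [hexp] at h1
      nlinarith
    · by_contra hcon
      rw [not_le] at hcon
      have h1 := hexp i t'
      rw [hi0, mul_zero] at h1
      have h2 := hpos i hi
      have h3 : (s i : ℝ) * l i w < 0 := by
        by_contra h4
        rw [not_lt] at h4
        have := mul_nonneg ht'.le h4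
        linarith
      have h4 := hnn i hi
      rw [hexp] at h4
      nlinarith

/-- the tilt in a direction at the end of the segment is in the set -/
private lemma tb_mem {s₀ s : ι → SignType} {x₂ y : E} (h₀ : Rz l s₀) (hle : sle s₀ s)
    (hd : dm l s = dm l s₀ + 2) (hx₂ : sg l x₂ = s) (hy : y ∈ ks l s) (hφ : 0 < ph l s₀ s y)
    (hnn : ∀ i ∈ II s₀ s, 0 ≤ (s i : ℝ) * l i y) (hz : ∃ i ∈ II s₀ s, l i y = 0) :
    Rz l (tilt l s₀ y) ∧ sle s₀ (tilt l s₀ y) ∧ sle (tilt l s₀ y) s ∧
      dm l (tilt l s₀ y) = dm l s₀ + 1 := by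
  have hle2 : sle (tilt l s₀ y) s := by
    intro i
    unfold tilt
    by_cases h0 : s₀ i = 0
    · rw [if_pos h0]
      by_cases hs : s i = 0
      · left
        rw [hy i hs, sign_zero]
      · by_cases hly : l i y = 0
        · left
          rw [hly, sign_zero]
        · right
          exact tb_sign hs (hnn i (mem_II.2 ⟨h0, hs⟩)) hly
    · rw [if_neg h0]
      right
      exact (hle i).resolve_left h0
  have hyn : y ∉ ks l s₀ := by
    intro h1
    rw [ph_zero l h1] at hφ
    exact lt_irrefl _ hφ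
  have h1 := dm_lt_tilt l hyn
  have h2 : dm l (tilt l s₀ y) < dm l s := by
    refine Submodule.finrank_lt_finrank_of_lt (lt_of_le_of_ne (ks_mono hle2) ?_)
    intro h3
    obtain ⟨i, hi, hi0⟩ := hz
    have h4 : x₂ ∈ ks l (tilt l s₀ y) := by
      rw [h3]
      exact sg_mem_ks hx₂
    have h5 : tilt l s₀ y i = 0 := by
      unfold tilt
      rw [if_pos (mem_II.1 hi).1, hi0, sign_zero]
    have h6 := h4 i h5
    have h7 : s i = SignType.sign (l i x₂) := (congrFun hx₂ i).symm
    rw [h6, sign_zero] at h7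
    exact (mem_II.1 hi).2 h7
  obtain ⟨x₀, hx₀⟩ := h₀
  obtain ⟨δ, hδ, h3⟩ := tilt_eq l y hx₀
  exact ⟨⟨_, h3 δ hδ le_rfl⟩, sle_tilt l s₀ y, hle2, by omega⟩

/-- the span of the larger cell -/
private lemma tb_basis {s₀ s : ι → SignType} {x₂ : E} (hle : sle s₀ s)
    (hd : dm l s = dm l s₀ + 2) (hx₂ : x₂ ∈ ks l s) (hφ : 0 < ph l s₀ s x₂) :
    ∃ w ∈ ks l s, ph l s₀ s w = 0 ∧ w ∉ ks l s₀ ∧
      ∀ y ∈ ks l s, ∃ e ∈ ks l s₀, ∃ α β : ℝ, y = e + α • x₂ + β • w := by
  have hx₂0 : x₂ ∉ ks l s₀ := by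
    intro h1
    rw [ph_zero l h1] at hφ
    exact lt_irrefl _ hφ
  have hlt1 : ks l s₀ < ks l s₀ ⊔ Submodule.span ℝ {x₂} := by
    refine lt_of_le_of_ne le_sup_left ?_
    intro h1
    apply hx₂0
    rw [h1]
    exact le_sup_right (a := ks l s₀) (Submodule.mem_span_singleton_self x₂)
  have hf1 := Submodule.finrank_lt_finrank_of_lt hlt1
  have hle1 : ks l s₀ ⊔ Submodule.span ℝ {x₂} ≤ ks l s :=
    sup_le (ks_mono hle) (by rwa [Submodule.span_singleton_le_iff_mem])
  have hfu : Module.finrank ℝ (ks l s₀ ⊔ Submodule.span ℝ {x₂} : Submodule ℝ E) ≤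
      Module.finrank ℝ (ks l s₀) + 1 := by
    refine (Submodule.finrank_add_le_finrank_add_finrank _ _).trans ?_
    have h1 := finrank_span_le_card (R := ℝ) ({x₂} : Set E)
    simp only [Set.toFinset_singleton, Finset.card_singleton] at h1
    omega
  obtain ⟨w', hw', hw'n⟩ : ∃ w' ∈ ks l s, w' ∉ ks l s₀ ⊔ Submodule.span ℝ {x₂} := by
    by_contra hcon
    push Not at hcon
    have h1 : ks l s ≤ ks l s₀ ⊔ Submodule.span ℝ {x₂} := fun x hx => hcon x hx
    have h2 := Submodule.finrank_mono h1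
    unfold dm at hd
    omega
  have hlt2 : ks l s₀ ⊔ Submodule.span ℝ {x₂} <
      ks l s₀ ⊔ Submodule.span ℝ {x₂} ⊔ Submodule.span ℝ {w'} := by
    refine lt_of_le_of_ne le_sup_left ?_
    intro h1
    apply hw'n
    rw [h1]
    exact le_sup_right (a := ks l s₀ ⊔ Submodule.span ℝ {x₂})
      (Submodule.mem_span_singleton_self w')
  have hf2 := Submodule.finrank_lt_finrank_of_lt hlt2
  have hle2 : ks l s₀ ⊔ Submodule.span ℝ {x₂} ⊔ Submodule.span ℝ {w'} ≤ ks l s :=
    sup_le hle1 (by rwa [Submodule.span_singleton_le_iff_mem])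
  have heq : ks l s₀ ⊔ Submodule.span ℝ {x₂} ⊔ Submodule.span ℝ {w'} = ks l s := by
    refine Submodule.eq_of_le_of_finrank_le hle2 ?_
    unfold dm at hd
    omega
  set c : ℝ := ph l s₀ s w' / ph l s₀ s x₂ with hc
  refine ⟨w' - c • x₂, Submodule.sub_mem _ hw' (Submodule.smul_mem _ _ hx₂), ?_, ?_, ?_⟩
  · rw [map_sub, map_smul, smul_eq_mul, hc, div_mul_cancel₀ _ hφ.ne', sub_self]
  · intro h1
    apply hw'n
    have h2 : w' = (w' - c • x₂) + c • x₂ := by abel
    rw [h2]
    exact Submodule.add_mem_sup h1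
      (Submodule.smul_mem _ _ (Submodule.mem_span_singleton_self x₂))
  · intro y hy
    rw [← heq, Submodule.mem_sup] at hy
    obtain ⟨y1, hy1, z, hz, rfl⟩ := hy
    rw [Submodule.mem_sup] at hy1
    obtain ⟨e, he, z', hz', rfl⟩ := hy1
    obtain ⟨b, rfl⟩ := Submodule.mem_span_singleton.1 hz
    obtain ⟨a, rfl⟩ := Submodule.mem_span_singleton.1 hz'
    refine ⟨e, he, a + b * c, b, ?_⟩
    rw [smul_sub, add_smul, smul_smul]
    abel

open Classical in
/-- Between two cells whose dimensions differ by two there is an even number of cells. -/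
theorem even_between {s₀ s : ι → SignType} (h₀ : Rz l s₀) (h : Rz l s) (hle : sle s₀ s)
    (hd : dm l s = dm l s₀ + 2) :
    Even (univ.filter fun s' : ι → SignType =>
      Rz l s' ∧ sle s₀ s' ∧ sle s' s ∧ dm l s' = dm l s₀ + 1).card := by
  obtain ⟨x₂, hx₂⟩ := h
  have hx₂K := sg_mem_ks hx₂
  have hpos : ∀ i ∈ II s₀ s, 0 < (s i : ℝ) * l i x₂ := by
    intro i hi
    have h1 : s i = SignType.sign (l i x₂) := (congrFun hx₂ i).symm
    have h2 := (mem_II.1 hi).2
    rw [h1] at h2 ⊢
    rw [tb_self]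
    exact abs_pos.2 fun h3 => h2 (by rw [h3, sign_zero])
  have hIne : (II s₀ s).Nonempty := by
    by_contra hcon
    rw [Finset.not_nonempty_iff_eq_empty] at hcon
    have h1 : ks l s ≤ ks l s₀ := by
      intro x hx i hi
      by_cases hs : s i = 0
      · exact hx i hs
      · have h2 : i ∈ II s₀ s := mem_II.2 ⟨hi, hs⟩
        rw [hcon] at h2
        exact absurd h2 (Finset.notMem_empty i)
    have h2 := Submodule.finrank_mono h1
    unfold dm at hd
    omega
  have hφ : 0 < ph l s₀ s x₂ := by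
    rw [ph_apply]
    exact Finset.sum_pos hpos hIne
  obtain ⟨w, hw, hφw, hw0, hdec⟩ := tb_basis l hle hd hx₂K hφ
  have hnw : -w ∈ ks l s := Submodule.neg_mem _ hw
  have hφnw : ph l s₀ s (-w) = 0 := by rw [map_neg, hφw, neg_zero]
  have hnw0 : -w ∉ ks l s₀ := fun h1 => hw0 (by
    have h2 := Submodule.neg_mem _ h1
    rwa [neg_neg] at h2)
  obtain ⟨b, hb, hbn, ⟨j, hjI, hjw, hj0⟩, hbu⟩ := tb_side l hx₂ hw hφw hw0
  obtain ⟨a, ha, han, ⟨j', hjI', hjw', hj0'⟩, hau⟩ := tb_side l hx₂ hnw hφnw hnw0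
  have hy1 : x₂ + b • w ∈ ks l s := Submodule.add_mem _ hx₂K (Submodule.smul_mem _ _ hw)
  have hy2 : x₂ + a • (-w) ∈ ks l s := Submodule.add_mem _ hx₂K (Submodule.smul_mem _ _ hnw)
  have hp1 : 0 < ph l s₀ s (x₂ + b • w) := by
    rw [map_add, map_smul, hφw, smul_zero, add_zero]
    exact hφ
  have hp2 : 0 < ph l s₀ s (x₂ + a • (-w)) := by
    rw [map_add, map_smul, hφnw, smul_zero, add_zero]
    exact hφ
  have hm1 := tb_mem l h₀ hle hd hx₂ hy1 hp1 hbn ⟨j, hjI, hj0⟩
  have hm2 := tb_mem l h₀ hle hd hx₂ hy2 hp2 han ⟨j', hjI', hj0'⟩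
  have hneq : tilt l s₀ (x₂ + b • w) ≠ tilt l s₀ (x₂ + a • (-w)) := by
    intro h1
    have h2 := congrFun h1 j
    unfold tilt at h2
    rw [if_pos (mem_II.1 hjI).1, if_pos (mem_II.1 hjI).1, hj0, sign_zero] at h2
    have h3 : l j (x₂ + a • (-w)) = 0 := sign_eq_zero_iff.1 h2.symm
    have h4 := hpos j hjI
    have h5 : (s j : ℝ) * l j (x₂ + a • (-w)) = (s j : ℝ) * l j x₂ - a * ((s j : ℝ) * l j w) := by
      rw [map_add, map_smul, map_neg, smul_eq_mul]
      ring
    rw [h3, mul_zero] at h5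
    nlinarith
  have hset : (univ.filter fun s' : ι → SignType =>
      Rz l s' ∧ sle s₀ s' ∧ sle s' s ∧ dm l s' = dm l s₀ + 1) =
      {tilt l s₀ (x₂ + b • w), tilt l s₀ (x₂ + a • (-w))} := by
    ext s'
    rw [Finset.mem_filter, Finset.mem_insert, Finset.mem_singleton]
    constructor
    · rintro ⟨-, ⟨y, hy⟩, hs1, hs2, hds⟩
      have hyK : y ∈ ks l s := ks_mono hs2 (sg_mem_ks hy)
      have hsi : ∀ i, s' i = SignType.sign (l i y) := fun i => (congrFun hy i).symm
      have hynn : ∀ i ∈ II s₀ s, 0 ≤ (s i : ℝ) * l i y := by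
        intro i _
        rcases hs2 i with h1 | h1
        · have h2 : l i y = 0 := sign_eq_zero_iff.1 ((hsi i).symm.trans h1)
          rw [h2, mul_zero]
        · rw [← h1, hsi i, tb_self]
          exact abs_nonneg _
      have hy0 : y ∉ ks l s₀ := by
        intro h1
        have h2 : s' = s₀ := by
          funext i
          rcases hs1 i with h3 | h3
          · rw [h3, hsi i, h1 i h3, sign_zero]
          · exact h3.symm
        rw [h2] at hds
        omega
      have hφy : 0 < ph l s₀ s y := by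
        rcases eq_or_lt_of_le (show 0 ≤ ph l s₀ s y by
          rw [ph_apply]
          exact Finset.sum_nonneg hynn) with h1 | h1
        · exact absurd (tb_one l hyK hynn h1.symm) hy0
        · exact h1
      obtain ⟨i, hiI, hi0⟩ : ∃ i ∈ II s₀ s, l i y = 0 := by
        by_contra hcon
        push Not at hcon
        have h1 : ks l s ≤ ks l s' := by
          intro x hx i hi
          have h2 : s₀ i = 0 := by
            rcases hs1 i with h3 | h3
            · exact h3
            · rw [h3, hi]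
          by_cases hs : s i = 0
          · exact hx i hs
          · exact absurd (sign_eq_zero_iff.1 ((hsi i).symm.trans hi))
              (hcon i (mem_II.2 ⟨h2, hs⟩))
        have h2 := Submodule.finrank_mono h1
        unfold dm at hd hds
        omega
      obtain ⟨e, he, α, β, hye⟩ := hdec y hyK
      have hφα : ph l s₀ s y = α * ph l s₀ s x₂ := by
        rw [hye, map_add, map_add, map_smul, map_smul, hφw, ph_zero l he, smul_eq_mul, smul_zero]
        ring
      have hα : 0 < α := by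
        rw [hφα] at hφy
        by_contra hc
        rw [not_lt] at hc
        have := mul_nonpos_of_nonpos_of_nonneg hc hφ.le
        linarith
      have hy' : y = e + α • (x₂ + (β / α) • w) := by
        rw [hye, smul_add, smul_smul, mul_div_cancel₀ _ hα.ne', add_assoc]
      have hval : ∀ i ∈ II s₀ s, l i y = α * l i (x₂ + (β / α) • w) := by
        intro i hi
        conv_lhs => rw [hy', map_add, map_smul, he i (mem_II.1 hi).1, zero_add, smul_eq_mul]
      have hnn' : ∀ i ∈ II s₀ s, 0 ≤ (s i : ℝ) * l i (x₂ + (β / α) • w) := by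
        intro i hi
        have h1 := hynn i hi
        rw [hval i hi] at h1
        have h2 : (s i : ℝ) * (α * l i (x₂ + (β / α) • w)) =
            α * ((s i : ℝ) * l i (x₂ + (β / α) • w)) := by ring
        rw [h2] at h1
        exact nonneg_of_mul_nonneg_right h1 hα
      have hz' : l i (x₂ + (β / α) • w) = 0 := by
        have h1 := hval i hiI
        rw [hi0] at h1
        exact (mul_eq_zero.1 h1.symm).resolve_left hα.ne'
      rcases lt_trichotomy (β / α) 0 with ht | ht | ht
      · right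
        have h1 : (-(β / α)) • (-w) = (β / α) • w := by rw [smul_neg, neg_smul, neg_neg]
        have h2 := hau (-(β / α)) (by linarith) (by rw [h1]; exact hnn')
          ⟨i, hiI, by rw [h1]; exact hz'⟩
        rw [← h2, h1]
        exact eq_tilt l hs1 hy he hα hy'
      · exfalso
        rw [ht, zero_smul, add_zero] at hz'
        have h1 := hpos i hiI
        rw [hz', mul_zero] at h1
        exact lt_irrefl _ h1
      · left
        have h2 := hbu (β / α) ht hnn' ⟨i, hiI, hz'⟩
        rw [← h2]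
        exact eq_tilt l hs1 hy he hα hy'
    · rintro (rfl | rfl)
      · exact ⟨Finset.mem_univ _, hm1⟩
      · exact ⟨Finset.mem_univ _, hm2⟩
  rw [hset, Finset.card_pair hneq]
  exact even_two

/-- The square of the boundary operator is zero. -/
theorem bd_bd {F : Type} [Field F] [CharP F 2] {s₀ : ι → SignType} (h : Cell l P p s₀)
    (z : (ι → SignType) → F) : ∑ s' ∈ up l P p s₀, ∑ s ∈ up l P p s', z s = 0 := by
  classical
  rw [Finset.sum_comm' (t' := univ) (s' := fun s => (up l P p s₀).filter fun s' => s ∈ up l P p s')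
    (h := fun x y => by simp)]
  refine Finset.sum_eq_zero fun s _ => ?_
  rw [Finset.sum_const]
  have hev : Even ((up l P p s₀).filter fun s' => s ∈ up l P p s').card := by
    rcases Finset.eq_empty_or_nonempty ((up l P p s₀).filter fun s' => s ∈ up l P p s') with
      h1 | ⟨s', hs'⟩
    · rw [h1, Finset.card_empty]
      exact Even.zero
    · rw [Finset.mem_filter, mem_up, mem_up] at hs'
      obtain ⟨⟨hc', hs1, hd1⟩, hc, hs2, hd2⟩ := hs'
      have h2 := even_between l h.1 hc.1 (sle_trans hs1 hs2) (by omega)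
      have h3 : ((up l P p s₀).filter fun s' => s ∈ up l P p s') =
          univ.filter fun s' : ι → SignType =>
            Rz l s' ∧ sle s₀ s' ∧ sle s' s ∧ dm l s' = dm l s₀ + 1 := by
        ext s''
        rw [Finset.mem_filter, Finset.mem_filter, mem_up, mem_up]
        constructor
        · rintro ⟨⟨h4, h5, h6⟩, h7, h8, h9⟩
          exact ⟨Finset.mem_univ _, h4.1, h5, h8, h6⟩
        · rintro ⟨-, h4, h5, h6, h7⟩
          have h8 : Cell l P p s'' := by
            refine ⟨h4, fun i hi => ?_⟩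
            by_cases hp : p i = 0
            · have h9 : s i = 0 := (hc.2 i hi).trans hp
              rcases h6 i with h10 | h10
              · rw [h10, hp]
              · rw [h10, h9, hp]
            · have h9 : s₀ i = p i := h.2 i hi
              rcases h5 i with h10 | h10
              · exact absurd (h9.symm.trans h10) hp
              · rw [← h10, h9]
          exact ⟨⟨h8, h5, h7⟩, hc, h6, by omega⟩
      rw [h3]
      exact h2
  obtain ⟨k, hk⟩ := hev
  rw [hk, ← two_mul, mul_smul, two_nsmul, CharTwo.add_self_eq_zero]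

end Pool.Agent.LocH.Sg
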