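import Pool.Agent.LocH.TB

/-!
# Package TC: acyclicity of the complex of the cells of a pattern

Paper proof (P1.1, (Acyc) of `/team-store/LHV_proof.md`). Write `d = dp l P p`. Only the values of chains on
cells of the right dimension matter. Induction on the number of the `i ∉ P` (`Pᶜ.card`), for all `p`, `j`,
`z`.
* `P = univ`: the only cell is `p` itself, `ks l p = kp l univ p`. For `j < d` there are no cells of
  dimension `j`; for `j = d` all cells are equal.
* `i ∉ P`. For a sign `e` the pattern `insert i P`, `Function.update p i e` is denoted `π^e`; its cells are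
  the cells `s` of the pattern with `s i = e`.
 (a) `l i = 0` on `kp l P p`: all cells have `s i = 0` (points of `OP l P p` are in `kp l P p`); cells, `up`
  and `dp` are the same for `π^0`.
 (b) `l i` has no zero on `OP l P p`: by convexity of `OP l P p` (for `x, y ∈ OP l P p` the point
  `a x + b y`, `a, b > 0`, is in `OP l P p`) the sign of `l i` on `OP l P p` is a constant `e ≠ 0`; cells,
  `up`, `dp` are the same for `π^e`.
 (c) otherwise: `x ∈ OP l P p` with `l i x = 0` and `u ∈ kp l P p` with `l i u ≠ 0`. All three of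
  `OP (π^1)`, `OP (π^0)`, `OP (π^(-1))` are nonempty (`x ± ε u`, see `tilt_eq`, `tilt_cell`),
  `dp (π^±1) = d` (`kp` is the same), `dp (π^0) = d - 1` (`kp (π^0) = kp ⊓ ker (l i)`). If `s` is a cell of
  `π^e`, `e ≠ 0`, then `up l P p s = up (π^e) s` (`s ≤ s'` implies `s' i = e`). If `s` is a cell of `π^0`
  then `up (π^0) s` is the set of the `s' ∈ up l P p s` with `s' i = 0`.
  `j < d`: the hypothesis on `z` holds for `π^1` and `π^(-1)` (previous remark), so there are `y⁺`, `y⁻`.
   Let `y₁ s' = y⁺ s'` if `s' i = 1`, `y⁻ s'` if `s' i = -1`, `0` if `s' i = 0`, and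
   `z' s = z s - ∑ s' ∈ up l P p s, y₁ s'`. `z'` is `0` on the cells of dimension `j` of `π^±1`. On `π^0`
   it satisfies the hypothesis: for a cell `s` of `π^0` with `dm l s + 1 = j` the sum of `z'` over
   `up (π^0) s` is the sum over `up l P p s` (the other values are zero), which is zero by hypothesis and
   `bd_bd`. If `j < d - 1`: induction gives `y⁰` on `π^0`; let `y = y₁ + (y⁰` on `s' i = 0`, else `0)`. If
   `j = d - 1`: `z'` is a constant `k` on the cells of dimension `d - 1` of `π^0`; let
   `y s' = y₁ s' + k` if `s' i = 1` and `y s' = y₁ s'` otherwise. Check: for a cell `s` of dimension `d - 1`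
   the number of the `s' ∈ up l P p s` with `s' i = 1` is `2` if `s i = 1` (`up_card_two`, all of `up` has
   `s' i = 1`), `0` if `s i = -1`, and `1` if `s i = 0` (`up_card_one`).
  `j = d`: `z` is a constant `k⁺` on the top cells of `π^1` and `k⁻` on those of `π^(-1)`, and there are no
   cells of dimension `d` in `π^0` (`dm_le`). Let `s` be a cell of `π^0` of dimension `d - 1`
   (`exists_top`): the hypothesis at `s`, with `up_card_two`, `up_card_one` (one element of `up l P p s` has
   `s' i = 1`, the other `s' i = -1`) gives `k⁺ + k⁻ = 0`, so `k⁺ = k⁻`.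
-/

set_option autoImplicit false

open Finset

namespace Pool.Agent.LocH.Sg

variable {E ι : Type} [AddCommGroup E] [Module ℝ E] [FiniteDimensional ℝ E] [Fintype ι]
  (l : ι → E →ₗ[ℝ] ℝ)

section

variable {l} {P : Finset ι} {p : ι → SignType}

omit [FiniteDimensional ℝ E] [Fintype ι] in
private theorem cell_ins [DecidableEq ι] {i : ι} (hi : i ∉ P) {e : SignType}
    {s : ι → SignType} :
    Cell l (insert i P) (Function.update p i e) s ↔ Cell l P p s ∧ s i = e := by
  constructor
  · rintro ⟨h1, h2⟩
    refine ⟨⟨h1, fun k hk => ?_⟩, ?_⟩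
    · rw [h2 k (Finset.mem_insert_of_mem hk), Function.update_of_ne]
      rintro rfl
      exact hi hk
    · rw [h2 i (Finset.mem_insert_self i P), Function.update_self]
  · rintro ⟨⟨h1, h2⟩, h3⟩
    refine ⟨h1, fun k hk => ?_⟩
    rcases Finset.mem_insert.1 hk with rfl | hk'
    · rw [Function.update_self, h3]
    · rw [h2 k hk', Function.update_of_ne]
      rintro rfl
      exact hi hk'

omit [FiniteDimensional ℝ E] [Fintype ι] in
private theorem kp_ins_ne [DecidableEq ι] {i : ι} (hi : i ∉ P) {e : SignType} (he : e ≠ 0) :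
    kp l (insert i P) (Function.update p i e) = kp l P p := by
  ext x
  rw [mem_kp, mem_kp]
  constructor
  · intro h k hk h0
    refine h k (Finset.mem_insert_of_mem hk) ?_
    rw [Function.update_of_ne]
    · exact h0
    · rintro rfl
      exact hi hk
  · intro h k hk h0
    rcases Finset.mem_insert.1 hk with rfl | hk'
    · rw [Function.update_self] at h0
      exact absurd h0 he
    · refine h k hk' ?_
      rw [Function.update_of_ne] at h0
      · exact h0
      · rintro rfl
        exact hi hk'

omit [FiniteDimensional ℝ E] [Fintype ι] in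
private theorem kp_ins_zero [DecidableEq ι] {i : ι} (hi : i ∉ P) :
    kp l (insert i P) (Function.update p i 0) = kp l P p ⊓ LinearMap.ker (l i) := by
  ext x
  rw [Submodule.mem_inf, LinearMap.mem_ker, mem_kp, mem_kp]
  constructor
  · intro h
    refine ⟨fun k hk h0 => ?_, ?_⟩
    · refine h k (Finset.mem_insert_of_mem hk) ?_
      rw [Function.update_of_ne]
      · exact h0
      · rintro rfl
        exact hi hk
    · refine h i (Finset.mem_insert_self i P) ?_
      rw [Function.update_self]
  · rintro ⟨h, h'⟩ k hk h0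
    rcases Finset.mem_insert.1 hk with rfl | hk'
    · exact h'
    · refine h k hk' ?_
      rw [Function.update_of_ne] at h0
      · exact h0
      · rintro rfl
        exact hi hk'

private theorem finrank_inf_ker {K : Submodule ℝ E} {f : E →ₗ[ℝ] ℝ} {u : E} (hu : u ∈ K)
    (hf : f u ≠ 0) :
    Module.finrank ℝ (K ⊓ LinearMap.ker f : Submodule ℝ E) + 1 = Module.finrank ℝ K := by
  have h1 := LinearMap.finrank_range_add_finrank_ker (f.domRestrict K)
  have h2 : LinearMap.range (f.domRestrict K) = ⊤ := by
    rw [LinearMap.range_eq_top]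
    intro t
    refine ⟨(t / f u) • ⟨u, hu⟩, ?_⟩
    rw [map_smul, LinearMap.domRestrict_apply, smul_eq_mul, div_mul_cancel₀ _ hf]
  have h3 : Module.finrank ℝ (LinearMap.ker (f.domRestrict K)) =
      Module.finrank ℝ (K ⊓ LinearMap.ker f : Submodule ℝ E) := by
    rw [← Submodule.map_comap_subtype, Submodule.finrank_map_subtype_eq]
    rfl
  rw [h2, finrank_top, Module.finrank_self, h3] at h1
  omega

omit [FiniteDimensional ℝ E] [Fintype ι] in
private theorem OP_comb {x y : E} (hx : x ∈ OP l P p) (hy : y ∈ OP l P p) {a b : ℝ} (ha : 0 < a)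
    (hb : 0 < b) : a • x + b • y ∈ OP l P p := by
  intro k hk
  have h1 := hx k hk
  have h2 := hy k hk
  rw [map_add, map_smul, map_smul, smul_eq_mul, smul_eq_mul]
  rcases lt_trichotomy (l k x) 0 with h | h | h
  · rw [sign_neg h] at h1
    rw [← h1] at h2
    have h3 : l k y < 0 := sign_eq_neg_one_iff.1 h2
    rw [← h1]
    exact sign_neg (add_neg (mul_neg_of_pos_of_neg ha h) (mul_neg_of_pos_of_neg hb h3))
  · rw [h, sign_zero] at h1
    rw [← h1] at h2
    have h3 : l k y = 0 := sign_eq_zero_iff.1 h2
    rw [← h1, h, h3, mul_zero, mul_zero, add_zero, sign_zero]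
  · rw [sign_pos h] at h1
    rw [← h1] at h2
    have h3 : 0 < l k y := sign_eq_one_iff.1 h2
    rw [← h1]
    exact sign_pos (add_pos (mul_pos ha h) (mul_pos hb h3))

omit [FiniteDimensional ℝ E] [Fintype ι] in
/-- a functional without zeros has a constant sign -/
private theorem sign_const {i : ι} (h : ∀ x ∈ OP l P p, l i x ≠ 0) {x y : E}
    (hx : x ∈ OP l P p) (hy : y ∈ OP l P p) : SignType.sign (l i y) = SignType.sign (l i x) := by
  have hx0 := h x hx
  have hy0 := h y hy
  rcases lt_or_gt_of_ne hx0 with h1 | h1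
  · rcases lt_or_gt_of_ne hy0 with h2 | h2
    · rw [sign_neg h1, sign_neg h2]
    · exfalso
      refine h _ (OP_comb hx hy (a := l i y) (b := -l i x) h2 (by linarith)) ?_
      rw [map_add, map_smul, map_smul, smul_eq_mul, smul_eq_mul]
      ring
  · rcases lt_or_gt_of_ne hy0 with h2 | h2
    · exfalso
      refine h _ (OP_comb hx hy (a := -l i y) (b := l i x) (by linarith) h1) ?_
      rw [map_add, map_smul, map_smul, smul_eq_mul, smul_eq_mul]
      ring
    · rw [sign_pos h1, sign_pos h2]

omit [FiniteDimensional ℝ E] in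
private theorem up_ins [DecidableEq ι] {i : ι} (hi : i ∉ P) {e : SignType} {s : ι → SignType} :
    up l (insert i P) (Function.update p i e) s = (up l P p s).filter fun s' => s' i = e := by
  ext s'
  rw [Finset.mem_filter, mem_up, mem_up, cell_ins hi]
  tauto

omit [FiniteDimensional ℝ E] in
private theorem up_const {i : ι} {s s' : ι → SignType} (h : s' ∈ up l P p s) (h0 : s i ≠ 0) :
    s' i = s i := by
  rcases (mem_up.1 h).2.1 i with h1 | h1
  · exact absurd h1 h0
  · exact h1.symm

omit [FiniteDimensional ℝ E] in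
private theorem up_ins_ne [DecidableEq ι] {i : ι} (hi : i ∉ P) {e : SignType} (he : e ≠ 0)
    {s : ι → SignType} (hs : s i = e) :
    up l (insert i P) (Function.update p i e) s = up l P p s := by
  rw [up_ins hi, Finset.filter_true_of_mem]
  intro s' h
  rw [up_const h (by rw [hs]; exact he), hs]

end

/-- the conclusion for one pattern -/
private def Acy {E ι : Type} [AddCommGroup E] [Module ℝ E] [FiniteDimensional ℝ E] [Fintype ι]
    (l : ι → E →ₗ[ℝ] ℝ) (F : Type) [Field F] (P : Finset ι) (p : ι → SignType) : Prop :=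
  ∀ (j : ℕ) (z : (ι → SignType) → F),
    (∀ s, Cell l P p s → dm l s + 1 = j → ∑ s' ∈ up l P p s, z s' = 0) →
    (j < dp l P p → ∃ y : (ι → SignType) → F, ∀ s, Cell l P p s → dm l s = j →
      z s = ∑ s' ∈ up l P p s, y s') ∧
    (j = dp l P p → ∀ s s', Cell l P p s → Cell l P p s' → dm l s = j → dm l s' = j →
      z s = z s')

/-- all cells have the same sign at `i` -/
private theorem acy_same {F : Type} [Field F] [DecidableEq ι] {P : Finset ι}
    {p : ι → SignType} {i : ι} (hi : i ∉ P) {e : SignType}
    (h : Acy l F (insert i P) (Function.update p i e))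
    (hk : kp l (insert i P) (Function.update p i e) = kp l P p)
    (hc : ∀ s, Cell l P p s → s i = e) : Acy l F P p := by
  have e1 : ∀ s, Cell l (insert i P) (Function.update p i e) s ↔ Cell l P p s := by
    intro s
    rw [cell_ins hi]
    exact ⟨fun h => h.1, fun h => ⟨h, hc s h⟩⟩
  have e2 : ∀ s, up l (insert i P) (Function.update p i e) s = up l P p s := by
    intro s
    rw [up_ins hi, Finset.filter_true_of_mem]
    intro s' hs'
    exact hc s' (mem_up.1 hs').1
  have e3 : dp l (insert i P) (Function.update p i e) = dp l P p := by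
    unfold dp
    rw [hk]
  intro j z hz
  have h1 := h j z (fun s hs hj => by rw [e2]; exact hz s ((e1 s).1 hs) hj)
  rw [e3] at h1
  refine ⟨fun hj => ?_, fun hj s s' hs hs' => ?_⟩
  · obtain ⟨y, hy⟩ := h1.1 hj
    exact ⟨y, fun s hs hd => by rw [hy s ((e1 s).2 hs) hd, e2]⟩
  · exact h1.2 hj s s' ((e1 s).2 hs) ((e1 s').2 hs')

private theorem two_zero {F : Type} [Field F] [CharP F 2] (k : F) : (2 : ℕ) • k = 0 := by
  have h : ((2 : ℕ) : F) = 0 := CharP.cast_eq_zero F 2
  rw [nsmul_eq_mul, h, zero_mul]

private theorem sgn_cases (e : SignType) : e = 0 ∨ e = 1 ∨ e = -1 := by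
  cases e
  · exact Or.inl rfl
  · exact Or.inr (Or.inr rfl)
  · exact Or.inr (Or.inl rfl)

private theorem acy_step {F : Type} [Field F] [CharP F 2] [DecidableEq ι] {P : Finset ι}
    {p : ι → SignType} {i : ι} (hi : i ∉ P)
    (h0 : Acy l F (insert i P) (Function.update p i 0))
    (h1 : Acy l F (insert i P) (Function.update p i 1))
    (h2 : Acy l F (insert i P) (Function.update p i (-1)))
    (hO : (OP l (insert i P) (Function.update p i 0)).Nonempty)
    {u : E} (hu : u ∈ kp l P p) (hu' : l i u ≠ 0) : Acy l F P p := by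
  have hz1 : (1 : SignType) ≠ 0 := by decide
  have hz2 : (-1 : SignType) ≠ 0 := by decide
  have h12 : (1 : SignType) ≠ -1 := by decide
  have d1 : dp l (insert i P) (Function.update p i 1) = dp l P p := by
    unfold dp
    rw [kp_ins_ne hi hz1]
  have d2 : dp l (insert i P) (Function.update p i (-1)) = dp l P p := by
    unfold dp
    rw [kp_ins_ne hi hz2]
  have d0 : dp l (insert i P) (Function.update p i 0) + 1 = dp l P p := by
    unfold dp
    rw [kp_ins_zero hi]
    exact finrank_inf_ker hu hu'
  have hne : ∃ x ∈ kp l P p, l i x ≠ 0 := ⟨u, hu, hu'⟩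
  obtain ⟨s₀, c₀, t₀⟩ := exists_top l hO
  have c₀' := (cell_ins hi).1 c₀
  intro j z hz
  have g1 := h1 j z (fun s hs hj => by
    have := (cell_ins hi).1 hs
    rw [up_ins_ne hi hz1 this.2]
    exact hz s this.1 hj)
  have g2 := h2 j z (fun s hs hj => by
    have := (cell_ins hi).1 hs
    rw [up_ins_ne hi hz2 this.2]
    exact hz s this.1 hj)
  rw [d1] at g1
  rw [d2] at g2
  constructor
  · intro hj
    obtain ⟨y1, hy1⟩ := g1.1 hj
    obtain ⟨y2, hy2⟩ := g2.1 hj
    set w : (ι → SignType) → F := fun s' =>
      if s' i = 1 then y1 s' else if s' i = -1 then y2 s' else 0 with hw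
    have w1 : ∀ s', s' i = 1 → w s' = y1 s' := fun s' h => by rw [hw]; exact if_pos h
    have w2 : ∀ s', s' i = -1 → w s' = y2 s' := fun s' h => by
      rw [hw]
      simp only [h]
      rw [if_neg h12.symm, if_pos trivial]
    have zw : ∀ s, Cell l P p s → dm l s = j → s i ≠ 0 → z s = ∑ s' ∈ up l P p s, w s' := by
      intro s hs hd h0'
      rcases sgn_cases (s i) with h | h | h
      · exact absurd h h0'
      · rw [hy1 s ((cell_ins hi).2 ⟨hs, h⟩) hd, up_ins_ne hi hz1 h]
        refine Finset.sum_congr rfl fun s' hs' => ?_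
        rw [w1 s' ((up_const hs' h0').trans h)]
      · rw [hy2 s ((cell_ins hi).2 ⟨hs, h⟩) hd, up_ins_ne hi hz2 h]
        refine Finset.sum_congr rfl fun s' hs' => ?_
        rw [w2 s' ((up_const hs' h0').trans h)]
    set z' : (ι → SignType) → F := fun s => z s - ∑ s' ∈ up l P p s, w s' with hz'
    have g0 := h0 j z' (fun s hs hd => by
      have hs' := (cell_ins hi).1 hs
      rw [up_ins hi, Finset.sum_filter]
      have e1 : ∀ s' ∈ up l P p s, (if s' i = 0 then z' s' else 0) =
          z s' - ∑ s'' ∈ up l P p s', w s'' := by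
        intro s' h'
        by_cases h : s' i = 0
        · rw [if_pos h]
        · have h'' := mem_up.1 h'
          rw [if_neg h, zw s' h''.1 (by omega) h, sub_self]
      rw [Finset.sum_congr rfl e1, Finset.sum_sub_distrib, hz s hs'.1 hd,
        bd_bd l hs'.1 w, sub_zero])
    rcases Nat.lt_or_ge j (dp l (insert i P) (Function.update p i 0)) with hj' | hj'
    · obtain ⟨y0, hy0⟩ := g0.1 hj'
      refine ⟨fun s' => w s' + if s' i = 0 then y0 s' else 0, fun s hs hd => ?_⟩
      rw [Finset.sum_add_distrib]
      by_cases h : s i = 0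
      · have h3 := hy0 s ((cell_ins hi).2 ⟨hs, h⟩) hd
        rw [up_ins hi, Finset.sum_filter, hz'] at h3
        simp only at h3
        rw [← h3]
        ring
      · rw [Finset.sum_eq_zero (s := up l P p s)
          (f := fun s' => if s' i = 0 then y0 s' else 0), add_zero]
        · exact zw s hs hd h
        · intro s' hs'
          rw [if_neg]
          rw [up_const hs' h]
          exact h
    · have hj'' : j = dp l (insert i P) (Function.update p i 0) := by omega
      have hc := g0.2 hj''
      refine ⟨fun s' => w s' + if s' i = 1 then z' s₀ else 0, fun s hs hd => ?_⟩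
      rw [Finset.sum_add_distrib, ← Finset.sum_filter, Finset.sum_const]
      have hd' : dm l s + 1 = dp l P p := by omega
      rcases sgn_cases (s i) with h | h | h
      · rw [up_card_one l hs hd' h hne hz1, one_smul,
          ← hc s s₀ ((cell_ins hi).2 ⟨hs, h⟩) c₀ hd (by omega), hz']
        simp only
        ring
      · have h' : s i ≠ 0 := by rw [h]; exact hz1
        rw [Finset.filter_true_of_mem, up_card_two l hs hd', two_zero, add_zero]
        · exact zw s hs hd h'
        · intro s' hs'
          rw [up_const hs' h', h]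
      · have h' : s i ≠ 0 := by rw [h]; exact hz2
        rw [Finset.filter_false_of_mem, Finset.card_empty, zero_smul, add_zero]
        · exact zw s hs hd h'
        · intro s' hs'
          rw [up_const hs' h', h]
          exact h12.symm
  · intro hj
    have hd0 : dm l s₀ + 1 = dp l P p := by omega
    have htop : ∀ s, Cell l P p s → dm l s = j → s i ≠ 0 := by
      intro s hs hd h
      have := dm_le l ((cell_ins hi).2 ⟨hs, h⟩)
      omega
    obtain ⟨t1, ht1⟩ := Finset.card_eq_one.1 (up_card_one l c₀'.1 hd0 c₀'.2 hne hz1)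
    obtain ⟨t2, ht2⟩ := Finset.card_eq_one.1 (up_card_one l c₀'.1 hd0 c₀'.2 hne hz2)
    have m1 : t1 ∈ (up l P p s₀).filter fun s' => s' i = 1 := by
      rw [ht1]
      exact Finset.mem_singleton_self t1
    have m2 : t2 ∈ (up l P p s₀).filter fun s' => s' i = -1 := by
      rw [ht2]
      exact Finset.mem_singleton_self t2
    rw [Finset.mem_filter] at m1 m2
    have n1 := mem_up.1 m1.1
    have n2 := mem_up.1 m2.1
    have hsum := hz s₀ c₀'.1 (by omega)
    rw [← Finset.sum_filter_add_sum_filter_not (up l P p s₀) (fun s' => s' i = 1)] at hsum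
    have hf : ((up l P p s₀).filter fun s' => ¬s' i = 1) =
        (up l P p s₀).filter fun s' => s' i = -1 := by
      refine Finset.filter_congr fun s' hs' => ?_
      have h3 := mem_up.1 hs'
      have h4 := htop s' h3.1 (by omega)
      rcases sgn_cases (s' i) with h | h | h
      · exact absurd h h4
      · rw [h]
        simp
      · rw [h]
        exact ⟨fun _ => rfl, fun _ => h12.symm⟩
    rw [hf, ht1, ht2, Finset.sum_singleton, Finset.sum_singleton] at hsum
    have ht : z t1 = z t2 := by
      have h3 : z t1 = -z t2 := eq_neg_of_add_eq_zero_left hsum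
      rw [h3, CharTwo.neg_eq]
    have k1 : ∀ s, Cell l P p s → dm l s = j → z s = z t1 := by
      intro s hs hd
      rcases sgn_cases (s i) with h | h | h
      · exact absurd h (htop s hs hd)
      · exact g1.2 hj s t1 ((cell_ins hi).2 ⟨hs, h⟩) ((cell_ins hi).2 ⟨n1.1, m1.2⟩) hd (by omega)
      · rw [ht]
        exact g2.2 hj s t2 ((cell_ins hi).2 ⟨hs, h⟩) ((cell_ins hi).2 ⟨n2.1, m2.2⟩) hd (by omega)
    intro s s' hs hs' hd hd'
    rw [k1 s hs hd, k1 s' hs' hd']

private theorem acy_all {F : Type} [Field F] [CharP F 2] [DecidableEq ι] (n : ℕ) :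
    ∀ (P : Finset ι) (p : ι → SignType), Pᶜ.card = n → (OP l P p).Nonempty → Acy l F P p := by
  induction n with
  | zero =>
    intro P p hP _ j z _
    have hP' : P = univ := by
      rw [Finset.card_eq_zero] at hP
      exact (Finset.compl_eq_empty_iff P).1 hP
    subst hP'
    have e1 : ∀ s, Cell l univ p s → s = p := fun s hs => funext fun i => hs.2 i (mem_univ i)
    have e2 : dm l p = dp l univ p := by
      have : ks l p = kp l univ p := by
        ext x
        rw [mem_ks, mem_kp]
        exact ⟨fun h i _ => h i, fun h i => h i (mem_univ i)⟩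
      unfold dm dp
      rw [this]
    refine ⟨fun hj => ⟨0, fun s hs hd => ?_⟩, fun _ s s' hs hs' _ _ => ?_⟩
    · rw [e1 s hs, e2] at hd
      omega
    · rw [e1 s hs, e1 s' hs']
  | succ n ih =>
    intro P p hP hO
    obtain ⟨i, hi'⟩ : (Pᶜ).Nonempty := by
      rw [← Finset.card_pos, hP]
      omega
    have hi : i ∉ P := Finset.mem_compl.1 hi'
    have hc : (insert i P)ᶜ.card = n := by
      rw [Finset.compl_insert, Finset.card_erase_of_mem hi', hP]
      omega
    have ih' : ∀ e : SignType, (∃ s, Cell l P p s ∧ s i = e) →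
        Acy l F (insert i P) (Function.update p i e) := by
      rintro e ⟨s, hs, he⟩
      refine ih _ _ hc ?_
      obtain ⟨x, rfl⟩ := hs.1
      exact ⟨x, mem_OP_of_cell ((cell_ins hi).2 ⟨hs, he⟩)⟩
    obtain ⟨x, hx⟩ := hO
    by_cases ha : ∀ y ∈ kp l P p, l i y = 0
    · have hall : ∀ s, Cell l P p s → s i = 0 := by
        intro s hs
        obtain ⟨y, rfl⟩ := hs.1
        have h1 : l i y = 0 := ha y (ks_le_kp hs (sg_mem_ks rfl))
        change SignType.sign (l i y) = 0
        rw [h1, sign_zero]
      refine acy_same l hi (ih' 0 ⟨sg l x, cell_sg hx, hall _ (cell_sg hx)⟩) ?_ hall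
      rw [kp_ins_zero hi, inf_eq_left]
      exact fun y hy => LinearMap.mem_ker.2 (ha y hy)
    · push Not at ha
      obtain ⟨u, hu, hu'⟩ := ha
      by_cases hb : ∀ y ∈ OP l P p, l i y ≠ 0
      · have hall : ∀ s, Cell l P p s → s i = SignType.sign (l i x) := by
          intro s hs
          obtain ⟨y, rfl⟩ := hs.1
          exact sign_const hb hx (mem_OP_of_cell hs)
        refine acy_same l hi (ih' _ ⟨sg l x, cell_sg hx, rfl⟩) ?_ hall
        refine kp_ins_ne hi ?_
        intro h
        exact hb x hx (sign_eq_zero_iff.1 h)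
      · push Not at hb
        obtain ⟨x₀, hx₀, hx₀'⟩ := hb
        have c0 := cell_sg hx₀
        have v0 : sg l x₀ i = 0 := by
          change SignType.sign (l i x₀) = 0
          rw [hx₀', sign_zero]
        have ct : ∀ v ∈ kp l P p, ∃ s, Cell l P p s ∧ s i = SignType.sign (l i v) := by
          intro v hv
          refine ⟨tilt l (sg l x₀) v, tilt_cell l c0 hv, ?_⟩
          unfold tilt
          rw [if_pos v0]
        have hpm : (∃ s, Cell l P p s ∧ s i = 1) ∧ ∃ s, Cell l P p s ∧ s i = -1 := by
          have hnu : -u ∈ kp l P p := Submodule.neg_mem _ hu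
          rcases lt_or_gt_of_ne hu' with h | h
          · have a1 := ct u hu
            have a2 := ct (-u) hnu
            rw [sign_neg h] at a1
            rw [map_neg, sign_pos (by linarith)] at a2
            exact ⟨a2, a1⟩
          · have a1 := ct u hu
            have a2 := ct (-u) hnu
            rw [sign_pos h] at a1
            rw [map_neg, sign_neg (by linarith)] at a2
            exact ⟨a1, a2⟩
        exact acy_step l hi (ih' 0 ⟨_, c0, v0⟩) (ih' 1 hpm.1) (ih' (-1) hpm.2)
          ⟨x₀, mem_OP_of_cell ((cell_ins hi).2 ⟨c0, v0⟩)⟩ hu hu'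

/-- The complex of the cells of a pattern is exact below the top dimension, the top cycles are the
constants. -/
theorem acyc {F : Type} [Field F] [CharP F 2] {P : Finset ι} {p : ι → SignType}
    (hO : (OP l P p).Nonempty) (j : ℕ) (z : (ι → SignType) → F)
    (hz : ∀ s, Cell l P p s → dm l s + 1 = j → ∑ s' ∈ up l P p s, z s' = 0) :
    (j < dp l P p → ∃ y : (ι → SignType) → F, ∀ s, Cell l P p s → dm l s = j →
      z s = ∑ s' ∈ up l P p s, y s') ∧
    (j = dp l P p → ∀ s s', Cell l P p s → Cell l P p s' → dm l s = j → dm l s' = j →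
      z s = z s') := by
  classical
  exact acy_all l Pᶜ.card P p rfl hO j z hz

end Pool.Agent.LocH.Sg
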