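import Pool.Agent.LocH.TC

/-!
# Package TD: comparison of coarse cells with sign vectors

Data: a pattern `PO, pO` (the big cell `O`), and a finite family `𝒯` of sets `τ` with patterns
`PT τ, pT τ` (the coarse cells `T(τ)`), `κ s` = the coarse cell containing the cell `s` of `O`. Hypotheses
`h1`-`h5`. Conclusion: the complex of the coarse cells is exact below the top size `m`, the top cycles are
the constants. Paper proof (P1.2, last part, of `/team-store/LHV_proof.md`):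

Preliminaries. For a cell `s` of `O`: `dm l s ≤ (κ s).card` (`h1`, `h2`, `h3`, `dm_le`) and
`dm l s ≤ m` (`dm_le`). For `τ ∈ 𝒯` there is a cell `s` of `T(τ)` with `dm l s = τ.card` (`exists_top`);
it is a cell of `O` with `κ s = τ` (`h2`); so `τ.card ≤ m`. There is a cell `s` of `O` with `dm l s = m`;
`σ = κ s` has `m ≤ σ.card ≤ m`: the last statement (`∃ σ ∈ 𝒯, σ.card = m`).
For `s` a cell of `T(ρ)`: `up (T(ρ)) s` is the set of the `s' ∈ up O s` with `κ s' = ρ` (`h2`).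
For `z : Finset X → F` and `j` put `z^ s = z (κ s)` if `(κ s).card = j`, and `0` otherwise.
(R) Let `z` be a cycle in size `j`. Then for a cell `s` of `O` with `dm l s + 1 = j` the sum of `z^` over
`up O s` is `0`: every `s' ∈ up O s` has `κ s ⊆ κ s'` (`h4`). If `(κ s).card = j - 1`: group by
`σ = κ s'`: for every `σ ∈ 𝒯`, `κ s ⊆ σ`, `σ.card = j`, there is exactly one `s'` (`h5`), so the sum is
the sum of the `z σ`, zero by hypothesis. If `(κ s).card = j`: `z^ s' ≠ 0` only if `κ s' = κ s`; these `s'`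
are `up (T(κ s)) s`, two elements (`up_card_two`, `h3`), the sum is `2 z (κ s) = 0`. If `(κ s).card > j`:
all terms are zero. (`(κ s).card ≥ dm l s = j - 1`.)
Top size, `j = m`: by `acyc` for `O` (`hO`, `hm`) `z^` is constant on the cells of dimension `m`; for
`σ ∈ 𝒯`, `σ.card = m`, take a cell of `T(σ)` of dimension `m`: `z σ = z^ s`. So `z` is constant (second
statement).
Third statement: `z = 1`, `τ ∈ 𝒯`, `τ.card + 1 = m`: take a cell `s` of `T(τ)` with `dm l s = τ.card`. `up O s`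
has two elements (`up_card_two`). All `s' ∈ up O s` have `dm l s' = m`, so `(κ s').card = m`, `τ ⊆ κ s'`,
and by `h5` every `σ ∈ 𝒯`, `τ ⊆ σ`, `σ.card = m` occurs exactly once: the number of these `σ` is `2`.
`j < m`: `acyc` for `O` gives `y` with `z^ s = ∑ s' ∈ up O s, y s'` for the cells `s` of dimension `j`; we
may assume `y s' = 0` unless `s'` is a cell of `O` with `dm l s' = j + 1`. Claim: for `k = m, m - 1, ...,
j + 1` one can choose such a `y` with `y s' = 0` whenever `(κ s').card > k`. `k = m`: clear. Step from `k`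
to `k - 1` (`k ≥ j + 2`): for `ρ ∈ 𝒯`, `ρ.card = k`, the function `y` satisfies the hypothesis of `acyc` for
`T(ρ)` in dimension `j + 1`: for a cell `s` of `T(ρ)`, `dm l s = j`, the `s' ∈ up O s` with `y s' ≠ 0` have
`κ s' ⊇ ρ`, `(κ s').card ≤ k`, so `κ s' = ρ`; the sum over `up (T(ρ)) s` is the sum over `up O s`, that is
`z^ s = 0` (since `(κ s).card = k ≠ j`). So there is `w_ρ` with `y s = ∑ s' ∈ up (T(ρ)) s, w_ρ s'` for the
cells `s` of `T(ρ)` of dimension `j + 1 < k`. Put `w s' = w_(κ s') s'` if `(κ s').card = k`, else `0`, and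
`y' s = y s - ∑ s' ∈ up O s, w s'` for the cells `s` of `O` of dimension `j + 1`, else `0`. Then `y'` also
works (`bd_bd`), `y' s = 0` if `(κ s).card > k` (all `s' ∈ up O s` have `(κ s').card > k`), and if
`(κ s).card = k` (then `w s' ≠ 0` only if `κ s' = κ s`, so the sum is `∑ s' ∈ up (T(κ s)) s, w_(κ s) s' = y s`).
`k = j + 1`: for `ρ ∈ 𝒯` with `ρ.card = j + 1` the same argument shows that `y` satisfies the hypothesis of
`acyc` for `T(ρ)` in the top dimension `j + 1`, so `y` is a constant `y₁ ρ` on the cells of `T(ρ)` of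
dimension `j + 1`. For `σ ∈ 𝒯`, `σ.card = j`, take a cell `s` of `T(σ)` of dimension `j`:
`z σ = z^ s = ∑ s' ∈ up O s, y s'`; here `y s' ≠ 0` only if `(κ s').card = j + 1` (it is `≥ dm l s'`), and by
`h5` every `ρ ∈ 𝒯`, `σ ⊆ ρ`, `ρ.card = j + 1`, occurs exactly once as `κ s'`. So `z σ` is the sum of the
`y₁ ρ`.
-/

set_option autoImplicit false

open Finset

namespace Pool.Agent.LocH.Sg

variable {E ι X : Type} [AddCommGroup E] [Module ℝ E] [FiniteDimensional ℝ E] [Fintype ι]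
  [DecidableEq X] (l : ι → E →ₗ[ℝ] ℝ)

/-- The combinatorial data of the comparison. -/
private structure Dat {S X : Type} [DecidableEq X] (F : Type) [Field F] (C : S → Prop)
    (d : S → ℕ) (U : S → Finset S) (κ : S → Finset X) (𝒯 : Finset (Finset X)) (m : ℕ) :
    Prop where
  hU : ∀ s, C s → ∀ s' ∈ U s, C s' ∧ d s' = d s + 1 ∧ κ s ⊆ κ s'
  hκ : ∀ s, C s → κ s ∈ 𝒯
  hd : ∀ s, C s → d s ≤ (κ s).card
  hdm : ∀ s, C s → d s ≤ m
  htop : ∀ τ ∈ 𝒯, ∃ s, C s ∧ κ s = τ ∧ d s = τ.card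
  htopO : ∃ s, C s ∧ d s = m
  h2O : ∀ s, C s → d s + 1 = m → (U s).card = 2
  h2T : ∀ s, C s → d s + 1 = (κ s).card → ((U s).filter fun s' => κ s' = κ s).card = 2
  aO : ∀ (j : ℕ) (z : S → F), (∀ s, C s → d s + 1 = j → ∑ s' ∈ U s, z s' = 0) →
    (j < m → ∃ y : S → F, ∀ s, C s → d s = j → z s = ∑ s' ∈ U s, y s') ∧
    (j = m → ∀ s s', C s → C s' → d s = j → d s' = j → z s = z s')
  aT : ∀ ρ ∈ 𝒯, ∀ (j : ℕ) (z : S → F),
    (∀ s, C s → κ s = ρ → d s + 1 = j → ∑ s' ∈ (U s).filter (fun s' => κ s' = ρ), z s' = 0) →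
    (j < ρ.card → ∃ y : S → F, ∀ s, C s → κ s = ρ → d s = j →
      z s = ∑ s' ∈ (U s).filter (fun s' => κ s' = ρ), y s') ∧
    (j = ρ.card → ∀ s s', C s → C s' → κ s = ρ → κ s' = ρ → d s = j → d s' = j → z s = z s')
  bb : ∀ s, C s → ∀ z : S → F, ∑ s' ∈ U s, ∑ s'' ∈ U s', z s'' = 0
  h5 : ∀ s, C s → d s = (κ s).card → ∀ σ ∈ 𝒯, κ s ⊆ σ → σ.card = (κ s).card + 1 →
    ((U s).filter fun s' => κ s' = σ).card = 1

namespace Dat

variable {S Y F : Type} [DecidableEq Y] [Field F] {C : S → Prop} {d : S → ℕ}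
  {U : S → Finset S} {κ : S → Finset Y} {𝒯 : Finset (Finset Y)} {m : ℕ}

private theorem card_le (D : Dat F C d U κ 𝒯 m) {τ : Finset Y} (h : τ ∈ 𝒯) : τ.card ≤ m := by
  obtain ⟨s, hs, -, h2⟩ := D.htop τ h
  rw [← h2]
  exact D.hdm s hs

private theorem grp (D : Dat F C d U κ 𝒯 m) {A : Type} [AddCommMonoid A] {s : S} (hs : C s)
    {j : ℕ} (hds : d s = (κ s).card) (hj : (κ s).card + 1 = j) (f : Finset Y → A) :
    ∑ s' ∈ U s, (if (κ s').card = j then f (κ s') else 0) =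
      ∑ σ ∈ 𝒯.filter (fun σ => κ s ⊆ σ ∧ σ.card = j), f σ := by
  rw [← Finset.sum_filter]
  have hmap : ∀ s' ∈ (U s).filter (fun s' => (κ s').card = j),
      κ s' ∈ 𝒯.filter (fun σ => κ s ⊆ σ ∧ σ.card = j) := by
    intro s' hs'
    rw [Finset.mem_filter] at hs' ⊢
    obtain ⟨h1, -, h3⟩ := D.hU s hs s' hs'.1
    exact ⟨D.hκ s' h1, h3, hs'.2⟩
  rw [← Finset.sum_fiberwise_of_maps_to hmap]
  refine Finset.sum_congr rfl fun σ hσ => ?_
  rw [Finset.mem_filter] at hσ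
  have h1 := D.h5 s hs hds σ hσ.1 hσ.2.1 (by rw [hσ.2.2, hj])
  obtain ⟨t, ht⟩ := Finset.card_eq_one.1 h1
  have h2 : (((U s).filter fun s' => (κ s').card = j).filter fun s' => κ s' = σ) = {t} := by
    rw [← ht, Finset.filter_filter]
    refine Finset.filter_congr fun s' _ => ⟨fun h => h.2, fun h => ⟨?_, h⟩⟩
    rw [h]
    exact hσ.2.2
  have h3 : κ t = σ := by
    have h4 : t ∈ (U s).filter fun s' => κ s' = σ := by rw [ht]; exact Finset.mem_singleton_self t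
    exact (Finset.mem_filter.1 h4).2
  rw [h2, Finset.sum_singleton, h3]

private theorem lem_R (D : Dat F C d U κ 𝒯 m) [CharP F 2] {j : ℕ} (z : Finset Y → F)
    (hz : ∀ k, k + 1 = j → ∀ τ ∈ 𝒯, τ.card = k →
        ∑ σ ∈ 𝒯.filter (fun σ => τ ⊆ σ ∧ σ.card = j), z σ = 0) {s : S} (hs : C s)
    (hds : d s + 1 = j) : ∑ s' ∈ U s, (if (κ s').card = j then z (κ s') else 0) = 0 := by
  have h1 := D.hd s hs
  rcases Nat.lt_trichotomy ((κ s).card) j with h | h | h
  · have h2 : (κ s).card = d s := by omega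
    rw [D.grp hs h2.symm (by omega)]
    exact hz (κ s).card (by omega) (κ s) (D.hκ s hs) rfl
  · have h2 : ∀ s' ∈ U s, (if (κ s').card = j then z (κ s') else 0) =
        if κ s' = κ s then z (κ s) else 0 := by
      intro s' hs'
      obtain ⟨-, -, h3⟩ := D.hU s hs s' hs'
      by_cases hc : κ s' = κ s
      · rw [if_pos hc, hc, if_pos h]
      · rw [if_neg hc, if_neg]
        intro h4
        exact hc (Finset.eq_of_subset_of_card_le h3 (by omega)).symm
    rw [Finset.sum_congr rfl h2, ← Finset.sum_filter, Finset.sum_const,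
      D.h2T s hs (by omega), two_nsmul, CharTwo.add_self_eq_zero]
  · refine Finset.sum_eq_zero fun s' hs' => if_neg ?_
    obtain ⟨-, -, h3⟩ := D.hU s hs s' hs'
    have := Finset.card_le_card h3
    omega

private theorem sum_filter_eq (D : Dat F C d U κ 𝒯 m) {s : S} (hs : C s) (y : S → F)
    (hy : ∀ s', C s' → d s' = d s + 1 → (κ s).card < (κ s').card → y s' = 0) :
    ∑ s' ∈ (U s).filter (fun s' => κ s' = κ s), y s' = ∑ s' ∈ U s, y s' := by
  rw [Finset.sum_filter]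
  refine Finset.sum_congr rfl fun s' hs' => ?_
  obtain ⟨h1, h2, h3⟩ := D.hU s hs s' hs'
  by_cases hc : κ s' = κ s
  · rw [if_pos hc]
  · rw [if_neg hc, hy s' h1 h2]
    by_contra h4
    exact hc (Finset.eq_of_subset_of_card_le h3 (by omega)).symm

private theorem step (D : Dat F C d U κ 𝒯 m) {j k : ℕ} (z : S → F)
    (hz : ∀ s, C s → j < (κ s).card → z s = 0) (hk : j + 1 < k) {y : S → F}
    (hy : ∀ s, C s → d s = j → z s = ∑ s' ∈ U s, y s')
    (hy0 : ∀ s, C s → d s = j + 1 → k < (κ s).card → y s = 0) :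
    ∃ y' : S → F, (∀ s, C s → d s = j → z s = ∑ s' ∈ U s, y' s') ∧
      ∀ s, C s → d s = j + 1 → k ≤ (κ s).card → y' s = 0 := by
  have h1 : ∀ ρ : Finset Y, ∃ w : S → F, ρ ∈ 𝒯 → ρ.card = k → ∀ s, C s → κ s = ρ →
      d s = j + 1 → y s = ∑ s' ∈ (U s).filter (fun s' => κ s' = ρ), w s' := by
    intro ρ
    by_cases hρ : ρ ∈ 𝒯 ∧ ρ.card = k
    · obtain ⟨w, hw⟩ := (D.aT ρ hρ.1 (j + 1) y (fun s hs hκ hds => by
        rw [← hκ, D.sum_filter_eq hs y (fun s' h2 h3 h4 => hy0 s' h2 (by omega) (by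
          rw [hκ, hρ.2] at h4
          exact h4)), ← hy s hs (by omega)]
        exact hz s hs (by rw [hκ, hρ.2]; omega))).1 (by omega)
      exact ⟨w, fun _ _ => hw⟩
    · exact ⟨0, fun h2 h3 => absurd ⟨h2, h3⟩ hρ⟩
  choose W hW using h1
  refine ⟨fun s => y s - ∑ s' ∈ U s, (if (κ s').card = k then W (κ s') s' else 0), ?_, ?_⟩
  · intro s hs hds
    rw [Finset.sum_sub_distrib, D.bb s hs (fun s' => if (κ s').card = k then W (κ s') s' else 0),
      sub_zero]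
    exact hy s hs hds
  · intro s hs hds hks
    rcases hks.lt_or_eq with hlt | heq
    · have h2 : ∑ s' ∈ U s, (if (κ s').card = k then W (κ s') s' else 0) = 0 := by
        refine Finset.sum_eq_zero fun s' hs' => if_neg ?_
        obtain ⟨-, -, h3⟩ := D.hU s hs s' hs'
        have := Finset.card_le_card h3
        omega
      simp only
      rw [h2, hy0 s hs hds hlt, sub_zero]
    · have h2 : ∑ s' ∈ U s, (if (κ s').card = k then W (κ s') s' else 0) =
          ∑ s' ∈ (U s).filter (fun s' => κ s' = κ s), W (κ s) s' := by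
        rw [Finset.sum_filter]
        refine Finset.sum_congr rfl fun s' hs' => ?_
        obtain ⟨-, -, h3⟩ := D.hU s hs s' hs'
        by_cases hc : κ s' = κ s
        · rw [if_pos hc, hc, if_pos heq.symm]
        · rw [if_neg hc, if_neg]
          intro h4
          exact hc (Finset.eq_of_subset_of_card_le h3 (by omega)).symm
      simp only
      rw [h2, ← hW (κ s) (D.hκ s hs) heq.symm s hs rfl hds, sub_self]

private theorem claim (D : Dat F C d U κ 𝒯 m) {j : ℕ} (z : S → F)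
    (hz : ∀ s, C s → j < (κ s).card → z s = 0) {y : S → F}
    (hy : ∀ s, C s → d s = j → z s = ∑ s' ∈ U s, y s') (n : ℕ) :
    ∀ k, j + 1 ≤ k → k + n = m →
    ∃ y : S → F, (∀ s, C s → d s = j → z s = ∑ s' ∈ U s, y s') ∧
      ∀ s, C s → d s = j + 1 → k < (κ s).card → y s = 0 := by
  induction n with
  | zero =>
    intro k _ hk
    refine ⟨y, hy, fun s hs _ h => ?_⟩
    have := D.card_le (D.hκ s hs)
    omega
  | succ n ih =>
    intro k hk hkm
    obtain ⟨y', h1, h2⟩ := ih (k + 1) (by omega) (by omega)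
    obtain ⟨y'', h3, h4⟩ := D.step z hz (k := k + 1) (by omega) h1 h2
    exact ⟨y'', h3, fun s hs hds h => h4 s hs hds h⟩

private theorem main (D : Dat F C d U κ 𝒯 m) [CharP F 2] :
    (∀ j < m, ∀ z : Finset Y → F,
      (∀ k, k + 1 = j → ∀ τ ∈ 𝒯, τ.card = k →
        ∑ σ ∈ 𝒯.filter (fun σ => τ ⊆ σ ∧ σ.card = j), z σ = 0) →
      ∃ y : Finset Y → F, ∀ σ ∈ 𝒯, σ.card = j →
        z σ = ∑ ρ ∈ 𝒯.filter (fun ρ => σ ⊆ ρ ∧ ρ.card = j + 1), y ρ) ∧
    (∀ z : Finset Y → F,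
      (∀ k, k + 1 = m → ∀ τ ∈ 𝒯, τ.card = k →
        ∑ σ ∈ 𝒯.filter (fun σ => τ ⊆ σ ∧ σ.card = m), z σ = 0) →
      ∀ σ ∈ 𝒯, ∀ σ' ∈ 𝒯, σ.card = m → σ'.card = m → z σ = z σ') ∧
    (∀ k, k + 1 = m → ∀ τ ∈ 𝒯, τ.card = k →
      (𝒯.filter fun σ => τ ⊆ σ ∧ σ.card = m).card = 2) ∧
    ∃ σ ∈ 𝒯, σ.card = m := by
  classical
  refine ⟨?_, ?_, ?_, ?_⟩
  · intro j hj z hz
    set zh : S → F := fun s => if (κ s).card = j then z (κ s) else 0 with hzh
    obtain ⟨y₀, hy₀⟩ := (D.aO j zh fun s hs hds => D.lem_R z hz hs hds).1 hj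
    obtain ⟨y, hy, hy0⟩ := D.claim zh (fun s _ h => if_neg (by omega)) hy₀ (m - (j + 1))
      (j + 1) le_rfl (by omega)
    have hconst : ∀ ρ ∈ 𝒯, ρ.card = j + 1 → ∀ s s', C s → C s' → κ s = ρ → κ s' = ρ →
        d s = j + 1 → d s' = j + 1 → y s = y s' := by
      intro ρ hρ hρc
      refine (D.aT ρ hρ (j + 1) y (fun s hs hκ hds => ?_)).2 hρc.symm
      rw [← hκ, D.sum_filter_eq hs y (fun s' h2 h3 h4 => hy0 s' h2 (by omega) (by
        rw [hκ, hρc] at h4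
        exact h4)), ← hy s hs (by omega)]
      exact if_neg (by rw [hκ, hρc]; omega)
    have hne : Nonempty S := ⟨D.htopO.choose⟩
    choose! t ht1 ht2 ht3 using D.htop
    refine ⟨fun ρ => y (t ρ), fun σ hσ hσj => ?_⟩
    have hs := ht1 σ hσ
    have hκσ := ht2 σ hσ
    have hdσ := ht3 σ hσ
    have h1 := hy (t σ) hs (by omega)
    have h2 : zh (t σ) = z σ := by
      rw [hzh]
      simp only
      rw [hκσ, if_pos hσj]
    rw [← h2, h1]
    have h3 := D.grp hs (j := j + 1) (by rw [hκσ, hdσ]) (by rw [hκσ, hσj])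
      (fun ρ => y (t ρ))
    rw [hκσ] at h3
    rw [← h3]
    refine Finset.sum_congr rfl fun s' hs' => ?_
    obtain ⟨g1, g2, -⟩ := D.hU _ hs s' hs'
    have g3 := D.hd s' g1
    split_ifs with hc
    · have hκ' := D.hκ s' g1
      exact hconst (κ s') hκ' hc s' (t (κ s')) g1 (ht1 _ hκ') rfl (ht2 _ hκ') (by omega)
        (by rw [ht3 _ hκ', hc])
    · exact hy0 s' g1 (by omega) (by omega)
  · intro z hz σ hσ σ' hσ' hc hc'
    obtain ⟨s, hs, h1, h2⟩ := D.htop σ hσ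
    obtain ⟨s', hs', h1', h2'⟩ := D.htop σ' hσ'
    have h3 := (D.aO m (fun s => if (κ s).card = m then z (κ s) else 0)
      fun s hs hds => D.lem_R z hz hs hds).2 rfl s s' hs hs' (by omega) (by omega)
    rwa [h1, h1', if_pos hc, if_pos hc'] at h3
  · intro k hk τ hτ hτk
    obtain ⟨s, hs, h1, h2⟩ := D.htop τ hτ
    have h3 := D.grp hs (A := ℕ) (j := m) (by rw [h1, h2]) (by rw [h1, hτk, hk])
      (fun _ => 1)
    rw [h1] at h3
    rw [Finset.card_eq_sum_ones, ← h3, ← D.h2O s hs (by omega), Finset.card_eq_sum_ones]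
    refine Finset.sum_congr rfl fun s' hs' => if_pos ?_
    obtain ⟨g1, g2, -⟩ := D.hU _ hs s' hs'
    have g3 := D.hd s' g1
    have g4 := D.card_le (D.hκ s' g1)
    omega
  · obtain ⟨s, hs, h1⟩ := D.htopO
    exact ⟨κ s, D.hκ s hs, le_antisymm (D.card_le (D.hκ s hs)) (h1 ▸ D.hd s hs)⟩

end Dat

open Classical in
/-- Comparison of coarse cells with sign vectors. -/
theorem compare (PO : Finset ι) (pO : ι → SignType) (PT : Finset X → Finset ι)
    (pT : Finset X → ι → SignType) (𝒯 : Finset (Finset X)) (m : ℕ)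
    (hO : (OP l PO pO).Nonempty) (hm : dp l PO pO = m) (κ : (ι → SignType) → Finset X)
    (h1 : ∀ s, Cell l PO pO s → κ s ∈ 𝒯)
    (h2 : ∀ τ ∈ 𝒯, ∀ s, Cell l (PT τ) (pT τ) s ↔ Cell l PO pO s ∧ κ s = τ)
    (h3 : ∀ τ ∈ 𝒯, (OP l (PT τ) (pT τ)).Nonempty ∧ dp l (PT τ) (pT τ) = τ.card)
    (h4 : ∀ s s', Cell l PO pO s → Cell l PO pO s' → sle s s' → κ s ⊆ κ s')
    (h5 : ∀ s, Cell l PO pO s → dm l s = (κ s).card → ∀ σ ∈ 𝒯, κ s ⊆ σ →
      σ.card = (κ s).card + 1 → ((up l PO pO s).filter fun s' => κ s' = σ).card = 1)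
    {F : Type} [Field F] [CharP F 2] :
    (∀ j < m, ∀ z : Finset X → F,
      (∀ k, k + 1 = j → ∀ τ ∈ 𝒯, τ.card = k →
        ∑ σ ∈ 𝒯.filter (fun σ => τ ⊆ σ ∧ σ.card = j), z σ = 0) →
      ∃ y : Finset X → F, ∀ σ ∈ 𝒯, σ.card = j →
        z σ = ∑ ρ ∈ 𝒯.filter (fun ρ => σ ⊆ ρ ∧ ρ.card = j + 1), y ρ) ∧
    (∀ z : Finset X → F,
      (∀ k, k + 1 = m → ∀ τ ∈ 𝒯, τ.card = k →
        ∑ σ ∈ 𝒯.filter (fun σ => τ ⊆ σ ∧ σ.card = m), z σ = 0) →
      ∀ σ ∈ 𝒯, ∀ σ' ∈ 𝒯, σ.card = m → σ'.card = m → z σ = z σ') ∧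
    (∀ k, k + 1 = m → ∀ τ ∈ 𝒯, τ.card = k →
      (𝒯.filter fun σ => τ ⊆ σ ∧ σ.card = m).card = 2) ∧
    ∃ σ ∈ 𝒯, σ.card = m := by
  have hup : ∀ ρ ∈ 𝒯, ∀ s, Cell l PO pO s → κ s = ρ →
      up l (PT ρ) (pT ρ) s = (up l PO pO s).filter fun s' => κ s' = ρ := by
    intro ρ hρ s hs hκ
    ext s'
    rw [mem_up, Finset.mem_filter, mem_up, h2 ρ hρ]
    tauto
  have hT : ∀ s, Cell l PO pO s → Cell l (PT (κ s)) (pT (κ s)) s := fun s hs =>
    (h2 (κ s) (h1 s hs) s).2 ⟨hs, rfl⟩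
  refine Dat.main (F := F) (C := Cell l PO pO) (d := dm l) (U := up l PO pO) (κ := κ)
    { hU := fun s hs s' hs' => ?_
      hκ := h1
      hd := fun s hs => ?_
      hdm := fun s hs => ?_
      htop := fun τ hτ => ?_
      htopO := ?_
      h2O := fun s hs hd => ?_
      h2T := fun s hs hd => ?_
      aO := fun j z hz => ?_
      aT := fun ρ hρ j z hz => ?_
      bb := fun s hs z => bd_bd l hs z
      h5 := h5 }
  · rw [mem_up] at hs'
    exact ⟨hs'.1, hs'.2.2, h4 s s' hs hs'.1 hs'.2.1⟩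
  · rw [← (h3 (κ s) (h1 s hs)).2]
    exact dm_le l (hT s hs)
  · rw [← hm]
    exact dm_le l hs
  · obtain ⟨s, hs, hd⟩ := exists_top l (h3 τ hτ).1
    rw [(h3 τ hτ).2] at hd
    obtain ⟨g1, g2⟩ := (h2 τ hτ s).1 hs
    exact ⟨s, g1, g2, hd⟩
  · obtain ⟨s, hs, hd⟩ := exists_top l hO
    exact ⟨s, hs, by rw [hd, hm]⟩
  · exact up_card_two l hs (by rw [hd, hm])
  · have g := up_card_two l (hT s hs) (by rw [hd, (h3 (κ s) (h1 s hs)).2])
    rwa [hup (κ s) (h1 s hs) s hs rfl] at g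
  · have g := acyc l hO j z hz
    rwa [hm] at g
  · have g := acyc l (h3 ρ hρ).1 j z (fun s hs hd => by
      obtain ⟨g1, g2⟩ := (h2 ρ hρ s).1 hs
      rw [hup ρ hρ s g1 g2]
      exact hz s g1 g2 hd)
    rw [(h3 ρ hρ).2] at g
    refine ⟨fun hj => ?_, fun hj s s' hs hs' hk hk' hds hds' =>
      g.2 hj s s' ((h2 ρ hρ s).2 ⟨hs, hk⟩) ((h2 ρ hρ s').2 ⟨hs', hk'⟩) hds hds'⟩
    obtain ⟨y, hy⟩ := g.1 hj
    refine ⟨y, fun s hs hk hds => ?_⟩
    rw [← hup ρ hρ s hs hk]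
    exact hy s ((h2 ρ hρ s).2 ⟨hs, hk⟩) hds

end Pool.Agent.LocH.Sg
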