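import Pool.Agent.LocH.TFan

/-!
# Package TE: the coarse cells form a partition of the big cell

Proof (P1.2, (T1), (T2)). Let `G ∈ Gam`, `p = ∑ v ∈ G, pos v`.
* `pos_shift`: let `u = ∑ v ∈ τ, μ v • pos v` with `μ v > 0` for `v ∈ τ`, `v ∉ G`, and `G ⊆ τ`.
  For `M` larger than all `- μ v`, `v ∈ G`, the vector
  `u + M p = ∑ v ∈ τ, (μ v + (M if v ∈ G)) • pos v` has only positive coefficients.
* `TT_unique`: apply `pos_shift` to both with a common large `M` and use `disj`.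
* `TT_cr`: if `u ∈ TT G τ`, `G ⊆ τ` and `cr τ = W` then `u ∈ OO W G`: for `c ∉ W` all
  `pos v c = 0`, `v ∈ τ` (`nn`); for `c ∈ W` not in `cr G` the `v ∈ G` have `pos v c = 0` and some
  `v ∈ τ` has `pos v c > 0`, and it has `μ v > 0`, so `u c > 0`.
* `OO_cover`: let `u ∈ OO W G`, `cr G ⊆ W`. For all large natural numbers `M` the vector `u + M p`
  is nonnegative, with positive coordinates exactly at `W`. By `cover` it is a positive combination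
  of a cone `τ_M ∈ Gam`, and `cr τ_M = W`. `Gam` is finite, so there is `τ` with `τ_M = τ` for
  infinitely many `M`, in particular for two values `M₁ < M₂`. Subtracting: `(M₂ - M₁) p` and `u`
  are combinations of `τ`: `u = ∑ v ∈ τ, α v • pos v`, `p = ∑ v ∈ τ, β v • pos v`; by `ind` the
  coefficients of `u + M p` are `α v + M β v` for every `M`, and they are positive for infinitely
  many `M`; so `β v ≥ 0`, and if `β v = 0` then `α v > 0`. Let `G' = {v ∈ τ | β v > 0} ∈ Gam`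
  (`down`); `p = ∑ v ∈ G', β v • pos v = ∑ v ∈ G, pos v`, so `G' = G` by `disj`. So `G ⊆ τ`, and
  `α v > 0` for `v ∈ τ`, `v ∉ G`: `u ∈ TT G τ`.
* `limit`: if `x ∈ TT G ρ`, `y ∈ TT G σ`, `G ⊆ ρ`, `G ⊆ σ` and `x + ε y ∈ TT G σ` for all `ε > 0`,
  then `ρ ⊆ σ`: the coefficients of `x + ε y` on `σ` are affine in `ε` (`ind`), so
  `x = ∑ v ∈ σ, ξ v • pos v` with `ξ v ≥ 0` for `v ∉ G`. Let `τ = {v ∈ σ | v ∈ G ∨ ξ v > 0}`:
  `x ∈ TT G τ`, `τ ∈ Gam`, `G ⊆ τ`, so `ρ = τ ⊆ σ` by `TT_unique`.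
-/

set_option autoImplicit false

open Finset

namespace Pool.Agent.LocH.CFan

variable {X Ω : Type} [DecidableEq X] [Fintype Ω] [DecidableEq Ω] (C : CFan X Ω)

/-- Adding a large multiple of the sum of `G` makes all coefficients positive. -/
theorem pos_shift {G τ : Finset X} (hG : G ⊆ τ) {μ : X → ℝ} (hμ : ∀ v ∈ τ, v ∉ G → 0 < μ v) :
    ∃ M₀ : ℝ, ∀ M : ℝ, M₀ ≤ M → ∃ ν : X → ℝ, (∀ v ∈ τ, 0 < ν v) ∧
      ∑ v ∈ τ, μ v • C.pos v + M • ∑ v ∈ G, C.pos v = ∑ v ∈ τ, ν v • C.pos v := by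
  refine ⟨1 + ∑ v ∈ τ, |μ v|, fun M hM => ⟨fun v => μ v + if v ∈ G then M else 0,
    fun v hv => ?_, ?_⟩⟩
  · change 0 < μ v + if v ∈ G then M else 0
    by_cases hvG : v ∈ G
    · rw [if_pos hvG]
      have h1 : |μ v| ≤ ∑ v ∈ τ, |μ v| :=
        Finset.single_le_sum (f := fun v => |μ v|) (fun v _ => abs_nonneg _) hv
      have h2 := neg_abs_le (μ v)
      linarith
    · rw [if_neg hvG, add_zero]
      exact hμ v hv hvG
  · have h1 : ∑ v ∈ τ, (if v ∈ G then M else 0) • C.pos v = M • ∑ v ∈ G, C.pos v := by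
      have h2 : ∀ v ∈ τ, (if v ∈ G then M else 0) • C.pos v =
          if v ∈ G then M • C.pos v else 0 := by
        intro v _
        by_cases hvG : v ∈ G
        · rw [if_pos hvG, if_pos hvG]
        · rw [if_neg hvG, if_neg hvG, zero_smul]
      rw [Finset.sum_congr rfl h2, Finset.sum_ite_mem, Finset.inter_eq_right.2 hG,
        Finset.smul_sum]
    rw [← h1, ← Finset.sum_add_distrib]
    exact Finset.sum_congr rfl fun v _ => (add_smul _ _ _).symm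

/-- The coarse cells are disjoint. -/
theorem TT_unique {G τ τ' : Finset X} (hτ : τ ∈ C.Gam) (hτ' : τ' ∈ C.Gam) (hG : G ⊆ τ)
    (hG' : G ⊆ τ') {u : Ω → ℝ} (hu : u ∈ C.TT G τ) (hu' : u ∈ C.TT G τ') : τ = τ' := by
  obtain ⟨μ, hμ, h1⟩ := hu
  obtain ⟨μ', hμ', h1'⟩ := hu'
  obtain ⟨M, hM⟩ := C.pos_shift hG hμ
  obtain ⟨M', hM'⟩ := C.pos_shift hG' hμ'
  obtain ⟨ν, hν, h2⟩ := hM (max M M') (le_max_left _ _)
  obtain ⟨ν', hν', h2'⟩ := hM' (max M M') (le_max_right _ _)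
  refine C.disj τ hτ τ' hτ' ν ν' hν hν' ?_
  rw [← h2, ← h2', ← h1, ← h1']

omit [DecidableEq Ω] in
private theorem pos_zero {F : Finset X} {c : Ω} (hc : c ∉ C.cr F) : ∀ v ∈ F, C.pos v c = 0 := by
  intro v hv
  by_contra h
  exact hc (C.mem_cr.2 ⟨v, hv, lt_of_le_of_ne (C.nn v c) (Ne.symm h)⟩)

omit [Fintype Ω] [DecidableEq Ω] in
private theorem comb_apply (F : Finset X) (μ : X → ℝ) (c : Ω) :
    (∑ v ∈ F, μ v • C.pos v) c = ∑ v ∈ F, μ v * C.pos v c := by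
  rw [Finset.sum_apply]
  rfl

/-- The coarse cells are contained in the big cell. -/
theorem TT_cr {W : Finset Ω} {G τ : Finset X} (hτ : τ ∈ C.fam W G) {u : Ω → ℝ}
    (hu : u ∈ C.TT G τ) : u ∈ C.OO W G := by
  obtain ⟨h1, h2, h3⟩ := C.mem_fam.1 hτ
  obtain ⟨μ, hμ, rfl⟩ := hu
  refine ⟨fun c hc => ?_, fun c hc hcG => ?_⟩
  · rw [comb_apply]
    rw [← h3] at hc
    exact Finset.sum_eq_zero fun v hv => by rw [C.pos_zero hc v hv, mul_zero]
  · rw [comb_apply]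
    rw [← h3] at hc
    obtain ⟨w, hw, hwc⟩ := C.mem_cr.1 hc
    have hz := C.pos_zero hcG
    have hwG : w ∉ G := fun h => by
      have h4 := hz w h
      linarith
    refine Finset.sum_pos' (fun v hv => ?_) ⟨w, hw, mul_pos (hμ w hw hwG) hwc⟩
    by_cases hvG : v ∈ G
    · rw [hz v hvG, mul_zero]
    · exact mul_nonneg (hμ v hv hvG).le (C.nn v c)

/-- The coarse cells cover the big cell. -/
theorem OO_cover {W : Finset Ω} {G : Finset X} (hG : G ∈ C.Gam) (hW : C.cr G ⊆ W) {u : Ω → ℝ}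
    (hu : u ∈ C.OO W G) : ∃ τ ∈ C.fam W G, u ∈ C.TT G τ := by
  classical
  obtain ⟨p, hp⟩ : ∃ p : Ω → ℝ, p = ∑ v ∈ G, C.pos v := ⟨_, rfl⟩
  have hpc : ∀ c, p c = ∑ v ∈ G, C.pos v c := fun c => by rw [hp, Finset.sum_apply]
  have hp0 : ∀ c, c ∉ C.cr G → p c = 0 := by
    intro c hc
    rw [hpc]
    exact Finset.sum_eq_zero fun v hv => C.pos_zero hc v hv
  have hp1 : ∀ c, c ∈ C.cr G → 0 < p c := by
    intro c hc
    obtain ⟨w, hw, hwc⟩ := C.mem_cr.1 hc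
    rw [hpc]
    exact Finset.sum_pos' (fun v _ => C.nn v c) ⟨w, hw, hwc⟩
  have hN : ∀ c, ∃ n : ℕ, |u c| / p c < n := fun c => exists_nat_gt _
  choose N hN using hN
  obtain ⟨M₀, hM₀⟩ : ∃ M₀ : ℕ, M₀ = ∑ c, N c := ⟨_, rfl⟩
  have hNM : ∀ c, N c ≤ M₀ := by
    intro c
    rw [hM₀]
    exact Finset.single_le_sum (f := N) (fun _ _ => Nat.zero_le _) (Finset.mem_univ c)
  -- the coordinates of `u + M p`
  have hA : ∀ n : ℕ, ∀ c ∈ W, 0 < u c + ((M₀ + n : ℕ) : ℝ) * p c := by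
    intro n c hc
    by_cases hcG : c ∈ C.cr G
    · have h1 := hp1 c hcG
      have h2 := hN c
      rw [div_lt_iff₀ h1] at h2
      have h3 : (N c : ℝ) ≤ ((M₀ + n : ℕ) : ℝ) := by
        exact_mod_cast (hNM c).trans (Nat.le_add_right _ _)
      have h4 := mul_le_mul_of_nonneg_right h3 h1.le
      have h5 := neg_abs_le (u c)
      linarith
    · rw [hp0 c hcG, mul_zero, add_zero]
      exact hu.2 c hc hcG
  have hB : ∀ n : ℕ, ∀ c, c ∉ W → u c + ((M₀ + n : ℕ) : ℝ) * p c = 0 := by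
    intro n c hc
    rw [hu.1 c hc, hp0 c fun h => hc (hW h), mul_zero, add_zero]
  have hC : ∀ n : ℕ, ∃ F ∈ C.Gam, ∃ μ : X → ℝ, (∀ v ∈ F, 0 < μ v) ∧
      u + ((M₀ + n : ℕ) : ℝ) • p = ∑ v ∈ F, μ v • C.pos v := by
    intro n
    refine C.cover _ fun c => ?_
    change 0 ≤ u c + ((M₀ + n : ℕ) : ℝ) * p c
    by_cases hc : c ∈ W
    · exact (hA n c hc).le
    · rw [hB n c hc]
  choose F hF μ hμ hS using hC
  obtain ⟨τ, hτ⟩ := Finite.exists_infinite_fiber fun n : ℕ => (⟨F n, hF n⟩ : {F // F ∈ C.Gam})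
  obtain ⟨S, hSd⟩ : ∃ S : Set ℕ, S = {n | F n = τ.1} := ⟨_, rfl⟩
  have hSi : S.Infinite := by
    rw [← Set.infinite_coe_iff]
    convert hτ using 2
    rw [hSd]
    ext n
    rw [Set.mem_preimage, Set.mem_singleton_iff, Subtype.ext_iff]
    exact Iff.rfl
  have hτG : τ.1 ∈ C.Gam := τ.2
  generalize τ.1 = τ at hSd hτG
  have hSm : ∀ n, n ∈ S → F n = τ := fun n hn => by
    rw [hSd] at hn
    exact hn
  have hE : ∀ n ∈ S, (∀ v ∈ τ, 0 < μ n v) ∧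
      u + ((M₀ + n : ℕ) : ℝ) • p = ∑ v ∈ τ, μ n v • C.pos v := by
    intro n hn
    have h1 := hμ n
    have h2 := hS n
    rw [hSm n hn] at h1 h2
    exact ⟨h1, h2⟩
  obtain ⟨n₁, hn₁⟩ := hSi.nonempty
  obtain ⟨n₂, hn₂, hlt⟩ := hSi.exists_gt n₁
  obtain ⟨hμ₁, e₁⟩ := hE n₁ hn₁
  obtain ⟨hμ₂, e₂⟩ := hE n₂ hn₂
  have hd : (0 : ℝ) < ((M₀ + n₂ : ℕ) : ℝ) - ((M₀ + n₁ : ℕ) : ℝ) := by
    have h1 : ((M₀ + n₁ : ℕ) : ℝ) < ((M₀ + n₂ : ℕ) : ℝ) := by
      exact_mod_cast Nat.add_lt_add_left hlt _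
    linarith
  obtain ⟨d, hdd⟩ : ∃ d : ℝ, d = ((M₀ + n₂ : ℕ) : ℝ) - ((M₀ + n₁ : ℕ) : ℝ) := ⟨_, rfl⟩
  rw [← hdd] at hd
  obtain ⟨β, hβ⟩ : ∃ β : X → ℝ, β = fun v => d⁻¹ * (μ n₂ v - μ n₁ v) := ⟨_, rfl⟩
  obtain ⟨α, hα⟩ : ∃ α : X → ℝ, α = fun v => μ n₁ v - ((M₀ + n₁ : ℕ) : ℝ) * β v := ⟨_, rfl⟩
  have hpβ : p = ∑ v ∈ τ, β v • C.pos v := by
    have h1 : d • p = ∑ v ∈ τ, (μ n₂ v - μ n₁ v) • C.pos v := by
      simp only [sub_smul, Finset.sum_sub_distrib]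
      rw [← e₁, ← e₂, hdd, sub_smul]
      abel
    have h2 : p = d⁻¹ • (d • p) := by rw [smul_smul, inv_mul_cancel₀ hd.ne', one_smul]
    rw [h2, h1, Finset.smul_sum, hβ]
    exact Finset.sum_congr rfl fun v _ => smul_smul _ _ _
  have huα : u = ∑ v ∈ τ, α v • C.pos v := by
    rw [hα]
    simp only [sub_smul, Finset.sum_sub_distrib, mul_smul]
    rw [← Finset.smul_sum, ← hpβ, ← e₁]
    abel
  have hcoef : ∀ n ∈ S, ∀ v ∈ τ, 0 < α v + ((M₀ + n : ℕ) : ℝ) * β v := by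
    intro n hn v hv
    obtain ⟨h1, h2⟩ := hE n hn
    have h3 : ∑ w ∈ τ, (α w + ((M₀ + n : ℕ) : ℝ) * β w - μ n w) • C.pos w = 0 := by
      simp only [sub_smul, add_smul, Finset.sum_sub_distrib, Finset.sum_add_distrib, mul_smul]
      rw [← Finset.smul_sum, ← hpβ, ← huα, ← h2, sub_self]
    have h4 := C.ind τ hτG _ h3 v hv
    have h5 : α v + ((M₀ + n : ℕ) : ℝ) * β v = μ n v := sub_eq_zero.1 h4
    rw [h5]
    exact h1 v hv
  have hβ0 : ∀ v ∈ τ, 0 ≤ β v := by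
    intro v hv
    by_contra h
    push Not at h
    obtain ⟨k, hk⟩ := exists_nat_gt (α v / (-β v))
    obtain ⟨n, hn, hkn⟩ := hSi.exists_gt k
    have h1 := hcoef n hn v hv
    rw [div_lt_iff₀ (neg_pos.2 h)] at hk
    have h2 : (k : ℝ) ≤ ((M₀ + n : ℕ) : ℝ) := by
      exact_mod_cast hkn.le.trans (Nat.le_add_left _ _)
    have h3 := mul_le_mul_of_nonneg_right h2 (neg_pos.2 h).le
    nlinarith
  have hα0 : ∀ v ∈ τ, β v = 0 → 0 < α v := by
    intro v hv h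
    have h1 := hcoef n₁ hn₁ v hv
    rw [h, mul_zero, add_zero] at h1
    exact h1
  have hGG : G = τ.filter fun v => 0 < β v := by
    refine C.disj G hG _ (C.down τ hτG _ (Finset.filter_subset _ _)) (fun _ => 1) β
      (fun _ _ => one_pos) (fun v hv => (Finset.mem_filter.1 hv).2) ?_
    simp only [one_smul]
    rw [← hp, hpβ]
    symm
    refine Finset.sum_filter_of_ne fun v hv hne => lt_of_le_of_ne (hβ0 v hv) fun h => hne ?_
    rw [← h, zero_smul]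
  have hGτ : G ⊆ τ := by
    rw [hGG]
    exact Finset.filter_subset _ _
  refine ⟨τ, C.mem_fam.2 ⟨hτG, hGτ, ?_⟩, α, fun v hv hvG => ?_, huα⟩
  · ext c
    have h1 : u c + ((M₀ + n₁ : ℕ) : ℝ) * p c = ∑ v ∈ τ, μ n₁ v * C.pos v c := by
      have h2 := congrFun e₁ c
      rw [comb_apply] at h2
      exact h2
    constructor
    · intro hc
      obtain ⟨w, hw, hwc⟩ := C.mem_cr.1 hc
      by_contra hcW
      rw [hB n₁ c hcW] at h1
      have h3 : 0 < ∑ v ∈ τ, μ n₁ v * C.pos v c :=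
        Finset.sum_pos' (fun v hv => mul_nonneg (hμ₁ v hv).le (C.nn v c))
          ⟨w, hw, mul_pos (hμ₁ w hw) hwc⟩
      linarith
    · intro hc
      by_contra hcr
      have h3 := hA n₁ c hc
      rw [h1, Finset.sum_eq_zero fun v hv => by rw [C.pos_zero hcr v hv, mul_zero]] at h3
      exact lt_irrefl _ h3
  · refine hα0 v hv ?_
    by_contra h
    refine hvG ?_
    rw [hGG]
    exact Finset.mem_filter.2 ⟨hv, lt_of_le_of_ne (hβ0 v hv) (Ne.symm h)⟩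

/-- A limit of points of a coarse cell lies in the coarse cell of a smaller cone. -/
theorem limit {G ρ σ : Finset X} (hρ : ρ ∈ C.Gam) (hσ : σ ∈ C.Gam) (hG : G ⊆ ρ) (hG' : G ⊆ σ)
    {x y : Ω → ℝ} (hx : x ∈ C.TT G ρ) (hy : y ∈ C.TT G σ)
    (h : ∀ ε : ℝ, 0 < ε → x + ε • y ∈ C.TT G σ) : ρ ⊆ σ := by
  classical
  obtain ⟨b, hb, e⟩ := hy
  choose c hc ec using h
  obtain ⟨ξ, hξ⟩ : ∃ ξ : X → ℝ, ξ = fun v => c 1 one_pos v - b v := ⟨_, rfl⟩
  have hxξ : x = ∑ v ∈ σ, ξ v • C.pos v := by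
    rw [hξ]
    simp only [sub_smul, Finset.sum_sub_distrib]
    rw [← ec 1 one_pos, ← e, one_smul]
    abel
  have hcoef : ∀ ε : ℝ, 0 < ε → ∀ v ∈ σ, v ∉ G → 0 < ξ v + ε * b v := by
    intro ε hε v hv hvG
    have h3 : ∑ w ∈ σ, (ξ w + ε * b w - c ε hε w) • C.pos w = 0 := by
      simp only [sub_smul, add_smul, Finset.sum_sub_distrib, Finset.sum_add_distrib, mul_smul]
      rw [← Finset.smul_sum, ← hxξ, ← e, ← ec ε hε, sub_self]
    have h4 := C.ind σ hσ _ h3 v hv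
    have h5 : ξ v + ε * b v = c ε hε v := sub_eq_zero.1 h4
    rw [h5]
    exact hc ε hε v hv hvG
  have hξ0 : ∀ v ∈ σ, v ∉ G → 0 ≤ ξ v := by
    intro v hv hvG
    by_contra hneg
    push Not at hneg
    have h1 := hb v hv hvG
    have h2 := hcoef (-ξ v / b v) (div_pos (neg_pos.2 hneg) h1) v hv hvG
    rw [div_mul_cancel₀ _ h1.ne'] at h2
    linarith
  have hτ : (σ.filter fun v => v ∈ G ∨ 0 < ξ v) ∈ C.Gam :=
    C.down σ hσ _ (Finset.filter_subset _ _)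
  have hGτ : G ⊆ σ.filter fun v => v ∈ G ∨ 0 < ξ v := fun v hv =>
    Finset.mem_filter.2 ⟨hG' hv, Or.inl hv⟩
  have hxτ : x ∈ C.TT G (σ.filter fun v => v ∈ G ∨ 0 < ξ v) := by
    refine ⟨ξ, fun v hv hvG => ?_, ?_⟩
    · rcases (Finset.mem_filter.1 hv).2 with h1 | h1
      · exact absurd h1 hvG
      · exact h1
    · rw [hxξ]
      symm
      refine Finset.sum_filter_of_ne fun v hv hne => ?_
      by_cases hvG : v ∈ G
      · exact Or.inl hvG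
      · refine Or.inr (lt_of_le_of_ne (hξ0 v hv hvG) fun h1 => hne ?_)
        rw [← h1, zero_smul]
  rw [C.TT_unique hρ hτ hG hGτ hx hxτ]
  exact Finset.filter_subset _ _

end Pool.Agent.LocH.CFan
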