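import Mathlib

/-!
# Simplicial fans subdividing the positive orthant: definitions
-/

set_option autoImplicit false

open Finset

namespace Pool.Agent.LocH

/-- A finite simplicial fan whose support is the positive orthant of `Ω → ℝ`: `X` is the set of the rays
(`pos v` a generator), `Gam` the set of the cones (given by their sets of rays). -/
structure CFan (X Ω : Type) [DecidableEq X] where
  Gam : Finset (Finset X)
  pos : X → Ω → ℝ
  empty_mem : ∅ ∈ Gam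
  down : ∀ F ∈ Gam, ∀ G, G ⊆ F → G ∈ Gam
  nn : ∀ v c, 0 ≤ pos v c
  ind : ∀ F ∈ Gam, ∀ μ : X → ℝ, ∑ v ∈ F, μ v • pos v = 0 → ∀ v ∈ F, μ v = 0
  disj : ∀ F ∈ Gam, ∀ F' ∈ Gam, ∀ μ μ' : X → ℝ, (∀ v ∈ F, 0 < μ v) → (∀ v ∈ F', 0 < μ' v) →
    ∑ v ∈ F, μ v • pos v = ∑ v ∈ F', μ' v • pos v → F = F'
  cover : ∀ u : Ω → ℝ, (∀ c, 0 ≤ u c) → ∃ F ∈ Gam, ∃ μ : X → ℝ, (∀ v ∈ F, 0 < μ v) ∧
    u = ∑ v ∈ F, μ v • pos v

namespace CFan

variable {X Ω : Type} [DecidableEq X] [Fintype Ω] (C : CFan X Ω)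

open Classical in
/-- The carrier of a cone. -/
noncomputable def cr (F : Finset X) : Finset Ω := univ.filter fun c => ∃ v ∈ F, 0 < C.pos v c

/-- The cones with carrier `W` that contain `G`. -/
noncomputable def fam [DecidableEq Ω] (W : Finset Ω) (G : Finset X) : Finset (Finset X) :=
  C.Gam.filter fun τ => G ⊆ τ ∧ C.cr τ = W

/-- The coarse cell of `τ` relative to `G`: positive combinations, with arbitrary coefficients at `G`. -/
def TT (G τ : Finset X) : Set (Ω → ℝ) :=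
  {u | ∃ μ : X → ℝ, (∀ v ∈ τ, v ∉ G → 0 < μ v) ∧ u = ∑ v ∈ τ, μ v • C.pos v}

/-- The big cell. -/
def OO (W : Finset Ω) (G : Finset X) : Set (Ω → ℝ) :=
  {u | (∀ c, c ∉ W → u c = 0) ∧ ∀ c ∈ W, c ∉ C.cr G → 0 < u c}

lemma mem_cr {F : Finset X} {c : Ω} : c ∈ C.cr F ↔ ∃ v ∈ F, 0 < C.pos v c := by
  classical
  simp [cr]

lemma mem_fam [DecidableEq Ω] {W : Finset Ω} {G τ : Finset X} :
    τ ∈ C.fam W G ↔ τ ∈ C.Gam ∧ G ⊆ τ ∧ C.cr τ = W := by
  classical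
  simp [fam]

end CFan

end Pool.Agent.LocH
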