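import Pool.Agent.LocH.TSg
import Pool.Agent.LocH.TFan

/-!
# Package TF: the coarse cells are given by signs of finitely many functionals

Paper proof (P1.2, (T3) of `/team-store/LHV_proof.md`). Index set
`ι = (Finset X × X) ⊕ (Finset X × Ω) ⊕ Ω`. For every `τ ∈ Gam` the vectors `pos v`, `v ∈ τ`, are linearly
independent (`ind`), so there are functionals `f τ v` on `Ω → ℝ` with `f τ v (pos w) = 1` if `v = w`, `0`
otherwise, for `v, w ∈ τ` (the linear map `(τ → ℝ) → (Ω → ℝ)`, `μ ↦ ∑ μ v • pos v` is injective, so it has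
a linear left inverse: `LinearMap.exists_leftInverse_of_injective`). Let
`l (inl (τ, v)) = f τ v`, `l (inr (inl (τ, c))) u = u c - ∑ v ∈ τ, f τ v u * pos v c`
(zero if `τ ∉ Gam`), `l (inr (inr c)) u = u c`. A vector `u` is a combination of `τ` iff all
`l (inr (inl (τ, c))) u`, `c ∈ Ω`, vanish, and then the coefficients are the `f τ v u`.
`PT τ` = the `inl (τ, v)` with `v ∈ τ`, `v ∉ G` (sign `1`) and the `inr (inl (τ, c))`, `c ∈ Ω` (sign `0`);
`PO` = the `inr (inr c)` with `c ∉ W` (sign `0`) and with `c ∈ W`, `c ∉ cr G` (sign `1`).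
So one may take `pT τ (inl _) = 1`, `pT τ (inr _) = 0`, `pO (inr (inr c)) = if c ∈ W then 1 else 0`.
-/

set_option autoImplicit false

open Finset

namespace Pool.Agent.LocH.CFan

variable {X Ω : Type} [Fintype X] [DecidableEq X] [Fintype Ω] [DecidableEq Ω] (C : CFan X Ω)

omit [Fintype X] [Fintype Ω] [DecidableEq Ω] in
/-- Dual functionals. -/
private theorem dual {τ : Finset X} (hτ : τ ∈ C.Gam) :
    ∃ f : X → (Ω → ℝ) →ₗ[ℝ] ℝ, ∀ μ : X → ℝ, ∀ v ∈ τ,
      f v (∑ w ∈ τ, μ w • C.pos w) = μ v := by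
  have hA : ∀ μ : X → ℝ, Fintype.linearCombination ℝ (fun v : τ => C.pos v) (fun v : τ => μ v) =
      ∑ w ∈ τ, μ w • C.pos w := by
    intro μ
    rw [Fintype.linearCombination_apply]
    exact Finset.sum_coe_sort τ fun w => μ w • C.pos w
  obtain ⟨g, hg⟩ := LinearMap.exists_leftInverse_of_injective
    (Fintype.linearCombination ℝ (fun v : τ => C.pos v)) (by
      rw [LinearMap.ker_eq_bot']
      intro μ hμ
      have h1 : (fun v : τ => (fun v : X => if h : v ∈ τ then μ ⟨v, h⟩ else 0) v) = μ := by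
        funext v
        simp only [v.2, dif_pos]
      have h4 := hA fun v : X => if h : v ∈ τ then μ ⟨v, h⟩ else 0
      rw [h1, hμ] at h4
      have h2 := C.ind τ hτ _ h4.symm
      funext v
      have h3 := h2 v v.2
      simp only [v.2, dif_pos] at h3
      exact h3)
  refine ⟨fun v => if h : v ∈ τ then (LinearMap.proj ⟨v, h⟩).comp g else 0, fun μ v hv => ?_⟩
  dsimp only
  rw [dif_pos hv, LinearMap.comp_apply, ← hA]
  exact congrFun (LinearMap.congr_fun hg fun v : τ => μ v) ⟨v, hv⟩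

/-- The coarse cells are given by the signs of finitely many functionals. -/
theorem exists_family (W : Finset Ω) (G : Finset X) (hW : C.cr G ⊆ W) :
    ∃ (ι : Type) (_ : Fintype ι) (l : ι → (Ω → ℝ) →ₗ[ℝ] ℝ) (PT : Finset X → Finset ι)
      (pT : Finset X → ι → SignType) (PO : Finset ι) (pO : ι → SignType),
      (∀ τ ∈ C.Gam, G ⊆ τ → Sg.OP l (PT τ) (pT τ) = C.TT G τ ∧
        ∀ x, x ∈ Sg.kp l (PT τ) (pT τ) ↔ ∃ μ : X → ℝ, x = ∑ v ∈ τ, μ v • C.pos v) ∧
      Sg.OP l PO pO = C.OO W G ∧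
      ∀ x, x ∈ Sg.kp l PO pO ↔ ∀ c, c ∉ W → x c = 0 := by
  classical
  have h0 : ∀ τ : Finset X, ∃ f : X → (Ω → ℝ) →ₗ[ℝ] ℝ, τ ∈ C.Gam → ∀ μ : X → ℝ, ∀ v ∈ τ,
      f v (∑ w ∈ τ, μ w • C.pos w) = μ v := by
    intro τ
    by_cases hτ : τ ∈ C.Gam
    · obtain ⟨f, hf⟩ := C.dual hτ
      exact ⟨f, fun _ => hf⟩
    · exact ⟨fun _ => 0, fun h => absurd h hτ⟩
  choose f hf using h0
  let l : (Finset X × X) ⊕ (Finset X × Ω) ⊕ Ω → (Ω → ℝ) →ₗ[ℝ] ℝ := fun i => match i with
    | .inl z => f z.1 z.2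
    | .inr (.inl z) => LinearMap.proj z.2 - ∑ v ∈ z.1, C.pos v z.2 • f z.1 v
    | .inr (.inr c) => LinearMap.proj c
  have hl1 : ∀ τ v, l (.inl (τ, v)) = f τ v := fun _ _ => rfl
  have hl2 : ∀ τ c u, l (.inr (.inl (τ, c))) u = u c - ∑ v ∈ τ, C.pos v c * f τ v u := by
    intro τ c u
    change (LinearMap.proj c - ∑ v ∈ τ, C.pos v c • f τ v : (Ω → ℝ) →ₗ[ℝ] ℝ) u = _
    rw [LinearMap.sub_apply, LinearMap.sum_apply]
    rfl
  have hl3 : ∀ c u, l (.inr (.inr c)) u = u c := fun _ _ => rfl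
  -- combinations
  have hcomb : ∀ τ ∈ C.Gam, ∀ u : Ω → ℝ,
      (∀ c, l (.inr (.inl (τ, c))) u = 0) → u = ∑ v ∈ τ, f τ v u • C.pos v := by
    intro τ _ u hu
    funext c
    have h1 := hu c
    rw [hl2, sub_eq_zero] at h1
    rw [h1, Finset.sum_apply]
    exact Finset.sum_congr rfl fun v _ => mul_comm _ _
  have hcomb' : ∀ τ ∈ C.Gam, ∀ μ : X → ℝ, ∀ c,
      l (.inr (.inl (τ, c))) (∑ v ∈ τ, μ v • C.pos v) = 0 := by
    intro τ hτ μ c
    rw [hl2, sub_eq_zero, Finset.sum_apply]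
    refine Finset.sum_congr rfl fun v hv => ?_
    rw [hf τ hτ μ v hv]
    exact mul_comm _ _
  refine ⟨(Finset X × X) ⊕ (Finset X × Ω) ⊕ Ω, inferInstance, l,
    fun τ => ((τ \ G).image fun v => Sum.inl (τ, v)) ∪
      (univ.image fun c => Sum.inr (Sum.inl (τ, c))),
    fun _ => Sum.elim (fun _ => 1) (fun _ => 0),
    (C.cr G)ᶜ.image fun c => Sum.inr (Sum.inr c),
    Sum.elim (fun _ => 0) (Sum.elim (fun _ => 0) fun c => if c ∈ W then 1 else 0), ?_, ?_, ?_⟩
  · intro τ hτ _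
    have hm1 : ∀ v ∈ τ, v ∉ G → (Sum.inl (τ, v) : (Finset X × X) ⊕ (Finset X × Ω) ⊕ Ω) ∈
        ((τ \ G).image fun v => Sum.inl (τ, v)) ∪
          (univ.image fun c => Sum.inr (Sum.inl (τ, c))) := fun v hv hvG =>
      mem_union_left _ (mem_image.2 ⟨v, mem_sdiff.2 ⟨hv, hvG⟩, rfl⟩)
    have hm2 : ∀ c, (Sum.inr (Sum.inl (τ, c)) : (Finset X × X) ⊕ (Finset X × Ω) ⊕ Ω) ∈
        ((τ \ G).image fun v => Sum.inl (τ, v)) ∪
          (univ.image fun c => Sum.inr (Sum.inl (τ, c))) := fun c =>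
      mem_union_right _ (mem_image.2 ⟨c, mem_univ c, rfl⟩)
    constructor
    · ext u
      constructor
      · intro hu
        refine ⟨fun v => f τ v u, fun v hv hvG => ?_, hcomb τ hτ u fun c => ?_⟩
        · exact sign_eq_one_iff.1 (hu _ (hm1 v hv hvG))
        · exact sign_eq_zero_iff.1 (hu _ (hm2 c))
      · rintro ⟨μ, h1, rfl⟩ i hi
        rcases mem_union.1 hi with h2 | h2
        · obtain ⟨v, hv, rfl⟩ := mem_image.1 h2
          rw [mem_sdiff] at hv
          rw [hl1, hf τ hτ μ v hv.1]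
          exact sign_eq_one_iff.2 (h1 v hv.1 hv.2)
        · obtain ⟨c, _, rfl⟩ := mem_image.1 h2
          rw [hcomb' τ hτ μ c]
          exact sign_zero
    · intro x
      rw [Sg.mem_kp]
      constructor
      · intro h
        exact ⟨fun v => f τ v x, hcomb τ hτ x fun c => h _ (hm2 c) rfl⟩
      · rintro ⟨μ, rfl⟩ i hi h1
        rcases mem_union.1 hi with h2 | h2
        · obtain ⟨v, _, rfl⟩ := mem_image.1 h2
          exact absurd h1 (by simp)
        · obtain ⟨c, _, rfl⟩ := mem_image.1 h2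
          exact hcomb' τ hτ μ c
  · ext u
    constructor
    · intro hu
      constructor
      · intro c hc
        have h1 := hu (Sum.inr (Sum.inr c)) (mem_image.2 ⟨c, mem_compl.2 fun h => hc (hW h), rfl⟩)
        rw [hl3] at h1
        simp only [Sum.elim_inr, hc, if_false] at h1
        exact sign_eq_zero_iff.1 h1
      · intro c hc hcG
        have h1 := hu (Sum.inr (Sum.inr c)) (mem_image.2 ⟨c, mem_compl.2 hcG, rfl⟩)
        rw [hl3] at h1
        simp only [Sum.elim_inr, hc, if_true] at h1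
        exact sign_eq_one_iff.1 h1
    · rintro ⟨h1, h2⟩ i hi
      obtain ⟨c, hc, rfl⟩ := mem_image.1 hi
      rw [mem_compl] at hc
      rw [hl3]
      by_cases hcW : c ∈ W
      · simp only [Sum.elim_inr, hcW, if_true]
        exact sign_eq_one_iff.2 (h2 c hcW hc)
      · simp only [Sum.elim_inr, hcW, if_false]
        exact sign_eq_zero_iff.2 (h1 c hcW)
  · intro x
    rw [Sg.mem_kp]
    constructor
    · intro h c hc
      have h1 := h (Sum.inr (Sum.inr c)) (mem_image.2 ⟨c, mem_compl.2 fun h => hc (hW h), rfl⟩)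
      rw [hl3] at h1
      exact h1 (by simp only [Sum.elim_inr, hc, if_false])
    · intro h i hi h1
      obtain ⟨c, hc, rfl⟩ := mem_image.1 hi
      rw [hl3]
      refine h c fun hcW => ?_
      simp [hcW] at h1

end Pool.Agent.LocH.CFan
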