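import Pool.Agent.LocH.TD
import Pool.Agent.LocH.TE
import Pool.Agent.LocH.TF

/-! # Package TG: the topological property (Top) of simplicial fans

Paper proof (P1.2 of `/team-store/LHV_proof.md`). Let `ι, l, PT, pT, PO, pO` be as in
`exists_family`. Apply `Sg.compare` with `𝒯 = C.fam W G`, `m = W.card`. * `hO`: the vector with `1`
at `W` and `0` outside is in `OO W G`. * `hm`: `kp l PO pO = {x | ∀ c ∉ W, x c = 0}` has dimension
`W.card`. * `κ s` = a `τ ∈ fam W G` such that `s` is a cell of `PT τ, pT τ`, if there is one (else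
`∅`). * `h2`: if `s = sg l x` is a cell of `PT τ` then `x ∈ TT G τ ⊆ OO W G` (`TT_cr`), so it is a
cell of `PO`; if it is also a cell of `PT τ'` then `x ∈ TT G τ'`, `τ = τ'` (`TT_unique`), so `κ s =
τ`. Conversely for a cell `s = sg l x` of `PO`, `x ∈ OO W G`, there is such a `τ` by `OO_cover`
(this is `h1`), so `s` is a cell of `PT (κ s)`. * `h3`: `∑ v ∈ τ, pos v ∈ TT G τ`; `kp l (PT τ) (pT
τ)` is the span of the independent vectors `pos v`, `v ∈ τ`. * `h4`: `s = sg l x ≤ s' = sg l y`.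
For `ε > 0` the sign vector of `x + ε y` is `s'` (if `s i = 0` the sign is that of `l i y`; if `s i
≠ 0` then `l i x` and `l i y` have the same sign). So all `x + ε y` are in `TT G (κ s')`, and
`limit` gives `κ s ⊆ κ s'`. * `h5`: let `ρ = κ s`, `dm l s = ρ.card`, `σ ∈ fam W G`, `σ = insert w
ρ`, `w ∉ ρ` (so `w ∉ G`), `s = sg l x`. `ks l s ≤ kp l (PT ρ) (pT ρ)` (`ks_le_kp`), both have
dimension `ρ.card`, so `ks l s` is the set of the combinations of `ρ`. Claim: `s' := tilt l s (pos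
w)` is the only element. It is a cell of `PO` (`tilt_cell`; `pos w c = 0` for `c ∉ W = cr σ`), `s ≤
s'` (`sle_tilt`); `x + ε pos w ∈ TT G σ` for all `ε > 0`, with sign vector `s'` for small `ε`
(`tilt_eq`), so `s'` is a cell of `PT σ`, `κ s' = σ` and `dm l s' ≤ dp l (PT σ) (pT σ) = ρ.card +
1` (`dm_le`); and `pos w ∉ ks l s` (`ind` for `σ`), so `dm l s' > dm l s` (`dm_lt_tilt`).
Uniqueness: `s'' = sg l y ∈ up`, `κ s'' = σ`: `y ∈ TT G σ`, `y = ∑ v ∈ ρ, μ v • pos v + μ w • pos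
w`, `μ w > 0`; `eq_tilt` with `z = ∑ v ∈ ρ, μ v • pos v ∈ ks l s`. -/

set_option autoImplicit false

open Finset

namespace Pool.Agent.LocH.CFan

variable {X Ω : Type} [Fintype X] [DecidableEq X] [Fintype Ω] [DecidableEq Ω] (C : CFan X Ω)

omit [Fintype X] [Fintype Ω] [DecidableEq Ω] in
private lemma linInd {F : Finset X} (hF : F ∈ C.Gam) :
    LinearIndependent ℝ (fun v : F => C.pos v.1) := by
  classical
  rw [Fintype.linearIndependent_iff]
  intro g hg v
  let μ : X → ℝ := fun v => if h : v ∈ F then g ⟨v, h⟩ else 0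
  have h1 : ∑ v ∈ F, μ v • C.pos v = 0 := by
    rw [← Finset.sum_coe_sort, ← hg]
    refine Finset.sum_congr rfl fun v _ => ?_
    simp only [μ, v.2, dif_pos, Subtype.coe_eta]
  have h2 := C.ind F hF μ h1 v.1 v.2
  simpa only [μ, v.2, dif_pos, Subtype.coe_eta] using h2

omit [Fintype X] [Fintype Ω] [DecidableEq Ω] in
private lemma mem_span_iff {F : Finset X} {x : Ω → ℝ} :
    x ∈ Submodule.span ℝ (Set.range fun v : F => C.pos v.1) ↔
      ∃ μ : X → ℝ, x = ∑ v ∈ F, μ v • C.pos v := by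
  classical
  rw [Submodule.mem_span_range_iff_exists_fun]
  constructor
  · rintro ⟨g, rfl⟩
    refine ⟨fun v => if h : v ∈ F then g ⟨v, h⟩ else 0, ?_⟩
    rw [← Finset.sum_coe_sort F]
    refine Finset.sum_congr rfl fun v _ => ?_
    simp only [v.2, dif_pos, Subtype.coe_eta]
  · rintro ⟨μ, rfl⟩
    refine ⟨fun v : F => μ v.1, ?_⟩
    exact Finset.sum_coe_sort F (fun v : X => μ v • C.pos v)

private lemma sign_add {a b ε : ℝ} (hε : 0 < ε)
    (h : SignType.sign a = 0 ∨ SignType.sign a = SignType.sign b) :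
    SignType.sign (a + ε * b) = SignType.sign b := by
  rcases h with h | h
  · rw [sign_eq_zero_iff] at h
    rw [h, zero_add, sign_mul, sign_pos hε, one_mul]
  · rcases lt_trichotomy b 0 with hb | hb | hb
    · rw [sign_neg hb, sign_eq_neg_one_iff] at h
      have h1 : ε * b < 0 := mul_neg_of_pos_of_neg hε hb
      rw [sign_neg hb, sign_neg (by linarith)]
    · rw [hb, sign_zero, sign_eq_zero_iff] at h
      rw [h, hb, mul_zero, add_zero]
    · rw [sign_pos hb, sign_eq_one_iff] at h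
      have h1 : 0 < ε * b := mul_pos hε hb
      rw [sign_pos hb, sign_pos (by linarith)]

private lemma cell_iff {E ι : Type} [AddCommGroup E] [Module ℝ E] {l : ι → E →ₗ[ℝ] ℝ}
    {P : Finset ι} {p : ι → SignType} {x : E} : Sg.Cell l P p (Sg.sg l x) ↔ x ∈ Sg.OP l P p :=
  ⟨fun h => Sg.mem_OP_of_cell h, fun h => Sg.cell_sg h⟩

open Classical in
/-- The complex of the cones with carrier `W` containing `G`. -/
theorem top (W : Finset Ω) (G : Finset X) (hG : G ∈ C.Gam) (hW : C.cr G ⊆ W)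
    {F : Type} [Field F] [CharP F 2] :
    (∀ j < W.card, ∀ z : Finset X → F,
      (∀ k, k + 1 = j → ∀ τ ∈ C.fam W G, τ.card = k →
        ∑ σ ∈ (C.fam W G).filter (fun σ => τ ⊆ σ ∧ σ.card = j), z σ = 0) →
      ∃ y : Finset X → F, ∀ σ ∈ C.fam W G, σ.card = j →
        z σ = ∑ ρ ∈ (C.fam W G).filter (fun ρ => σ ⊆ ρ ∧ ρ.card = j + 1), y ρ) ∧
    (∀ z : Finset X → F,
      (∀ k, k + 1 = W.card → ∀ τ ∈ C.fam W G, τ.card = k →
        ∑ σ ∈ (C.fam W G).filter (fun σ => τ ⊆ σ ∧ σ.card = W.card), z σ = 0) →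
      ∀ σ ∈ C.fam W G, ∀ σ' ∈ C.fam W G, σ.card = W.card → σ'.card = W.card → z σ = z σ') ∧
    (∀ k, k + 1 = W.card → ∀ τ ∈ C.fam W G, τ.card = k →
      ((C.fam W G).filter fun σ => τ ⊆ σ ∧ σ.card = W.card).card = 2) ∧
    ∃ σ ∈ C.fam W G, σ.card = W.card := by
  obtain ⟨ι, hι, l, PT, pT, PO, pO, hT, hOO, hkO⟩ := C.exists_family W G hW
  have hfam : ∀ τ ∈ C.fam W G, τ ∈ C.Gam ∧ G ⊆ τ ∧ C.cr τ = W := fun τ h => C.mem_fam.1 h
  have cellT : ∀ τ ∈ C.fam W G, ∀ x, Sg.Cell l (PT τ) (pT τ) (Sg.sg l x) ↔ x ∈ C.TT G τ := by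
    intro τ hτ x
    rw [cell_iff, (hT τ (hfam τ hτ).1 (hfam τ hτ).2.1).1]
  have cellO : ∀ x, Sg.Cell l PO pO (Sg.sg l x) ↔ x ∈ C.OO W G := by
    intro x
    rw [cell_iff, hOO]
  let κ : (ι → SignType) → Finset X := fun s =>
    if h : ∃ τ ∈ C.fam W G, Sg.Cell l (PT τ) (pT τ) s then h.choose else ∅
  have hκ : ∀ s, (∃ τ ∈ C.fam W G, Sg.Cell l (PT τ) (pT τ) s) →
      κ s ∈ C.fam W G ∧ Sg.Cell l (PT (κ s)) (pT (κ s)) s := by
    intro s h
    have h1 : κ s = h.choose := dif_pos h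
    rw [h1]
    exact h.choose_spec
  have hex : ∀ s, Sg.Cell l PO pO s → ∃ τ ∈ C.fam W G, Sg.Cell l (PT τ) (pT τ) s := by
    intro s hs
    obtain ⟨x, rfl⟩ := hs.1
    obtain ⟨τ, hτ, hx⟩ := C.OO_cover hG hW ((cellO x).1 hs)
    exact ⟨τ, hτ, (cellT τ hτ x).2 hx⟩
  have h1 : ∀ s, Sg.Cell l PO pO s → κ s ∈ C.fam W G := fun s hs => (hκ s (hex s hs)).1
  have h2 : ∀ τ ∈ C.fam W G, ∀ s,
      Sg.Cell l (PT τ) (pT τ) s ↔ Sg.Cell l PO pO s ∧ κ s = τ := by
    intro τ hτ s
    constructor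
    · intro hs
      have h3 := hκ s ⟨τ, hτ, hs⟩
      obtain ⟨x, rfl⟩ := hs.1
      have hx := (cellT τ hτ x).1 hs
      have hx' := (cellT _ h3.1 x).1 h3.2
      exact ⟨(cellO x).2 (C.TT_cr hτ hx), C.TT_unique (hfam _ h3.1).1 (hfam _ hτ).1
        (hfam _ h3.1).2.1 (hfam _ hτ).2.1 hx' hx⟩
    · rintro ⟨hs, rfl⟩
      exact (hκ s (hex s hs)).2
  have hkT : ∀ τ ∈ C.fam W G, Sg.kp l (PT τ) (pT τ) =
      Submodule.span ℝ (Set.range fun v : τ => C.pos v.1) := by
    intro τ hτ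
    ext x
    rw [(hT τ (hfam τ hτ).1 (hfam τ hτ).2.1).2 x, C.mem_span_iff]
  have h3 : ∀ τ ∈ C.fam W G,
      (Sg.OP l (PT τ) (pT τ)).Nonempty ∧ Sg.dp l (PT τ) (pT τ) = τ.card := by
    intro τ hτ
    refine ⟨?_, ?_⟩
    · rw [(hT τ (hfam τ hτ).1 (hfam τ hτ).2.1).1]
      exact ⟨_, fun _ => 1, fun v _ _ => one_pos, rfl⟩
    · unfold Sg.dp
      rw [hkT τ hτ, finrank_span_eq_card (C.linInd (hfam τ hτ).1), Fintype.card_coe]
  have h4 : ∀ s s', Sg.Cell l PO pO s → Sg.Cell l PO pO s' → Sg.sle s s' → κ s ⊆ κ s' := by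
    intro s s' hs hs' hle
    have hk := hκ s (hex s hs)
    have hk' := hκ s' (hex s' hs')
    obtain ⟨x, hx⟩ := hs.1
    obtain ⟨y, hy⟩ := hs'.1
    refine C.limit (x := x) (y := y) (hfam _ hk.1).1 (hfam _ hk'.1).1 (hfam _ hk.1).2.1
      (hfam _ hk'.1).2.1 ((cellT _ hk.1 x).1 (hx ▸ hk.2)) ((cellT _ hk'.1 y).1 (hy ▸ hk'.2)) ?_
    intro ε hε
    refine (cellT _ hk'.1 _).1 ?_
    have h5 : Sg.sg l (x + ε • y) = s' := by
      rw [← hy]
      funext i
      have h6 := hle i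
      rw [← hx, ← hy] at h6
      change SignType.sign (l i (x + ε • y)) = SignType.sign (l i y)
      rw [map_add, map_smul, smul_eq_mul]
      exact sign_add hε h6
    rw [h5]
    exact hk'.2
  have h5 : ∀ s, Sg.Cell l PO pO s → Sg.dm l s = (κ s).card → ∀ σ ∈ C.fam W G, κ s ⊆ σ →
      σ.card = (κ s).card + 1 →
        ((Sg.up l PO pO s).filter fun s' => κ s' = σ).card = 1 := by
    intro s hs hd σ hσ hsub hcard
    have hk := hκ s (hex s hs)
    have hρ := hfam _ hk.1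
    obtain ⟨w, hw, hwσ⟩ := Finset.exists_eq_insert_iff.2 ⟨hsub, hcard.symm⟩
    have hwmem : w ∈ σ := by
      rw [← hwσ]
      exact Finset.mem_insert_self _ _
    have hwG : w ∉ G := fun h => hw (hρ.2.1 h)
    obtain ⟨x, hx⟩ := hs.1
    have hks : Sg.ks l s = Submodule.span ℝ (Set.range fun v : (κ s : Finset X) => C.pos v.1) := by
      rw [← hkT _ hk.1]
      refine Submodule.eq_of_le_of_finrank_eq (Sg.ks_le_kp hk.2) ?_
      exact hd.trans (h3 _ hk.1).2.symm
    have hpw : C.pos w ∉ Sg.ks l s := by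
      rw [hks, C.mem_span_iff]
      rintro ⟨μ, hμ⟩
      let ν : X → ℝ := fun v => if v = w then -1 else μ v
      have h6 : ∑ v ∈ σ, ν v • C.pos v = 0 := by
        rw [← hwσ, Finset.sum_insert hw]
        have h7 : ∑ v ∈ κ s, ν v • C.pos v = ∑ v ∈ κ s, μ v • C.pos v := by
          refine Finset.sum_congr rfl fun v hv => ?_
          have h8 : v ≠ w := fun h => hw (h ▸ hv)
          simp only [ν, h8, if_false]
        rw [h7, ← hμ]
        simp only [ν, if_true, neg_smul, one_smul, neg_add_cancel]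
      have h9 := C.ind σ (hfam _ hσ).1 ν h6 w hwmem
      simp only [ν, if_true] at h9
      norm_num at h9
    have hcell : Sg.Cell l PO pO (Sg.tilt l s (C.pos w)) := by
      refine Sg.tilt_cell l hs ((hkO _).2 fun c hc => ?_)
      rw [← (hfam _ hσ).2.2, C.mem_cr] at hc
      have h6 : ¬ 0 < C.pos w c := fun h => hc ⟨w, hwmem, h⟩
      exact le_antisymm (not_lt.1 h6) (C.nn w c)
    have hκs' : Sg.Cell l (PT σ) (pT σ) (Sg.tilt l s (C.pos w)) := by
      obtain ⟨δ, hδ, hδ'⟩ := Sg.tilt_eq l (C.pos w) hx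
      rw [← hδ' δ hδ le_rfl, cellT σ hσ]
      obtain ⟨μ, hμ, hxμ⟩ := (cellT _ hk.1 x).1 (hx ▸ hk.2)
      refine ⟨fun v => if v = w then δ else μ v, fun v hv hvG => ?_, ?_⟩
      · by_cases hvw : v = w
        · simp only [hvw, if_true]
          exact hδ
        · simp only [hvw, if_false]
          rw [← hwσ, Finset.mem_insert] at hv
          exact hμ v (hv.resolve_left hvw) hvG
      · have h7 : ∑ v ∈ κ s, (if v = w then δ else μ v) • C.pos v =
            ∑ v ∈ κ s, μ v • C.pos v := by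
          refine Finset.sum_congr rfl fun v hv => ?_
          have h8 : v ≠ w := fun h => hw (h ▸ hv)
          simp only [h8, if_false]
        rw [← hwσ, Finset.sum_insert hw, h7, ← hxμ]
        simp only [if_true]
        rw [add_comm]
    have hκeq : κ (Sg.tilt l s (C.pos w)) = σ := ((h2 σ hσ _).1 hκs').2
    have hdm : Sg.dm l (Sg.tilt l s (C.pos w)) = Sg.dm l s + 1 := by
      have h6 := Sg.dm_lt_tilt l hpw
      have h7 := Sg.dm_le l hκs'
      rw [(h3 σ hσ).2, hcard, ← hd] at h7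
      omega
    refine Finset.card_eq_one.2 ⟨Sg.tilt l s (C.pos w),
      Finset.eq_singleton_iff_unique_mem.2 ⟨?_, ?_⟩⟩
    · rw [Finset.mem_filter, Sg.mem_up]
      exact ⟨⟨hcell, Sg.sle_tilt l s (C.pos w), hdm⟩, hκeq⟩
    · intro s'' hs''
      rw [Finset.mem_filter, Sg.mem_up] at hs''
      obtain ⟨⟨hc, hle, -⟩, hκ''⟩ := hs''
      obtain ⟨y, hy⟩ := hc.1
      have hyT : Sg.Cell l (PT σ) (pT σ) s'' := (h2 σ hσ s'').2 ⟨hc, hκ''⟩
      rw [← hy, cellT σ hσ] at hyT
      obtain ⟨μ, hμ, hyμ⟩ := hyT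
      rw [← hwσ, Finset.sum_insert hw, add_comm] at hyμ
      refine Sg.eq_tilt l hle hy ?_ (hμ w hwmem hwG) hyμ
      rw [hks, C.mem_span_iff]
      exact ⟨μ, rfl⟩
  have hO : (Sg.OP l PO pO).Nonempty := by
    rw [hOO]
    refine ⟨fun c => if c ∈ W then 1 else 0, fun c hc => if_neg hc, fun c hc _ => ?_⟩
    simp only [hc, if_true]
    exact one_pos
  have hm : Sg.dp l PO pO = W.card := by
    let e : Sg.kp l PO pO ≃ₗ[ℝ] (W → ℝ) :=
      { toFun := fun x c => x.1 c.1
        map_add' := fun x y => rfl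
        map_smul' := fun r x => rfl
        invFun := fun y => ⟨fun c => if h : c ∈ W then y ⟨c, h⟩ else 0,
          (hkO _).2 fun c hc => dif_neg hc⟩
        left_inv := fun x => by
          refine Subtype.ext ?_
          funext c
          by_cases hc : c ∈ W
          · simp only [hc, dif_pos]
          · simp only [hc, dif_neg, not_false_eq_true]
            exact ((hkO x.1).1 x.2 c hc).symm
        right_inv := fun y => by
          funext c
          simp only [c.2, dif_pos, Subtype.coe_eta] }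
    unfold Sg.dp
    rw [e.finrank_eq, Module.finrank_fintype_fun_eq_card, Fintype.card_coe]
  exact Sg.compare l PO pO PT pT (C.fam W G) W.card hO hm κ h1 h2 h3 h4 h5

/-- The number of the rays of a cone is at most the size of its carrier. -/
theorem card_le (F : Finset X) (hF : F ∈ C.Gam) : F.card ≤ (C.cr F).card := by
  classical
  have h1 : LinearIndependent ℝ (fun (v : F) (c : (C.cr F : Finset Ω)) => C.pos v.1 c.1) := by
    rw [Fintype.linearIndependent_iff]
    intro g hg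
    have h2 := Fintype.linearIndependent_iff.1 (C.linInd hF) g
    refine h2 ?_
    funext c
    by_cases hc : c ∈ C.cr F
    · have h3 := congrFun hg ⟨c, hc⟩
      simp only [Finset.sum_apply, Pi.smul_apply, Pi.zero_apply] at h3 ⊢
      exact h3
    · simp only [Finset.sum_apply, Pi.smul_apply, Pi.zero_apply, smul_eq_mul]
      refine Finset.sum_eq_zero fun v _ => ?_
      have h4 : ¬ 0 < C.pos v.1 c := fun h => hc (C.mem_cr.2 ⟨v.1, v.2, h⟩)
      rw [le_antisymm (not_lt.1 h4) (C.nn v.1 c), mul_zero]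
  have h2 := h1.fintype_card_le_finrank
  rwa [Module.finrank_fintype_fun_eq_card, Fintype.card_coe, Fintype.card_coe] at h2

end Pool.Agent.LocH.CFan
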