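import Pool.Agent.LocH.TFan
import Pool.Agent.LH12.FanOf

/-!
# Package TH: the fan of a geometric subdivision

`S.K` is a finite geometric simplicial complex with underlying space the standard simplex. Its vertices are
vectors with nonnegative coordinates and coordinate sum `1`. The fan consists of the cones over the faces,
with the empty face (the cone `{0}`). Useful lemmas of `Pool.Agent.LH12.FanOf`: `GeomSub.mem_simplex`,
`GeomSub.face_indep`, `GeomSub.inter_cone`, `sum_coord`, `smul_mem_cone`, `hull_of_cone`.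
* `ind`: `face_indep` for nonempty faces; trivial for the empty face.
* `disj`: let `x = ∑ v ∈ F, μ v • v = ∑ v ∈ F', μ' v • v`, all coefficients positive. If `F = ∅` then
  `x = 0`, the coordinate sum `∑ v ∈ F', μ' v` is `0`, so `F' = ∅`; similarly for `F' = ∅`. Otherwise `x` is
  in both cones, so in the cone of `F ∩ F'` (`inter_cone`); by the linear independence of `F` the
  coefficients outside `F ∩ F'` vanish, so `F ⊆ F'`; by symmetry `F = F'`.
* `cover`: `u = 0`: `F = ∅`. Otherwise `s = ∑ c, u c > 0` and `u / s` is in the standard simplex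
  `= S.K.space`, so in the convex hull of a face `F₀`; `u = ∑ v ∈ F₀, μ v • v` with `μ v ≥ 0`; let `F` be the
  set of the `v ∈ F₀` with `μ v > 0`; it is a face or empty (`down_closed`).
-/

set_option autoImplicit false

open Finset

namespace Pool.LH12.GeomSub

/-- The vertices of a geometric subdivision. -/
noncomputable def vset {d : ℕ} (S : GeomSub d) : Finset (Fin d → ℝ) := by
  classical
  exact S.allFaces.biUnion id

private lemma th_mem {d : ℕ} (S : GeomSub d) {F : Finset (Fin d → ℝ)} :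
    F ∈ S.allFaces ↔ F = ∅ ∨ F ∈ S.K.faces := by
  simp [allFaces]

private lemma th_down {d : ℕ} (S : GeomSub d) {F G : Finset (Fin d → ℝ)} (hF : F ∈ S.allFaces)
    (hG : G ⊆ F) : G ∈ S.allFaces := by
  rw [th_mem] at hF ⊢
  rcases G.eq_empty_or_nonempty with h | h
  · exact Or.inl h
  · rcases hF with rfl | hF
    · exact Or.inl (Finset.subset_empty.1 hG)
    · exact Or.inr (S.K.down_closed hF hG h)

private lemma th_faces {d : ℕ} (S : GeomSub d) {F : Finset (Fin d → ℝ)} (hF : F ∈ S.allFaces)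
    {v : Fin d → ℝ} (hv : v ∈ F) : F ∈ S.K.faces := by
  rcases (th_mem S).1 hF with rfl | h
  · exact absurd hv (Finset.notMem_empty v)
  · exact h

private lemma th_ind {d : ℕ} (S : GeomSub d) {F : Finset (Fin d → ℝ)} (hF : F ∈ S.allFaces)
    (ν : (Fin d → ℝ) → ℝ) (h : ∑ v ∈ F, ν v • v = 0) : ∀ v ∈ F, ν v = 0 := by
  intro v hv
  have hF' := th_faces S hF hv
  rw [← Finset.sum_attach] at h
  exact Fintype.linearIndependent_iff.1 (S.face_indep hF') (fun u => ν u) h ⟨v, hv⟩

private lemma th_disj {d : ℕ} (S : GeomSub d) {F F' : Finset (Fin d → ℝ)} (hF : F ∈ S.allFaces)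
    (hF' : F' ∈ S.allFaces) (ν ν' : (Fin d → ℝ) → ℝ) (h : ∀ v ∈ F, 0 < ν v)
    (h' : ∀ v ∈ F', 0 < ν' v) (he : ∑ v ∈ F, ν v • v = ∑ v ∈ F', ν' v • v) : F ⊆ F' := by
  intro v hv
  by_contra hvF
  have hFf := th_faces S hF hv
  have hsF : ∀ w ∈ F, ∑ i, w i = 1 := fun w hw => (S.mem_simplex hFf hw).2
  have hsum : 0 < ∑ w ∈ F, ν w := Finset.sum_pos h ⟨v, hv⟩
  have hne : F'.Nonempty := by
    rw [Finset.nonempty_iff_ne_empty]
    rintro rfl
    rw [Finset.sum_empty] at he
    have h1 := sum_coord hsF ν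
    rw [he] at h1
    simp only [Pi.zero_apply, Finset.sum_const_zero] at h1
    exact hsum.ne h1
  obtain ⟨w, hw⟩ := hne
  have hFf' := th_faces S hF' hw
  obtain ⟨lam, _, hlam⟩ := S.inter_cone hFf hFf' (x := ∑ v ∈ F, ν v • v)
    ⟨ν, fun v hv => (h v hv).le, rfl⟩ ⟨ν', fun v hv => (h' v hv).le, he⟩
  have hzero : ∑ u ∈ F, (ν u - (if u ∈ F' then lam u else 0)) • u = 0 := by
    simp only [sub_smul, Finset.sum_sub_distrib, ite_smul, zero_smul]
    rw [sub_eq_zero, hlam, ← Finset.sum_filter, Finset.filter_mem_eq_inter]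
  have h2 := th_ind S hF (fun u => ν u - (if u ∈ F' then lam u else 0)) hzero v hv
  simp only [if_neg hvF, sub_zero] at h2
  exact (h v hv).ne' h2

private lemma th_cover {d : ℕ} (S : GeomSub d) (u : Fin d → ℝ) (hu : ∀ c, 0 ≤ u c) :
    ∃ F ∈ S.allFaces, ∃ ν : (Fin d → ℝ) → ℝ, (∀ v ∈ F, 0 < ν v) ∧ u = ∑ v ∈ F, ν v • v := by
  classical
  by_cases h0 : u = 0
  · exact ⟨∅, (th_mem S).2 (Or.inl rfl), fun _ => 1, by simp, by simp [h0]⟩
  have hsum : 0 < ∑ i, u i := by
    refine (Finset.sum_nonneg fun i _ => hu i).lt_of_ne fun h => h0 ?_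
    have h1 := (Finset.sum_eq_zero_iff_of_nonneg fun i _ => hu i).1 h.symm
    funext i
    exact h1 i (Finset.mem_univ i)
  have hmem : (∑ i, u i)⁻¹ • u ∈ S.K.space := by
    rw [S.space]
    refine ⟨fun i => ?_, ?_⟩
    · exact mul_nonneg (inv_nonneg.2 hsum.le) (hu i)
    · simp only [Pi.smul_apply, smul_eq_mul]
      rw [← Finset.mul_sum, inv_mul_cancel₀ hsum.ne']
  rw [Geometry.SimplicialComplex.mem_space_iff] at hmem
  obtain ⟨F, hF, hyF⟩ := hmem
  have hyc : u ∈ cone F := by
    have h := smul_mem_cone hsum.le hyF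
    rwa [smul_smul, mul_inv_cancel₀ hsum.ne', one_smul] at h
  obtain ⟨μ, hμ, hx⟩ := hyc
  refine ⟨F.filter fun v => 0 < μ v, th_down S ((th_mem S).2 (Or.inr hF))
    (Finset.filter_subset _ _), μ, fun v hv => (Finset.mem_filter.1 hv).2, ?_⟩
  rw [Finset.sum_filter]
  rw [hx]
  apply Finset.sum_congr rfl
  intro v hv
  split_ifs with h1
  · rfl
  · have h2 : μ v = 0 := le_antisymm (not_lt.1 h1) (hμ v hv)
    rw [h2, zero_smul]

private lemma th_vset {d : ℕ} (S : GeomSub d) {v : Fin d → ℝ} :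
    v ∈ S.vset ↔ ∃ F ∈ S.allFaces, v ∈ F := by
  simp [vset]

/-- extension by zero -/
private noncomputable def thExt {d : ℕ} (S : GeomSub d) (μ : {v // v ∈ S.vset} → ℝ) :
    (Fin d → ℝ) → ℝ := by
  classical
  exact fun v => if h : v ∈ S.vset then μ ⟨v, h⟩ else 0

private lemma thExt_val {d : ℕ} (S : GeomSub d) (μ : {v // v ∈ S.vset} → ℝ)
    (v : {v // v ∈ S.vset}) : thExt S μ v.1 = μ v := by
  unfold thExt
  rw [dif_pos v.2]

private lemma thExt_sum {d : ℕ} (S : GeomSub d) (μ : {v // v ∈ S.vset} → ℝ)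
    (F : Finset {v // v ∈ S.vset}) :
    ∑ v ∈ F.map (Function.Embedding.subtype fun v => v ∈ S.vset), thExt S μ v • v =
      ∑ v ∈ F, μ v • v.1 := by
  rw [Finset.sum_map]
  apply Finset.sum_congr rfl
  intro v _
  show thExt S μ v.1 • v.1 = _
  rw [thExt_val]

private lemma thExt_pos {d : ℕ} (S : GeomSub d) (μ : {v // v ∈ S.vset} → ℝ)
    (F : Finset {v // v ∈ S.vset}) (h : ∀ v ∈ F, 0 < μ v) :
    ∀ v ∈ F.map (Function.Embedding.subtype fun v => v ∈ S.vset), 0 < thExt S μ v := by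
  intro v hv
  rw [Finset.mem_map] at hv
  obtain ⟨w, hw, rfl⟩ := hv
  show 0 < thExt S μ w.1
  rw [thExt_val]
  exact h w hw

/-- The fan of a geometric subdivision. -/
theorem exists_fan {d : ℕ} (S : GeomSub d) :
    ∃ C : Pool.Agent.LocH.CFan {v // v ∈ S.vset} (Fin d),
      (∀ F : Finset {v // v ∈ S.vset}, F ∈ C.Gam ↔
        F.map (Function.Embedding.subtype fun v => v ∈ S.vset) ∈ S.allFaces) ∧
      ∀ v, C.pos v = v.1 := by
  classical
  have hmem : ∀ F : Finset {v // v ∈ S.vset},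
      F ∈ (Finset.univ.filter fun F : Finset {v // v ∈ S.vset} =>
        F.map (Function.Embedding.subtype fun v => v ∈ S.vset) ∈ S.allFaces) ↔
      F.map (Function.Embedding.subtype fun v => v ∈ S.vset) ∈ S.allFaces := fun F => by simp
  refine ⟨⟨Finset.univ.filter fun F : Finset {v // v ∈ S.vset} =>
      F.map (Function.Embedding.subtype fun v => v ∈ S.vset) ∈ S.allFaces, fun v => v.1,
      ?_, ?_, ?_, ?_, ?_, ?_⟩, hmem, fun v => rfl⟩
  · rw [hmem, Finset.map_empty]
    exact (th_mem S).2 (Or.inl rfl)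
  · intro F hF G hG
    rw [hmem] at hF ⊢
    exact th_down S hF (Finset.map_subset_map.2 hG)
  · rintro ⟨v, hv⟩ c
    obtain ⟨F, hF, hvF⟩ := (th_vset S).1 hv
    exact (S.mem_simplex (th_faces S hF hvF) hvF).1 c
  · intro F hF μ h v hv
    rw [hmem] at hF
    have h1 := th_ind S hF (thExt S μ) ((thExt_sum S μ F).trans h) v.1
      (Finset.mem_map.2 ⟨v, hv, rfl⟩)
    rwa [thExt_val] at h1
  · intro F hF F' hF' μ μ' h h' he
    rw [hmem] at hF hF'
    have he' := ((thExt_sum S μ F).trans he).trans (thExt_sum S μ' F').symm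
    have h1 := th_disj S hF hF' _ _ (thExt_pos S μ F h) (thExt_pos S μ' F' h') he'
    have h2 := th_disj S hF' hF _ _ (thExt_pos S μ' F' h') (thExt_pos S μ F h) he'.symm
    exact Finset.map_injective _ (Finset.Subset.antisymm h1 h2)
  · intro u hu
    obtain ⟨F, hF, ν, hν, hx⟩ := th_cover S u hu
    have hsub : (F.subtype fun v => v ∈ S.vset).map
        (Function.Embedding.subtype fun v => v ∈ S.vset) = F := by
      rw [Finset.subtype_map]
      apply Finset.filter_true_of_mem
      intro v hv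
      exact (th_vset S).2 ⟨F, hF, hv⟩
    refine ⟨F.subtype fun v => v ∈ S.vset, ?_, fun v => ν v.1, ?_, ?_⟩
    · rw [hmem, hsub]
      exact hF
    · intro v hv
      exact hν _ (Finset.mem_subtype.1 hv)
    · rw [hx]
      conv_lhs => rw [← hsub]
      rw [Finset.sum_map]
      rfl

end Pool.LH12.GeomSub
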