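import Pool.Agent.LocH.TG
import Pool.Agent.LocH.TH
import Pool.Agent.LocH.Defs

/-!
# Package TI: the combinatorial subdivision of a geometric subdivision

`exists_sub`: let `C` be the fan of `exists_fan`. Put `car v = C.cr {v}` (the coordinates with `C.pos v c > 0`,
equivalently `v.1 c ≠ 0`, by `nn`; this is `carrier {v.1}` of `LH12/Defs.lean`), `Gam = C.Gam`. Then
`F.biUnion car = C.cr F`, `card_le` is `CFan.card_le`, `vert`: `{v.1} ∈ S.allFaces`: `v.1` lies in a face
(`vset`), so `{v.1}` is a face (`down_closed`). `S'.st W G j` is `(C.fam W G).filter (card = j)`. The four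
statements of `CFan.top` give `exact`, `const`, `cyc` (the number of the facets is `2`, and `2 = 0` in `K`)
and `ne` of `Sub.Top K` for every field `K` of characteristic `2` (`G ∈ S'.fcs W` means `G ∈ C.Gam`,
`C.cr G ⊆ W`).
`ell_eq`: `F ↦ F.map (subtype)` is a bijection from `S'.Gam` to `S.allFaces` (every face consists of elements
of `vset`) with `carrier (F.map _) = S'.cr F` and the same number of elements. So
`hPoly (S.restr W) W.card = S'.hW W`: group the faces of `Γ_W` by their number of elements `≤ W.card`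
(`card_le`). Then `localH` is the sum over all `W ⊆ univ`.
-/

set_option autoImplicit false

open Finset

namespace Pool.LH12.GeomSub

private lemma ti_mem {d : ℕ} (S : GeomSub d) {F : Finset (Fin d → ℝ)} :
    F ∈ S.allFaces ↔ F = ∅ ∨ F ∈ S.K.faces := by
  simp [allFaces]

private lemma ti_down {d : ℕ} (S : GeomSub d) {F G : Finset (Fin d → ℝ)} (hF : F ∈ S.allFaces)
    (hG : G ⊆ F) : G ∈ S.allFaces := by
  rw [ti_mem] at hF ⊢
  rcases G.eq_empty_or_nonempty with h | h
  · exact Or.inl h
  · rcases hF with rfl | hF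
    · exact Or.inl (Finset.subset_empty.1 hG)
    · exact Or.inr (S.K.down_closed hF hG h)

private lemma ti_vset {d : ℕ} (S : GeomSub d) {v : Fin d → ℝ} :
    v ∈ S.vset ↔ ∃ F ∈ S.allFaces, v ∈ F := by
  simp [vset]

/-- The combinatorial subdivision. -/
theorem exists_sub {d : ℕ} (S : GeomSub d) :
    ∃ S' : Pool.Agent.LocH.Sub {v // v ∈ S.vset} (Fin d),
      (∀ F : Finset {v // v ∈ S.vset}, F ∈ S'.Gam ↔
        F.map (Function.Embedding.subtype fun v => v ∈ S.vset) ∈ S.allFaces) ∧
      (∀ v, S'.car v = carrier {v.1}) ∧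
      ∀ (K : Type) [Field K] [CharP K 2], S'.Top K := by
  classical
  obtain ⟨C, hC, hpos⟩ := S.exists_fan
  have hcr : ∀ F : Finset {v // v ∈ S.vset}, F.biUnion (fun v => C.cr {v}) = C.cr F := by
    intro F
    ext c
    simp only [mem_biUnion, Pool.Agent.LocH.CFan.mem_cr, mem_singleton, exists_eq_left]
  let S' : Pool.Agent.LocH.Sub {v // v ∈ S.vset} (Fin d) :=
    { car := fun v => C.cr {v}
      Gam := C.Gam
      empty_mem := C.empty_mem
      down := C.down
      vert := fun v => by
        rw [hC, map_singleton]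
        obtain ⟨F, hF, hv⟩ := (ti_vset S).1 v.2
        exact ti_down S hF (singleton_subset_iff.2 hv)
      card_le := fun F hF => by
        rw [hcr]
        exact C.card_le F hF }
  have hcr' : ∀ F, S'.cr F = C.cr F := hcr
  have hst : ∀ (W : Finset (Fin d)) (G F : Finset {v // v ∈ S.vset}) (j : ℕ),
      F ∈ S'.st W G j ↔ F ∈ C.fam W G ∧ F.card = j := by
    intro W G F j
    rw [Pool.Agent.LocH.CFan.mem_fam]
    simp only [Pool.Agent.LocH.Sub.st, mem_filter, hcr']
    tauto
  have hfl : ∀ (W : Finset (Fin d)) (G τ : Finset {v // v ∈ S.vset}) (j : ℕ),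
      (S'.st W G j).filter (τ ⊆ ·) = (C.fam W G).filter (fun σ => τ ⊆ σ ∧ σ.card = j) := by
    intro W G τ j
    ext F
    rw [mem_filter, mem_filter, hst]
    tauto
  refine ⟨S', hC, fun v => ?_, fun K _ _ => ?_⟩
  · ext c
    have h1 : c ∈ S'.car v ↔ 0 < C.pos v c := by
      show c ∈ C.cr {v} ↔ _
      rw [Pool.Agent.LocH.CFan.mem_cr]
      simp only [mem_singleton, exists_eq_left]
    rw [h1, hpos]
    have h2 : 0 ≤ v.1 c := by
      have := C.nn v c
      rwa [hpos] at this
    simp only [carrier, mem_filter, mem_univ, true_and, mem_singleton, exists_eq_left]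
    exact ⟨fun h => h.ne', fun h => lt_of_le_of_ne h2 (Ne.symm h)⟩
  · have hG : ∀ {W : Finset (Fin d)} {G : Finset {v // v ∈ S.vset}}, G ∈ S'.fcs W →
        G ∈ C.Gam ∧ C.cr G ⊆ W := by
      intro W G h
      simp only [Pool.Agent.LocH.Sub.fcs, mem_filter, hcr'] at h
      exact h
    refine ⟨?_, ?_, ?_, ?_⟩
    · intro W G _ hGW j hj z hz
      obtain ⟨y, hy⟩ := (C.top W G (hG hGW).1 (hG hGW).2 (F := K)).1 j hj z (by
        intro k hk τ hτ hτk
        have h1 := hz k hk τ ((hst _ _ _ _).2 ⟨hτ, hτk⟩)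
        rw [hfl] at h1
        convert h1)
      refine ⟨y, fun σ hσ => ?_⟩
      rw [hst] at hσ
      rw [hfl, hy σ hσ.1 hσ.2]
    · intro W G _ hGW z hz σ hσ σ' hσ'
      rw [hst] at hσ hσ'
      refine (C.top W G (hG hGW).1 (hG hGW).2 (F := K)).2.1 z (by
        intro k hk τ hτ hτk
        have h1 := hz k hk τ ((hst _ _ _ _).2 ⟨hτ, hτk⟩)
        rw [hfl] at h1
        convert h1) σ hσ.1 σ' hσ'.1 hσ.2 hσ'.2
    · intro W G _ hGW k hk τ hτ
      rw [hst] at hτ
      rw [hfl, sum_const]
      have h1 := (C.top W G (hG hGW).1 (hG hGW).2 (F := K)).2.2.1 k hk τ hτ.1 hτ.2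
      have h2 : ((C.fam W G).filter (fun σ => τ ⊆ σ ∧ σ.card = W.card)).card = 2 := by
        convert h1
      rw [h2, nsmul_eq_mul, mul_one]
      exact CharP.cast_eq_zero K 2
    · intro W G _ hGW
      obtain ⟨σ, hσ, hσ'⟩ := (C.top W G (hG hGW).1 (hG hGW).2 (F := K)).2.2.2
      exact ⟨σ, (hst _ _ _ _).2 ⟨hσ, hσ'⟩⟩

/-- The local `h`-polynomial. -/
theorem ell_eq {d : ℕ} (S : GeomSub d) (S' : Pool.Agent.LocH.Sub {v // v ∈ S.vset} (Fin d))
    (h : ∀ F : Finset {v // v ∈ S.vset}, F ∈ S'.Gam ↔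
        F.map (Function.Embedding.subtype fun v => v ∈ S.vset) ∈ S.allFaces)
    (hc : ∀ v, S'.car v = carrier {v.1}) : S'.ell univ = S.localH := by
  classical
  set e := Function.Embedding.subtype fun v => v ∈ S.vset with he
  have hcar : ∀ F : Finset {v // v ∈ S.vset}, carrier (F.map e) = S'.cr F := by
    intro F
    ext c
    simp only [carrier, mem_filter, mem_univ, true_and, Pool.Agent.LocH.Sub.cr, mem_biUnion, hc,
      mem_singleton, exists_eq_left]
    constructor
    · rintro ⟨v, hv, hvc⟩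
      obtain ⟨w, hw, rfl⟩ := mem_map.1 hv
      exact ⟨w, hw, hvc⟩
    · rintro ⟨w, hw, hvc⟩
      exact ⟨w.1, mem_map.2 ⟨w, hw, rfl⟩, hvc⟩
  have hres : ∀ W : Finset (Fin d),
      S.restr W = (S'.fcs W).map (Finset.mapEmbedding e).toEmbedding := by
    intro W
    ext F
    simp only [restr, mem_filter, mem_map, Pool.Agent.LocH.Sub.fcs,
      RelEmbedding.coe_toEmbedding, Finset.mapEmbedding_apply]
    constructor
    · rintro ⟨h1, h2⟩
      have hsub : (F.subtype fun v => v ∈ S.vset).map e = F := by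
        rw [he, subtype_map]
        exact filter_true_of_mem fun v hv => (ti_vset S).2 ⟨F, h1, hv⟩
      refine ⟨F.subtype fun v => v ∈ S.vset, ⟨?_, ?_⟩, hsub⟩
      · rw [h, hsub]
        exact h1
      · rw [← hcar, hsub]
        exact h2
    · rintro ⟨F', ⟨h1, h2⟩, rfl⟩
      exact ⟨(h F').1 h1, by rw [hcar]; exact h2⟩
  have hP : ∀ W : Finset (Fin d), hPoly (S.restr W) W.card = S'.hW W := by
    intro W
    have hle : ∀ F ∈ S.restr W, F.card ∈ range (W.card + 1) := by
      intro F hF
      rw [hres, mem_map] at hF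
      obtain ⟨F', hF', rfl⟩ := hF
      simp only [Pool.Agent.LocH.Sub.fcs, mem_filter] at hF'
      rw [mem_range, Nat.lt_succ_iff]
      simp only [RelEmbedding.coe_toEmbedding, Finset.mapEmbedding_apply, card_map]
      exact (S'.card_le F' hF'.1).trans (card_le_card hF'.2)
    have h1 : hPoly (S.restr W) W.card = ∑ F ∈ S.restr W,
        (Polynomial.X : Polynomial ℤ) ^ F.card * (1 - Polynomial.X) ^ (W.card - F.card) := by
      rw [← sum_fiberwise_of_maps_to hle, hPoly]
      refine sum_congr rfl fun i _ => ?_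
      rw [sum_congr rfl (g := fun _ => (Polynomial.X : Polynomial ℤ) ^ i *
        (1 - Polynomial.X) ^ (W.card - i)) (fun F hF => by rw [(mem_filter.1 hF).2]), sum_const,
        nsmul_eq_mul]
      simp
    rw [h1, hres, sum_map]
    simp only [RelEmbedding.coe_toEmbedding, Finset.mapEmbedding_apply, card_map]
    rfl
  unfold Pool.Agent.LocH.Sub.ell localH
  rw [powerset_univ]
  refine sum_congr rfl fun W _ => ?_
  rw [hP, card_univ, Fintype.card_fin]

end Pool.LH12.GeomSub
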