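import Mathlib

/-!
# Sign vectors of a finite family of linear functionals: definitions

`l i`, `i : ι`, are finitely many linear functionals on the finite dimensional real vector space `E`. The
sign vector of a point `x` is `sg l x : ι → SignType`. A pattern prescribes the signs `p i` for the `i` in
the finite set `P`. Everything here is elementary; no topology is used.
-/

set_option autoImplicit false

open Finset

namespace Pool.Agent.LocH.Sg

variable {E ι : Type} [AddCommGroup E] [Module ℝ E]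

/-- The sign vector of a point. -/
noncomputable def sg (l : ι → E →ₗ[ℝ] ℝ) (x : E) : ι → SignType := fun i => SignType.sign (l i x)

/-- The subspace spanned by the cell with sign vector `s`. -/
def ks (l : ι → E →ₗ[ℝ] ℝ) (s : ι → SignType) : Submodule ℝ E where
  carrier := {x | ∀ i, s i = 0 → l i x = 0}
  zero_mem' := fun i _ => map_zero (l i)
  add_mem' := fun {x y} hx hy i hi => by rw [map_add, hx i hi, hy i hi, add_zero]
  smul_mem' := fun r x hx i hi => by rw [map_smul, hx i hi, smul_zero]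

lemma mem_ks {l : ι → E →ₗ[ℝ] ℝ} {s : ι → SignType} {x : E} :
    x ∈ ks l s ↔ ∀ i, s i = 0 → l i x = 0 := Iff.rfl

/-- The dimension of a sign vector. -/
noncomputable def dm (l : ι → E →ₗ[ℝ] ℝ) (s : ι → SignType) : ℕ := Module.finrank ℝ (ks l s)

/-- The points with the prescribed signs. -/
def OP (l : ι → E →ₗ[ℝ] ℝ) (P : Finset ι) (p : ι → SignType) : Set E :=
  {x | ∀ i ∈ P, SignType.sign (l i x) = p i}

/-- The subspace spanned by the points with the prescribed signs. -/
def kp (l : ι → E →ₗ[ℝ] ℝ) (P : Finset ι) (p : ι → SignType) : Submodule ℝ E where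
  carrier := {x | ∀ i ∈ P, p i = 0 → l i x = 0}
  zero_mem' := fun i _ _ => map_zero (l i)
  add_mem' := fun {x y} hx hy i hi h => by rw [map_add, hx i hi h, hy i hi h, add_zero]
  smul_mem' := fun r x hx i hi h => by rw [map_smul, hx i hi h, smul_zero]

lemma mem_kp {l : ι → E →ₗ[ℝ] ℝ} {P : Finset ι} {p : ι → SignType} {x : E} :
    x ∈ kp l P p ↔ ∀ i ∈ P, p i = 0 → l i x = 0 := Iff.rfl

/-- The dimension of a pattern. -/
noncomputable def dp (l : ι → E →ₗ[ℝ] ℝ) (P : Finset ι) (p : ι → SignType) : ℕ :=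
  Module.finrank ℝ (kp l P p)

/-- `s` is the sign vector of a point. -/
def Rz (l : ι → E →ₗ[ℝ] ℝ) (s : ι → SignType) : Prop := ∃ x, sg l x = s

/-- The cells of a pattern. -/
def Cell (l : ι → E →ₗ[ℝ] ℝ) (P : Finset ι) (p s : ι → SignType) : Prop :=
  Rz l s ∧ ∀ i ∈ P, s i = p i

/-- The cell `s` is a face of the cell `s'`. -/
def sle (s s' : ι → SignType) : Prop := ∀ i, s i = 0 ∨ s i = s' i

open Classical in
/-- The cells of the pattern that contain `s` and have one dimension more. -/
noncomputable def up [Fintype ι] (l : ι → E →ₗ[ℝ] ℝ) (P : Finset ι) (p s : ι → SignType) :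
    Finset (ι → SignType) :=
  univ.filter fun s' => Cell l P p s' ∧ sle s s' ∧ dm l s' = dm l s + 1

open Classical in
/-- The sign vector of the points `x + ε u`, `x` in the cell `s`, `ε > 0` small. -/
noncomputable def tilt (l : ι → E →ₗ[ℝ] ℝ) (s : ι → SignType) (u : E) : ι → SignType := fun i =>
  if s i = 0 then SignType.sign (l i u) else s i

lemma mem_up [Fintype ι] {l : ι → E →ₗ[ℝ] ℝ} {P : Finset ι} {p s s' : ι → SignType} :
    s' ∈ up l P p s ↔ Cell l P p s' ∧ sle s s' ∧ dm l s' = dm l s + 1 := by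
  classical
  simp [up]

lemma sle_refl (s : ι → SignType) : sle s s := fun _ => Or.inr rfl

lemma sle_trans {s s' s'' : ι → SignType} (h : sle s s') (h' : sle s' s'') : sle s s'' := by
  intro i
  rcases h i with h1 | h1
  · exact Or.inl h1
  · rcases h' i with h2 | h2
    · exact Or.inl (h1.trans h2)
    · exact Or.inr (h1.trans h2)

lemma ks_mono {l : ι → E →ₗ[ℝ] ℝ} {s s' : ι → SignType} (h : sle s s') : ks l s ≤ ks l s' := by
  intro x hx i hi
  apply hx i
  rcases h i with h1 | h1
  · exact h1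
  · rw [h1, hi]

lemma cell_sg {l : ι → E →ₗ[ℝ] ℝ} {P : Finset ι} {p : ι → SignType} {x : E} (hx : x ∈ OP l P p) :
    Cell l P p (sg l x) := ⟨⟨x, rfl⟩, hx⟩

lemma mem_OP_of_cell {l : ι → E →ₗ[ℝ] ℝ} {P : Finset ι} {p : ι → SignType} {x : E}
    (h : Cell l P p (sg l x)) : x ∈ OP l P p := h.2

lemma ks_le_kp {l : ι → E →ₗ[ℝ] ℝ} {P : Finset ι} {p s : ι → SignType} (h : Cell l P p s) :
    ks l s ≤ kp l P p := by
  intro x hx i hi h0
  exact hx i ((h.2 i hi).trans h0)

lemma sg_mem_ks {l : ι → E →ₗ[ℝ] ℝ} {s : ι → SignType} {x : E} (h : sg l x = s) : x ∈ ks l s := by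
  intro i hi
  rw [← h] at hi
  exact sign_eq_zero_iff.1 hi

end Pool.Agent.LocH.Sg
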